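import Pool.Agent.H222.SP.PolyE

/-!
Uniform boundedness: qualitative estimates are quantitative.
-/

open MeasureTheory Set Filter Metric
open scoped ENNReal NNReal Topology

namespace Pool.Agent.H222.SP

variable {n : ℕ} {μ : Measure (E n)}

theorem Linf_bound (g : Lp ℂ ∞ μ) : ∀ᵐ ξ ∂μ, ‖(g : E n → ℂ) ξ‖ ≤ ‖g‖ := by
  have h1 := ae_le_eLpNormEssSup (f := (g : E n → ℂ)) (μ := μ)
  filter_upwards [h1] with ξ hξ
  have h2 : ‖g‖ = (eLpNormEssSup (g : E n → ℂ) μ).toReal := by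
    rw [Lp.norm_def, eLpNorm_exponent_top]
  have h3 : eLpNormEssSup (g : E n → ℂ) μ ≠ ∞ := by
    rw [← eLpNorm_exponent_top]; exact Lp.eLpNorm_ne_top g
  rw [h2, ← toReal_enorm]
  exact ENNReal.toReal_mono h3 hξ

theorem Linf_lint (g : Lp ℂ ∞ μ) :
    ∫⁻ ξ, ‖(g : E n → ℂ) ξ‖ₑ ∂μ ≤ ENNReal.ofReal ‖g‖ * μ univ := by
  rw [← lintegral_const]
  refine lintegral_mono_ae ?_
  filter_upwards [Linf_bound g] with ξ hξ
  rw [← ofReal_norm]
  exact ENNReal.ofReal_le_ofReal hξ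

theorem Linf_int [IsFiniteMeasure μ] (g : Lp ℂ ∞ μ) : Integrable (g : E n → ℂ) μ :=
  Integrable.of_bound (Lp.aestronglyMeasurable g) ‖g‖ (Linf_bound g)

/-- the local norms -/
theorem sn_bound {q : ℝ} (hq : 1 ≤ q) (k : ℕ) (g : Lp ℂ ∞ μ) :
    (NN μ q (BB n k) (g : E n → ℂ)) ^ (1 / q) ≤
      ENNReal.ofReal ‖g‖ * (μ univ * volume (BB n k) ^ (1 / q)) := by
  have hq0 : 0 < q := by linarith
  refine (ENNReal.rpow_le_rpow (NN_triv hq0.le (BB n k) _ (Linf_lint g)) (by positivity)).trans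
    (le_of_eq ?_)
  rw [ENNReal.mul_rpow_of_nonneg _ _ (by positivity), ← ENNReal.rpow_mul,
    mul_one_div_cancel hq0.ne', ENNReal.rpow_one, mul_assoc]

theorem sn_ne_top [IsFiniteMeasure μ] {q : ℝ} (hq : 1 ≤ q) (k : ℕ) (g : Lp ℂ ∞ μ) :
    (NN μ q (BB n k) (g : E n → ℂ)) ^ (1 / q) ≠ ∞ :=
  ne_top_of_le_ne_top (ENNReal.mul_ne_top ENNReal.ofReal_ne_top (ENNReal.mul_ne_top
    (measure_ne_top μ univ) (ENNReal.rpow_ne_top_of_nonneg (by positivity)
      measure_closedBall_lt_top.ne))) (sn_bound hq k g)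

/-- the local norms as seminorms -/
noncomputable def sn [IsFiniteMeasure μ] {q : ℝ} (hq : 1 ≤ q) (k : ℕ) : Seminorm ℂ (Lp ℂ ∞ μ) :=
  Seminorm.of (fun g => ((NN μ q (BB n k) (g : E n → ℂ)) ^ (1 / q)).toReal)
    (fun g h => by
      rw [← ENNReal.toReal_add (sn_ne_top hq k g) (sn_ne_top hq k h)]
      refine ENNReal.toReal_mono (ENNReal.add_ne_top.2 ⟨sn_ne_top hq k g, sn_ne_top hq k h⟩) ?_
      rw [NN_congr (Lp.coeFn_add g h)]
      exact NN_add hq (BB n k) (Linf_int g) (Linf_int h))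
    (fun a g => by
      have hq0 : 0 < q := by linarith
      have e1 : NN μ q (BB n k) ((a • g : Lp ℂ ∞ μ) : E n → ℂ) =
          ‖a‖ₑ ^ q * NN μ q (BB n k) (g : E n → ℂ) := by
        rw [NN_congr (Lp.coeFn_smul a g), ← NN_smul hq0.le]
        rfl
      rw [e1, ENNReal.mul_rpow_of_nonneg _ _ (by positivity), ← ENNReal.rpow_mul,
        mul_one_div_cancel hq0.ne', ENNReal.rpow_one, ENNReal.toReal_mul, toReal_enorm])

theorem sn_apply [IsFiniteMeasure μ] {q : ℝ} (hq : 1 ≤ q) (k : ℕ) (g : Lp ℂ ∞ μ) :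
    sn hq k g = ((NN μ q (BB n k) (g : E n → ℂ)) ^ (1 / q)).toReal := rfl

theorem sn_cont [IsFiniteMeasure μ] {q : ℝ} (hq : 1 ≤ q) (k : ℕ) :
    Continuous (sn (μ := μ) hq k) := by
  set C : ℝ≥0 := (μ univ * volume (BB n k) ^ (1 / q)).toNNReal with hC
  have hCt : μ univ * volume (BB n k) ^ (1 / q) ≠ ∞ := ENNReal.mul_ne_top
    (measure_ne_top μ univ) (ENNReal.rpow_ne_top_of_nonneg (by positivity)
      measure_closedBall_lt_top.ne)
  have hle : sn (μ := μ) hq k ≤ C • normSeminorm ℂ (Lp ℂ ∞ μ) := fun g => by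
    rw [sn_apply]
    have h1 := ENNReal.toReal_mono (ENNReal.mul_ne_top ENNReal.ofReal_ne_top hCt) (sn_bound hq k g)
    refine h1.trans (le_of_eq ?_)
    rw [ENNReal.toReal_mul, ENNReal.toReal_ofReal (norm_nonneg _), mul_comm]
    rfl
  refine Seminorm.continuous_of_le ?_ hle
  show Continuous fun g : Lp ℂ ∞ μ => C • ‖g‖
  exact continuous_norm.const_smul C

theorem lint_balls (F : E n → ℝ≥0∞) {C : ℝ≥0∞} (h : ∀ k : ℕ, ∫⁻ x in BB n k, F x ≤ C) :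
    ∫⁻ x, F x ≤ C := by
  have hU : (⋃ k : ℕ, BB n k) = univ := by
    refine eq_univ_of_forall fun x => ?_
    obtain ⟨k, hk⟩ := exists_nat_ge ‖x‖
    exact mem_iUnion.2 ⟨k, mem_closedBall_zero_iff.2 hk⟩
  have hd : Directed (· ⊆ ·) fun k : ℕ => BB n (k : ℝ) :=
    (monotone_nat_of_le_succ fun k => closedBall_subset_closedBall (by push_cast; linarith)).directed_le
  rw [← setLIntegral_univ, ← hU, setLIntegral_iUnion_of_directed _ hd]
  exact iSup_le h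

/-- **uniform boundedness** -/
theorem GE_of_qual [IsFiniteMeasure μ] {q : ℝ} (hq : 1 ≤ q)
    (h : ∀ f : E n → ℂ, Measurable f → (∀ ξ, ‖f ξ‖ ≤ 1) → ∫⁻ x, ‖TT μ f x‖ₑ ^ q < ∞) :
    GE μ q := by
  have hq0 : 0 < q := by linarith
  have hfin : ∀ g : Lp ℂ ∞ μ, ∫⁻ x, ‖TT μ (g : E n → ℂ) x‖ₑ ^ q < ∞ := fun g => by
    -- a bounded representative
    set M : ℝ := ‖g‖ + 1 with hM
    have hM0 : 0 < M := by positivity
    have hgm := (Lp.aestronglyMeasurable g).measurable_mk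
    set g' : E n → ℂ := (Lp.aestronglyMeasurable g).mk g with hg'
    have hgg : (g : E n → ℂ) =ᵐ[μ] g' := (Lp.aestronglyMeasurable g).ae_eq_mk
    set f : E n → ℂ := {ξ | ‖g' ξ‖ ≤ M}.indicator fun ξ => (M : ℂ)⁻¹ * g' ξ with hf
    have hset : MeasurableSet {ξ | ‖g' ξ‖ ≤ M} := measurableSet_le hgm.norm measurable_const
    have hfm : Measurable f := (hgm.const_mul _).indicator hset
    have hf1 : ∀ ξ, ‖f ξ‖ ≤ 1 := fun ξ => by
      by_cases hξ : ξ ∈ {ξ | ‖g' ξ‖ ≤ M}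
      · rw [hf, indicator_of_mem hξ, norm_mul, norm_inv, Complex.norm_real,
          Real.norm_of_nonneg hM0.le, inv_mul_le_iff₀ hM0, mul_one]
        exact hξ
      · rw [hf, indicator_of_notMem hξ, norm_zero]; exact zero_le_one
    have hgf : (g : E n → ℂ) =ᵐ[μ] fun ξ => (M : ℂ) * f ξ := by
      filter_upwards [hgg, Linf_bound g] with ξ h1 h2
      have h3 : ξ ∈ {ξ | ‖g' ξ‖ ≤ M} := by
        show ‖g' ξ‖ ≤ M
        rw [← h1]
        linarith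
      rw [hf, indicator_of_mem h3, ← mul_assoc, mul_inv_cancel₀ (by exact_mod_cast hM0.ne'),
        one_mul, h1]
    rw [TT_congr hgf]
    have h4 := h f hfm hf1
    have h5 : ∀ x, ‖TT μ (fun ξ => (M : ℂ) * f ξ) x‖ₑ ^ q = ‖(M : ℂ)‖ₑ ^ q * ‖TT μ f x‖ₑ ^ q :=
      fun x => by rw [TT_smul, enorm_mul, ENNReal.mul_rpow_of_nonneg _ _ hq0.le]
    simp only [h5]
    rw [lintegral_const_mul' _ _ (ENNReal.rpow_ne_top_of_nonneg hq0.le enorm_ne_top)]
    exact ENNReal.mul_lt_top (ENNReal.rpow_lt_top_of_nonneg hq0.le enorm_ne_top) h4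
  have hbdd : BddAbove (range fun k : ℕ => sn (μ := μ) hq k) := by
    rw [Seminorm.bddAbove_range_iff]
    intro g
    refine ⟨((∫⁻ x, ‖TT μ (g : E n → ℂ) x‖ₑ ^ q) ^ (1 / q)).toReal, ?_⟩
    rintro _ ⟨k, rfl⟩
    simp only
    rw [sn_apply]
    refine ENNReal.toReal_mono (ENNReal.rpow_ne_top_of_nonneg (by positivity) (hfin g).ne) ?_
    exact ENNReal.rpow_le_rpow (setLIntegral_le_lintegral _ _) (by positivity)
  have hcont := Seminorm.continuous_iSup (fun k : ℕ => sn (μ := μ) hq k) (sn_cont hq) hbdd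
  have hcont' : Continuous (⨆ k : ℕ, sn (μ := μ) hq k : Seminorm ℂ (Lp ℂ ∞ μ)) := by
    rw [Seminorm.coe_iSup_eq hbdd]; exact hcont
  obtain ⟨C, hC0, hC⟩ := Seminorm.bound_of_continuous_normedSpace _ hcont'
  refine ⟨(ENNReal.ofReal C ^ q).toNNReal, fun f hf hf1 => ?_⟩
  rw [ENNReal.coe_toNNReal (ENNReal.rpow_ne_top_of_nonneg hq0.le ENNReal.ofReal_ne_top)]
  have hfL : MemLp f ∞ μ := memLp_top_of_bound hf.aestronglyMeasurable 1 (Eventually.of_forall hf1)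
  set g : Lp ℂ ∞ μ := hfL.toLp f with hg
  have hg1 : ‖g‖ ≤ 1 := by
    rw [hg, Lp.norm_toLp, eLpNorm_exponent_top]
    refine ENNReal.toReal_le_of_le_ofReal zero_le_one ?_
    exact eLpNormEssSup_le_of_ae_bound (Eventually.of_forall hf1)
  have hgf : (g : E n → ℂ) =ᵐ[μ] f := hfL.coeFn_toLp
  refine lint_balls _ fun k => ?_
  show NN μ q (BB n k) f ≤ _
  rw [← NN_congr hgf]
  have h1 : sn (μ := μ) hq k g ≤ C := by
    have h2 := hC g
    rw [Seminorm.iSup_apply hbdd] at h2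
    have h3 : sn (μ := μ) hq k g ≤ ⨆ k : ℕ, sn (μ := μ) hq k g :=
      le_ciSup (Seminorm.bddAbove_range_iff.1 hbdd g) k
    calc sn (μ := μ) hq k g ≤ C * ‖g‖ := h3.trans h2
      _ ≤ C * 1 := by gcongr
      _ = C := mul_one _
  rw [sn_apply] at h1
  have h2 : (NN μ q (BB n k) (g : E n → ℂ)) ^ (1 / q) ≤ ENNReal.ofReal C := by
    rw [← ENNReal.ofReal_toReal (sn_ne_top hq k g)]
    exact ENNReal.ofReal_le_ofReal h1
  calc NN μ q (BB n k) (g : E n → ℂ) = ((NN μ q (BB n k) (g : E n → ℂ)) ^ (1 / q)) ^ q := by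
        rw [← ENNReal.rpow_mul, one_div_mul_cancel hq0.ne', ENNReal.rpow_one]
    _ ≤ _ := ENNReal.rpow_le_rpow h2 hq0.le

end Pool.Agent.H222.SP
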