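import Pool.Agent.H222.SP.PolyE

/-!
Bounds for the polynomial kernels on a complex polydisc.
-/

open MeasureTheory Set Filter Metric
open scoped ENNReal NNReal Topology

namespace Pool.Agent.H222.SP

variable {n : ℕ} {μ : Measure (E n)}

/-- polynomials with variable coefficients at complex points -/
noncomputable def evc (η : E n) : C(E n, ℝ) →+* ℂ := Complex.ofRealHom.comp (evh η)

theorem evc_apply (η : E n) (f : C(E n, ℝ)) : evc η f = (f η : ℂ) := rfl

/-- averages of polynomials with variable coefficients, at real and at complex points -/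
theorem poly_intC [IsFiniteMeasure μ] (hsupp : Sup μ) (Q : MvPolynomial (Fin n) C(E n, ℝ))
    {u : E n → ℝ} (hu : Measurable u) {b : ℝ} (hu1 : ∀ᵐ ξ ∂μ, ‖u ξ‖ ≤ b) :
    ∃ P : MvPolynomial (Fin n) ℝ,
      (∀ ξ : E n, ev P ξ = ∫ η, u η * MvPolynomial.eval₂ (evh η) (fun i => ξ i) Q ∂μ) ∧
      ∀ z : Fin n → ℂ, MvPolynomial.aeval z P =
        ∫ η, (u η : ℂ) * MvPolynomial.eval₂ (evc η) z Q ∂μ := by
  have hint : ∀ f : C(E n, ℝ), Integrable (fun η => u η * f η) μ := fun f => by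
    obtain ⟨M, hM⟩ := (isCompact_closedBall (0 : E n) 1).exists_bound_of_continuousOn
      f.continuous.continuousOn
    refine Integrable.of_bound (hu.mul f.continuous.measurable).aestronglyMeasurable (b * M) ?_
    filter_upwards [hsupp, hu1] with η hη hη1
    rw [norm_mul]
    have h1 := hM η hη
    have h2 := norm_nonneg (u η)
    have h3 := norm_nonneg (f η)
    exact mul_le_mul hη1 h1 h3 (h2.trans hη1)
  refine ⟨∑ α ∈ Q.support, MvPolynomial.monomial α (∫ η, u η * (Q.coeff α) η ∂μ), fun ξ => ?_,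
    fun z => ?_⟩
  · have h1 : ∀ η, u η * MvPolynomial.eval₂ (evh η) (fun i => ξ i) Q =
        ∑ α ∈ Q.support, (u η * (Q.coeff α) η) * ∏ i, ξ i ^ α i := fun η => by
      rw [MvPolynomial.eval₂_eq', Finset.mul_sum]
      refine Finset.sum_congr rfl fun α _ => ?_
      rw [evh_apply]
      ring
    simp only [h1]
    rw [integral_finsetSum _ fun α _ => (hint _).mul_const _]
    unfold ev
    rw [map_sum]
    refine Finset.sum_congr rfl fun α _ => ?_
    rw [MvPolynomial.eval_monomial, integral_mul_const, Finsupp.prod_fintype]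
    intro i
    exact pow_zero _
  · have h1 : ∀ η, (u η : ℂ) * MvPolynomial.eval₂ (evc η) z Q =
        ∑ α ∈ Q.support, ((u η * (Q.coeff α) η : ℝ) : ℂ) * ∏ i, z i ^ α i := fun η => by
      rw [MvPolynomial.eval₂_eq', Finset.mul_sum]
      refine Finset.sum_congr rfl fun α _ => ?_
      rw [evc_apply]
      push_cast
      ring
    simp only [h1]
    rw [integral_finsetSum _ fun α _ => (hint _).ofReal.mul_const _, map_sum]
    refine Finset.sum_congr rfl fun α _ => ?_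
    rw [MvPolynomial.aeval_monomial, integral_mul_const, integral_complex_ofReal,
      Finsupp.prod_fintype]
    · rfl
    · intro i
      exact pow_zero _

theorem base_evc (A : ℝ) (z : Fin n → ℂ) (η : E n) :
    MvPolynomial.eval₂ (evc η) z (base n A) =
      1 + (A : ℂ) ^ 2 - 1 / 4 * ∑ i, (z i - (η i : ℂ)) ^ 2 := by
  have h1 : MvPolynomial.eval₂ (evc η) z (base n A) =
      MvPolynomial.eval₂Hom (evc η) z (base n A) := rfl
  rw [h1, base, map_sub, map_mul, map_sum]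
  simp only [map_pow, map_sub, MvPolynomial.eval₂Hom_C, MvPolynomial.eval₂Hom_X']
  rw [evc_apply, evc_apply, ContinuousMap.const_apply, ContinuousMap.const_apply]
  have h2 : ∀ i, evc η ⟨fun η : E n => η i, by fun_prop⟩ = (η i : ℂ) := fun i => rfl
  simp only [h2]
  push_cast
  ring

theorem kpol_evc (m : ℕ) (A : ℝ) (z : Fin n → ℂ) (η : E n) :
    MvPolynomial.eval₂ (evc η) z (kpol n m A) =
      (Polynomial.Chebyshev.T ℂ m).eval (1 + (A : ℂ) ^ 2 - 1 / 4 * ∑ i, (z i - (η i : ℂ)) ^ 2) := by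
  have h1 : MvPolynomial.eval₂ (evc η) z (kpol n m A) =
      MvPolynomial.eval₂Hom (evc η) z (kpol n m A) := rfl
  rw [h1, kpol, Polynomial.hom_eval₂]
  have h2 : (MvPolynomial.eval₂Hom (evc η) z).comp
      (MvPolynomial.C.comp (algebraMap ℝ C(E n, ℝ))) = Complex.ofRealHom := by
    ext r
    simp [evc, evh]
  have h3 : MvPolynomial.eval₂Hom (evc η) z (base n A) =
      1 + (A : ℂ) ^ 2 - 1 / 4 * ∑ i, (z i - (η i : ℂ)) ^ 2 := base_evc A z η
  rw [h2, h3, ← Polynomial.eval_map, Polynomial.Chebyshev.map_T]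

/-- Chebyshev polynomials at complex points -/
theorem cheb_le {β : ℝ} (hβ : 1 ≤ β) {w : ℂ} (hw : ‖w‖ ≤ β) (m : ℕ) :
    ‖(Polynomial.Chebyshev.T ℂ m).eval w‖ ≤ (2 * β + 1) ^ m := by
  induction m using Nat.twoStepInduction with
  | zero => simp
  | one =>
    simp only [Nat.cast_one, Polynomial.Chebyshev.T_one, Polynomial.eval_X, pow_one]
    linarith
  | more m ih1 ih2 =>
    have h1 := Polynomial.Chebyshev.T_add_two ℂ m
    have h2 : ((m + 2 : ℕ) : ℤ) = (m : ℤ) + 2 := by push_cast; ring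
    rw [h2, h1, Polynomial.eval_sub, Polynomial.eval_mul, Polynomial.eval_mul,
      Polynomial.eval_ofNat, Polynomial.eval_X]
    have h3 : ((m + 1 : ℕ) : ℤ) = (m : ℤ) + 1 := by push_cast; ring
    rw [h3] at ih2
    have hY : 0 ≤ (2 * β + 1) ^ m := by positivity
    calc ‖2 * w * (Polynomial.Chebyshev.T ℂ (m + 1)).eval w - (Polynomial.Chebyshev.T ℂ m).eval w‖
        ≤ ‖2 * w * (Polynomial.Chebyshev.T ℂ (m + 1)).eval w‖ +
          ‖(Polynomial.Chebyshev.T ℂ m).eval w‖ := norm_sub_le _ _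
      _ = 2 * ‖w‖ * ‖(Polynomial.Chebyshev.T ℂ (m + 1)).eval w‖ +
          ‖(Polynomial.Chebyshev.T ℂ m).eval w‖ := by
          rw [norm_mul, norm_mul, Complex.norm_ofNat]
      _ ≤ 2 * β * (2 * β + 1) ^ (m + 1) + (2 * β + 1) ^ m := by gcongr
      _ ≤ (2 * β + 1) ^ (m + 2) := by
          rw [pow_succ, pow_succ, pow_succ]
          nlinarith

/-- the bound of the kernel on the polydisc -/
noncomputable def bet (n : ℕ) : ℝ := 2 * (2 + 9 / 4 * n) + 1

theorem bet_ge (n : ℕ) : 5 ≤ bet n := by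
  unfold bet
  have : (0 : ℝ) ≤ n := Nat.cast_nonneg n
  linarith

theorem kpol_le {A : ℝ} (hA0 : 0 ≤ A) (hA1 : A ≤ 1) (m : ℕ) {z : Fin n → ℂ} (hz : ∀ i, ‖z i‖ ≤ 2)
    {η : E n} (hη : ‖η‖ ≤ 1) : ‖MvPolynomial.eval₂ (evc η) z (kpol n m A)‖ ≤ bet n ^ m := by
  rw [kpol_evc]
  refine cheb_le (β := 2 + 9 / 4 * n) (by
    have : (0 : ℝ) ≤ n := Nat.cast_nonneg n
    linarith) ?_ m
  have h1 : ∀ i, ‖(z i - (η i : ℂ)) ^ 2‖ ≤ 9 := fun i => by
    rw [norm_pow]
    have h2 : ‖(η i : ℂ)‖ ≤ 1 := by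
      rw [Complex.norm_real]
      exact (PiLp.norm_apply_le η i).trans hη
    have h3 : ‖z i - (η i : ℂ)‖ ≤ 3 := (norm_sub_le _ _).trans (by linarith [hz i])
    nlinarith [norm_nonneg (z i - (η i : ℂ))]
  have h4 : ‖∑ i, (z i - (η i : ℂ)) ^ 2‖ ≤ 9 * n := by
    refine (norm_sum_le _ _).trans ((Finset.sum_le_sum fun i _ => h1 i).trans ?_)
    rw [Finset.sum_const, Finset.card_univ, Fintype.card_fin, nsmul_eq_mul]
    linarith
  have h5 : ‖(A : ℂ) ^ 2‖ ≤ 1 := by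
    rw [norm_pow, Complex.norm_real, Real.norm_of_nonneg hA0]
    nlinarith
  calc ‖1 + (A : ℂ) ^ 2 - 1 / 4 * ∑ i, (z i - (η i : ℂ)) ^ 2‖
      ≤ ‖1 + (A : ℂ) ^ 2‖ + ‖1 / 4 * ∑ i, (z i - (η i : ℂ)) ^ 2‖ := norm_sub_le _ _
    _ ≤ (‖(1 : ℂ)‖ + ‖(A : ℂ) ^ 2‖) + 1 / 4 * ‖∑ i, (z i - (η i : ℂ)) ^ 2‖ := by
        refine add_le_add (norm_add_le _ _) (le_of_eq ?_)
        rw [norm_mul]
        norm_num
    _ ≤ 2 + 9 / 4 * n := by
        rw [norm_one]
        linarith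

/-- polynomials bounded on the polydisc of radius two -/
def PD (n : ℕ) (Y : ℝ) (P : MvPolynomial (Fin n) ℝ) : Prop :=
  ∀ z : Fin n → ℂ, (∀ i, ‖z i‖ ≤ 2) → ‖MvPolynomial.aeval z P‖ ≤ Y

/-- averages of real functions are close to polynomials which are bounded on the polydisc -/
theorem avg_nearC [IsFiniteMeasure μ] (hS : Sph μ) {m : ℕ} {A : ℝ} (hA0 : 0 ≤ A) (hA1 : A ≤ 1)
    {y : E n}
    (hZ : 0 < ZZ μ m A y) {u : E n → ℝ} (hu : Measurable u) (hu1 : ∀ᵐ ξ ∂μ, ‖u ξ‖ ≤ 1) :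
    ∃ P : MvPolynomial (Fin n) ℝ, PD n (μ.real univ / ZZ μ m A y * bet n ^ m) P ∧
      ∀ ξ : E n, ‖ξ‖ = 1 →
      |ev P ξ - ∫ η, u η * KS μ m A y ξ η ∂μ| ≤ μ.real univ / ZZ μ m A y := by
  obtain ⟨P₀, hP₀ev, hP₀c⟩ := poly_intC hS.sup (kpol n m A) hu hu1
  simp only [kpol_ev] at hP₀ev
  refine ⟨MvPolynomial.C (ZZ μ m A y)⁻¹ * P₀, fun z hz => ?_, fun ξ hξ => ?_⟩
  · rw [map_mul, MvPolynomial.aeval_C, norm_mul, hP₀c]
    have h1 : ‖(algebraMap ℝ ℂ) (ZZ μ m A y)⁻¹‖ = (ZZ μ m A y)⁻¹ := by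
      rw [Complex.coe_algebraMap, Complex.norm_real, norm_inv, Real.norm_of_nonneg hZ.le]
    rw [h1]
    have h2 : ‖∫ η, (u η : ℂ) * MvPolynomial.eval₂ (evc η) z (kpol n m A) ∂μ‖ ≤
        ∫ _η : E n, bet n ^ m ∂μ := by
      refine norm_integral_le_of_norm_le (integrable_const _) ?_
      filter_upwards [hS.ae, hu1] with η hη hη1
      rw [norm_mul, Complex.norm_real]
      calc ‖u η‖ * ‖MvPolynomial.eval₂ (evc η) z (kpol n m A)‖ ≤ 1 * bet n ^ m :=
            mul_le_mul hη1 (kpol_le hA0 hA1 m hz hη.le) (norm_nonneg _) zero_le_one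
        _ = _ := one_mul _
    rw [integral_const, smul_eq_mul] at h2
    calc (ZZ μ m A y)⁻¹ * ‖∫ η, (u η : ℂ) * MvPolynomial.eval₂ (evc η) z (kpol n m A) ∂μ‖
        ≤ (ZZ μ m A y)⁻¹ * (μ.real univ * bet n ^ m) := by gcongr
      _ = _ := by rw [div_eq_mul_inv]; ring
  have h2 : ev (MvPolynomial.C (ZZ μ m A y)⁻¹ * P₀) ξ =
      ∫ η, (ZZ μ m A y)⁻¹ * (u η * kk m A (ξ - η)) ∂μ := by
    rw [ev_C_mul, hP₀ev, integral_const_mul]
  have hi1 : Integrable (fun η => (ZZ μ m A y)⁻¹ * (u η * kk m A (ξ - η))) μ := by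
    refine Integrable.const_mul ?_ _
    obtain ⟨M', hM'⟩ := (isCompact_closedBall (0 : E n) 1).exists_bound_of_continuousOn
      (f := fun η => kk m A (ξ - η)) ((kk_cont m A).comp (by fun_prop)).continuousOn
    have h5 : Measurable fun η => kk m A (ξ - η) := ((kk_cont m A).comp (by fun_prop)).measurable
    refine Integrable.of_bound (hu.mul h5).aestronglyMeasurable (1 * M') ?_
    filter_upwards [hS.sup, hu1] with η hη hη1
    rw [norm_mul]
    exact mul_le_mul hη1 (hM' η hη) (norm_nonneg _) zero_le_one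
  have hi2 : Integrable (fun η => u η * KS μ m A y ξ η) μ := by
    have h6 : Integrable (fun η => KS μ m A y ξ η) μ := (kappa_int m A ξ).div_const _
    exact (h6.bdd_mul (c := 1) hu.aestronglyMeasurable hu1)
  rw [h2, ← integral_sub hi1 hi2, ← Real.norm_eq_abs]
  have h7 : ∫ _η : E n, (ZZ μ m A y)⁻¹ ∂μ = μ.real univ / ZZ μ m A y := by
    rw [integral_const, smul_eq_mul]
    rfl
  rw [← h7]
  refine norm_integral_le_of_norm_le (integrable_const _) ?_
  filter_upwards [hS.ae, hu1] with η hη hη1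
  have hle1 : ‖ξ - η‖ ≤ 2 := (norm_sub_le _ _).trans (by rw [hξ, hη]; norm_num)
  have e0 : (ZZ μ m A y)⁻¹ * (u η * kk m A (ξ - η)) - u η * KS μ m A y ξ η =
      (ZZ μ m A y)⁻¹ * (u η * (kk m A (ξ - η) - kappa m A (ξ - η))) := by
    unfold KS
    rw [div_eq_mul_inv]
    ring
  have e1 : |kk m A (ξ - η) - kappa m A (ξ - η)| ≤ 1 := by
    unfold kappa
    by_cases hB : ξ - η ∈ closedBall (0 : E n) (2 * A)
    · rw [indicator_of_mem hB, sub_self, abs_zero]; exact zero_le_one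
    · rw [indicator_of_notMem hB, sub_zero]
      rw [mem_closedBall_zero_iff, not_le] at hB
      exact kk_small hA0 hB.le hle1
  rw [e0, norm_mul, norm_mul, norm_inv, Real.norm_of_nonneg hZ.le, Real.norm_eq_abs,
    Real.norm_eq_abs]
  rw [Real.norm_eq_abs] at hη1
  calc (ZZ μ m A y)⁻¹ * (|u η| * |kk m A (ξ - η) - kappa m A (ξ - η)|)
      ≤ (ZZ μ m A y)⁻¹ * (1 * 1) := by gcongr
    _ = _ := by ring

end Pool.Agent.H222.SP
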