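import Pool.Agent.H222.SP.An1

/-!
From phases with a holomorphic extension to bounded functions on the sphere.
-/

open MeasureTheory Set Filter Metric
open scoped ENNReal NNReal Topology

namespace Pool.Agent.H222.SP

variable {n : ℕ} {μ : Measure (E n)}

theorem PD.scale {Y s c : ℝ} {P : MvPolynomial (Fin n) ℝ} (hP : PD n Y P) (hc : |c| = s) :
    PD n (s * Y) (MvPolynomial.C c * P) := fun z hz => by
  rw [map_mul, MvPolynomial.aeval_C, norm_mul, Complex.coe_algebraMap, Complex.norm_real,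
    Real.norm_eq_abs, hc]
  exact mul_le_mul_of_nonneg_left (hP z hz) (by rw [← hc]; exact abs_nonneg c)

/-- the estimate with a power of the logarithm for the phases `R P`, `P` a real polynomial bounded
by one on the complex polydisc of radius two -/
def AL (μ : Measure (E n)) (U : Set (E n)) (q τ : ℝ) : Prop :=
  ∃ C : ℝ≥0, ∀ P : MvPolynomial (Fin n) ℝ, PD n 1 P → ∀ R : ℝ, 3 ≤ R →
    NN μ q (BB n (Real.log R)) (uni U (ev P) R) ≤ C * ENNReal.ofReal (Real.log R ^ τ)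

/-- the sine as a difference of two exponentials -/
theorem sin_partC [IsFiniteMeasure μ] {U : Set (E n)} (hU : MeasurableSet U) {q s Y : ℝ}
    (hq : 1 ≤ q) (hs : 0 < s) {B : Set (E n)} {L : ℝ≥0∞}
    (hL : ∀ P : MvPolynomial (Fin n) ℝ, PD n (s * Y) P → (∀ ξ ∈ U, |ev P ξ| ≤ 2 * s) →
      NN μ q B (uni U (ev P) 1) ≤ L)
    {P : MvPolynomial (Fin n) ℝ} (hP : PD n Y P) (hPle : ∀ ξ ∈ U, |ev P ξ| ≤ 2) :
    NN μ q B (fun ξ => (1 / (2 * s * Complex.I)) * (uni U (ev P) s ξ - uni U (ev P) (-s) ξ)) ≤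
      ENNReal.ofReal s⁻¹ ^ q * L := by
  have hq0 : 0 < q := by linarith
  have hPm : Measurable (ev P) := (ev_cont _).measurable
  have h1 : ∀ c : ℝ, |c| = s → NN μ q B (uni U (ev P) c) ≤ L := fun c hc => by
    have e2 : uni U (ev P) c = uni U (ev (MvPolynomial.C c * P)) 1 := by
      unfold uni
      congr 1
      funext ξ
      rw [ev_C_mul c, one_mul]
    rw [e2]
    refine hL _ (PD.scale hP hc) fun ξ hξ => ?_
    rw [ev_C_mul, abs_mul, hc, mul_comm]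
    exact mul_le_mul_of_nonneg_right (hPle ξ hξ) hs.le
  rw [NN_smul hq0.le]
  have h2 := NN_add' (μ := μ) hq B (uni_int hU hPm s) ((uni_int hU hPm (-s)).const_mul (-1))
  rw [NN_smul hq0.le] at h2
  have h3 : ‖(-1 : ℂ)‖ₑ ^ q = 1 := by rw [enorm_neg, enorm_one, ENNReal.one_rpow]
  rw [h3, one_mul] at h2
  have h4 : (fun ξ => uni U (ev P) s ξ + -1 * uni U (ev P) (-s) ξ) =
      fun ξ => uni U (ev P) s ξ - uni U (ev P) (-s) ξ := by
    funext ξ; ring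
  rw [h4] at h2
  have h5 : ‖(1 / (2 * s * Complex.I) : ℂ)‖ₑ = ENNReal.ofReal (2⁻¹ * s⁻¹) := by
    rw [← ofReal_norm]
    congr 1
    rw [norm_div, norm_mul, norm_mul, Complex.norm_I, norm_one, Complex.norm_real,
      Real.norm_of_nonneg hs.le, Complex.norm_ofNat, mul_one, one_div, mul_inv]
  rw [h5, ENNReal.ofReal_mul (by norm_num), ENNReal.mul_rpow_of_nonneg _ _ hq0.le]
  calc ENNReal.ofReal 2⁻¹ ^ q * ENNReal.ofReal s⁻¹ ^ q *
        NN μ q B (fun ξ => uni U (ev P) s ξ - uni U (ev P) (-s) ξ)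
      ≤ ENNReal.ofReal 2⁻¹ ^ q * ENNReal.ofReal s⁻¹ ^ q * (2 ^ (q - 1) * (L + L)) := by
        refine mul_le_mul' le_rfl (h2.trans (mul_le_mul' le_rfl (add_le_add ?_ ?_)))
        · exact h1 s (abs_of_pos hs)
        · exact h1 (-s) (by rw [abs_neg, abs_of_pos hs])
    _ = (ENNReal.ofReal 2⁻¹ ^ q * (2 ^ (q - 1) * 2)) * (ENNReal.ofReal s⁻¹ ^ q * L) := by ring
    _ = 1 * (ENNReal.ofReal s⁻¹ ^ q * L) := by
        congr 1
        have e1 : (2 : ℝ≥0∞) ^ (q - 1) * 2 = 2 ^ q := by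
          calc (2 : ℝ≥0∞) ^ (q - 1) * 2 = 2 ^ (q - 1) * 2 ^ (1 : ℝ) := by rw [ENNReal.rpow_one]
            _ = 2 ^ q := by
                rw [← ENNReal.rpow_add_of_nonneg _ _ (by linarith) zero_le_one]
                congr 1; ring
        rw [e1, ← ENNReal.mul_rpow_of_nonneg _ _ hq0.le]
        have e2 : ENNReal.ofReal 2⁻¹ * 2 = 1 := by
          rw [ENNReal.ofReal_inv_of_pos (by norm_num), ENNReal.ofReal_ofNat]
          exact ENNReal.inv_mul_cancel (by norm_num) (by norm_num)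
        rw [e2, ENNReal.one_rpow]
    _ = _ := one_mul _

/-- real functions near bounded polynomials -/
theorem near_partC [IsFiniteMeasure μ] {U : Set (E n)} (hU : MeasurableSet U) {q s Y : ℝ}
    (hq : 1 ≤ q) (hs0 : 0 < s) (hs1 : s ≤ 1 / 4) {R : ℝ} (hR0 : 0 ≤ R)
    {L : ℝ≥0∞} (hL : ∀ P : MvPolynomial (Fin n) ℝ, PD n (s * Y) P →
      (∀ ξ ∈ U, |ev P ξ| ≤ 2 * s) → NN μ q (BB n R) (uni U (ev P) 1) ≤ L)
    {x₀ : E n} {ρ : ℝ} (hρU : ∀ᵐ ξ ∂μ, ξ ∈ ball x₀ ρ → ξ ∈ U) {T : ℝ≥0∞}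
    (hT : ∀ f, FRB μ x₀ ρ f → NN μ q (BB n R) f ≤ T)
    {a : E n → ℝ} (ham : Measurable a)
    (haρ : ∀ᵐ ξ ∂μ, ξ ∉ ball x₀ ρ → a ξ = 0)
    {t : ℝ} (ht0 : 0 ≤ t) (ht1 : 2 * t ≤ 1) (htR : 2 * t * R ^ n ≤ 1)
    {P : MvPolynomial (Fin n) ℝ} (hP : PD n Y P) (hPle : ∀ ξ ∈ U, |ev P ξ| ≤ 2)
    (hPa : ∀ᵐ ξ ∂μ, ξ ∈ U → |ev P ξ - a ξ| ≤ t) :
    NN μ q (BB n R) (fun ξ => (a ξ : ℂ)) ≤
      2 ^ (q - 1) * (ENNReal.ofReal s⁻¹ ^ q * L + 2 ^ (q - 1) *
        (ENNReal.ofReal (2 * s ^ 2) ^ q * T + S2 μ q)) := by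
  have hq0 : 0 < q := by linarith
  have hPm : Measurable (ev P) := (ev_cont P).measurable
  have hsm : Measurable fun ξ => srem s (ev P ξ) := (srem_cont s).measurable.comp hPm
  have hg1 : Integrable (fun ξ => (1 / (2 * s * Complex.I)) * (uni U (ev P) s ξ -
      uni U (ev P) (-s) ξ)) μ :=
    ((uni_int hU hPm s).sub (uni_int hU hPm (-s))).const_mul _
  have hsb : ∀ᵐ ξ ∂μ, ξ ∈ ball x₀ ρ → |srem s (ev P ξ)| ≤ 2 * s ^ 2 := by
    filter_upwards [hρU] with ξ hξ hξ2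
    exact (sin_rem hs0 hs1 (hPle ξ (hξ hξ2))).1
  have hg2 : Integrable ((ball x₀ ρ).indicator fun ξ => ((srem s (ev P ξ) : ℝ) : ℂ)) μ := by
    refine Integrable.of_bound ((Complex.measurable_ofReal.comp hsm).indicator
      measurableSet_ball).aestronglyMeasurable (2 * s ^ 2) ?_
    filter_upwards [hsb] with ξ hξ
    by_cases hξ2 : ξ ∈ ball x₀ ρ
    · rw [indicator_of_mem hξ2, Complex.norm_real]
      exact hξ hξ2
    · rw [indicator_of_notMem hξ2, norm_zero]; positivity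
  have hg3m : Measurable fun ξ => U.indicator (fun ξ => ((a ξ - ev P ξ : ℝ) : ℂ)) ξ +
      (U \ ball x₀ ρ).indicator (fun ξ => ((srem s (ev P ξ) : ℝ) : ℂ)) ξ :=
    ((Complex.measurable_ofReal.comp (ham.sub hPm)).indicator hU).add
      ((Complex.measurable_ofReal.comp hsm).indicator (hU.diff measurableSet_ball))
  have hele : ∀ᵐ ξ ∂μ, ‖U.indicator (fun ξ => ((a ξ - ev P ξ : ℝ) : ℂ)) ξ +
      (U \ ball x₀ ρ).indicator (fun ξ => ((srem s (ev P ξ) : ℝ) : ℂ)) ξ‖ ≤ 2 * t := by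
    filter_upwards [hPa, haρ] with ξ hPaξ haξ
    by_cases hξ : ξ ∈ U
    · rw [indicator_of_mem hξ]
      have h1 : ‖((a ξ - ev P ξ : ℝ) : ℂ)‖ ≤ t := by
        rw [Complex.norm_real, Real.norm_eq_abs, abs_sub_comm]
        exact hPaξ hξ
      have h2 : ‖(U \ ball x₀ ρ).indicator (fun ξ => ((srem s (ev P ξ) : ℝ) : ℂ)) ξ‖ ≤ t := by
        by_cases hξ2 : ξ ∈ ball x₀ ρ
        · rw [indicator_of_notMem fun h => h.2 hξ2, norm_zero]; exact ht0
        · rw [indicator_of_mem (show ξ ∈ U \ ball x₀ ρ from ⟨hξ, hξ2⟩), Complex.norm_real,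
            Real.norm_eq_abs]
          have e1 := hPaξ hξ
          rw [haξ hξ2, sub_zero] at e1
          exact (sin_rem hs0 hs1 (hPle ξ hξ)).2.trans e1
      calc _ ≤ ‖((a ξ - ev P ξ : ℝ) : ℂ)‖ +
            ‖(U \ ball x₀ ρ).indicator (fun ξ => ((srem s (ev P ξ) : ℝ) : ℂ)) ξ‖ := norm_add_le _ _
        _ ≤ 2 * t := by linarith
    · rw [indicator_of_notMem hξ, indicator_of_notMem (fun h => hξ h.1), add_zero, norm_zero]
      linarith
  have hg3 : Integrable (fun ξ => U.indicator (fun ξ => ((a ξ - ev P ξ : ℝ) : ℂ)) ξ +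
      (U \ ball x₀ ρ).indicator (fun ξ => ((srem s (ev P ξ) : ℝ) : ℂ)) ξ) μ :=
    Integrable.of_bound hg3m.aestronglyMeasurable (2 * t) hele
  have hsum : (fun ξ => (a ξ : ℂ)) =ᵐ[μ] fun ξ => (1 / (2 * s * Complex.I)) * (uni U (ev P) s ξ -
      uni U (ev P) (-s) ξ) + ((ball x₀ ρ).indicator (fun ξ => ((srem s (ev P ξ) : ℝ) : ℂ)) ξ +
      (U.indicator (fun ξ => ((a ξ - ev P ξ : ℝ) : ℂ)) ξ +
      (U \ ball x₀ ρ).indicator (fun ξ => ((srem s (ev P ξ) : ℝ) : ℂ)) ξ)) := by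
    filter_upwards [hρU, haρ] with ξ hρUξ haξ
    have hs' : (s : ℂ) ≠ 0 := by exact_mod_cast hs0.ne'
    by_cases hξ : ξ ∈ U
    · have e1 : uni U (ev P) s ξ - uni U (ev P) (-s) ξ =
          2 * Complex.I * ((Real.sin (s * ev P ξ) : ℝ) : ℂ) := by
        unfold uni
        rw [indicator_of_mem hξ, indicator_of_mem hξ, Complex.ofReal_sin, Complex.sin]
        have e2 : ((-s * ev P ξ : ℝ) : ℂ) * Complex.I = -((s * ev P ξ : ℝ) : ℂ) * Complex.I := by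
          push_cast; ring
        rw [e2]
        have hI : Complex.I * Complex.I = -1 := Complex.I_mul_I
        linear_combination (Complex.exp (((s * ev P ξ : ℝ) : ℂ) * Complex.I) -
          Complex.exp (-((s * ev P ξ : ℝ) : ℂ) * Complex.I)) * hI
      have e3 : (ball x₀ ρ).indicator (fun ξ => ((srem s (ev P ξ) : ℝ) : ℂ)) ξ +
          (U \ ball x₀ ρ).indicator (fun ξ => ((srem s (ev P ξ) : ℝ) : ℂ)) ξ =
          ((srem s (ev P ξ) : ℝ) : ℂ) := by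
        by_cases hξ2 : ξ ∈ ball x₀ ρ
        · rw [indicator_of_mem hξ2, indicator_of_notMem fun h => h.2 hξ2, add_zero]
        · rw [indicator_of_notMem hξ2,
            indicator_of_mem (show ξ ∈ U \ ball x₀ ρ from ⟨hξ, hξ2⟩), zero_add]
      rw [e1, add_left_comm ((ball x₀ ρ).indicator _ ξ), e3, indicator_of_mem hξ]
      unfold srem
      push_cast
      field_simp
      ring
    · have hξ2 : ξ ∉ ball x₀ ρ := fun h => hξ (hρUξ h)
      unfold uni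
      rw [indicator_of_notMem hξ, indicator_of_notMem hξ, indicator_of_notMem hξ2,
        indicator_of_notMem hξ, indicator_of_notMem (fun h => hξ h.1), haξ hξ2]
      simp
  rw [NN_congr hsum]
  refine (NN_add' hq (BB n R) hg1 (hg2.add hg3)).trans (mul_le_mul' le_rfl (add_le_add ?_
    ((NN_add' hq (BB n R) hg2 hg3).trans (mul_le_mul' le_rfl (add_le_add ?_ ?_)))))
  · exact sin_partC hU hq hs0 hL hP hPle
  · exact mid_part hq hT hsm (by positivity) hsb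
  · exact small_part hq hR0 (by linarith) ht1 htR hele

/-- comparison of the class with a slightly larger one -/
theorem poly_stepC [IsFiniteMeasure μ] (hS : Sph μ) {U : Set (E n)} (hU : MeasurableSet U)
    (hUs : ∀ ξ ∈ U, ‖ξ‖ = 1) {x₀ : E n}
    {r : ℝ} (hrU : ∀ ξ : E n, ‖ξ‖ = 1 → ξ ∈ ball x₀ (2 * r) → ξ ∈ U) {q s Y : ℝ} (hq : 1 ≤ q)
    (hs0 : 0 < s) (hs1 : s ≤ 1 / 4)
    {m : ℕ} {R : ℝ} (hR1 : 1 ≤ R) {A : ℝ} (hA0 : 0 < A) (hA1 : A ≤ 1)
    (hAR : 16 * Real.pi * n * R * A ≤ 1)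
    {L : ℝ≥0∞} (hL : ∀ P : MvPolynomial (Fin n) ℝ, PD n (s * Y) P →
      (∀ ξ ∈ U, |ev P ξ| ≤ 2 * s) → NN μ q (BB n R) (uni U (ev P) 1) ≤ L)
    {y : E n} (hy : ‖y‖ = 1) (hZ0 : 0 < ZZ μ m A y)
    (hY : μ.real univ / ZZ μ m A y * bet n ^ m = Y)
    (htR : 2 * μ.real univ / ZZ μ m A y * R ^ n ≤ 1)
    {ρ : ℝ} (hρ : ρ + 2 * A ≤ 2 * r) {T : ℝ≥0∞}
    (hT : ∀ f, FRB μ x₀ (ρ + 2 * A) f → NN μ q (BB n R) f ≤ T) {f : E n → ℂ}
    (hf : FRB μ x₀ ρ f) :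
    NN μ q (BB n R) f ≤ 2 ^ q * (2 ^ (q - 1) * (ENNReal.ofReal s⁻¹ ^ q * L + 2 ^ (q - 1) *
      (ENNReal.ofReal (2 * s ^ 2) ^ q * T + S2 μ q))) := by
  have hR0 : 0 < R := by linarith
  have ht0 : 0 ≤ μ.real univ / ZZ μ m A y := div_nonneg measureReal_nonneg hZ0.le
  rw [mul_div_assoc] at htR
  obtain ⟨t, ht⟩ : ∃ t : ℝ, μ.real univ / ZZ μ m A y = t := ⟨_, rfl⟩
  rw [ht] at htR ht0
  have ht1 : 2 * t ≤ 1 := by
    have : 1 ≤ R ^ n := one_le_pow₀ hR1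
    nlinarith
  have hρU : ∀ᵐ ξ ∂μ, ξ ∈ ball x₀ (ρ + 2 * A) → ξ ∈ U := by
    filter_upwards [hS.ae] with ξ hξ hξ2
    exact hrU ξ hξ (ball_subset_ball hρ hξ2)
  have hK := KS_ker hS hy hZ0
  have hreal : ∀ f, FRB μ x₀ ρ f → ∃ (a : E n → ℝ) (P : MvPolynomial (Fin n) ℝ), Measurable a ∧
      (∀ ξ : E n, ‖ξ‖ = 1 → ‖a ξ‖ ≤ 1) ∧ (∀ ξ, ξ ∉ ball x₀ (ρ + 2 * A) → a ξ = 0) ∧
      AV μ (KS μ m A y) f = (fun ξ => (a ξ : ℂ)) ∧
      PD n Y P ∧ ∀ ξ : E n, ‖ξ‖ = 1 → |ev P ξ - a ξ| ≤ t := fun f hf => by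
    set u : E n → ℝ := fun ξ => (f ξ).re with hudef
    have hu : Measurable u := Complex.measurable_re.comp hf.1.1
    have hu1 : ∀ᵐ ξ ∂μ, ‖u ξ‖ ≤ 1 := by
      filter_upwards [hf.1.2.1] with ξ hξ
      exact (Complex.abs_re_le_norm _).trans hξ
    have hfu : ∀ᵐ ξ ∂μ, f ξ = (u ξ : ℂ) := by
      filter_upwards [hf.1.2.2] with ξ hξ
      apply Complex.ext
      · simp [hudef]
      · simp [hξ]
    obtain ⟨P, hP, hPa⟩ := avg_nearC hS hA0.le hA1 hZ0 hu hu1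
    rw [hY] at hP
    rw [ht] at hPa
    refine ⟨fun ξ => ∫ η, u η * KS μ m A y ξ η ∂μ, P, ?_, fun ξ hξ => ?_, fun ξ hξ => ?_, ?_, hP,
      hPa⟩
    · have h1 : Measurable (Function.uncurry fun (ξ η : E n) => u η * KS μ m A y ξ η) :=
        (hu.comp measurable_snd).mul hK.meas
      exact h1.stronglyMeasurable.integral_prod_right.measurable
    · have h2 : ∫ η, KS μ m A y ξ η ∂μ = 1 := by
        unfold KS
        rw [integral_div]
        show ZZ μ m A ξ / ZZ μ m A y = 1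
        rw [ZZ_const hS m A hξ hy]
        exact div_self hZ0.ne'
      rw [← h2]
      refine norm_integral_le_of_norm_le (K_int' hK ξ) ?_
      filter_upwards [hu1] with η hη
      rw [norm_mul, Real.norm_of_nonneg (hK.nonneg _ _)]
      calc ‖u η‖ * KS μ m A y ξ η ≤ 1 * KS μ m A y ξ η :=
            mul_le_mul_of_nonneg_right hη (hK.nonneg _ _)
        _ = _ := one_mul _
    · have h1 : ∀ᵐ η ∂μ, u η * KS μ m A y ξ η = 0 := by
        filter_upwards [hf.2] with η hη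
        by_cases hη2 : η ∈ ball x₀ ρ
        · rw [hK.supp, mul_zero]
          rw [mem_ball, not_lt] at hξ
          rw [mem_ball] at hη2
          have h3 := dist_triangle ξ η x₀
          rw [← dist_eq_norm]
          linarith
        · have : u η = 0 := by
            show (f η).re = 0
            rw [hη hη2]; rfl
          rw [this, zero_mul]
      show ∫ η, u η * KS μ m A y ξ η ∂μ = 0
      rw [integral_congr_ae h1, integral_zero]
    · funext ξ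
      unfold AV
      rw [← integral_complex_ofReal]
      refine integral_congr_ae ?_
      filter_upwards [hfu] with η hη
      rw [hη]
      push_cast
      rfl
  have hA2 : 0 < 2 * A := by linarith
  refine avg_reduce (Cl.FRB μ x₀ ρ) hq hR1 hA2 (by linarith) hK (fun f hf => ?_)
    (fun f hf => ?_) hf
  · obtain ⟨a, P, ham, ha1, haU, hav, -⟩ := hreal f hf
    rw [hav]
    refine Integrable.of_bound (Complex.measurable_ofReal.comp ham).aestronglyMeasurable 1 ?_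
    filter_upwards [hS.ae] with ξ hξ
    show ‖((a ξ : ℝ) : ℂ)‖ ≤ 1
    rw [Complex.norm_real]; exact ha1 ξ hξ
  · obtain ⟨a, P, ham, ha1, haU, hav, hPd, hPa⟩ := hreal f hf
    rw [hav]
    refine near_partC hU hq hs0 hs1 hR0.le hL hρU hT ham (Eventually.of_forall haU) ht0 ht1 htR
      hPd (fun ξ hξ => ?_) ?_
    · have e1 := hPa ξ (hUs ξ hξ)
      have e2 := ha1 ξ (hUs ξ hξ)
      rw [Real.norm_eq_abs] at e2
      calc |ev P ξ| = |(ev P ξ - a ξ) + a ξ| := by rw [sub_add_cancel]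
        _ ≤ |ev P ξ - a ξ| + |a ξ| := abs_add_le _ _
        _ ≤ 2 := by linarith
    · filter_upwards [hS.ae] with ξ hξ _
      exact hPa ξ hξ

/-- **From analytic phases to real functions, large radii.** -/
theorem poly_largeC [IsFiniteMeasure μ] (hS : Sph μ) (hn : 1 ≤ n) {U : Set (E n)}
    (hU : MeasurableSet U) (hUs : ∀ ξ ∈ U, ‖ξ‖ = 1) {x₀ : E n}
    {r : ℝ} (hr : 0 < r) (hrU : ∀ ξ : E n, ‖ξ‖ = 1 → ξ ∈ ball x₀ (2 * r) → ξ ∈ U) {q τ : ℝ}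
    (hq : 1 ≤ q) (hτ : 0 ≤ τ) (h : AL μ U q τ) {δ : ℝ} (hδ : 0 < δ) :
    ∃ (C : ℝ≥0) (R₀ : ℝ), 1 ≤ R₀ ∧ ∀ R : ℝ, R₀ ≤ R →
      ∀ f, FRB μ x₀ r f → NN μ q (BB n R) f ≤ C * ENNReal.ofReal (R ^ ((1 + δ) * τ)) := by
  obtain ⟨C, hC⟩ := h
  obtain ⟨y, hy⟩ := hS.ne
  have hπ := Real.pi_pos
  have hπ3 := Real.pi_gt_three
  have hn1 : (1 : ℝ) ≤ n := by exact_mod_cast hn
  have hn0 : (0 : ℝ) < n := by linarith
  have hq0 : 0 < q := by linarith
  obtain ⟨s, hs0, hs1⟩ : ∃ s : ℝ, 0 < s ∧ s ≤ 1 / 4 := ⟨1 / 4, by norm_num, le_rfl⟩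
  have hb5 := bet_ge n
  obtain ⟨lam, hlam⟩ : ∃ lam : ℝ, lam = Real.log (bet n) := ⟨_, rfl⟩
  have hlam1 : 1 ≤ lam := by
    rw [hlam, Real.le_log_iff_exp_le (by linarith)]
    have := Real.exp_one_lt_d9
    linarith
  obtain ⟨R₁, hR₁, htail⟩ := ZZ_tail hS hn hδ (2 * μ.real univ)
    (mul_nonneg (by norm_num) measureReal_nonneg)
  obtain ⟨R₂, hR₂, htail2⟩ := tail_small n one_pos (Real.exp 1) (8 * Real.pi * n * r)
    (by positivity)
  -- the constant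
  obtain ⟨M, hMt, hM⟩ : ∃ M : ℝ≥0∞, M ≠ ∞ ∧ ∀ R : ℝ, 1 ≤ R →
      2 * (2 ^ q * (2 ^ (q - 1) * (ENNReal.ofReal s⁻¹ ^ q * (C * ENNReal.ofReal
        ((2 * lam * R ^ (1 + δ)) ^ τ)) + 2 ^ (q - 1) * S2 μ q))) + S2 μ q ≤
      M * ENNReal.ofReal (R ^ ((1 + δ) * τ)) := by
    refine ⟨2 * (2 ^ q * (2 ^ (q - 1) * (ENNReal.ofReal s⁻¹ ^ q * (C * ENNReal.ofReal
        ((2 * lam) ^ τ)) + 2 ^ (q - 1) * S2 μ q))) + S2 μ q, ?_, fun R hR => ?_⟩
    · have h2 : ∀ y : ℝ, (2 : ℝ≥0∞) ^ y ≠ ∞ := fun y =>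
        ENNReal.rpow_ne_top_of_ne_zero (by norm_num) (by norm_num)
      refine ENNReal.add_ne_top.2 ⟨ENNReal.mul_ne_top (by norm_num) (ENNReal.mul_ne_top (h2 _)
        (ENNReal.mul_ne_top (h2 _) (ENNReal.add_ne_top.2 ⟨ENNReal.mul_ne_top
          (ENNReal.rpow_ne_top_of_nonneg hq0.le ENNReal.ofReal_ne_top)
          (ENNReal.mul_ne_top ENNReal.coe_ne_top ENNReal.ofReal_ne_top),
          ENNReal.mul_ne_top (h2 _) (S2_ne_top hq0.le)⟩))), S2_ne_top hq0.le⟩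
    · have hR0 : 0 ≤ R := by linarith
      have hRτ : 1 ≤ ENNReal.ofReal (R ^ ((1 + δ) * τ)) := by
        rw [← ENNReal.ofReal_one]
        exact ENNReal.ofReal_le_ofReal (Real.one_le_rpow hR (by positivity))
      have e1 : ENNReal.ofReal ((2 * lam * R ^ (1 + δ)) ^ τ) =
          ENNReal.ofReal ((2 * lam) ^ τ) * ENNReal.ofReal (R ^ ((1 + δ) * τ)) := by
        rw [← ENNReal.ofReal_mul (by positivity)]
        congr 1
        rw [Real.mul_rpow (by positivity) (by positivity), ← Real.rpow_mul hR0]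
      rw [e1]
      generalize ENNReal.ofReal (R ^ ((1 + δ) * τ)) = Y at hRτ ⊢
      generalize S2 μ q = S
      have hS : S ≤ S * Y := by
        calc S = S * 1 := (mul_one _).symm
          _ ≤ S * Y := mul_le_mul' le_rfl hRτ
      calc 2 * (2 ^ q * (2 ^ (q - 1) * (ENNReal.ofReal s⁻¹ ^ q * (C * (ENNReal.ofReal ((2 * lam) ^ τ) *
              Y)) + 2 ^ (q - 1) * S))) + S
          ≤ 2 * (2 ^ q * (2 ^ (q - 1) * (ENNReal.ofReal s⁻¹ ^ q * (C * (ENNReal.ofReal ((2 * lam) ^ τ) *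
              Y)) + 2 ^ (q - 1) * (S * Y)))) + S * Y := by
            refine add_le_add (mul_le_mul' le_rfl (mul_le_mul' le_rfl (mul_le_mul' le_rfl
              (add_le_add le_rfl (mul_le_mul' le_rfl hS))))) hS
        _ = _ := by ring
  refine ⟨M.toNNReal, max (max R₁ R₂) 1, le_max_right _ _, fun R hR f hf => ?_⟩
  rw [ENNReal.coe_toNNReal hMt]
  have hRR₁ : R₁ ≤ R := (le_max_left _ _).trans ((le_max_left _ _).trans hR)
  have hRR₂ : R₂ ≤ R := (le_max_right _ _).trans ((le_max_left _ _).trans hR)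
  have hR1 : 1 ≤ R := hR₁.trans hRR₁
  have hR0 : 0 < R := by linarith
  refine le_trans ?_ (hM R hR1)
  obtain ⟨A, hA⟩ : ∃ A : ℝ, A = 1 / (16 * Real.pi * n * R) := ⟨_, rfl⟩
  have hA0 : 0 < A := by rw [hA]; positivity
  have hAR : 16 * Real.pi * n * R * A ≤ 1 := by
    rw [hA, mul_one_div, div_self (by positivity)]
  obtain ⟨m, hm⟩ : ∃ m : ℕ, m = ⌈R ^ (1 + δ)⌉₊ := ⟨_, rfl⟩
  have hRδ1 : 1 ≤ R ^ (1 + δ) := Real.one_le_rpow hR1 (by linarith)
  have hmle : R ^ (1 + δ) ≤ m := by rw [hm]; exact Nat.le_ceil _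
  have hmge : (m : ℝ) ≤ 2 * R ^ (1 + δ) := by
    have := (Nat.ceil_lt_add_one (by positivity : 0 ≤ R ^ (1 + δ))).le
    rw [← hm] at this
    linarith
  have hRm : R ≤ m := by
    refine le_trans ?_ hmle
    calc R = R ^ (1 : ℝ) := (Real.rpow_one R).symm
      _ ≤ R ^ (1 + δ) := Real.rpow_le_rpow_of_exponent_le hR1 (by linarith)
  have hm1 : 1 ≤ m := by
    have : (1 : ℝ) ≤ m := hR1.trans hRm
    exact_mod_cast this
  obtain ⟨hZ0, htR⟩ := htail R hRR₁ m hmle y hy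
  rw [← hA] at hZ0 htR
  have hA1 : A ≤ 1 := by
    rw [hA, div_le_one (by positivity)]
    have h1 : 1 ≤ n * R := by nlinarith
    nlinarith
  obtain ⟨L, hLdef⟩ : ∃ L : ℝ≥0∞, L = C * ENNReal.ofReal ((2 * lam * R ^ (1 + δ)) ^ τ) := ⟨_, rfl⟩
  rw [← hLdef]
  obtain ⟨Y, hY⟩ : ∃ Y : ℝ, μ.real univ / ZZ μ m A y * bet n ^ m = Y := ⟨_, rfl⟩
  obtain ⟨R', hR'⟩ : ∃ R' : ℝ, R' = bet n ^ m := ⟨_, rfl⟩
  have hbm : bet n ≤ bet n ^ m := le_self_pow₀ (by linarith) (by omega)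
  have hR'5 : 5 ≤ R' := by rw [hR']; linarith
  have hlogR' : Real.log R' = m * lam := by rw [hR', Real.log_pow, hlam]
  have hRlog : R ≤ Real.log R' := by
    rw [hlogR']
    calc R ≤ m := hRm
      _ = m * 1 := (mul_one _).symm
      _ ≤ m * lam := by gcongr
  have hsY : s * Y ≤ R' := by
    have h1 : μ.real univ / ZZ μ m A y ≤ 1 := by
      have h2 : 0 ≤ μ.real univ / ZZ μ m A y := div_nonneg measureReal_nonneg hZ0.le
      have h3 : 1 ≤ R ^ n := one_le_pow₀ hR1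
      rw [mul_div_assoc] at htR
      nlinarith
    rw [← hY, hR']
    have h4 : 0 ≤ bet n ^ m := by linarith
    have h5 : 0 ≤ μ.real univ / ZZ μ m A y := div_nonneg measureReal_nonneg hZ0.le
    calc s * (μ.real univ / ZZ μ m A y * bet n ^ m) ≤ 1 * (1 * bet n ^ m) := by
          gcongr
          linarith
      _ = _ := by ring
  have e7 : ENNReal.ofReal (Real.log R' ^ τ) ≤
      ENNReal.ofReal ((2 * lam * R ^ (1 + δ)) ^ τ) := by
    refine ENNReal.ofReal_le_ofReal (Real.rpow_le_rpow (by linarith) ?_ hτ)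
    rw [hlogR']
    nlinarith
  have hL : ∀ P : MvPolynomial (Fin n) ℝ, PD n (s * Y) P →
      (∀ ξ ∈ U, |ev P ξ| ≤ 2 * s) → NN μ q (BB n R) (uni U (ev P) 1) ≤ L := fun P hP _ => by
    have hR'0 : 0 < R' := by linarith
    have hP' : PD n 1 (MvPolynomial.C R'⁻¹ * P) := fun z hz => by
      have h1 := PD.scale hP (abs_of_pos (inv_pos.2 hR'0)) z hz
      refine h1.trans ?_
      rw [inv_mul_le_iff₀ hR'0, mul_one]
      exact hsY
    have h3 := hC _ hP' R' (by linarith)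
    have e2 : uni U (ev (MvPolynomial.C R'⁻¹ * P)) R' = uni U (ev P) 1 := by
      unfold uni
      congr 1
      funext ξ
      rw [ev_C_mul, mul_inv_cancel_left₀ hR'0.ne', one_mul]
    rw [e2] at h3
    rw [hLdef]
    exact (NN_mono q (closedBall_subset_closedBall hRlog) _).trans
      (h3.trans (mul_le_mul' le_rfl e7))
  -- the iteration
  set F : ℝ → ℝ≥0∞ := fun ρ => ⨆ f : {f // FRB μ x₀ ρ f}, NN μ q (BB n R) f.1 with hFdef
  have hFf : ∀ ρ f, FRB μ x₀ ρ f → NN μ q (BB n R) f ≤ F ρ := fun ρ f hf =>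
    le_iSup (fun f : {f // FRB μ x₀ ρ f} => NN μ q (BB n R) f.1) ⟨f, hf⟩
  have hvol : volume (BB n R) = ENNReal.ofReal (R ^ n) * volume (ball (0 : E n) 1) := by
    rw [Measure.addHaar_closedBall _ _ hR0.le, finrank_euclideanSpace, Fintype.card_fin]
  have hFT : ∀ ρ, F ρ ≤ S2 μ q * ENNReal.ofReal (R ^ n) := fun ρ => iSup_le fun f => by
    refine (NN_triv hq0.le _ _ f.2.1.lint).trans (le_of_eq ?_)
    rw [hvol]
    unfold S2
    ring
  have hFs : ∀ ρ, ρ + 2 * A ≤ 2 * r → F ρ ≤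
      2 ^ q * (2 ^ (q - 1) * (ENNReal.ofReal s⁻¹ ^ q * L + 2 ^ (q - 1) * S2 μ q)) +
        4⁻¹ * F (ρ + 2 * A) := fun ρ hρ => iSup_le fun f => by
    refine (poly_stepC hS hU hUs hrU hq hs0 hs1 hR1 hA0 hA1 hAR hL hy hZ0 hY htR hρ
      (hFf (ρ + 2 * A)) f.2).trans ?_
    have h1 := coef_le hq hs0 hs1
    calc 2 ^ q * (2 ^ (q - 1) * (ENNReal.ofReal s⁻¹ ^ q * L + 2 ^ (q - 1) *
          (ENNReal.ofReal (2 * s ^ 2) ^ q * F (ρ + 2 * A) + S2 μ q)))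
        = 2 ^ q * (2 ^ (q - 1) * (ENNReal.ofReal s⁻¹ ^ q * L + 2 ^ (q - 1) * S2 μ q)) +
          2 ^ q * (2 ^ (q - 1) * (2 ^ (q - 1) * ENNReal.ofReal (2 * s ^ 2) ^ q)) *
            F (ρ + 2 * A) := by ring
      _ ≤ _ := add_le_add le_rfl (mul_le_mul' h1 le_rfl)
  obtain ⟨k, hk⟩ : ∃ k : ℕ, k = ⌊r / (2 * A)⌋₊ := ⟨_, rfl⟩
  have hkA : r + k * (2 * A) ≤ 2 * r := by
    have h1 : (k : ℝ) ≤ r / (2 * A) := by rw [hk]; exact Nat.floor_le (by positivity)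
    rw [le_div_iff₀ (by positivity)] at h1
    linarith
  have hkge : 8 * Real.pi * n * r * R - 1 ≤ k := by
    have h1 : r / (2 * A) < k + 1 := by rw [hk]; exact Nat.lt_floor_add_one _
    have h2 : r / (2 * A) = 8 * Real.pi * n * r * R := by rw [hA]; field_simp; ring
    linarith
  have h4k : (4⁻¹ : ℝ≥0∞) ^ k * ENNReal.ofReal (R ^ n) ≤ 1 := by
    have e1 : (4⁻¹ : ℝ≥0∞) ^ k = ENNReal.ofReal ((4⁻¹ : ℝ) ^ k) := by
      rw [ENNReal.ofReal_pow (by norm_num), ENNReal.ofReal_inv_of_pos (by norm_num),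
        ENNReal.ofReal_ofNat]
    rw [e1, ← ENNReal.ofReal_mul (by positivity), ← ENNReal.ofReal_one]
    refine ENNReal.ofReal_le_ofReal (le_trans ?_ (htail2 R hRR₂))
    rw [Real.rpow_one]
    have e2 : (4⁻¹ : ℝ) ^ k ≤ Real.exp 1 * Real.exp (-(8 * Real.pi * n * r * R)) := by
      rw [← Real.exp_add]
      calc (4⁻¹ : ℝ) ^ k ≤ (Real.exp (-1)) ^ k := by
            gcongr
            rw [Real.exp_neg]
            gcongr
            have := Real.exp_one_lt_d9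
            linarith
        _ = Real.exp (-k) := by rw [← Real.exp_nat_mul]; congr 1; ring
        _ ≤ _ := by
            refine Real.exp_le_exp.2 ?_
            linarith
    have e3 : R ^ n ≤ R ^ (2 * n + 1) := pow_le_pow_right₀ hR1 (by omega)
    calc (4⁻¹ : ℝ) ^ k * R ^ n ≤
          Real.exp 1 * Real.exp (-(8 * Real.pi * n * r * R)) * R ^ (2 * n + 1) := by gcongr
      _ = _ := by ring
  refine (hFf r f hf).trans ((iter_bound (by positivity) hFT hFs k r hkA).trans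
    (add_le_add le_rfl ?_))
  calc (4⁻¹ : ℝ≥0∞) ^ k * (S2 μ q * ENNReal.ofReal (R ^ n))
      = S2 μ q * (4⁻¹ ^ k * ENNReal.ofReal (R ^ n)) := by ring
    _ ≤ S2 μ q * 1 := mul_le_mul' le_rfl h4k
    _ = S2 μ q := mul_one _


/-- all radii, functions on a small ball -/
theorem poly_allC [IsFiniteMeasure μ] (hS : Sph μ) (hn : 1 ≤ n) {U : Set (E n)}
    (hU : MeasurableSet U) (hUs : ∀ ξ ∈ U, ‖ξ‖ = 1) {x₀ : E n}
    {r : ℝ} (hr : 0 < r) (hrU : ∀ ξ : E n, ‖ξ‖ = 1 → ξ ∈ ball x₀ (2 * r) → ξ ∈ U) {q τ : ℝ}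
    (hq : 1 ≤ q) (hτ : 0 ≤ τ) (h : AL μ U q τ) {δ : ℝ} (hδ : 0 < δ) :
    ∃ C : ℝ≥0, ∀ R : ℝ, 1 ≤ R →
      ∀ f, FRB μ x₀ r f → NN μ q (BB n R) f ≤ C * ENNReal.ofReal (R ^ ((1 + δ) * τ)) := by
  obtain ⟨C, R₀, hR₀, hC⟩ := poly_largeC hS hn hU hUs hr hrU hq hτ h hδ
  have hKt : (C * ENNReal.ofReal (R₀ ^ ((1 + δ) * τ)) : ℝ≥0∞) ≠ ∞ :=
    ENNReal.mul_ne_top ENNReal.coe_ne_top ENNReal.ofReal_ne_top
  refine ⟨(C * ENNReal.ofReal (R₀ ^ ((1 + δ) * τ)) : ℝ≥0∞).toNNReal, fun R hR f hf => ?_⟩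
  rw [ENNReal.coe_toNNReal hKt]
  have h1 : R ≤ R₀ * R := by nlinarith
  have h2 : R₀ ≤ R₀ * R := by nlinarith
  refine (NN_mono q (closedBall_subset_closedBall h1) f).trans ((hC _ h2 f hf).trans
    (le_of_eq ?_))
  rw [Real.mul_rpow (by linarith) (by linarith), ENNReal.ofReal_mul (by positivity)]
  ring

/-- **From analytic phases to bounded functions on the sphere.** -/
theorem Est_of_AL [IsFiniteMeasure μ] (hS : Sph μ) (hn : 1 ≤ n) {U : Set (E n)}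
    (hU : MeasurableSet U) (hUs : ∀ ξ ∈ U, ‖ξ‖ = 1) {x₀ : E n} (hx₀ : ‖x₀‖ = 1)
    {r : ℝ} (hr : 0 < r) (hrU : ∀ ξ : E n, ‖ξ‖ = 1 → ξ ∈ ball x₀ r → ξ ∈ U) {q τ : ℝ}
    (hq : 1 ≤ q) (hτ : 0 ≤ τ) (h : AL μ U q τ) {δ : ℝ} (hδ : 0 < δ) :
    Est μ q ((1 + δ) * τ) := by
  refine est_of_cap hS hx₀ (r := r / 2) (by positivity) hq
    (poly_allC hS hn hU hUs (by positivity) ?_ hq hτ h hδ)
  rwa [mul_div_cancel₀ _ (two_ne_zero : (2 : ℝ) ≠ 0)]

end Pool.Agent.H222.SP
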