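import Pool.Agent.H222.SP.PolyE
import Pool.Agent.H222.ER.Lin

/-!
Smooth averages with respect to a measure on the sphere.
-/

open MeasureTheory Set Filter Metric
open scoped ENNReal NNReal Topology ContDiff

namespace Pool.Agent.H222.SP

variable {n : ℕ} {μ : Measure (E n)}

/-- convolution with a measure -/
noncomputable def cv {F : Type} [NormedAddCommGroup F] [NormedSpace ℝ F] (μ : Measure (E n))
    (u : E n → ℝ) (g : E n → F) (x : E n) : F := ∫ t, u t • g (x - t) ∂μ

theorem cv_hasFDerivAt [IsFiniteMeasure μ] {F : Type} [NormedAddCommGroup F] [NormedSpace ℝ F]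
    [CompleteSpace F] {g : E n → F} (hg : ContDiff ℝ ∞ g) (hgc : HasCompactSupport g)
    {u : E n → ℝ} (hu : Measurable u) (hu1 : ∀ t, ‖u t‖ ≤ 1) (x : E n) :
    HasFDerivAt (cv μ u g) (cv μ u (fderiv ℝ g) x) x := by
  have hg1 : Continuous (fderiv ℝ g) := hg.continuous_fderiv (by simp)
  obtain ⟨M, hM⟩ := hg1.bounded_above_of_compact_support (hgc.fderiv ℝ)
  obtain ⟨M', hM'⟩ := hg.continuous.bounded_above_of_compact_support hgc
  have hcont : ∀ {G : Type} [NormedAddCommGroup G] [NormedSpace ℝ G] (h : E n → G),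
      Continuous h → ∀ y : E n, AEStronglyMeasurable (fun t => u t • h (y - t)) μ :=
    fun h hh y => hu.aestronglyMeasurable.smul
      (hh.comp (continuous_const.sub continuous_id)).aestronglyMeasurable
  refine hasFDerivAt_integral_of_dominated_of_fderiv_le (bound := fun _ => M)
    (F := fun y t => u t • g (y - t)) (F' := fun y t => u t • fderiv ℝ g (y - t))
    (s := univ) univ_mem (Eventually.of_forall fun y => hcont g hg.continuous y) ?_
    (hcont _ hg1 x) (Eventually.of_forall fun t y _ => ?_) (integrable_const _)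
    (Eventually.of_forall fun t y _ => ?_)
  · refine Integrable.of_bound (hcont g hg.continuous x) M' (Eventually.of_forall fun t => ?_)
    rw [norm_smul]
    calc ‖u t‖ * ‖g (x - t)‖ ≤ 1 * M' := mul_le_mul (hu1 t) (hM' _) (norm_nonneg _) zero_le_one
      _ = M' := one_mul _
  · rw [norm_smul]
    calc ‖u t‖ * ‖fderiv ℝ g (y - t)‖ ≤ 1 * M :=
          mul_le_mul (hu1 t) (hM _) (norm_nonneg _) zero_le_one
      _ = M := one_mul _
  · have h1 : HasFDerivAt g (fderiv ℝ g (y - t)) (y - t) :=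
      (hg.differentiable (by simp)).differentiableAt.hasFDerivAt
    have h2 : HasFDerivAt (fun z : E n => z - t) (ContinuousLinearMap.id ℝ (E n)) y :=
      (hasFDerivAt_id y).sub_const t
    have h3 := h1.comp y h2
    rw [ContinuousLinearMap.comp_id] at h3
    exact h3.const_smul (u t)

theorem cv_fderiv [IsFiniteMeasure μ] {F : Type} [NormedAddCommGroup F] [NormedSpace ℝ F]
    [CompleteSpace F] {g : E n → F} (hg : ContDiff ℝ ∞ g) (hgc : HasCompactSupport g)
    {u : E n → ℝ} (hu : Measurable u) (hu1 : ∀ t, ‖u t‖ ≤ 1) :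
    fderiv ℝ (cv μ u g) = cv μ u (fderiv ℝ g) := by
  funext x
  exact (cv_hasFDerivAt hg hgc hu hu1 x).fderiv

theorem cv_contDiff [IsFiniteMeasure μ] (m : ℕ) : ∀ {F : Type} [NormedAddCommGroup F]
    [NormedSpace ℝ F] [CompleteSpace F] (g : E n → F), ContDiff ℝ ∞ g → HasCompactSupport g →
    ∀ u : E n → ℝ, Measurable u → (∀ t, ‖u t‖ ≤ 1) → ContDiff ℝ m (cv μ u g) := by
  induction m with
  | zero =>
    intro F _ _ _ g hg hgc u hu hu1
    rw [Nat.cast_zero, contDiff_zero]
    exact continuous_iff_continuousAt.2 fun x => (cv_hasFDerivAt hg hgc hu hu1 x).continuousAt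
  | succ m ih =>
    intro F _ _ _ g hg hgc u hu hu1
    push_cast
    rw [contDiff_succ_iff_fderiv]
    refine ⟨fun x => (cv_hasFDerivAt hg hgc hu hu1 x).differentiableAt, by simp, ?_⟩
    rw [cv_fderiv hg hgc hu hu1]
    exact ih _ (hg.fderiv_right (m := ∞) (by simp)) (hgc.fderiv ℝ) u hu hu1

theorem cv_smooth [IsFiniteMeasure μ] {g : E n → ℝ} (hg : ContDiff ℝ ∞ g)
    (hgc : HasCompactSupport g) {u : E n → ℝ} (hu : Measurable u) (hu1 : ∀ t, ‖u t‖ ≤ 1) :
    ContDiff ℝ ∞ (cv μ u g) :=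
  contDiff_infty.2 fun m => cv_contDiff m g hg hgc u hu hu1

theorem cv_deriv [IsFiniteMeasure μ] (j : ℕ) : ∀ {F : Type} [NormedAddCommGroup F]
    [NormedSpace ℝ F] [CompleteSpace F] (g : E n → F), ContDiff ℝ ∞ g → HasCompactSupport g →
    ∀ u : E n → ℝ, Measurable u → (∀ t, ‖u t‖ ≤ 1) → ∀ x,
      ‖iteratedFDeriv ℝ j (cv μ u g) x‖ ≤ ∫ t, ‖iteratedFDeriv ℝ j g (x - t)‖ ∂μ := by
  induction j with
  | zero =>
    intro F _ _ _ g hg hgc u hu hu1 x
    rw [norm_iteratedFDeriv_zero]
    simp only [norm_iteratedFDeriv_zero]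
    obtain ⟨M', hM'⟩ := hg.continuous.bounded_above_of_compact_support hgc
    have hi : Integrable (fun t => ‖g (x - t)‖) μ := by
      refine Integrable.of_bound
        (hg.continuous.comp (continuous_const.sub continuous_id)).norm.aestronglyMeasurable M'
        (Eventually.of_forall fun t => ?_)
      rw [norm_norm]
      exact hM' _
    refine norm_integral_le_of_norm_le hi (Eventually.of_forall fun t => ?_)
    rw [norm_smul]
    calc ‖u t‖ * ‖g (x - t)‖ ≤ 1 * ‖g (x - t)‖ := by gcongr; exact hu1 t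
      _ = _ := one_mul _
  | succ j ih =>
    intro F _ _ _ g hg hgc u hu hu1 x
    rw [← norm_iteratedFDeriv_fderiv, cv_fderiv hg hgc hu hu1]
    simp only [← norm_iteratedFDeriv_fderiv]
    exact ih (fderiv ℝ g) (hg.fderiv_right (m := ∞) (by simp)) (hgc.fderiv ℝ) u hu hu1 x

/-- a radial bump function -/
noncomputable def bu (v : E n) : ℝ := Real.smoothTransition (4 / 3 * (1 - ‖v‖ ^ 2))

theorem bu_smooth : ContDiff ℝ ∞ (bu : E n → ℝ) := by
  unfold bu
  exact Real.smoothTransition.contDiff.comp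
    (contDiff_const.mul (contDiff_const.sub (contDiff_norm_sq ℝ)))

theorem bu_nonneg (v : E n) : 0 ≤ bu v := Real.smoothTransition.nonneg _

theorem bu_le_one (v : E n) : bu v ≤ 1 := Real.smoothTransition.le_one _

theorem bu_zero {v : E n} (hv : 1 ≤ ‖v‖) : bu v = 0 := by
  unfold bu
  refine Real.smoothTransition.zero_of_nonpos ?_
  nlinarith

theorem bu_one {v : E n} (hv : ‖v‖ ≤ 1 / 2) : bu v = 1 := by
  unfold bu
  refine Real.smoothTransition.one_of_one_le ?_
  nlinarith [norm_nonneg v]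

theorem bu_norm {v w : E n} (h : ‖v‖ = ‖w‖) : bu v = bu w := by unfold bu; rw [h]

theorem bu_supp : tsupport (bu : E n → ℝ) ⊆ closedBall 0 1 := by
  refine closure_minimal (fun v hv => ?_) isClosed_closedBall
  rw [mem_closedBall_zero_iff]
  by_contra hcon
  push Not at hcon
  exact hv (bu_zero hcon.le)

theorem bu_compact : HasCompactSupport (bu : E n → ℝ) :=
  HasCompactSupport.of_support_subset_isCompact (isCompact_closedBall (0 : E n) 1)
    ((subset_tsupport _).trans bu_supp)

/-- bounds of the derivatives of the bump function -/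
theorem bu_deriv (n k : ℕ) : ∃ M : ℝ, 1 ≤ M ∧ ∀ j ≤ k, ∀ v : E n, ‖iteratedFDeriv ℝ j bu v‖ ≤ M := by
  have h1 : ∀ j : ℕ, ∃ M : ℝ, ∀ v : E n, ‖iteratedFDeriv ℝ j bu v‖ ≤ M := fun j => by
    refine (bu_smooth.continuous_iteratedFDeriv (m := j)
      (by exact_mod_cast le_top)).bounded_above_of_compact_support ?_
    exact bu_compact.iteratedFDeriv j
  choose M hM using h1
  refine ⟨1 + ∑ j ∈ Finset.range (k + 1), |M j|, ?_, fun j hj v => ?_⟩
  · have : 0 ≤ ∑ j ∈ Finset.range (k + 1), |M j| := Finset.sum_nonneg fun j _ => abs_nonneg _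
    linarith
  · have h2 : |M j| ≤ ∑ j ∈ Finset.range (k + 1), |M j| :=
      Finset.single_le_sum (f := fun j => |M j|) (fun j _ => abs_nonneg _)
        (Finset.mem_range.2 (by omega))
    linarith [hM j v, le_abs_self (M j)]

theorem bu_deriv_zero {j : ℕ} {v : E n} (hv : 1 < ‖v‖) : iteratedFDeriv ℝ j bu v = 0 := by
  have h1 := support_iteratedFDeriv_subset (𝕜 := ℝ) (f := (bu : E n → ℝ)) j
  by_contra hcon
  have h2 := bu_supp (h1 hcon)
  rw [mem_closedBall_zero_iff] at h2
  linarith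

/-- the scaled bump function -/
noncomputable def sb (A Z : ℝ) (v : E n) : ℝ := Z⁻¹ * bu (A⁻¹ • v)

theorem sb_smooth (A Z : ℝ) : ContDiff ℝ ∞ (sb A Z : E n → ℝ) := by
  unfold sb
  exact contDiff_const.mul (bu_smooth.comp (contDiff_const_smul A⁻¹))

theorem sb_zero {A Z : ℝ} (hA : 0 < A) {v : E n} (hv : A ≤ ‖v‖) : sb A Z v = 0 := by
  unfold sb
  rw [bu_zero, mul_zero]
  rw [norm_smul, norm_inv, Real.norm_of_nonneg hA.le, inv_mul_eq_div, one_le_div hA]
  exact hv

theorem sb_compact {A Z : ℝ} (hA : 0 < A) : HasCompactSupport (sb A Z : E n → ℝ) := by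
  refine HasCompactSupport.of_support_subset_isCompact (isCompact_closedBall (0 : E n) A)
    fun v hv => ?_
  rw [mem_closedBall_zero_iff]
  by_contra hcon
  push Not at hcon
  exact hv (sb_zero hA hcon.le)

theorem sb_deriv {A Z M : ℝ} (hA : 0 < A) (hZ : 0 < Z) {j : ℕ}
    (hM : ∀ v : E n, ‖iteratedFDeriv ℝ j bu v‖ ≤ M) (v : E n) :
    ‖iteratedFDeriv ℝ j (sb A Z) v‖ ≤
      (closedBall (0 : E n) A).indicator (fun _ => Z⁻¹ * (A⁻¹) ^ j * M) v := by
  have e1 : (sb A Z : E n → ℝ) = Z⁻¹ • fun v => bu (A⁻¹ • v) := by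
    funext v; rfl
  have hc : ContDiff ℝ j fun v : E n => bu (A⁻¹ • v) :=
    (bu_smooth.of_le (by exact_mod_cast le_top)).comp (contDiff_const_smul A⁻¹)
  have h1 : ‖iteratedFDeriv ℝ j (sb A Z) v‖ =
      Z⁻¹ * (A⁻¹) ^ j * ‖iteratedFDeriv ℝ j bu (A⁻¹ • v)‖ := by
    rw [e1, iteratedFDeriv_const_smul_apply hc.contDiffAt,
      iteratedFDeriv_comp_const_smul A⁻¹ (bu_smooth.of_le (by exact_mod_cast le_top)), norm_smul,
      norm_smul, norm_pow, norm_inv, norm_inv, Real.norm_of_nonneg hZ.le,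
      Real.norm_of_nonneg hA.le, mul_assoc]
  rw [h1]
  by_cases hv : v ∈ closedBall (0 : E n) A
  · rw [indicator_of_mem hv]
    gcongr
    exact hM _
  · rw [indicator_of_notMem hv, bu_deriv_zero, norm_zero, mul_zero]
    rw [mem_closedBall_zero_iff, not_le] at hv
    rw [norm_smul, norm_inv, Real.norm_of_nonneg hA.le, inv_mul_eq_div, one_lt_div hA]
    exact hv

/-- the mass of the bump function -/
noncomputable def zz (μ : Measure (E n)) (A : ℝ) (y : E n) : ℝ := ∫ w, bu (A⁻¹ • (y - w)) ∂μ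

theorem zz_int [IsFiniteMeasure μ] (A : ℝ) (y : E n) :
    Integrable (fun w => bu (A⁻¹ • (y - w))) μ := by
  refine Integrable.of_bound (bu_smooth.continuous.comp (by fun_prop)).aestronglyMeasurable 1
    (Eventually.of_forall fun w => ?_)
  rw [Real.norm_of_nonneg (bu_nonneg _)]
  exact bu_le_one _

theorem zz_const (hS : Sph μ) (A : ℝ) {y y' : E n} (hy : ‖y‖ = 1) (hy' : ‖y'‖ = 1) :
    zz μ A y = zz μ A y' := by
  set L : E n ≃ₗᵢ[ℝ] E n := (ℝ ∙ (y - y'))ᗮ.reflection with hL
  have hLy : L y = y' := Submodule.reflection_sub (by rw [hy, hy'])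
  have hemb : MeasurableEmbedding L := L.toHomeomorph.measurableEmbedding
  unfold zz
  rw [← (hS.inv L).integral_comp hemb (fun w => bu (A⁻¹ • (y' - w)))]
  refine integral_congr_ae (Eventually.of_forall fun w => ?_)
  show bu (A⁻¹ • (y - w)) = bu (A⁻¹ • (y' - L w))
  refine bu_norm ?_
  rw [← hLy, ← map_sub, norm_smul, norm_smul, L.norm_map]

theorem zz_ge [IsFiniteMeasure μ] {A : ℝ} (hA : 0 < A) (y : E n) :
    μ.real (closedBall y (A / 2)) ≤ zz μ A y := by
  unfold zz
  calc μ.real (closedBall y (A / 2)) = ∫ w, (closedBall y (A / 2)).indicator (fun _ => (1:ℝ)) w ∂μ := by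
        rw [integral_indicator_const _ measurableSet_closedBall, smul_eq_mul, mul_one]
    _ ≤ _ := by
        refine integral_mono ((integrable_const _).indicator measurableSet_closedBall)
          (zz_int A y) fun w => ?_
        by_cases hw : w ∈ closedBall y (A / 2)
        · rw [indicator_of_mem hw]
          show 1 ≤ bu (A⁻¹ • (y - w))
          rw [bu_one]
          rw [mem_closedBall, dist_comm, dist_eq_norm] at hw
          rw [norm_smul, norm_inv, Real.norm_of_nonneg hA.le, inv_mul_eq_div, div_le_iff₀ hA]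
          linarith
        · rw [indicator_of_notMem hw]
          exact bu_nonneg _

/-- balls centred at two points of the sphere -/
theorem ball_rot (hS : Sph μ) (r : ℝ) {y y' : E n} (hy : ‖y‖ = 1) (hy' : ‖y'‖ = 1) :
    μ (closedBall y r) = μ (closedBall y' r) := by
  set L : E n ≃ₗᵢ[ℝ] E n := (ℝ ∙ (y - y'))ᗮ.reflection with hL
  have hLy : L y = y' := Submodule.reflection_sub (by rw [hy, hy'])
  rw [← (hS.inv L).measure_preimage measurableSet_closedBall.nullMeasurableSet (s := closedBall y' r)]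
  congr 1
  ext w
  rw [mem_preimage, mem_closedBall, mem_closedBall, dist_eq_norm, dist_eq_norm, ← hLy, ← map_sub,
    L.norm_map]

/-- all balls of radius `A` are at most a constant times as large as those of radius `A / 2` with
centre on the sphere -/
theorem doubling [IsFiniteMeasure μ] (hS : Sph μ) : ∃ B : ℝ, 1 ≤ B ∧ ∀ A : ℝ, 0 < A →
    ∀ x y : E n, ‖y‖ = 1 → μ.real (closedBall x A) ≤ B * μ.real (closedBall y (A / 2)) := by
  obtain ⟨t, ht1, ht2⟩ := (isCompact_closedBall (0 : E n) 1).elim_nhds_subcover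
    (fun y => ball y (1 / 4)) fun y _ => ball_mem_nhds y (by norm_num)
  refine ⟨t.card + 1, by linarith [(Nat.cast_nonneg t.card : (0:ℝ) ≤ t.card)], fun A hA x y hy => ?_⟩
  have hcov : μ (closedBall x A) ≤ ∑ c ∈ t, μ (closedBall y (A / 2)) := by
    have h1 : closedBall x A ∩ {w | ‖w‖ = 1} ⊆
        ⋃ c ∈ t, (closedBall (x + A • c) (A / 4) ∩ {w | ‖w‖ = 1}) := by
      rintro w ⟨hw, hw1⟩
      have h2 : A⁻¹ • (w - x) ∈ closedBall (0 : E n) 1 := by
        rw [mem_closedBall_zero_iff, norm_smul, norm_inv, Real.norm_of_nonneg hA.le,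
          inv_mul_eq_div, div_le_one hA]
        rw [mem_closedBall, dist_eq_norm] at hw
        exact hw
      have h3 := ht2 h2
      simp only [mem_iUnion, mem_ball, exists_prop] at h3
      obtain ⟨c, hc, hc2⟩ := h3
      simp only [mem_iUnion]
      refine ⟨c, hc, ?_, hw1⟩
      rw [mem_closedBall, dist_eq_norm]
      rw [dist_eq_norm] at hc2
      have e1 : w - (x + A • c) = A • (A⁻¹ • (w - x) - c) := by
        rw [smul_sub, smul_inv_smul₀ hA.ne']
        abel
      rw [e1, norm_smul, Real.norm_of_nonneg hA.le]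
      nlinarith
    have hae : μ (closedBall x A) = μ (closedBall x A ∩ {w | ‖w‖ = 1}) := by
      refine measure_congr ?_
      filter_upwards [hS.ae] with w hw
      have : (w ∈ closedBall x A) = (w ∈ closedBall x A ∩ {w | ‖w‖ = 1}) := by
        simp [hw]
      exact this
    rw [hae]
    refine (measure_mono h1).trans ((measure_biUnion_finset_le t _).trans
      (Finset.sum_le_sum fun c _ => ?_))
    rcases (closedBall (x + A • c) (A / 4) ∩ {w : E n | ‖w‖ = 1}).eq_empty_or_nonempty with h | h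
    · rw [h, measure_empty]; exact zero_le
    · obtain ⟨w, hw, hw1⟩ := h
      rw [ball_rot hS (A / 2) hy hw1]
      refine measure_mono fun z hz => ?_
      have hz1 := hz.1
      rw [mem_closedBall] at hz1 hw ⊢
      have := dist_triangle_right z w (x + A • c)
      linarith
  have h4 : μ.real (closedBall x A) ≤ (t.card : ℝ) * μ.real (closedBall y (A / 2)) := by
    have hfin : (∑ _c ∈ t, μ (closedBall y (A / 2))) ≠ ⊤ := by
      rw [Finset.sum_const, nsmul_eq_mul]
      exact ENNReal.mul_ne_top (ENNReal.natCast_ne_top _) (measure_ne_top _ _)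
    have h5 := ENNReal.toReal_mono hfin hcov
    rw [Finset.sum_const, nsmul_eq_mul, ENNReal.toReal_mul, ENNReal.toReal_natCast] at h5
    exact h5
  have h6 : 0 ≤ μ.real (closedBall y (A / 2)) := measureReal_nonneg
  linarith

/-- the smooth kernel on the sphere -/
noncomputable def KC (μ : Measure (E n)) (A : ℝ) (y : E n) (z w : E n) : ℝ :=
  sb A (zz μ A y) (z - w)

theorem KC_ker [IsFiniteMeasure μ] (hS : Sph μ) {A : ℝ} (hA : 0 < A) {y : E n} (hy : ‖y‖ = 1)
    (hZ : 0 < zz μ A y) : Ker μ A (KC μ A y) := by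
  have hright : ∀ z : E n, ‖z‖ = 1 → ∫ w, KC μ A y z w ∂μ = 1 := fun z hz => by
    unfold KC sb
    rw [integral_const_mul]
    show (zz μ A y)⁻¹ * zz μ A z = 1
    rw [zz_const hS A hz hy]
    exact inv_mul_cancel₀ hZ.ne'
  refine ⟨?_, fun z w => mul_nonneg (inv_nonneg.2 hZ.le) (bu_nonneg _), ?_, fun z w h => ?_,
    ?_, ?_⟩
  · exact (sb_smooth A _).continuous.measurable.comp (measurable_fst.sub measurable_snd)
  · refine ⟨(zz μ A y)⁻¹, fun z w => ?_⟩
    unfold KC sb
    calc (zz μ A y)⁻¹ * bu (A⁻¹ • (z - w)) ≤ (zz μ A y)⁻¹ * 1 :=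
          mul_le_mul_of_nonneg_left (bu_le_one _) (inv_nonneg.2 hZ.le)
      _ = _ := mul_one _
  · exact sb_zero hA h.le
  · filter_upwards [hS.ae] with w hw
    rw [← hright w hw]
    refine integral_congr_ae (Eventually.of_forall fun z => ?_)
    show KC μ A y z w = KC μ A y w z
    unfold KC sb
    rw [bu_norm (v := A⁻¹ • (z - w)) (w := A⁻¹ • (w - z))]
    rw [norm_smul, norm_smul, norm_sub_rev]
  · filter_upwards [hS.ae] with z hz
    exact hright z hz

end Pool.Agent.H222.SP
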