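import Pool.Agent.H222.SP.Ck1

/-!
Bounded real functions as combinations of unimodular functions, for measures on the sphere; from
smooth phases to all functions.
-/

open MeasureTheory Set Filter Metric
open scoped ENNReal NNReal Topology ContDiff

namespace Pool.Agent.H222.SP

open Pool.Agent.H222.ER (lin_series cos_exp)

variable {n : ℕ} {μ : Measure (E n)}

/-- representation of a bounded real function -/
theorem TT_rep [IsFiniteMeasure μ] {Q : Set (E n)} (hQ : MeasurableSet Q) {φ : E n → ℝ}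
    (hφ : Measurable φ) (hφ1 : ∀ ξ ∈ Q, φ ξ ∈ Icc (-1 : ℝ) 1) (x : E n) :
    ‖TT μ (Q.indicator fun ξ => (φ ξ : ℂ)) x‖ₑ ≤ ∑' m : ℕ × Bool,
      ENNReal.ofReal (1 / (m.1 : ℝ) ^ 2) *
        ‖TT μ (uni Q φ ((if m.2 then 1 else -1) * (Real.pi * m.1 / 2))) x‖ₑ := by
  have hπ := Real.pi_pos
  have hπ3 := Real.pi_gt_three
  set c : ℕ → ℝ := fun m => 4 / Real.pi ^ 2 / (m : ℝ) ^ 2 with hc
  have hc0 : ∀ m, 0 ≤ c m := fun m => by rw [hc]; positivity
  have hcle : ∀ m, c m ≤ 1 / (m : ℝ) ^ 2 := fun m => by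
    rw [hc]
    simp only
    gcongr
    rw [div_le_one (by positivity)]
    nlinarith
  have hcs : Summable c := by
    have h1 : Summable fun m : ℕ => 1 / (m : ℝ) ^ 2 :=
      Real.summable_one_div_nat_pow.2 (by norm_num)
    exact Summable.of_nonneg_of_le hc0 hcle h1
  set H : ℕ → E n → ℝ := fun m ξ => c m * (Real.cos (Real.pi * m / 2 - Real.pi * m / 2 * φ ξ) -
        Real.cos (3 * Real.pi * m / 2 - Real.pi * m / 2 * φ ξ)) with hH
  have hHm : ∀ m, Measurable (H m) := fun m => by rw [hH]; fun_prop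
  have hHle : ∀ m ξ, ‖H m ξ‖ ≤ 2 * c m := fun m ξ => by
    rw [hH]
    simp only
    rw [norm_mul, Real.norm_of_nonneg (hc0 m), mul_comm 2]
    refine mul_le_mul_of_nonneg_left ?_ (hc0 m)
    refine (norm_sub_le _ _).trans ?_
    have h1 := Real.abs_cos_le_one (Real.pi * m / 2 - Real.pi * m / 2 * φ ξ)
    have h2 := Real.abs_cos_le_one (3 * Real.pi * m / 2 - Real.pi * m / 2 * φ ξ)
    rw [Real.norm_eq_abs, Real.norm_eq_abs]
    linarith
  set G : ℕ → E n → ℂ := fun m ξ => (Q.indicator (fun ξ => (H m ξ : ℂ)) ξ) * ch ξ x with hG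
  have hGint : ∀ m, Integrable (Q.indicator (fun ξ => (H m ξ : ℂ))) μ := fun m => by
    rw [integrable_indicator_iff hQ]
    refine Integrable.of_bound (Complex.measurable_ofReal.comp (hHm m)).aestronglyMeasurable
      (2 * c m) (Eventually.of_forall fun ξ => ?_)
    rw [Complex.norm_real]
    exact hHle m ξ
  have hGi : ∀ m, Integrable (G m) μ := fun m => TT_int (hGint m) x
  have hQi : Integrable (Q.indicator fun _ => (1 : ℝ)) μ := by
    rw [integrable_indicator_iff hQ]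
    exact integrable_const _
  have hGle : ∀ m ξ, ‖G m ξ‖ ≤ Q.indicator (fun _ => (1 : ℝ)) ξ * (2 * c m) := fun m ξ => by
    rw [hG]
    simp only
    rw [norm_mul, ch_norm, mul_one]
    by_cases hξ : ξ ∈ Q
    · rw [indicator_of_mem hξ, indicator_of_mem hξ, one_mul, Complex.norm_real]
      exact hHle m ξ
    · rw [indicator_of_notMem hξ, indicator_of_notMem hξ]; simp
  have hGs : Summable fun m => ∫ ξ, ‖G m ξ‖ ∂μ := by
    refine Summable.of_nonneg_of_le (fun m => integral_nonneg fun ξ => norm_nonneg _)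
      (fun m => ?_) ((hcs.mul_left 2).mul_left (∫ ξ, Q.indicator (fun _ => (1 : ℝ)) ξ ∂μ))
    calc ∫ ξ, ‖G m ξ‖ ∂μ ≤ ∫ ξ, Q.indicator (fun _ => (1 : ℝ)) ξ * (2 * c m) ∂μ :=
          integral_mono (hGi m).norm (hQi.mul_const _) (hGle m)
      _ = _ := integral_mul_const _ _
  have h1 := hasSum_integral_of_summable_integral_norm hGi hGs
  have h2 : ∫ ξ, ∑' m, G m ξ ∂μ = TT μ (Q.indicator fun ξ => (φ ξ : ℂ)) x := by
    unfold TT
    refine integral_congr_ae (Eventually.of_forall fun ξ => ?_)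
    show ∑' m, G m ξ = (Q.indicator (fun ξ => (φ ξ : ℂ)) ξ) * ch ξ x
    rw [hG]
    simp only
    rw [tsum_mul_right]
    congr 1
    by_cases hξ : ξ ∈ Q
    · simp only [indicator_of_mem hξ]
      rw [← Complex.ofReal_tsum]
      congr 1
      exact (lin_series (hφ1 ξ hξ)).tsum_eq
    · simp only [indicator_of_notMem hξ, tsum_zero]
  rw [← h2, ← h1.tsum_eq]
  refine enorm_tsum_le_tsum_enorm.trans ?_
  rw [ENNReal.tsum_prod']
  refine ENNReal.tsum_le_tsum fun m => ?_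
  rw [tsum_bool]
  simp only [Bool.false_eq_true, if_false, if_true, one_mul, neg_mul]
  set A : ℂ := TT μ (uni Q φ (-(Real.pi * m / 2))) x with hA
  set B : ℂ := TT μ (uni Q φ (Real.pi * m / 2)) x with hB
  have h3 : ∫ ξ, G m ξ ∂μ = c m * ((Complex.exp ((Real.pi * m / 2 : ℝ) * Complex.I) / 2 * A +
      Complex.exp (-(Real.pi * m / 2 : ℝ) * Complex.I) / 2 * B) -
      (Complex.exp ((3 * Real.pi * m / 2 : ℝ) * Complex.I) / 2 * A +
      Complex.exp (-(3 * Real.pi * m / 2 : ℝ) * Complex.I) / 2 * B)) := by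
    have iA := TT_int (μ := μ) (uni_int hQ hφ (-(Real.pi * m / 2))) x
    have iB := TT_int (μ := μ) (uni_int hQ hφ (Real.pi * m / 2)) x
    have e1 : ∀ ξ, G m ξ = (c m * (Complex.exp ((Real.pi * m / 2 : ℝ) * Complex.I) / 2 -
        Complex.exp ((3 * Real.pi * m / 2 : ℝ) * Complex.I) / 2)) *
          (uni Q φ (-(Real.pi * m / 2)) ξ * ch ξ x) +
        (c m * (Complex.exp (-(Real.pi * m / 2 : ℝ) * Complex.I) / 2 -
        Complex.exp (-(3 * Real.pi * m / 2 : ℝ) * Complex.I) / 2)) *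
          (uni Q φ (Real.pi * m / 2) ξ * ch ξ x) := fun ξ => by
      rw [hG]
      simp only
      unfold uni
      by_cases hξ : ξ ∈ Q
      · simp only [indicator_of_mem hξ]
        rw [hH]
        simp only
        rw [Complex.ofReal_mul, Complex.ofReal_sub, cos_exp, cos_exp]
        have e2 : -(Real.pi * m / 2) * φ ξ = -(Real.pi * m / 2 * φ ξ) := by ring
        rw [e2]
        ring
      · simp only [indicator_of_notMem hξ]
        ring
    rw [integral_congr_ae (Eventually.of_forall e1), integral_add (iA.const_mul _) (iB.const_mul _),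
      integral_const_mul, integral_const_mul]
    show _ * A + _ * B = _
    ring
  rw [h3]
  have hn : ∀ α : ℝ, ‖Complex.exp ((α : ℝ) * Complex.I) / 2‖ₑ = 2⁻¹ := fun α => by
    rw [← ofReal_norm, norm_div, Complex.norm_exp_ofReal_mul_I, Complex.norm_ofNat, one_div,
      ENNReal.ofReal_inv_of_pos (by norm_num), ENNReal.ofReal_ofNat]
  have hn' : ∀ α : ℝ, ‖Complex.exp (-(α : ℝ) * Complex.I) / 2‖ₑ = 2⁻¹ := fun α => by
    have := hn (-α)
    push_cast at this
    exact this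
  have hcm : ‖((c m : ℝ) : ℂ)‖ₑ ≤ ENNReal.ofReal (1 / (m : ℝ) ^ 2) := by
    rw [← ofReal_norm, Complex.norm_real, Real.norm_of_nonneg (hc0 m)]
    exact ENNReal.ofReal_le_ofReal (hcle m)
  rw [enorm_mul, ← mul_add]
  refine mul_le_mul' hcm ?_
  refine (enorm_sub_le).trans ?_
  have h4 : ∀ α : ℝ, ‖Complex.exp ((α : ℝ) * Complex.I) / 2 * A +
      Complex.exp (-(α : ℝ) * Complex.I) / 2 * B‖ₑ ≤ 2⁻¹ * (‖A‖ₑ + ‖B‖ₑ) := fun α => by
    refine (enorm_add_le _ _).trans ?_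
    rw [enorm_mul, enorm_mul, hn, hn', mul_add]
  calc _ ≤ 2⁻¹ * (‖A‖ₑ + ‖B‖ₑ) + 2⁻¹ * (‖A‖ₑ + ‖B‖ₑ) := add_le_add (h4 _) (h4 _)
    _ = ‖A‖ₑ + ‖B‖ₑ := by rw [← add_mul, ENNReal.inv_two_add_inv_two, one_mul]

/-- the estimate for the phases `R φ`, the derivatives of `φ` of order at most `k` bounded by one -/
def SL (μ : Measure (E n)) (U : Set (E n)) (k : ℕ) (q τ : ℝ) : Prop :=
  ∃ C : ℝ≥0, ∀ φ : E n → ℝ, ContDiff ℝ ∞ φ → (∀ j ≤ k, ∀ ξ, ‖iteratedFDeriv ℝ j φ ξ‖ ≤ 1) →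
    ∀ R : ℝ, 1 ≤ R → NN μ q (BB n R) (uni U φ R) ≤ C * ENNReal.ofReal (R ^ τ)

/-- **From smooth phases to all real functions on a cap.** -/
theorem ck_cap [IsFiniteMeasure μ] (hS : Sph μ) (hn : 1 ≤ n) {U : Set (E n)}
    (hU : MeasurableSet U) {x₀ : E n}
    {r₀ : ℝ} (hr₀ : 0 < r₀) (hrU : ∀ ξ : E n, ‖ξ‖ = 1 → ξ ∈ ball x₀ (2 * r₀) → ξ ∈ U)
    {q τ : ℝ} (hq : 1 ≤ q) {k : ℕ} (hk : 1 ≤ k) (hτ1 : τ < 1)
    (h : SL μ U k q τ) : ∃ C : ℝ≥0, ∀ R : ℝ, 1 ≤ R → ∀ f, FRB μ x₀ r₀ f →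
      NN μ q (BB n R) f ≤ C * ENNReal.ofReal (R ^ (k * τ)) := by
  obtain ⟨C, hC⟩ := h
  obtain ⟨y, hy⟩ := hS.ne
  have hπ := Real.pi_pos
  have hπ3 := Real.pi_gt_three
  have hn1 : (1 : ℝ) ≤ n := by exact_mod_cast hn
  have hn0 : (0 : ℝ) < n := by linarith
  have hq0 : 0 < q := by linarith
  obtain ⟨M, hM1, hM⟩ := bu_deriv n k
  obtain ⟨B₀, hB₀1, hB₀⟩ := doubling hS
  obtain ⟨r, hr0, hr1, hrr⟩ : ∃ r : ℝ, 0 < r ∧ r ≤ 1 ∧ r ≤ r₀ :=
    ⟨min 1 r₀, lt_min one_pos hr₀, min_le_left _ _, min_le_right _ _⟩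
  set B : ℝ := M * B₀ with hB
  have hB1 : 1 ≤ B := one_le_mul_of_one_le_of_one_le hM1 hB₀1
  set κ : ℝ := 8 * Real.pi * n / r with hκ
  have hκ0 : 0 < κ := by positivity
  have hκ1 : 1 ≤ κ := by
    rw [hκ, le_div_iff₀ hr0]
    nlinarith
  set W : ℝ≥0∞ := ∑' m : ℕ × Bool, ENNReal.ofReal (1 / (m.1 : ℝ) ^ 2) with hW
  set Z : ℝ≥0∞ := ∑' m : ℕ × Bool, ENNReal.ofReal (1 / (m.1 : ℝ) ^ (2 - τ)) with hZ
  have hfin : ∀ s : ℝ, 1 < s → (∑' m : ℕ × Bool, ENNReal.ofReal (1 / (m.1 : ℝ) ^ s)) ≠ ⊤ :=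
    fun s hs => by
      have h1 : Summable fun m : ℕ => 1 / (m : ℝ) ^ s := Real.summable_one_div_nat_rpow.2 hs
      have h2 : ∑' m : ℕ, ENNReal.ofReal (1 / (m : ℝ) ^ s) ≠ ⊤ := by
        rw [← ENNReal.ofReal_tsum_of_nonneg (fun m => by positivity) h1]
        exact ENNReal.ofReal_ne_top
      rw [ENNReal.tsum_prod']
      simp only [tsum_bool]
      rw [ENNReal.tsum_add]
      exact ENNReal.add_ne_top.2 ⟨h2, h2⟩
  have hWt : W ≠ ⊤ := by
    have := hfin 2 (by norm_num)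
    simpa only [Real.rpow_two] using this
  have hZt : Z ≠ ⊤ := hfin (2 - τ) (by linarith)
  set A : ℝ := (Real.pi / 2 * B) ^ τ * (κ ^ k) ^ τ with hA
  set K : ℝ≥0∞ := 2 ^ q * (W ^ (q - 1) * (Z * (C * ENNReal.ofReal A))) with hK
  have hKt : K ≠ ⊤ := ENNReal.mul_ne_top (by simp) (ENNReal.mul_ne_top
    (ENNReal.rpow_ne_top_of_nonneg (by linarith) hWt) (ENNReal.mul_ne_top hZt
      (ENNReal.mul_ne_top ENNReal.coe_ne_top ENNReal.ofReal_ne_top)))
  refine ⟨K.toNNReal, fun R hR f hf => ?_⟩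
  rw [ENNReal.coe_toNNReal hKt]
  have hR0 : 0 < R := by linarith
  set ρ : ℝ := 1 / (κ * R) with hρ
  have hρ0 : 0 < ρ := by rw [hρ]; positivity
  have hρi : ρ⁻¹ = κ * R := by rw [hρ, one_div, inv_inv]
  have hρi1 : 1 ≤ ρ⁻¹ := by rw [hρi]; nlinarith
  have hρR : R ≤ ρ⁻¹ := by rw [hρi]; nlinarith
  have hρr : ρ ≤ r := by
    rw [hρ, div_le_iff₀ (by positivity), hκ]
    have e1 : r * (8 * Real.pi * n / r * R) = 8 * Real.pi * n * R := by field_simp
    rw [e1]
    have h1 : 1 ≤ n * R := by nlinarith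
    nlinarith
  have hρR2 : 8 * Real.pi * n * R * ρ ≤ 1 := by
    have e1 : 8 * Real.pi * n * R * ρ = r := by
      rw [hρ, hκ]; field_simp
    rw [e1]; exact hr1
  have hz0 : 0 < zz μ ρ y := by
    obtain ⟨c, hc0, hc⟩ := hS.low
    refine lt_of_lt_of_le ?_ (zz_ge hρ0 y)
    exact lt_of_lt_of_le (by positivity) (hc (ρ / 2) (by positivity) (by linarith) y hy)
  have hKer := KC_ker hS hρ0 hy hz0
  -- real functions
  have hreal : ∀ f, FRB μ x₀ r₀ f → ∃ w : E n → ℝ, ContDiff ℝ ∞ w ∧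
      (∀ ξ : E n, ‖ξ‖ = 1 → ‖w ξ‖ ≤ 1) ∧ (∀ ξ, ξ ∉ ball x₀ (2 * r₀) → w ξ = 0) ∧
      (∀ j ≤ k, ∀ ξ, ‖iteratedFDeriv ℝ j w ξ‖ ≤ (ρ⁻¹) ^ j * B) ∧
      AV μ (KC μ ρ y) f = fun ξ => (w ξ : ℂ) := fun f hf => by
    set u : E n → ℝ := fun ξ => max (-1) (min 1 (f ξ).re) with hudef
    have hu : Measurable u :=
      measurable_const.max (measurable_const.min (Complex.measurable_re.comp hf.1.1))
    have hu1 : ∀ ξ, ‖u ξ‖ ≤ 1 := fun ξ => by
      rw [Real.norm_eq_abs, abs_le]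
      exact ⟨le_max_left _ _, max_le (by norm_num) (min_le_left _ _)⟩
    have hfu : ∀ᵐ ξ ∂μ, f ξ = (u ξ : ℂ) := by
      filter_upwards [hf.1.2.2, hf.1.2.1] with ξ hξ hξ1
      have h1 := (Complex.abs_re_le_norm _).trans hξ1
      rw [abs_le] at h1
      have h2 : u ξ = (f ξ).re := by
        rw [hudef]
        simp only
        rw [min_eq_right h1.2, max_eq_right h1.1]
      rw [h2]
      apply Complex.ext
      · simp
      · simp [hξ]
    refine ⟨cv μ u (sb ρ (zz μ ρ y)), cv_smooth (sb_smooth _ _) (sb_compact hρ0) hu hu1,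
      fun ξ hξ => ?_, fun ξ hξ => ?_, fun j hj ξ => ?_, ?_⟩
    · have h2 : ∫ η, KC μ ρ y ξ η ∂μ = 1 := by
        unfold KC sb
        rw [integral_const_mul]
        show (zz μ ρ y)⁻¹ * zz μ ρ ξ = 1
        rw [zz_const hS ρ hξ hy]
        exact inv_mul_cancel₀ hz0.ne'
      rw [← h2]
      refine norm_integral_le_of_norm_le (K_int' hKer ξ) (Eventually.of_forall fun η => ?_)
      have h3 := hKer.nonneg ξ η
      rw [norm_smul]
      show ‖u η‖ * ‖KC μ ρ y ξ η‖ ≤ KC μ ρ y ξ η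
      rw [Real.norm_of_nonneg h3]
      calc ‖u η‖ * KC μ ρ y ξ η ≤ 1 * KC μ ρ y ξ η := mul_le_mul_of_nonneg_right (hu1 η) h3
        _ = _ := one_mul _
    · have h1 : ∀ᵐ η ∂μ, u η • sb ρ (zz μ ρ y) (ξ - η) = 0 := by
        filter_upwards [hf.2] with η hη
        by_cases hη2 : η ∈ ball x₀ r₀
        · rw [sb_zero hρ0, smul_zero]
          rw [mem_ball, not_lt] at hξ
          rw [mem_ball] at hη2
          have h3 := dist_triangle ξ η x₀
          rw [← dist_eq_norm]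
          linarith
        · have : u η = 0 := by
            rw [hudef]
            simp [hη hη2]
          rw [this, zero_smul]
      unfold cv
      rw [integral_congr_ae h1, integral_zero]
    · refine (cv_deriv j _ (sb_smooth _ _) (sb_compact hρ0) u hu hu1 ξ).trans ?_
      have h1 : ∀ t, ‖iteratedFDeriv ℝ j (sb ρ (zz μ ρ y)) (ξ - t)‖ ≤
          (closedBall ξ ρ).indicator (fun _ => (zz μ ρ y)⁻¹ * (ρ⁻¹) ^ j * M) t := fun t => by
        refine (sb_deriv hρ0 hz0 (hM j hj) (ξ - t)).trans (le_of_eq ?_)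
        by_cases ht : t ∈ closedBall ξ ρ
        · rw [indicator_of_mem ht, indicator_of_mem]
          rw [mem_closedBall, dist_comm, dist_eq_norm] at ht
          rwa [mem_closedBall_zero_iff]
        · rw [indicator_of_notMem ht, indicator_of_notMem]
          rw [mem_closedBall, dist_comm, dist_eq_norm] at ht
          rwa [mem_closedBall_zero_iff]
      have h2 : ∫ t, ‖iteratedFDeriv ℝ j (sb ρ (zz μ ρ y)) (ξ - t)‖ ∂μ ≤
          ∫ t, (closedBall ξ ρ).indicator (fun _ => (zz μ ρ y)⁻¹ * (ρ⁻¹) ^ j * M) t ∂μ := by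
        refine integral_mono_of_nonneg (Eventually.of_forall fun t => norm_nonneg _)
          ((integrable_const _).indicator measurableSet_closedBall) (Eventually.of_forall h1)
      refine h2.trans ?_
      rw [integral_indicator_const _ measurableSet_closedBall, smul_eq_mul]
      have h3 := hB₀ ρ hρ0 ξ y hy
      have h4 := zz_ge (μ := μ) hρ0 y
      have h5 : μ.real (closedBall ξ ρ) ≤ B₀ * zz μ ρ y :=
        h3.trans (mul_le_mul_of_nonneg_left h4 (by linarith))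
      calc μ.real (closedBall ξ ρ) * ((zz μ ρ y)⁻¹ * ρ⁻¹ ^ j * M)
          ≤ (B₀ * zz μ ρ y) * ((zz μ ρ y)⁻¹ * ρ⁻¹ ^ j * M) := by gcongr
        _ = ρ⁻¹ ^ j * B := by rw [hB]; field_simp
    · funext ξ
      unfold AV cv
      rw [← integral_complex_ofReal]
      refine integral_congr_ae ?_
      filter_upwards [hfu] with η hη
      rw [hη]
      unfold KC
      rw [smul_eq_mul, Complex.ofReal_mul]
  have hUae : ∀ w : E n → ℝ, (∀ ξ, ξ ∉ ball x₀ (2 * r₀) → w ξ = 0) →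
      (fun ξ => (w ξ : ℂ)) =ᵐ[μ] U.indicator fun ξ => (w ξ : ℂ) := fun w hw => by
    filter_upwards [hS.ae] with ξ hξ
    by_cases hξU : ξ ∈ U
    · rw [indicator_of_mem hξU]
    · rw [indicator_of_notMem hξU, hw ξ fun h => hξU (hrU ξ hξ h)]
      rfl
  -- functions bounded by one on the sphere only
  have hmain : ∀ f, FRB μ x₀ r₀ f → NN μ q (BB n R) (AV μ (KC μ ρ y) f) ≤
      W ^ (q - 1) * (Z * (C * ENNReal.ofReal A)) * ENNReal.ofReal (R ^ (k * τ)) := fun f hf => by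
    obtain ⟨w, hs, hs1, hs0, hsd, hav⟩ := hreal f hf
    rw [hav, NN_congr (hUae w hs0)]
    have hwm : Measurable w := hs.continuous.measurable
    -- the part of the set on the sphere
    set V : Set (E n) := U ∩ sphere 0 1 with hV
    have hVm : MeasurableSet V := hU.inter isClosed_sphere.measurableSet
    have hVU : ∀ g : E n → ℂ, (U.indicator g) =ᵐ[μ] V.indicator g := fun g => by
      filter_upwards [hS.ae] with ξ hξ
      by_cases hξU : ξ ∈ U
      · rw [indicator_of_mem hξU, indicator_of_mem (show ξ ∈ V from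
          ⟨hξU, mem_sphere_zero_iff_norm.2 hξ⟩)]
      · rw [indicator_of_notMem hξU, indicator_of_notMem fun h => hξU h.1]
    have huV : ∀ (φ : E n → ℝ) (s : ℝ), NN μ q (BB n R) (uni V φ s) = NN μ q (BB n R) (uni U φ s) :=
      fun φ s => NN_congr (hVU _).symm
    rw [NN_congr (hVU _)]
    have hwI : ∀ ξ ∈ V, w ξ ∈ Icc (-1 : ℝ) 1 := fun ξ hξ => by
      have := hs1 ξ (mem_sphere_zero_iff_norm.1 hξ.2)
      rw [Real.norm_eq_abs] at this
      exact abs_le.1 this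
    have h1 := NN_series (μ := μ) (ι := ℕ × Bool) hq (B := BB n R) isClosed_closedBall.measurableSet
      (F := fun x => ‖TT μ (V.indicator fun ξ => (w ξ : ℂ)) x‖ₑ)
      (fun m => ENNReal.ofReal (1 / (m.1 : ℝ) ^ 2))
      (fun m => uni V w ((if m.2 then 1 else -1) * (Real.pi * m.1 / 2)))
      (fun m => uni_int hVm hwm _)
      (fun x _ => TT_rep hVm hwm hwI x)
    refine h1.trans ?_
    rw [mul_assoc]
    refine mul_le_mul' le_rfl ?_
    rw [hZ, mul_assoc, ← ENNReal.tsum_mul_right]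
    refine ENNReal.tsum_le_tsum fun m => ?_
    rcases Nat.eq_zero_or_pos m.1 with hm | hm
    · rw [hm]
      simp
    have hm1 : (1 : ℝ) ≤ m.1 := by exact_mod_cast hm
    have hm0 : (0 : ℝ) < m.1 := by linarith
    set sg : ℝ := if m.2 then 1 else -1 with hsg
    have hsg1 : |sg| = 1 := by
      rw [hsg]; split_ifs <;> simp
    set r : ℝ := Real.pi / 2 * B * m.1 * (ρ⁻¹) ^ k with hr
    have hρk : R ≤ (ρ⁻¹) ^ k := hρR.trans (le_self_pow₀ hρi1 (by omega))
    have hπB : 1 ≤ Real.pi / 2 * B * m.1 :=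
      one_le_mul_of_one_le_of_one_le (one_le_mul_of_one_le_of_one_le (by linarith) hB1) hm1
    have hrR : R ≤ r := by
      calc R = 1 * R := (one_mul _).symm
        _ ≤ r := by rw [hr]; gcongr
    have hr1 : 1 ≤ r := hR.trans hrR
    have hr0 : 0 < r := by linarith
    set φ : E n → ℝ := fun ξ => sg * (ρ ^ k / B) * w ξ with hφ
    have hφs : ContDiff ℝ ∞ φ := contDiff_const.mul hs
    have hφd : ∀ j ≤ k, ∀ ξ, ‖iteratedFDeriv ℝ j φ ξ‖ ≤ 1 := fun j hj ξ => by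
      have e1 : φ = (sg * (ρ ^ k / B)) • w := by funext ξ; rfl
      rw [e1, iteratedFDeriv_const_smul_apply ((hs.of_le (by exact_mod_cast le_top)).contDiffAt),
        norm_smul, norm_mul, Real.norm_eq_abs, hsg1, one_mul,
        Real.norm_of_nonneg (by positivity)]
      calc ρ ^ k / B * ‖iteratedFDeriv ℝ j w ξ‖ ≤ ρ ^ k / B * ((ρ⁻¹) ^ j * B) := by
            gcongr
            exact hsd j hj ξ
        _ = ρ ^ k * (ρ⁻¹) ^ j := by field_simp
        _ ≤ ρ ^ k * (ρ⁻¹) ^ k := by gcongr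
        _ = 1 := by rw [← mul_pow, mul_inv_cancel₀ hρ0.ne', one_pow]
    have huni : uni V w (sg * (Real.pi * m.1 / 2)) = uni V φ r := by
      unfold uni
      congr 1
      funext ξ
      congr 3
      rw [hφ, hr]
      have e2 : ρ ^ k * (ρ⁻¹) ^ k = 1 := by rw [← mul_pow, mul_inv_cancel₀ hρ0.ne', one_pow]
      have e3 : Real.pi / 2 * B * m.1 * ρ⁻¹ ^ k * (sg * (ρ ^ k / B) * w ξ) =
          sg * (Real.pi * m.1 / 2) * w ξ * (ρ ^ k * ρ⁻¹ ^ k) * (B / B) := by ring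
      simp only
      rw [e3, e2, div_self (by linarith : B ≠ 0)]
      ring
    rw [huni, huV]
    have h2 := (NN_mono q (closedBall_subset_closedBall hrR) (uni U φ r)).trans
      (hC φ hφs hφd r hr1)
    have h3 : r ^ τ = (m.1 : ℝ) ^ τ * (A * R ^ (k * τ)) := by
      have hR' : (R ^ k : ℝ) ^ τ = R ^ (k * τ) := by
        rw [← Real.rpow_natCast, ← Real.rpow_mul hR0.le]
      rw [hr, hρi, hA, mul_pow, Real.mul_rpow (x := Real.pi / 2 * B * m.1) (by positivity)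
        (by positivity), Real.mul_rpow (x := Real.pi / 2 * B) (by positivity) hm0.le,
        Real.mul_rpow (x := κ ^ k) (by positivity) (by positivity), hR']
      ring
    calc ENNReal.ofReal (1 / (m.1 : ℝ) ^ 2) * NN μ q (BB n R) (uni U φ r)
        ≤ ENNReal.ofReal (1 / (m.1 : ℝ) ^ 2) * (C * ENNReal.ofReal (r ^ τ)) := by gcongr
      _ = ENNReal.ofReal (1 / (m.1 : ℝ) ^ (2 - τ)) *
          (C * ENNReal.ofReal A * ENNReal.ofReal (R ^ (k * τ))) := by
          rw [h3, ENNReal.ofReal_mul (by positivity), ENNReal.ofReal_mul (by positivity)]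
          have e1 : ENNReal.ofReal (1 / (m.1 : ℝ) ^ (2 - τ)) =
              ENNReal.ofReal (1 / (m.1 : ℝ) ^ 2) * ENNReal.ofReal ((m.1 : ℝ) ^ τ) := by
            rw [← ENNReal.ofReal_mul (by positivity)]
            congr 1
            rw [Real.rpow_sub hm0, Real.rpow_two]
            have := Real.rpow_pos_of_pos hm0 τ
            field_simp
          rw [e1]
          ring
  refine (avg_reduce (Cl.FRB μ x₀ r₀) hq hR hρ0 hρR2 hKer (fun f hf => ?_)
    hmain hf).trans (le_of_eq ?_)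
  · obtain ⟨w, hs, hs1, hs0, hsd, hav⟩ := hreal f hf
    rw [hav]
    refine Integrable.of_bound
      (Complex.measurable_ofReal.comp hs.continuous.measurable).aestronglyMeasurable 1 ?_
    filter_upwards [hS.ae] with ξ hξ
    show ‖((w ξ : ℝ) : ℂ)‖ ≤ 1
    rw [Complex.norm_real]; exact hs1 ξ hξ
  · rw [hK]
    ring

/-- **From smooth phases to bounded functions on the sphere.** -/
theorem Est_of_SL [IsFiniteMeasure μ] (hS : Sph μ) (hn : 1 ≤ n) {U : Set (E n)}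
    (hU : MeasurableSet U) {x₀ : E n} (hx₀ : ‖x₀‖ = 1)
    {r : ℝ} (hr : 0 < r) (hrU : ∀ ξ : E n, ‖ξ‖ = 1 → ξ ∈ ball x₀ r → ξ ∈ U)
    {q τ : ℝ} (hq : 1 ≤ q) {k : ℕ} (hk : 1 ≤ k) (hτ1 : τ < 1) (h : SL μ U k q τ) :
    Est μ q (k * τ) := by
  refine est_of_cap hS hx₀ (r := r / 2) (by positivity) hq
    (ck_cap hS hn hU (by positivity) ?_ hq hk hτ1 h)
  rwa [mul_div_cancel₀ _ (two_ne_zero : (2 : ℝ) ≠ 0)]

theorem SL_of_Est {U : Set (E n)} (hU : MeasurableSet U) {q τ : ℝ}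
    (k : ℕ) (h : Est μ q τ) : SL μ U k q τ := by
  obtain ⟨C, hC⟩ := h
  exact ⟨C, fun φ hφ _ R hR => hC (uni U φ R) (uni_meas hU hφ.continuous.measurable R)
    (uni_le _ _ _) R hR⟩

end Pool.Agent.H222.SP
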