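import Mathlib

/-!
Fourier transforms of densities with respect to a finite measure: basic facts, local norms.
-/

open MeasureTheory Set Filter Metric
open scoped ENNReal NNReal Topology

namespace Pool.Agent.H222.SP

/-- Euclidean space -/
abbrev E (n : ℕ) := EuclideanSpace ℝ (Fin n)

variable {n : ℕ}

/-- characters -/
noncomputable def ch (ξ x : E n) : ℂ :=
  Complex.exp ((-(2 * Real.pi * inner ℝ ξ x) : ℝ) * Complex.I)

theorem ch_norm (ξ x : E n) : ‖ch ξ x‖ = 1 := by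
  unfold ch; rw [Complex.norm_exp_ofReal_mul_I]

theorem ch_enorm (ξ x : E n) : ‖ch ξ x‖ₑ = 1 := by
  rw [← ofReal_norm, ch_norm, ENNReal.ofReal_one]

theorem ch_cont_left (x : E n) : Continuous fun ξ : E n => ch ξ x := by
  unfold ch
  fun_prop

theorem ch_cont_right (ξ : E n) : Continuous fun x : E n => ch ξ x := by
  unfold ch
  fun_prop

theorem ch_cont : Continuous fun p : E n × E n => ch p.1 p.2 := by
  unfold ch
  fun_prop

theorem ch_add (ξ x y : E n) : ch ξ (x + y) = ch ξ x * ch ξ y := by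
  unfold ch
  rw [← Complex.exp_add]
  congr 1
  rw [inner_add_right]
  push_cast
  ring

theorem ch_add_left (ξ η x : E n) : ch (ξ + η) x = ch ξ x * ch η x := by
  unfold ch
  rw [← Complex.exp_add]
  congr 1
  rw [inner_add_left]
  push_cast
  ring

theorem ch_neg (ξ x : E n) : ch ξ (-x) = (starRingEnd ℂ) (ch ξ x) := by
  unfold ch
  rw [← Complex.exp_conj]
  congr 1
  rw [inner_neg_right, map_mul, Complex.conj_ofReal, Complex.conj_I]
  push_cast
  ring

theorem ch_zero (ξ : E n) : ch ξ 0 = 1 := by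
  unfold ch; simp

theorem ch_zero_left (x : E n) : ch 0 x = 1 := by
  unfold ch; simp

theorem ch_map (T : E n ≃ₗᵢ[ℝ] E n) (ξ x : E n) : ch (T ξ) (T x) = ch ξ x := by
  unfold ch
  rw [T.inner_map_map]

/-- the Fourier transform of the measure `f dμ` -/
noncomputable def TT (μ : Measure (E n)) (f : E n → ℂ) (x : E n) : ℂ := ∫ ξ, f ξ * ch ξ x ∂μ

variable {μ : Measure (E n)}

theorem TT_int {f : E n → ℂ} (hf : Integrable f μ) (x : E n) :
    Integrable (fun ξ => f ξ * ch ξ x) μ := by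
  have h1 := (ch_cont_left x).aestronglyMeasurable (μ := μ)
  exact hf.mul_bdd (c := 1) h1 (Eventually.of_forall fun ξ => (ch_norm ξ x).le)

theorem TT_add {f g : E n → ℂ} (hf : Integrable f μ) (hg : Integrable g μ) (x : E n) :
    TT μ (fun ξ => f ξ + g ξ) x = TT μ f x + TT μ g x := by
  unfold TT
  rw [← integral_add (TT_int hf x) (TT_int hg x)]
  refine integral_congr_ae (Eventually.of_forall fun ξ => ?_)
  show (f ξ + g ξ) * ch ξ x = f ξ * ch ξ x + g ξ * ch ξ x
  ring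

theorem TT_smul (c : ℂ) (f : E n → ℂ) (x : E n) :
    TT μ (fun ξ => c * f ξ) x = c * TT μ f x := by
  unfold TT
  rw [← integral_const_mul]
  refine integral_congr_ae (Eventually.of_forall fun ξ => ?_)
  show c * f ξ * ch ξ x = c * (f ξ * ch ξ x)
  ring

theorem TT_sub {f g : E n → ℂ} (hf : Integrable f μ) (hg : Integrable g μ) (x : E n) :
    TT μ (fun ξ => f ξ - g ξ) x = TT μ f x - TT μ g x := by
  unfold TT
  rw [← integral_sub (TT_int hf x) (TT_int hg x)]
  refine integral_congr_ae (Eventually.of_forall fun ξ => ?_)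
  show (f ξ - g ξ) * ch ξ x = f ξ * ch ξ x - g ξ * ch ξ x
  ring

theorem TT_le (f : E n → ℂ) (x : E n) : ‖TT μ f x‖ₑ ≤ ∫⁻ ξ, ‖f ξ‖ₑ ∂μ := by
  unfold TT
  refine (enorm_integral_le_lintegral_enorm _).trans (lintegral_mono fun ξ => ?_)
  rw [enorm_mul, ch_enorm, mul_one]

theorem TT_cont {f : E n → ℂ} (hf : Integrable f μ) : Continuous (TT μ f) := by
  unfold TT
  refine continuous_of_dominated (bound := fun ξ => ‖f ξ‖) ?_ ?_ hf.norm ?_
  · exact fun x => (TT_int hf x).aestronglyMeasurable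
  · exact fun x => Eventually.of_forall fun ξ => by rw [norm_mul, ch_norm, mul_one]
  · exact Eventually.of_forall fun ξ => continuous_const.mul (ch_cont_right ξ)

theorem TT_meas {f : E n → ℂ} (hf : Integrable f μ) : Measurable fun x => ‖TT μ f x‖ₑ :=
  (TT_cont hf).measurable.enorm

/-- modulation of `f` is a translation of `TT f` -/
theorem TT_mod (f : E n → ℂ) (y x : E n) :
    TT μ (fun ξ => f ξ * ch ξ y) x = TT μ f (x + y) := by
  unfold TT
  refine integral_congr_ae (Eventually.of_forall fun ξ => ?_)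
  show f ξ * ch ξ y * ch ξ x = f ξ * ch ξ (x + y)
  rw [ch_add]; ring

/-- rotation of `f` -/
theorem TT_rot {T : E n ≃ₗᵢ[ℝ] E n} (hT : MeasurePreserving T μ μ) (f : E n → ℂ) (x : E n) :
    TT μ (fun ξ => f (T ξ)) x = TT μ f (T x) := by
  unfold TT
  have hemb : MeasurableEmbedding T := T.toHomeomorph.measurableEmbedding
  rw [← hT.integral_comp hemb (fun η => f η * ch η (T x))]
  refine integral_congr_ae (Eventually.of_forall fun ξ => ?_)
  show f (T ξ) * ch ξ x = f (T ξ) * ch (T ξ) (T x)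
  rw [ch_map]

/-- balls in the space of positions -/
abbrev BB (n : ℕ) (R : ℝ) : Set (E n) := closedBall (0 : E n) R

theorem BB_meas (R : ℝ) : MeasurableSet (BB n R) := isClosed_closedBall.measurableSet

/-- local norm, to the power `q` -/
noncomputable def NN (μ : Measure (E n)) (q : ℝ) (B : Set (E n)) (f : E n → ℂ) : ℝ≥0∞ :=
  ∫⁻ x in B, ‖TT μ f x‖ₑ ^ q

theorem NN_mono (q : ℝ) {B B' : Set (E n)} (h : B ⊆ B') (f : E n → ℂ) :
    NN μ q B f ≤ NN μ q B' f :=
  lintegral_mono_set h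

theorem NN_smul {q : ℝ} (hq : 0 ≤ q) (B : Set (E n)) (c : ℂ) (f : E n → ℂ) :
    NN μ q B (fun ξ => c * f ξ) = ‖c‖ₑ ^ q * NN μ q B f := by
  unfold NN
  rw [← lintegral_const_mul' _ _ (ENNReal.rpow_ne_top_of_nonneg hq enorm_ne_top)]
  refine lintegral_congr fun x => ?_
  rw [TT_smul, enorm_mul, ENNReal.mul_rpow_of_nonneg _ _ hq]

theorem TT_congr {f g : E n → ℂ} (h : f =ᵐ[μ] g) : TT μ f = TT μ g := by
  funext x
  refine integral_congr_ae ?_
  filter_upwards [h] with ξ hξ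
  rw [hξ]

theorem NN_congr {q : ℝ} {B : Set (E n)} {f g : E n → ℂ} (h : f =ᵐ[μ] g) :
    NN μ q B f = NN μ q B g := by
  unfold NN
  rw [TT_congr h]

/-- triangle inequality -/
theorem NN_add {q : ℝ} (hq : 1 ≤ q) (B : Set (E n)) {f g : E n → ℂ} (hf : Integrable f μ)
    (hg : Integrable g μ) :
    (NN μ q B fun ξ => f ξ + g ξ) ^ (1 / q) ≤ NN μ q B f ^ (1 / q) + NN μ q B g ^ (1 / q) := by
  have h1 := ENNReal.lintegral_Lp_add_le (μ := (volume : Measure (E n)).restrict B) (p := q)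
    (TT_meas hf).aemeasurable (TT_meas hg).aemeasurable hq
  refine le_trans ?_ h1
  unfold NN
  refine ENNReal.rpow_le_rpow (lintegral_mono fun x => ?_) (by positivity)
  refine ENNReal.rpow_le_rpow ?_ (by linarith)
  rw [TT_add hf hg]
  exact enorm_add_le _ _

theorem NN_add' {q : ℝ} (hq : 1 ≤ q) (B : Set (E n)) {f g : E n → ℂ} (hf : Integrable f μ)
    (hg : Integrable g μ) :
    (NN μ q B fun ξ => f ξ + g ξ) ≤ 2 ^ (q - 1) * (NN μ q B f + NN μ q B g) := by
  have h0 : Measurable fun x => ‖TT μ f x‖ₑ ^ q := (TT_meas hf).pow_const q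
  unfold NN
  rw [← lintegral_add_left h0, ← lintegral_const_mul' _ _ (by simp)]
  refine lintegral_mono fun x => ?_
  refine le_trans ?_ (ENNReal.rpow_add_le_mul_rpow_add_rpow _ _ hq)
  refine ENNReal.rpow_le_rpow ?_ (by linarith)
  rw [TT_add hf hg]
  exact enorm_add_le _ _

/-- trivial bound -/
theorem NN_triv {q : ℝ} (hq : 0 ≤ q) (B : Set (E n)) (f : E n → ℂ) {A : ℝ≥0∞}
    (hA : ∫⁻ ξ, ‖f ξ‖ₑ ∂μ ≤ A) : NN μ q B f ≤ A ^ q * volume B := by
  unfold NN
  calc ∫⁻ x in B, ‖TT μ f x‖ₑ ^ q ≤ ∫⁻ _ in B, A ^ q :=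
        lintegral_mono fun x => ENNReal.rpow_le_rpow ((TT_le f x).trans hA) hq
    _ = A ^ q * volume B := by rw [setLIntegral_const]

theorem integrable_of_bdd [IsFiniteMeasure μ] {f : E n → ℂ} (hf : Measurable f) {M : ℝ}
    (hM : ∀ ξ, ‖f ξ‖ ≤ M) : Integrable f μ :=
  Integrable.of_bound hf.aestronglyMeasurable M (Eventually.of_forall hM)

/-- local norms and rotations -/
theorem NN_rot (q : ℝ) {T : E n ≃ₗᵢ[ℝ] E n} (hT : MeasurePreserving T μ μ) (f : E n → ℂ) (R : ℝ) :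
    NN μ q (BB n R) (fun ξ => f (T ξ)) = NN μ q (BB n R) f := by
  have hemb : MeasurableEmbedding T := T.toHomeomorph.measurableEmbedding
  have hpre : (T : E n → E n) ⁻¹' (BB n R) = BB n R := by
    ext x
    rw [mem_preimage, mem_closedBall_zero_iff, mem_closedBall_zero_iff, T.norm_map]
  have h := T.measurePreserving.setLIntegral_comp_preimage_emb hemb
    (fun x => ‖TT μ f x‖ₑ ^ q) (BB n R)
  rw [hpre] at h
  unfold NN
  rw [← h]
  refine lintegral_congr fun x => ?_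
  rw [TT_rot hT]

theorem lint_le {f : E n → ℂ} (hf1 : ∀ ξ, ‖f ξ‖ ≤ 1) {O : Set (E n)}
    (hO : MeasurableSet O) (h : ∀ ξ, ξ ∉ O → f ξ = 0) : ∫⁻ ξ, ‖f ξ‖ₑ ∂μ ≤ μ O := by
  have h1 : ∀ ξ, ‖f ξ‖ₑ ≤ O.indicator (fun _ => (1 : ℝ≥0∞)) ξ := fun ξ => by
    by_cases hξ : ξ ∈ O
    · rw [indicator_of_mem hξ, ← ofReal_norm, ← ENNReal.ofReal_one]
      exact ENNReal.ofReal_le_ofReal (hf1 ξ)
    · rw [h ξ hξ]; simp
  refine (lintegral_mono h1).trans_eq ?_
  rw [lintegral_indicator hO, setLIntegral_one]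

end Pool.Agent.H222.SP
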