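import Pool.Agent.H222.SP.StrongLoc

/-!
Discretisation and duality.
-/

open MeasureTheory Set Filter Metric
open scoped ENNReal NNReal Topology

namespace Pool.Agent.H222.SP

variable {n : ℕ} {μ : Measure (E n)}

/-- the functions with norm at most one in `L^p(μ)` -/
def Cls (μ : Measure (E n)) (p : ℝ) (g : E n → ℂ) : Prop :=
  Measurable g ∧ (∀ x, x ∉ closedBall (0 : E n) 1 → g x = 0) ∧ ∫⁻ x, ‖g x‖ₑ ^ p ∂μ ≤ 1

/-- the support is contained in the unit ball -/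
def Sup (μ : Measure (E n)) : Prop := ∀ᵐ ξ ∂μ, ξ ∈ closedBall (0 : E n) 1

theorem Cls.lint {p : ℝ} (hp : 1 ≤ p) {g : E n → ℂ} (hg : Cls μ p g) :
    ∫⁻ x, ‖g x‖ₑ ∂μ ≤ μ univ + 1 := by
  have e1 : ∀ x, ‖g x‖ₑ ≤ 1 + ‖g x‖ₑ ^ p := fun x => by
    rcases le_total ‖g x‖ₑ 1 with h | h
    · exact h.trans le_self_add
    · calc ‖g x‖ₑ = ‖g x‖ₑ ^ (1 : ℝ) := (ENNReal.rpow_one _).symm
        _ ≤ ‖g x‖ₑ ^ p := ENNReal.rpow_le_rpow_of_exponent_le h hp
        _ ≤ _ := le_add_self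
  refine (lintegral_mono e1).trans ?_
  rw [lintegral_add_left measurable_const, lintegral_one]
  gcongr
  exact hg.2.2

theorem Cls.int [IsFiniteMeasure μ] {p : ℝ} (hp : 1 ≤ p) {g : E n → ℂ} (hg : Cls μ p g) :
    Integrable g μ :=
  ⟨hg.1.aestronglyMeasurable, (hg.lint hp).trans_lt
    (ENNReal.add_lt_top.2 ⟨measure_lt_top μ univ, ENNReal.one_lt_top⟩)⟩

theorem Cls.mono {p : ℝ} (hp : 0 ≤ p) {g h : E n → ℂ} (hg : Cls μ p g) (hh : Measurable h)
    (hle : ∀ x, ‖h x‖ ≤ ‖g x‖) : Cls μ p h := by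
  refine ⟨hh, fun x hx => ?_, ?_⟩
  · have h1 := hle x
    rw [hg.2.1 x hx, norm_zero] at h1
    exact norm_le_zero_iff.1 h1
  · refine le_trans (lintegral_mono fun x => ?_) hg.2.2
    refine ENNReal.rpow_le_rpow ?_ hp
    rw [← ofReal_norm, ← ofReal_norm]
    exact ENNReal.ofReal_le_ofReal (hle x)

/-- the discrete norm -/
noncomputable def SS (μ : Measure (E n)) (p : ℝ) (X : Finset (E n)) (g : E n → ℂ) : ℝ≥0∞ :=
  (∑ x ∈ X, ‖TT μ g x‖ₑ ^ p) ^ (1 / p)

theorem ch_sub_one (ξ z : E n) : ‖ch ξ z - 1‖ ≤ 2 * Real.pi * (‖ξ‖ * ‖z‖) := by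
  have h1 : ch ξ z - 1 = Complex.exp (Complex.I *
      ((-(2 * Real.pi * inner ℝ ξ z) : ℝ) : ℂ)) - 1 := by
    unfold ch
    rw [mul_comm Complex.I]
  rw [h1]
  refine Real.norm_exp_I_mul_ofReal_sub_one_le.trans ?_
  rw [norm_neg, norm_mul, Real.norm_of_nonneg (by positivity)]
  gcongr
  exact norm_inner_le_norm _ _

/-- step of the contraction -/
theorem SS_step [IsFiniteMeasure μ] {p : ℝ} (hp : 1 ≤ p) (X : Finset (E n)) {D : ℝ≥0∞}
    (hD : ∀ g, Cls μ p g → SS μ p X g ≤ D) {g : E n → ℂ} (hg : Cls μ p g) {z : E n}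
    (hz : ‖z‖ ≤ 1 / 80) :
    SS μ p X g ≤ (∑ x ∈ X, ‖TT μ g (x + z)‖ₑ ^ p) ^ (1 / p) + D / 2 := by
  have hp0 : 0 < p := by linarith
  set w : E n → ℂ := fun ξ => ch ξ (-z) - 1 with hw
  have hwm : Measurable w := (ch_cont_left (-z)).measurable.sub_const 1
  set h : E n → ℂ := fun ξ => 2 * (g ξ * w ξ * ch ξ z) with hh
  have hhm : Measurable h := ((hg.1.mul hwm).mul (ch_cont_left z).measurable).const_mul 2
  have hle : ∀ ξ, ‖h ξ‖ ≤ ‖g ξ‖ := fun ξ => by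
    by_cases hξ : ξ ∈ closedBall (0 : E n) 1
    · have h1 := ch_sub_one ξ (-z)
      have h2 : ‖ξ‖ ≤ 1 := mem_closedBall_zero_iff.1 hξ
      have h3 : ‖-z‖ ≤ 1 / 80 := by rw [norm_neg]; exact hz
      have h5 : ‖w ξ‖ ≤ 1 / 2 := by
        refine h1.trans ?_
        calc 2 * Real.pi * (‖ξ‖ * ‖-z‖) ≤ 2 * Real.pi * (1 * (1 / 80)) := by
              have := Real.pi_pos
              gcongr
          _ ≤ 1 / 2 := by
              have := Real.pi_lt_d2
              linarith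
      rw [hh]
      simp only
      rw [norm_mul, norm_mul, norm_mul, ch_norm, mul_one]
      have h6 : ‖(2 : ℂ)‖ = 2 := by simp
      rw [h6]
      nlinarith [norm_nonneg (g ξ), norm_nonneg (w ξ)]
    · rw [hh]; simp [hg.2.1 ξ hξ]
  have hhC : Cls μ p h := hg.mono hp0.le hhm hle
  have hgi := hg.int hp
  have hgwi : Integrable (fun ξ => g ξ * w ξ) μ := by
    refine hgi.mul_bdd (c := 2) hwm.aestronglyMeasurable (Eventually.of_forall fun ξ => ?_)
    calc ‖w ξ‖ ≤ ‖ch ξ (-z)‖ + ‖(1 : ℂ)‖ := norm_sub_le _ _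
      _ = 2 := by rw [ch_norm, norm_one]; norm_num
  have hkey : ∀ x, TT μ g x = TT μ g (x + z) + (1 / 2) * TT μ h x := fun x => by
    have e1 : TT μ (fun ξ => g ξ * ch ξ (-z)) (x + z) = TT μ g x := by
      rw [TT_mod, add_assoc, add_neg_cancel, add_zero]
    have e2 : TT μ (fun ξ => g ξ + g ξ * w ξ) (x + z) = TT μ g (x + z) +
        TT μ (fun ξ => g ξ * w ξ) (x + z) := TT_add hgi hgwi _
    have e3 : (fun ξ => g ξ + g ξ * w ξ) = fun ξ => g ξ * ch ξ (-z) := by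
      funext ξ
      rw [hw]
      ring
    have e4 : TT μ (fun ξ => g ξ * w ξ * ch ξ z) x = TT μ (fun ξ => g ξ * w ξ) (x + z) := TT_mod _ _ _
    have e5 : TT μ h x = 2 * TT μ (fun ξ => g ξ * w ξ * ch ξ z) x := TT_smul _ _ _
    rw [← e1, ← e3, e2, ← e4, e5]
    ring
  have h1 := ENNReal.Lp_add_le X (fun x => ‖TT μ g (x + z)‖ₑ) (fun x => ‖(1 / 2 : ℂ) * TT μ h x‖ₑ) hp
  have h2 : SS μ p X g ≤ (∑ x ∈ X, (‖TT μ g (x + z)‖ₑ + ‖(1 / 2 : ℂ) * TT μ h x‖ₑ) ^ p) ^ (1 / p) := by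
    unfold SS
    refine ENNReal.rpow_le_rpow (Finset.sum_le_sum fun x _ => ?_) (by positivity)
    refine ENNReal.rpow_le_rpow ?_ hp0.le
    conv_lhs => rw [hkey x]
    exact enorm_add_le _ _
  refine h2.trans (h1.trans ?_)
  gcongr
  have h3 : ∀ x, ‖(1 / 2 : ℂ) * TT μ h x‖ₑ ^ p = (2⁻¹ : ℝ≥0∞) ^ p * ‖TT μ h x‖ₑ ^ p := fun x => by
    rw [enorm_mul, ENNReal.mul_rpow_of_nonneg _ _ hp0.le]
    congr 2
    rw [← ofReal_norm]
    have : ‖(1 / 2 : ℂ)‖ = 2⁻¹ := by simp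
    rw [this, ENNReal.ofReal_inv_of_pos (by norm_num)]
    simp
  simp only [h3]
  rw [← Finset.mul_sum, ENNReal.mul_rpow_of_nonneg _ _ (by positivity), ← ENNReal.rpow_mul,
    mul_one_div_cancel hp0.ne', ENNReal.rpow_one, ENNReal.div_eq_inv_mul]
  gcongr
  exact hD h hhC

/-- the discrete norm is controlled by the continuous norm -/
theorem loc_const [IsFiniteMeasure μ] {p : ℝ} (hp : 1 ≤ p) {R : ℝ} {M : ℝ≥0∞}
    (hM : ∀ g, Cls μ p g → NN μ p (BB n (R + 1)) g ≤ M) {X : Finset (E n)}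
    (hX : ∀ x ∈ X, x ∈ BB n R) (hsep : ∀ x ∈ X, ∀ y ∈ X, x ≠ y → 1 ≤ dist x y)
    {g : E n → ℂ} (hg : Cls μ p g) :
    ∑ x ∈ X, ‖TT μ g x‖ₑ ^ p ≤ 2 ^ p * ((volume (closedBall (0 : E n) (1 / 80)))⁻¹ * M) := by
  have hp0 : 0 < p := by linarith
  have hpi : 0 ≤ 1 / p := by positivity
  set v : ℝ≥0∞ := volume (closedBall (0 : E n) (1 / 80)) with hv
  have hv0 : v ≠ 0 := (measure_closedBall_pos _ _ (by norm_num)).ne'
  have hvt : v ≠ ∞ := measure_closedBall_lt_top.ne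
  set D : ℝ≥0∞ := ⨆ g : {g : E n → ℂ // Cls μ p g}, SS μ p X g.1 with hD
  have hDg : ∀ g, Cls μ p g → SS μ p X g ≤ D := fun g hg =>
    le_iSup (fun g : {g : E n → ℂ // Cls μ p g} => SS μ p X g.1) ⟨g, hg⟩
  have hDt : D ≠ ∞ := by
    have h1 : D ≤ (∑ x ∈ X, (μ univ + 1) ^ p) ^ (1 / p) := by
      refine iSup_le fun g => ?_
      unfold SS
      refine ENNReal.rpow_le_rpow (Finset.sum_le_sum fun x _ => ?_) hpi
      exact ENNReal.rpow_le_rpow ((TT_le _ _).trans (g.2.lint hp)) hp0.le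
    refine ne_top_of_le_ne_top (ENNReal.rpow_ne_top_of_nonneg hpi ?_) h1
    rw [Finset.sum_const, nsmul_eq_mul]
    exact ENNReal.mul_ne_top (ENNReal.natCast_ne_top _) (ENNReal.rpow_ne_top_of_nonneg hp0.le
      (ENNReal.add_ne_top.2 ⟨measure_ne_top μ univ, ENNReal.one_ne_top⟩))
  -- averaging
  have havg : ∀ g, Cls μ p g → SS μ p X g ≤ (v⁻¹ * M) ^ (1 / p) + D / 2 := fun g hg => by
    have hm : Measurable fun x => ‖TT μ g x‖ₑ ^ p := (TT_meas (hg.int hp)).pow_const p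
    have h1 : ∀ z ∈ closedBall (0 : E n) (1 / 80), (SS μ p X g - D / 2) ^ p ≤
        ∑ x ∈ X, ‖TT μ g (x + z)‖ₑ ^ p := fun z hz => by
      have h2 := SS_step hp X hDg hg (mem_closedBall_zero_iff.1 hz)
      have h3 : SS μ p X g - D / 2 ≤ (∑ x ∈ X, ‖TT μ g (x + z)‖ₑ ^ p) ^ (1 / p) :=
        tsub_le_iff_right.2 h2
      calc (SS μ p X g - D / 2) ^ p ≤ ((∑ x ∈ X, ‖TT μ g (x + z)‖ₑ ^ p) ^ (1 / p)) ^ p :=
            ENNReal.rpow_le_rpow h3 hp0.le
        _ = _ := by rw [← ENNReal.rpow_mul, one_div_mul_cancel hp0.ne', ENNReal.rpow_one]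
    have h4 : v * (SS μ p X g - D / 2) ^ p ≤ M := by
      calc v * (SS μ p X g - D / 2) ^ p
          = ∫⁻ z in closedBall (0 : E n) (1 / 80), (SS μ p X g - D / 2) ^ p := by
            rw [setLIntegral_const, mul_comm]
        _ ≤ ∫⁻ z in closedBall (0 : E n) (1 / 80), ∑ x ∈ X, ‖TT μ g (x + z)‖ₑ ^ p :=
            setLIntegral_mono' isClosed_closedBall.measurableSet h1
        _ = ∑ x ∈ X, ∫⁻ z in closedBall (0 : E n) (1 / 80), ‖TT μ g (x + z)‖ₑ ^ p :=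
            lintegral_finsetSum _ fun x _ => hm.comp (measurable_const_add x)
        _ = ∑ x ∈ X, ∫⁻ y in closedBall x (1 / 80), ‖TT μ g y‖ₑ ^ p := by
            refine Finset.sum_congr rfl fun x _ => ?_
            rw [← lintegral_indicator isClosed_closedBall.measurableSet,
              ← lintegral_indicator isClosed_closedBall.measurableSet,
              ← lintegral_add_left_eq_self
                ((closedBall x (1 / 80)).indicator fun y => ‖TT μ g y‖ₑ ^ p) x]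
            refine lintegral_congr fun z => ?_
            have e1 : x + z ∈ closedBall x (1 / 80) ↔ z ∈ closedBall (0 : E n) (1 / 80) := by
              rw [mem_closedBall, mem_closedBall, dist_self_add_left, dist_zero_right]
            by_cases hz : z ∈ closedBall (0 : E n) (1 / 80)
            · rw [indicator_of_mem hz, indicator_of_mem (e1.2 hz)]
            · rw [indicator_of_notMem hz, indicator_of_notMem fun h => hz (e1.1 h)]
        _ = ∫⁻ y in ⋃ x ∈ X, closedBall x (1 / 80), ‖TT μ g y‖ₑ ^ p := by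
            rw [lintegral_biUnion_finset]
            · intro x hx y hy hxy
              refine closedBall_disjoint_closedBall ?_
              have := hsep x hx y hy hxy
              linarith
            · intro x _
              exact isClosed_closedBall.measurableSet
        _ ≤ NN μ p (BB n (R + 1)) g := by
            refine lintegral_mono_set (iUnion₂_subset fun x hx => ?_)
            intro y hy
            have h5 := hX x hx
            rw [mem_closedBall_zero_iff] at h5 ⊢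
            rw [mem_closedBall, dist_eq_norm] at hy
            calc ‖y‖ = ‖(y - x) + x‖ := by rw [sub_add_cancel]
              _ ≤ ‖y - x‖ + ‖x‖ := norm_add_le _ _
              _ ≤ R + 1 := by linarith
        _ ≤ M := hM g hg
    have h5 : (SS μ p X g - D / 2) ^ p ≤ v⁻¹ * M := by
      calc (SS μ p X g - D / 2) ^ p = v⁻¹ * (v * (SS μ p X g - D / 2) ^ p) := by
            rw [← mul_assoc, ENNReal.inv_mul_cancel hv0 hvt, one_mul]
        _ ≤ v⁻¹ * M := by gcongr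
    have h6 : SS μ p X g - D / 2 ≤ (v⁻¹ * M) ^ (1 / p) := by
      calc SS μ p X g - D / 2 = ((SS μ p X g - D / 2) ^ p) ^ (1 / p) := by
            rw [← ENNReal.rpow_mul, mul_one_div_cancel hp0.ne', ENNReal.rpow_one]
        _ ≤ _ := ENNReal.rpow_le_rpow h5 hpi
    exact tsub_le_iff_right.1 h6
  have hD1 : D ≤ (v⁻¹ * M) ^ (1 / p) + D / 2 := iSup_le fun g => havg g.1 g.2
  have hD2 : D ≤ 2 * (v⁻¹ * M) ^ (1 / p) := by
    have h1 : D / 2 ≤ (v⁻¹ * M) ^ (1 / p) := by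
      have h2 : D / 2 + D / 2 ≤ (v⁻¹ * M) ^ (1 / p) + D / 2 := by
        rw [ENNReal.add_halves]; exact hD1
      exact (ENNReal.add_le_add_iff_right (ENNReal.div_ne_top hDt (by norm_num))).1 h2
    calc D = 2 * (D / 2) := by rw [ENNReal.mul_div_cancel (by norm_num) (by norm_num)]
      _ ≤ _ := by gcongr
  calc ∑ x ∈ X, ‖TT μ g x‖ₑ ^ p = SS μ p X g ^ p := by
        unfold SS
        rw [← ENNReal.rpow_mul, one_div_mul_cancel hp0.ne', ENNReal.rpow_one]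
    _ ≤ (2 * (v⁻¹ * M) ^ (1 / p)) ^ p := ENNReal.rpow_le_rpow ((hDg g hg).trans hD2) hp0.le
    _ = 2 ^ p * (v⁻¹ * M) := by
        rw [ENNReal.mul_rpow_of_nonneg _ _ hp0.le, ← ENNReal.rpow_mul,
          one_div_mul_cancel hp0.ne', ENNReal.rpow_one]

/-- exponential sums over the paraboloid -/
noncomputable def ES (X : Finset (E n)) (a : E n → ℂ) (ξ : E n) : ℂ :=
  ∑ x ∈ X, a x * ch ξ x

theorem ES_cont (X : Finset (E n)) (a : E n → ℂ) : Continuous (ES X a) := by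
  unfold ES
  exact continuous_finsetSum _ fun x _ => continuous_const.mul (ch_cont_left x)

theorem ES_le (X : Finset (E n)) {a : E n → ℂ} (ha : ∀ x, ‖a x‖ ≤ 1) (ξ : E n) :
    ‖ES X a ξ‖ ≤ X.card := by
  unfold ES
  refine (norm_sum_le _ _).trans ?_
  calc ∑ x ∈ X, ‖a x * ch ξ x‖ ≤ ∑ x ∈ X, (1 : ℝ) := Finset.sum_le_sum fun x _ => by
        rw [norm_mul, ch_norm, mul_one]; exact ha x
    _ = X.card := by simp

/-- duality: the norm of exponential sums in `L^{p'}` -/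
theorem dual [IsFiniteMeasure μ] (hsupp : Sup μ) {p p' : ℝ} (hpp : p.HolderConjugate p') {X : Finset (E n)} {M : ℝ≥0∞}
    (hM : ∀ g, Cls μ p g → ∑ x ∈ X, ‖TT μ g x‖ₑ ^ p ≤ M) {a : E n → ℂ} (ha : ∀ x, ‖a x‖ ≤ 1) :
    ∫⁻ ξ, ‖ES X a ξ‖ₑ ^ p' ∂μ ≤ M ^ (p' / p) * X.card := by
  have hp0 : 0 < p := hpp.pos
  have hp1 : 1 ≤ p := hpp.lt.le
  have hp'0 : 0 < p' := hpp.symm.pos
  have hp'1 : 1 < p' := hpp.symm.lt
  set g : E n → ℂ := ES X a with hg
  have hgc : Continuous g := ES_cont X a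
  set I : ℝ≥0∞ := ∫⁻ ξ, ‖g ξ‖ₑ ^ p' ∂μ with hI
  have hgX : ∀ ξ, ‖g ξ‖ₑ ≤ X.card := fun ξ => by
    rw [← ofReal_norm, ← ENNReal.ofReal_natCast]
    exact ENNReal.ofReal_le_ofReal (ES_le X ha ξ)
  have hIt : I ≠ ∞ := by
    have h1 : I ≤ ∫⁻ ξ, (X.card : ℝ≥0∞) ^ p' ∂μ :=
      lintegral_mono fun ξ => ENNReal.rpow_le_rpow (hgX ξ) hp'0.le
    refine ne_top_of_le_ne_top ?_ h1
    rw [lintegral_const]
    exact ENNReal.mul_ne_top (ENNReal.rpow_ne_top_of_nonneg hp'0.le (ENNReal.natCast_ne_top _))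
      (measure_ne_top μ univ)
  rcases eq_or_ne I 0 with hI0 | hI0
  · rw [hI0]; exact bot_le
  -- the dual function
  set f : E n → ℂ := (closedBall (0 : E n) 1).indicator fun ξ =>
    (starRingEnd ℂ) (g ξ) * ((‖g ξ‖ ^ (p' - 2) : ℝ) : ℂ) with hf
  have hfm : Measurable f := by
    refine Measurable.indicator ?_ isClosed_closedBall.measurableSet
    exact (Complex.continuous_conj.measurable.comp hgc.measurable).mul
      (Complex.measurable_ofReal.comp (hgc.measurable.norm.pow_const _))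
  have hfn : ∀ ξ ∈ closedBall (0 : E n) 1, ‖f ξ‖ = ‖g ξ‖ ^ (p' - 1) := fun ξ hξ => by
    rw [hf, indicator_of_mem hξ, norm_mul, RCLike.norm_conj, Complex.norm_real,
      Real.norm_of_nonneg (Real.rpow_nonneg (norm_nonneg _) _)]
    rcases eq_or_lt_of_le (norm_nonneg (g ξ)) with h0 | h0
    · rw [← h0, zero_mul, Real.zero_rpow (by linarith)]
    · nth_rewrite 1 [← Real.rpow_one ‖g ξ‖]
      rw [← Real.rpow_add h0]
      congr 1; ring
  have hfp : ∫⁻ ξ, ‖f ξ‖ₑ ^ p ∂μ = I := by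
    have h1 : ∀ ξ, ‖f ξ‖ₑ ^ p = (closedBall (0 : E n) 1).indicator (fun ξ => ‖g ξ‖ₑ ^ p') ξ := fun ξ => by
      by_cases hξ : ξ ∈ closedBall (0 : E n) 1
      · rw [indicator_of_mem hξ, ← ofReal_norm, hfn ξ hξ, ← ofReal_norm,
          ENNReal.ofReal_rpow_of_nonneg (norm_nonneg _) hp'0.le,
          ENNReal.ofReal_rpow_of_nonneg (Real.rpow_nonneg (norm_nonneg _) _) hp0.le,
          ← Real.rpow_mul (norm_nonneg _)]
        congr 2
        have := hpp.symm.sub_one_mul_conj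
        linarith
      · rw [indicator_of_notMem hξ, hf, indicator_of_notMem hξ, enorm_zero,
          ENNReal.zero_rpow_of_pos hp0]
    rw [hI]
    refine lintegral_congr_ae ?_
    filter_upwards [hsupp] with ξ hξ
    rw [h1, indicator_of_mem hξ]
  -- pairing
  have hfi : Integrable f μ := by
    have hb : ∀ ξ, ‖f ξ‖ ≤ (X.card : ℝ) ^ (p' - 1) := fun ξ => by
      by_cases hξ : ξ ∈ closedBall (0 : E n) 1
      · rw [hfn ξ hξ]
        exact Real.rpow_le_rpow (norm_nonneg _) (ES_le X ha ξ) (by linarith)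
      · rw [hf, indicator_of_notMem hξ, norm_zero]
        positivity
    exact integrable_of_bdd hfm hb
  have hpair : ∑ x ∈ X, a x * TT μ f x = ((∫ ξ, ‖g ξ‖ ^ p' ∂μ : ℝ) : ℂ) := by
    have h1 : ∀ x ∈ X, a x * TT μ f x = ∫ ξ, a x * (f ξ * ch ξ x) ∂μ := fun x _ => by
      unfold TT; rw [integral_const_mul]
    have h0 : ((∫ ξ, ‖g ξ‖ ^ p' ∂μ : ℝ) : ℂ) =
        ∫ ξ, ((‖g ξ‖ ^ p' : ℝ) : ℂ) ∂μ := integral_complex_ofReal.symm
    rw [h0, Finset.sum_congr rfl h1, ← integral_finsetSum _ fun x _ => (TT_int hfi x).const_mul _]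
    refine integral_congr_ae ?_
    filter_upwards [hsupp] with ξ hξ
    show ∑ x ∈ X, a x * (f ξ * ch ξ x) = _
    have h2 : ∑ x ∈ X, a x * (f ξ * ch ξ x) = f ξ * g ξ := by
      rw [hg]; unfold ES
      rw [Finset.mul_sum]
      exact Finset.sum_congr rfl fun x _ => by ring
    rw [h2]
    · rw [hf, indicator_of_mem hξ]
      have h3 : (starRingEnd ℂ) (g ξ) * ((‖g ξ‖ ^ (p' - 2) : ℝ) : ℂ) * g ξ =
          ((‖g ξ‖ ^ 2 * ‖g ξ‖ ^ (p' - 2) : ℝ) : ℂ) := by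
        have h4 := Complex.mul_conj (g ξ)
        rw [Complex.normSq_eq_norm_sq] at h4
        calc (starRingEnd ℂ) (g ξ) * ((‖g ξ‖ ^ (p' - 2) : ℝ) : ℂ) * g ξ
            = (g ξ * (starRingEnd ℂ) (g ξ)) * ((‖g ξ‖ ^ (p' - 2) : ℝ) : ℂ) := by ring
          _ = _ := by rw [h4]; push_cast; ring
      rw [h3]
      congr 1
      rcases eq_or_lt_of_le (norm_nonneg (g ξ)) with h0 | h0
      · rw [← h0, Real.zero_rpow hp'0.ne']; simp
      · rw [← Real.rpow_natCast, ← Real.rpow_add h0]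
        congr 1; push_cast; ring
  have hIr : ENNReal.ofReal (∫ ξ, ‖g ξ‖ ^ p' ∂μ) = I := by
    rw [ofReal_integral_eq_lintegral_ofReal]
    · rw [hI]
      refine lintegral_congr fun ξ => ?_
      rw [← ofReal_norm, ENNReal.ofReal_rpow_of_nonneg (norm_nonneg _) hp'0.le]
    · refine Integrable.of_bound (hgc.measurable.norm.pow_const _).aestronglyMeasurable
        ((X.card : ℝ) ^ p') (Eventually.of_forall fun ξ => ?_)
      rw [Real.norm_of_nonneg (Real.rpow_nonneg (norm_nonneg _) _)]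
      exact Real.rpow_le_rpow (norm_nonneg _) (ES_le X ha ξ) hp'0.le
    · exact Eventually.of_forall fun ξ => Real.rpow_nonneg (norm_nonneg _) _
  have h1 : I ≤ ∑ x ∈ X, ‖TT μ f x‖ₑ := by
    rw [← hIr]
    have h2 : (∫ ξ, ‖g ξ‖ ^ p' ∂μ) ≤ ‖∑ x ∈ X, a x * TT μ f x‖ := by
      rw [hpair, Complex.norm_real]
      exact le_abs_self _
    refine (ENNReal.ofReal_le_ofReal h2).trans ?_
    rw [ofReal_norm]
    refine (enorm_sum_le _ _).trans (Finset.sum_le_sum fun x _ => ?_)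
    rw [enorm_mul]
    calc ‖a x‖ₑ * ‖TT μ f x‖ₑ ≤ 1 * ‖TT μ f x‖ₑ := by
          gcongr
          rw [← ofReal_norm, ← ENNReal.ofReal_one]
          exact ENNReal.ofReal_le_ofReal (ha x)
      _ = _ := one_mul _
  -- homogeneity
  set s : ℝ := I.toReal ^ (1 / p) with hs
  have hIpos : 0 < I.toReal := ENNReal.toReal_pos hI0 hIt
  have hs0 : 0 < s := Real.rpow_pos_of_pos hIpos _
  have hsp : ENNReal.ofReal s ^ p = I := by
    rw [ENNReal.ofReal_rpow_of_pos hs0, hs, ← Real.rpow_mul hIpos.le,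
      one_div_mul_cancel hp0.ne', Real.rpow_one, ENNReal.ofReal_toReal hIt]
  have hes : ‖(s : ℂ)‖ₑ = ENNReal.ofReal s := by
    rw [← ofReal_norm, Complex.norm_real, Real.norm_of_nonneg hs0.le]
  have hcls : Cls μ p fun ξ => (s : ℂ)⁻¹ * f ξ := by
    refine ⟨hfm.const_mul _, fun ξ hξ => ?_, ?_⟩
    · show (s : ℂ)⁻¹ * f ξ = 0
      rw [hf, indicator_of_notMem hξ, mul_zero]
    · have h2 : ∀ ξ, ‖(s : ℂ)⁻¹ * f ξ‖ₑ ^ p = I⁻¹ * ‖f ξ‖ₑ ^ p := fun ξ => by
        rw [enorm_mul, ENNReal.mul_rpow_of_nonneg _ _ hp0.le, enorm_inv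
          (by exact_mod_cast hs0.ne'), hes, ENNReal.inv_rpow, hsp]
      simp only [h2]
      rw [lintegral_const_mul' _ _ (ENNReal.inv_ne_top.2 hI0), hfp,
        ENNReal.inv_mul_cancel hI0 hIt]
  have h2 := hM _ hcls
  have h3 : ∑ x ∈ X, ‖TT μ f x‖ₑ ^ p ≤ I * M := by
    have h4 : ∀ x, ‖TT μ f x‖ₑ ^ p = I * ‖TT μ (fun ξ => (s : ℂ)⁻¹ * f ξ) x‖ₑ ^ p := fun x => by
      rw [TT_smul, enorm_mul, ENNReal.mul_rpow_of_nonneg _ _ hp0.le, enorm_inv
        (by exact_mod_cast hs0.ne'), hes, ENNReal.inv_rpow, hsp, ← mul_assoc,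
        ENNReal.mul_inv_cancel hI0 hIt, one_mul]
    simp only [h4]
    rw [← Finset.mul_sum]
    gcongr
  have h5 : ∑ x ∈ X, ‖TT μ f x‖ₑ ≤ (X.card : ℝ≥0∞) ^ (1 / p') * (I * M) ^ (1 / p) := by
    have h6 := ENNReal.inner_le_Lp_mul_Lq X (fun _ => (1 : ℝ≥0∞)) (fun x => ‖TT μ f x‖ₑ) hpp.symm
    simp only [one_mul, ENNReal.one_rpow, Finset.sum_const, nsmul_eq_mul, mul_one] at h6
    refine h6.trans ?_
    gcongr
  have h7 : I ^ (1 / p') ≤ (X.card : ℝ≥0∞) ^ (1 / p') * M ^ (1 / p) := by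
    have h8 : I ^ (1 / p') * I ^ (1 / p) ≤
        (X.card : ℝ≥0∞) ^ (1 / p') * M ^ (1 / p) * I ^ (1 / p) := by
      calc I ^ (1 / p') * I ^ (1 / p) = I := by
            rw [← ENNReal.rpow_add _ _ hI0 hIt]
            have : 1 / p' + 1 / p = 1 := by
              have := hpp.symm.inv_add_inv_eq_one
              rw [one_div, one_div]; exact this
            rw [this, ENNReal.rpow_one]
        _ ≤ (X.card : ℝ≥0∞) ^ (1 / p') * (I * M) ^ (1 / p) := h1.trans h5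
        _ = _ := by rw [ENNReal.mul_rpow_of_nonneg _ _ (by positivity)]; ring
    have hIp0 : I ^ (1 / p) ≠ 0 := by
      rw [Ne, ENNReal.rpow_eq_zero_iff]
      push Not
      exact ⟨fun h => absurd h hI0, fun h => absurd h hIt⟩
    have hIpt : I ^ (1 / p) ≠ ∞ := ENNReal.rpow_ne_top_of_nonneg (by positivity) hIt
    exact (ENNReal.mul_le_mul_iff_left hIp0 hIpt).1 h8
  calc I = (I ^ (1 / p')) ^ p' := by
        rw [← ENNReal.rpow_mul, one_div_mul_cancel hp'0.ne', ENNReal.rpow_one]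
    _ ≤ ((X.card : ℝ≥0∞) ^ (1 / p') * M ^ (1 / p)) ^ p' := ENNReal.rpow_le_rpow h7 hp'0.le
    _ = M ^ (p' / p) * X.card := by
        rw [ENNReal.mul_rpow_of_nonneg _ _ hp'0.le, ← ENNReal.rpow_mul, ← ENNReal.rpow_mul,
          one_div_mul_cancel hp'0.ne', ENNReal.rpow_one, mul_comm]
        congr 2
        ring

end Pool.Agent.H222.SP
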