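import Pool.Agent.H222.SP.Disc
import Pool.Agent.H222.SP.Orth

/-!
Averages against kernels that are concentrated near the diagonal.
-/

open MeasureTheory Set Filter Metric
open scoped ENNReal NNReal Topology

namespace Pool.Agent.H222.SP

variable {n : ℕ} {μ : Measure (E n)}

theorem tsum_pow {ι : Type*} (w a : ι → ℝ≥0∞) {p : ℝ} (hp : 1 ≤ p) :
    (∑' i, w i * a i) ^ p ≤ (∑' i, w i) ^ (p - 1) * ∑' i, w i * a i ^ p := by
  have hp0 : 0 < p := by linarith
  set B : ℝ≥0∞ := (∑' i, w i) ^ (p - 1) * ∑' i, w i * a i ^ p with hB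
  have h1 : ∑' i, w i * a i ≤ B ^ (1 / p) := by
    rw [ENNReal.tsum_eq_iSup_sum]
    refine iSup_le fun s => ?_
    refine (ENNReal.inner_le_weight_mul_Lp_of_nonneg s hp w a).trans ?_
    rw [hB, ENNReal.mul_rpow_of_nonneg _ _ (by positivity), ← ENNReal.rpow_mul, ← one_div]
    have e1 : (p - 1) * (1 / p) = 1 - 1 / p := by field_simp
    have e2 : 1 / p ≤ 1 := by rw [div_le_one hp0]; exact hp
    rw [e1]
    exact mul_le_mul' (ENNReal.rpow_le_rpow (ENNReal.sum_le_tsum s) (by linarith))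
      (ENNReal.rpow_le_rpow (ENNReal.sum_le_tsum s) (by positivity))
  calc (∑' i, w i * a i) ^ p ≤ (B ^ (1 / p)) ^ p := ENNReal.rpow_le_rpow h1 hp0.le
    _ = B := by rw [← ENNReal.rpow_mul, one_div, inv_mul_cancel₀ hp0.ne', ENNReal.rpow_one]

/-- local norms of series -/
theorem NN_series {ι : Type*} [Countable ι] {p : ℝ} (hp : 1 ≤ p) {B : Set (E n)}
    (hB : MeasurableSet B) {F : E n → ℝ≥0∞} (w : ι → ℝ≥0∞) (g : ι → E n → ℂ)
    (hg : ∀ m, Integrable (g m) μ) (hF : ∀ x ∈ B, F x ≤ ∑' m, w m * ‖TT μ (g m) x‖ₑ) :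
    ∫⁻ x in B, F x ^ p ≤ (∑' m, w m) ^ (p - 1) * ∑' m, w m * NN μ p B (g m) := by
  have hm : ∀ m, Measurable fun x => ‖TT μ (g m) x‖ₑ ^ p := fun m => (TT_meas (hg m)).pow_const p
  calc ∫⁻ x in B, F x ^ p
      ≤ ∫⁻ x in B, (∑' m, w m) ^ (p - 1) * ∑' m, w m * ‖TT μ (g m) x‖ₑ ^ p := by
        refine setLIntegral_mono' hB fun x hx => ?_
        exact (ENNReal.rpow_le_rpow (hF x hx) (by linarith)).trans (tsum_pow _ _ hp)
    _ = (∑' m, w m) ^ (p - 1) * ∫⁻ x in B, ∑' m, w m * ‖TT μ (g m) x‖ₑ ^ p :=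
        lintegral_const_mul _ (Measurable.tsum fun m => (hm m).const_mul _)
    _ = (∑' m, w m) ^ (p - 1) * ∑' m, w m * NN μ p B (g m) := by
        rw [lintegral_tsum fun m => ((hm m).const_mul _).aemeasurable]
        congr 1
        refine tsum_congr fun m => ?_
        rw [lintegral_const_mul _ (hm m)]
        rfl

theorem fact_ge (m : ℕ) : 2 ^ m ≤ (m + 1).factorial := by
  induction m with
  | zero => simp
  | succ m ih =>
    rw [Nat.factorial_succ, pow_succ, mul_comm]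
    exact Nat.mul_le_mul (by omega) ih

/-- real functions bounded by one -/
def FR (μ : Measure (E n)) (f : E n → ℂ) : Prop :=
  Measurable f ∧ (∀ᵐ ξ ∂μ, ‖f ξ‖ ≤ 1) ∧ ∀ᵐ ξ ∂μ, (f ξ).im = 0

theorem FR.int [IsFiniteMeasure μ] {f : E n → ℂ} (hf : FR μ f) : Integrable f μ :=
  Integrable.of_bound hf.1.aestronglyMeasurable 1 hf.2.1

theorem FR.lint {f : E n → ℂ} (hf : FR μ f) : ∫⁻ ξ, ‖f ξ‖ₑ ∂μ ≤ μ univ := by
  calc ∫⁻ ξ, ‖f ξ‖ₑ ∂μ ≤ ∫⁻ _, 1 ∂μ := by
        refine lintegral_mono_ae ?_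
        filter_upwards [hf.2.1] with ξ hξ
        rw [← ofReal_norm, ← ENNReal.ofReal_one]
        exact ENNReal.ofReal_le_ofReal hξ
    _ = μ univ := lintegral_one

/-- classes of real functions that are stable under multiplication by small real functions -/
structure Cl (μ : Measure (E n)) (𝒞 : (E n → ℂ) → Prop) : Prop where
  real : ∀ f, 𝒞 f → FR μ f
  mul : ∀ f, 𝒞 f → ∀ g : E n → ℝ, Measurable g → (∀ᵐ ξ ∂μ, |g ξ| ≤ 1) →
    𝒞 fun ξ => f ξ * (g ξ : ℂ)

/-- kernels that are concentrated near the diagonal -/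
structure Ker (μ : Measure (E n)) (ρ : ℝ) (K : E n → E n → ℝ) : Prop where
  meas : Measurable (Function.uncurry K)
  nonneg : ∀ ω ω', 0 ≤ K ω ω'
  bdd : ∃ M : ℝ, ∀ ω ω', K ω ω' ≤ M
  supp : ∀ ω ω', ρ < ‖ω - ω'‖ → K ω ω' = 0
  left : ∀ᵐ ω' ∂μ, ∫ ω, K ω ω' ∂μ = 1
  right : ∀ᵐ ω ∂μ, ∫ ω', K ω ω' ∂μ = 1

/-- averages against the kernel -/
noncomputable def AV (μ : Measure (E n)) (K : E n → E n → ℝ) (f : E n → ℂ) (ω : E n) : ℂ :=
  ∫ ω', f ω' * (K ω ω' : ℂ) ∂μ

/-- normalised moments of the kernel -/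
noncomputable def mom (μ : Measure (E n)) (K : E n → E n → ℝ) (ρ : ℝ) {k : ℕ} (p : Fin k → Fin n)
    (ω' : E n) : ℝ :=
  ∫ ω, K ω ω' * ∏ l, ((ω - ω') (p l) / ρ) ∂μ

theorem abs_coord_le (v : E n) (i : Fin n) : |v i| ≤ ‖v‖ := by
  have := PiLp.norm_apply_le v i
  rwa [Real.norm_eq_abs] at this

variable {ρ : ℝ} {K : E n → E n → ℝ}

theorem K_prod_le (hK : Ker μ ρ K) (hρ : 0 < ρ) {k : ℕ} (p : Fin k → Fin n) (ω ω' : E n) :
    |K ω ω' * ∏ l, ((ω - ω') (p l) / ρ)| ≤ K ω ω' := by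
  rw [abs_mul, abs_of_nonneg (hK.nonneg _ _)]
  by_cases h : ρ < ‖ω - ω'‖
  · rw [hK.supp _ _ h]; simp
  · have h1 : |∏ l, ((ω - ω') (p l) / ρ)| ≤ 1 := by
      rw [Finset.abs_prod]
      refine Finset.prod_le_one (fun _ _ => abs_nonneg _) fun l _ => ?_
      rw [abs_div, abs_of_pos hρ, div_le_one hρ]
      exact (abs_coord_le _ _).trans (not_lt.1 h)
    calc K ω ω' * |∏ l, ((ω - ω') (p l) / ρ)| ≤ K ω ω' * 1 :=
          mul_le_mul_of_nonneg_left h1 (hK.nonneg _ _)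
      _ = _ := mul_one _

theorem K_int [IsFiniteMeasure μ] (hK : Ker μ ρ K) (ω' : E n) :
    Integrable (fun ω => K ω ω') μ := by
  obtain ⟨M, hM⟩ := hK.bdd
  refine Integrable.of_bound (hK.meas.comp (measurable_id.prodMk measurable_const)).aestronglyMeasurable
    M (Eventually.of_forall fun ω => ?_)
  show ‖K ω ω'‖ ≤ M
  rw [Real.norm_of_nonneg (hK.nonneg _ _)]
  exact hM _ _

theorem K_int' [IsFiniteMeasure μ] (hK : Ker μ ρ K) (ω : E n) :
    Integrable (fun ω' => K ω ω') μ := by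
  obtain ⟨M, hM⟩ := hK.bdd
  refine Integrable.of_bound (hK.meas.comp (measurable_const.prodMk measurable_id)).aestronglyMeasurable
    M (Eventually.of_forall fun ω' => ?_)
  show ‖K ω ω'‖ ≤ M
  rw [Real.norm_of_nonneg (hK.nonneg _ _)]
  exact hM _ _

theorem prod_meas {k : ℕ} (p : Fin k → Fin n) (ρ : ℝ) :
    Measurable fun z : E n × E n => ∏ l, ((z.1 - z.2) (p l) / ρ) := by
  refine Continuous.measurable ?_
  fun_prop

theorem KP_meas (hK : Ker μ ρ K) {k : ℕ} (p : Fin k → Fin n) :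
    Measurable fun z : E n × E n => K z.1 z.2 * ∏ l, ((z.1 - z.2) (p l) / ρ) :=
  hK.meas.mul (prod_meas p ρ)

theorem mom_meas [IsFiniteMeasure μ] (hK : Ker μ ρ K) {k : ℕ} (p : Fin k → Fin n) :
    Measurable (mom μ K ρ p) := by
  have h1 := (KP_meas hK p).stronglyMeasurable
  exact (StronglyMeasurable.integral_prod_left (μ := μ)
    (f := fun ω ω' => K ω ω' * ∏ l, ((ω - ω') (p l) / ρ)) h1).measurable

theorem mom_le [IsFiniteMeasure μ] (hK : Ker μ ρ K) (hρ : 0 < ρ) {k : ℕ} (p : Fin k → Fin n) :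
    ∀ᵐ ω' ∂μ, |mom μ K ρ p ω'| ≤ 1 := by
  filter_upwards [hK.left] with ω' hω'
  rw [← hω', ← Real.norm_eq_abs]
  exact norm_integral_le_of_norm_le (K_int hK ω') (Eventually.of_forall fun ω => K_prod_le hK hρ p ω ω')

theorem inner_pow (v x : E n) (k : ℕ) :
    (inner ℝ v x : ℝ) ^ k = ∑ p : Fin k → Fin n, (∏ l, x (p l)) * ∏ l, v (p l) := by
  have h1 : (inner ℝ v x : ℝ) = ∑ i, v i * x i := by
    rw [PiLp.inner_apply]
    refine Finset.sum_congr rfl fun i _ => ?_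
    simp [mul_comm]
  rw [h1, Fintype.sum_pow]
  refine Finset.sum_congr rfl fun p _ => ?_
  rw [Finset.prod_mul_distrib, mul_comm]

/-- expansion of the averages -/
theorem AV_series [IsFiniteMeasure μ] (hρ : 0 < ρ) (hK : Ker μ ρ K) {f : E n → ℂ}
    (hf : Integrable f μ) {x : E n} {R : ℝ} (hx : ‖x‖ ≤ R) :
    ‖TT μ (AV μ K f) x - TT μ f x‖ₑ ≤ ∑' i : (Σ k : ℕ, (Fin (k + 1) → Fin n)),
      ENNReal.ofReal ((2 * Real.pi * ρ * R) ^ (i.1 + 1) / (i.1 + 1).factorial) *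
        ‖TT μ (fun ξ => f ξ * (mom μ K ρ i.2 ξ : ℂ)) x‖ₑ := by
  have hπ := Real.pi_pos
  have hR : 0 ≤ R := (norm_nonneg x).trans hx
  obtain ⟨M, hM⟩ := hK.bdd
  have hKm : Measurable fun z : E n × E n => K z.1 z.2 := hK.meas
  have hf2 : Integrable (fun z : E n × E n => f z.2) (μ.prod μ) := hf.comp_snd μ
  set F : E n × E n → ℂ := fun z => f z.2 * (K z.1 z.2 : ℂ) with hF
  have hFi : Integrable F (μ.prod μ) := by
    refine hf2.mul_bdd (c := M) (Complex.measurable_ofReal.comp hKm).aestronglyMeasurable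
      (Eventually.of_forall fun z => ?_)
    show ‖((K z.1 z.2 : ℝ) : ℂ)‖ ≤ M
    rw [Complex.norm_real, Real.norm_of_nonneg (hK.nonneg _ _)]
    exact hM _ _
  have hch2 : Continuous fun z : E n × E n => ch z.2 x := (ch_cont_left x).comp continuous_snd
  have hch1 : Continuous fun z : E n × E n => ch z.1 x := (ch_cont_left x).comp continuous_fst
  set θ : E n × E n → ℂ := fun z => ((-(2 * Real.pi * inner ℝ (z.1 - z.2) x) : ℝ) : ℂ) * Complex.I
    with hθ
  have hθc : Continuous θ := by rw [hθ]; fun_prop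
  set b : ℝ := 2 * Real.pi * ρ * R with hb
  have hb0 : 0 ≤ b := by positivity
  set G : ℕ → E n × E n → ℂ := fun k z => F z * ch z.2 x * (θ z ^ k / k.factorial) with hG
  have hGle : ∀ k z, ‖G k z‖ ≤ ‖F z‖ * (b ^ k / k.factorial) := fun k z => by
    rw [hG]
    simp only
    rw [norm_mul, norm_mul, ch_norm, mul_one, norm_div, norm_pow, Complex.norm_natCast]
    by_cases h : ρ < ‖z.1 - z.2‖
    · have : F z = 0 := by rw [hF]; simp only; rw [hK.supp _ _ h]; simp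
      rw [this, norm_zero, zero_mul, zero_mul]
    · have h1 : ‖θ z‖ ≤ b := by
        rw [hθ]
        simp only
        rw [norm_mul, Complex.norm_I, mul_one, Complex.norm_real, norm_neg, norm_mul,
          Real.norm_of_nonneg (by positivity)]
        have h2 := norm_inner_le_norm (𝕜 := ℝ) (z.1 - z.2) x
        calc 2 * Real.pi * ‖(inner ℝ (z.1 - z.2) x : ℝ)‖ ≤ 2 * Real.pi * (ρ * R) := by
              refine mul_le_mul_of_nonneg_left (h2.trans ?_) (by positivity)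
              exact mul_le_mul (not_lt.1 h) hx (norm_nonneg _) hρ.le
          _ = b := by rw [hb]; ring
      gcongr
  have hGm : ∀ k, AEStronglyMeasurable (G k) (μ.prod μ) := fun k => by
    rw [hG]
    exact (hFi.aestronglyMeasurable.mul hch2.aestronglyMeasurable).mul
      ((hθc.pow k).div_const _).aestronglyMeasurable
  have hGi : ∀ k, Integrable (G k) (μ.prod μ) := fun k =>
    (hFi.norm.mul_const (b ^ k / k.factorial)).mono' (hGm k) (Eventually.of_forall (hGle k))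
  have hGs : Summable fun k => ∫ z, ‖G k z‖ ∂(μ.prod μ) := by
    refine Summable.of_nonneg_of_le (fun m => integral_nonneg fun ξ => norm_nonneg _)
      (fun k => ?_) ((Real.summable_pow_div_factorial b).mul_left (∫ z, ‖F z‖ ∂(μ.prod μ)))
    calc ∫ z, ‖G k z‖ ∂(μ.prod μ) ≤ ∫ z, ‖F z‖ * (b ^ k / k.factorial) ∂(μ.prod μ) :=
          integral_mono (hGi k).norm (hFi.norm.mul_const _) (hGle k)
      _ = _ := integral_mul_const _ _
  have h1 := hasSum_integral_of_summable_integral_norm hGi hGs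
  -- the sum of the series
  have h2 : ∫ z, ∑' k, G k z ∂(μ.prod μ) = TT μ (AV μ K f) x := by
    have e1 : ∀ z, ∑' k, G k z = F z * ch z.1 x := fun z => by
      rw [hG]
      simp only
      rw [tsum_mul_left]
      have e2 : ∑' m : ℕ, (θ z) ^ m / m.factorial = Complex.exp (θ z) := by
        rw [Complex.exp_eq_exp_ℂ, NormedSpace.exp_eq_tsum_div]
      rw [e2, mul_assoc]
      congr 1
      have e3 : Complex.exp (θ z) = ch (z.1 - z.2) x := rfl
      rw [e3, ← ch_add_left, add_sub_cancel]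
    simp only [e1]
    have hi : Integrable (fun z : E n × E n => F z * ch z.1 x) (μ.prod μ) :=
      hFi.mul_bdd (c := 1) hch1.aestronglyMeasurable
        (Eventually.of_forall fun z => (ch_norm _ _).le)
    rw [integral_prod _ hi]
    unfold TT AV
    refine integral_congr_ae (Eventually.of_forall fun ω => ?_)
    show ∫ ω', f ω' * (K ω ω' : ℂ) * ch ω x ∂μ = (∫ ω', f ω' * (K ω ω' : ℂ) ∂μ) * ch ω x
    rw [integral_mul_const]
  have h4 : ∫ z, G 0 z ∂(μ.prod μ) = TT μ f x := by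
    rw [integral_prod_symm _ (hGi 0)]
    unfold TT
    refine integral_congr_ae ?_
    filter_upwards [hK.left] with ω' hω'
    have e1 : ∀ ω, G 0 (ω, ω') = f ω' * ch ω' x * (K ω ω' : ℂ) := fun ω => by
      rw [hG, hF]
      simp only [pow_zero, Nat.factorial_zero, Nat.cast_one, div_one, mul_one]
      ring
    simp only [e1]
    rw [integral_const_mul, integral_complex_ofReal, hω']
    simp
  -- the terms
  have h3 : ∀ k : ℕ, ∫ z, G (k + 1) z ∂(μ.prod μ) = ∑ p : Fin (k + 1) → Fin n,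
      ((-(2 * Real.pi * ρ) : ℝ) * Complex.I) ^ (k + 1) / (k + 1).factorial *
        ((∏ l, x (p l) : ℝ) : ℂ) * TT μ (fun ξ => f ξ * (mom μ K ρ p ξ : ℂ)) x := fun k => by
    have hHi : ∀ p : Fin (k + 1) → Fin n, Integrable (fun z : E n × E n => f z.2 *
        ((K z.1 z.2 * ∏ l, ((z.1 - z.2) (p l) / ρ) : ℝ) : ℂ) * ch z.2 x) (μ.prod μ) := fun p => by
      refine Integrable.mul_bdd (c := 1) ?_ hch2.aestronglyMeasurable
        (Eventually.of_forall fun z => (ch_norm _ _).le)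
      refine hf2.mul_bdd (c := M) (Complex.measurable_ofReal.comp (KP_meas hK p)).aestronglyMeasurable
        (Eventually.of_forall fun z => ?_)
      show ‖((K z.1 z.2 * ∏ l, ((z.1 - z.2) (p l) / ρ) : ℝ) : ℂ)‖ ≤ M
      rw [Complex.norm_real]
      exact (K_prod_le hK hρ p _ _).trans (hM _ _)
    have e1 : ∀ z, G (k + 1) z = ∑ p : Fin (k + 1) → Fin n,
        ((-(2 * Real.pi * ρ) : ℝ) * Complex.I) ^ (k + 1) / (k + 1).factorial *
        ((∏ l, x (p l) : ℝ) : ℂ) * (f z.2 *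
        ((K z.1 z.2 * ∏ l, ((z.1 - z.2) (p l) / ρ) : ℝ) : ℂ) * ch z.2 x) := fun z => by
      have e2 : θ z = ((-(2 * Real.pi * ρ) : ℝ) * Complex.I) *
          (((inner ℝ (z.1 - z.2) x / ρ : ℝ)) : ℂ) := by
        rw [hθ]
        simp only
        have : (ρ : ℂ) ≠ 0 := by exact_mod_cast hρ.ne'
        push_cast
        field_simp
      have e3 : (inner ℝ (z.1 - z.2) x / ρ : ℝ) ^ (k + 1) = ∑ p : Fin (k + 1) → Fin n,
          (∏ l, x (p l)) * ∏ l, ((z.1 - z.2) (p l) / ρ) := by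
        rw [div_pow, inner_pow, Finset.sum_div]
        refine Finset.sum_congr rfl fun p _ => ?_
        rw [Finset.prod_div_distrib, Finset.prod_const, Finset.card_univ, Fintype.card_fin]
        ring
      rw [hG, hF]
      simp only
      rw [e2, mul_pow, ← Complex.ofReal_pow, e3]
      rw [Complex.ofReal_sum, Finset.mul_sum, Finset.sum_div, Finset.mul_sum]
      refine Finset.sum_congr rfl fun p _ => ?_
      push_cast
      ring
    simp only [e1]
    rw [integral_finsetSum _ fun p _ => (hHi p).const_mul _]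
    refine Finset.sum_congr rfl fun p _ => ?_
    rw [integral_const_mul, integral_prod_symm _ (hHi p)]
    congr 1
    unfold TT
    refine integral_congr_ae (Eventually.of_forall fun ω' => ?_)
    show ∫ ω, f ω' * ((K ω ω' * ∏ l, ((ω - ω') (p l) / ρ) : ℝ) : ℂ) * ch ω' x ∂μ =
      f ω' * (mom μ K ρ p ω' : ℂ) * ch ω' x
    rw [integral_mul_const, integral_const_mul, integral_complex_ofReal]
    rfl
  have h5 : TT μ (AV μ K f) x - TT μ f x = ∑' k : ℕ, ∫ z, G (k + 1) z ∂(μ.prod μ) := by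
    have e1 := h1.summable.tsum_eq_zero_add
    rw [h1.tsum_eq, h2, h4] at e1
    rw [e1]
    ring
  rw [h5, ENNReal.tsum_sigma']
  refine enorm_tsum_le_tsum_enorm.trans (ENNReal.tsum_le_tsum fun k => ?_)
  rw [h3 k, tsum_fintype]
  refine (enorm_sum_le _ _).trans (Finset.sum_le_sum fun p _ => ?_)
  rw [enorm_mul]
  refine mul_le_mul' ?_ le_rfl
  rw [← ofReal_norm]
  refine ENNReal.ofReal_le_ofReal ?_
  rw [norm_mul, norm_div, norm_pow, norm_mul, Complex.norm_I, mul_one, Complex.norm_real,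
    Complex.norm_natCast, norm_neg, Real.norm_of_nonneg (by positivity), Complex.norm_real,
    Real.norm_eq_abs, Finset.abs_prod]
  have h6 : ∏ l, |x (p l)| ≤ R ^ (k + 1) := by
    calc ∏ l, |x (p l)| ≤ ∏ _l : Fin (k + 1), R :=
          Finset.prod_le_prod (fun _ _ => abs_nonneg _) fun l _ => (abs_coord_le x (p l)).trans hx
      _ = R ^ (k + 1) := by rw [Finset.prod_const, Finset.card_univ, Fintype.card_fin]
  calc (2 * Real.pi * ρ) ^ (k + 1) / (k + 1).factorial * ∏ l, |x (p l)|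
      ≤ (2 * Real.pi * ρ) ^ (k + 1) / (k + 1).factorial * R ^ (k + 1) := by gcongr
    _ = b ^ (k + 1) / (k + 1).factorial := by rw [hb, mul_pow (2 * Real.pi * ρ) R]; ring

/-- averages are close to the function in the local norms -/
theorem AV_diff [IsFiniteMeasure μ] {𝒞 : (E n → ℂ) → Prop} (hCl : Cl μ 𝒞) {p : ℝ} (hp : 1 ≤ p)
    {R Y : ℝ} (hR : 0 ≤ R) (hρ : 0 < ρ) (hY : Y = 2 * Real.pi * ρ * R * n) (hY1 : Y ≤ 1)
    {D : ℝ≥0∞} (hD : ∀ f, 𝒞 f → NN μ p (BB n R) f ≤ D) (hK : Ker μ ρ K) {f : E n → ℂ}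
    (hf : 𝒞 f) :
    ∫⁻ x in BB n R, ‖TT μ (AV μ K f) x - TT μ f x‖ₑ ^ p ≤ (2 * ENNReal.ofReal Y) ^ p * D := by
  have hπ := Real.pi_pos
  have hp0 : 0 < p := by linarith
  have hY0 : 0 ≤ Y := by rw [hY]; positivity
  set w : (Σ k : ℕ, (Fin (k + 1) → Fin n)) → ℝ≥0∞ := fun i =>
    ENNReal.ofReal ((2 * Real.pi * ρ * R) ^ (i.1 + 1) / (i.1 + 1).factorial) with hw
  have hmem : ∀ i : (Σ k : ℕ, (Fin (k + 1) → Fin n)), 𝒞 fun ξ => f ξ * (mom μ K ρ i.2 ξ : ℂ) :=
    fun i => hCl.mul f hf _ (mom_meas hK _) (mom_le hK hρ _)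
  have hs : ∑' i, w i ≤ 2 * ENNReal.ofReal Y := by
    rw [ENNReal.tsum_sigma']
    have h1 : ∀ k : ℕ, ∑' p : Fin (k + 1) → Fin n, w ⟨k, p⟩ ≤ ENNReal.ofReal Y * 2⁻¹ ^ k :=
      fun k => by
      rw [tsum_fintype]
      simp only [hw]
      rw [Finset.sum_const, nsmul_eq_mul, Finset.card_univ, Fintype.card_fun, Fintype.card_fin,
        Fintype.card_fin, ← ENNReal.ofReal_natCast, ← ENNReal.ofReal_mul (by positivity)]
      have e1 : ((n ^ (k + 1) : ℕ) : ℝ) * ((2 * Real.pi * ρ * R) ^ (k + 1) / (k + 1).factorial) =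
          Y ^ (k + 1) / (k + 1).factorial := by
        rw [hY, mul_pow _ (n : ℝ)]
        push_cast
        ring
      rw [e1]
      have e2 : Y ^ (k + 1) / (k + 1).factorial ≤ Y * (2⁻¹) ^ k := by
        have h6 : Y ^ (k + 1) ≤ Y := by
          calc Y ^ (k + 1) = Y * Y ^ k := pow_succ' _ _
            _ ≤ Y * 1 := by
                gcongr
                exact pow_le_one₀ hY0 hY1
            _ = Y := mul_one _
        have h7 : (2 : ℝ) ^ k ≤ (k + 1).factorial := by exact_mod_cast fact_ge k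
        rw [inv_pow, ← div_eq_mul_inv]
        gcongr
      refine (ENNReal.ofReal_le_ofReal e2).trans (le_of_eq ?_)
      rw [ENNReal.ofReal_mul hY0, ENNReal.ofReal_pow (by norm_num),
        ENNReal.ofReal_inv_of_pos (by norm_num), ENNReal.ofReal_ofNat]
    refine (ENNReal.tsum_le_tsum h1).trans (le_of_eq ?_)
    rw [ENNReal.tsum_mul_left, ENNReal.tsum_geometric, ENNReal.one_sub_inv_two, inv_inv, mul_comm]
  have h1 := NN_series (ι := (Σ k : ℕ, (Fin (k + 1) → Fin n))) (μ := μ) hp (BB_meas R) w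
    (fun i ξ => f ξ * (mom μ K ρ i.2 ξ : ℂ)) (fun i => (hCl.real _ (hmem i)).int)
    (F := fun x => ‖TT μ (AV μ K f) x - TT μ f x‖ₑ) fun x hx =>
      AV_series hρ hK (hCl.real f hf).int (mem_closedBall_zero_iff.1 hx)
  refine h1.trans ?_
  calc (∑' i, w i) ^ (p - 1) * ∑' i, w i * NN μ p (BB n R) (fun ξ => f ξ * (mom μ K ρ i.2 ξ : ℂ))
      ≤ (2 * ENNReal.ofReal Y) ^ (p - 1) * ∑' i, w i * D := by
        refine mul_le_mul' (ENNReal.rpow_le_rpow hs (by linarith)) (ENNReal.tsum_le_tsum fun i => ?_)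
        exact mul_le_mul' le_rfl (hD _ (hmem i))
    _ ≤ (2 * ENNReal.ofReal Y) ^ (p - 1) * ((2 * ENNReal.ofReal Y) ^ (1 : ℝ) * D) := by
        rw [ENNReal.tsum_mul_right, ENNReal.rpow_one]
        exact mul_le_mul' le_rfl (mul_le_mul' hs le_rfl)
    _ = _ := by
        rw [← mul_assoc, ← ENNReal.rpow_add_of_nonneg _ _ (by linarith) zero_le_one]
        congr 2
        ring

/-- **Reduction to averages.** -/
theorem avg_reduce [IsFiniteMeasure μ] {𝒞 : (E n → ℂ) → Prop} (hCl : Cl μ 𝒞) {p : ℝ} (hp : 1 ≤ p)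
    {R : ℝ} (hR : 1 ≤ R) (hρ : 0 < ρ) (hρR : 8 * Real.pi * n * R * ρ ≤ 1) (hK : Ker μ ρ K)
    (hμi : ∀ f, 𝒞 f → Integrable (AV μ K f) μ) {S : ℝ≥0∞}
    (hS : ∀ f, 𝒞 f → NN μ p (BB n R) (AV μ K f) ≤ S) {f : E n → ℂ} (hf : 𝒞 f) :
    NN μ p (BB n R) f ≤ 2 ^ p * S := by
  have hp0 : 0 < p := by linarith
  have hπ := Real.pi_pos
  have hY : 2 * Real.pi * ρ * R * n ≤ 1 / 4 := by nlinarith
  set D : ℝ≥0∞ := ⨆ f : {f // 𝒞 f}, NN μ p (BB n R) f.1 with hD
  have hDf : ∀ f, 𝒞 f → NN μ p (BB n R) f ≤ D := fun f hf =>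
    le_iSup (fun f : {f // 𝒞 f} => NN μ p (BB n R) f.1) ⟨f, hf⟩
  have hDt : D ≠ ∞ := by
    have h1 : D ≤ (μ univ) ^ p * volume (BB n R) := iSup_le fun f =>
      NN_triv hp0.le _ _ (hCl.real f.1 f.2).lint
    refine ne_top_of_le_ne_top ?_ h1
    exact ENNReal.mul_ne_top (ENNReal.rpow_ne_top_of_nonneg hp0.le (measure_ne_top μ univ))
      measure_closedBall_lt_top.ne
  have h1 : D ≤ 2 ^ (p - 1) * S + 2⁻¹ * D := by
    refine iSup_le fun f => ?_
    have hfC := f.2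
    have hf := hCl.real f.1 f.2
    set g := AV μ K f.1 with hg
    have hgi := hμi f.1 hfC
    have h2 := NN_add' hp (BB n R) hgi (hf.int.sub hgi)
    have h3 : (fun ξ => g ξ + (f.1 - g) ξ) = f.1 := by
      funext ξ
      show g ξ + (f.1 ξ - g ξ) = f.1 ξ
      ring
    rw [h3] at h2
    refine h2.trans ?_
    rw [mul_add]
    refine add_le_add (by gcongr; exact hS f.1 hfC) ?_
    have h4 : NN μ p (BB n R) (f.1 - g) = ∫⁻ x in BB n R, ‖TT μ g x - TT μ f.1 x‖ₑ ^ p := by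
      unfold NN
      refine lintegral_congr fun x => ?_
      have e1 : TT μ (f.1 - g) x = TT μ f.1 x - TT μ g x := TT_sub hf.int hgi x
      rw [e1, ← enorm_neg, neg_sub]
    rw [h4]
    have h5 := AV_diff hCl hp (by linarith) hρ rfl (hY.trans (by norm_num)) hDf hK hfC
    calc 2 ^ (p - 1) * ∫⁻ x in BB n R, ‖TT μ g x - TT μ f.1 x‖ₑ ^ p
        ≤ 2 ^ (p - 1) * ((2 * ENNReal.ofReal (1 / 4)) ^ p * D) := by
          refine mul_le_mul' le_rfl (h5.trans (mul_le_mul' (ENNReal.rpow_le_rpow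
            (mul_le_mul' le_rfl (ENNReal.ofReal_le_ofReal hY)) hp0.le) le_rfl))
      _ = 2⁻¹ * D := by
          have e1 : (2 * ENNReal.ofReal (1 / 4) : ℝ≥0∞) = 2⁻¹ := by
            rw [← ENNReal.ofReal_ofNat, ← ENNReal.ofReal_mul (by norm_num)]
            have e2 : (2 : ℝ) * (1 / 4) = 2⁻¹ := by norm_num
            rw [e2, ENNReal.ofReal_inv_of_pos (by norm_num)]
          rw [e1, ← mul_assoc]
          congr 1
          rw [ENNReal.inv_rpow, ENNReal.rpow_sub _ _ (by norm_num) (by norm_num),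
            ENNReal.rpow_one, ENNReal.div_eq_inv_mul, mul_assoc,
            ENNReal.mul_inv_cancel (by simp) (by simp), mul_one]
  have h2 : 2⁻¹ * D ≤ 2 ^ (p - 1) * S := by
    have e1 : 2⁻¹ * D + 2⁻¹ * D = D := by rw [← add_mul, ENNReal.inv_two_add_inv_two, one_mul]
    have e2 : 2⁻¹ * D + 2⁻¹ * D ≤ 2 ^ (p - 1) * S + 2⁻¹ * D := by rw [e1]; exact h1
    exact (ENNReal.add_le_add_iff_right (ENNReal.mul_ne_top (by simp) hDt)).1 e2
  calc NN μ p (BB n R) f ≤ D := hDf f hf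
    _ = 2 * (2⁻¹ * D) := by
        rw [← mul_assoc, ENNReal.mul_inv_cancel (by norm_num) (by norm_num), one_mul]
    _ ≤ 2 * (2 ^ (p - 1) * S) := by gcongr
    _ = 2 ^ p * S := by
        rw [← mul_assoc]
        congr 1
        calc (2 : ℝ≥0∞) * 2 ^ (p - 1) = 2 ^ (1 : ℝ) * 2 ^ (p - 1) := by rw [ENNReal.rpow_one]
          _ = 2 ^ p := by
              rw [← ENNReal.rpow_add_of_nonneg _ _ zero_le_one (by linarith)]
              congr 1; ring

end Pool.Agent.H222.SP
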