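import Pool.Agent.H222.SP.Removal

/-!
From the local estimates with arbitrarily small losses to global estimates.
-/

open MeasureTheory Set Filter Metric
open scoped ENNReal NNReal Topology

namespace Pool.Agent.H222.SP

variable {n : ℕ} {μ : Measure (E n)}

/-- maximal separated subsets -/
theorem max_sep {α : Type*} [PseudoMetricSpace α] {S : Set α} {M : ℕ}
    (h : ∀ X : Finset α, (∀ x ∈ X, x ∈ S) → (∀ x ∈ X, ∀ y ∈ X, x ≠ y → 1 ≤ dist x y) →
      X.card ≤ M) :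
    ∃ X : Finset α, (∀ x ∈ X, x ∈ S) ∧ (∀ x ∈ X, ∀ y ∈ X, x ≠ y → 1 ≤ dist x y) ∧
      ∀ s ∈ S, ∃ x ∈ X, dist s x < 1 := by
  classical
  by_contra hcon
  push Not at hcon
  have h1 : ∀ k : ℕ, ∃ X : Finset α, (∀ x ∈ X, x ∈ S) ∧
      (∀ x ∈ X, ∀ y ∈ X, x ≠ y → 1 ≤ dist x y) ∧ X.card = k := fun k => by
    induction k with
    | zero => exact ⟨∅, by simp, by simp, rfl⟩
    | succ k ih =>
      obtain ⟨X, hX1, hX2, hX3⟩ := ih
      obtain ⟨s, hs, hs'⟩ := hcon X hX1 hX2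
      have hsX : s ∉ X := fun hsX => by
        have := hs' s hsX
        rw [dist_self] at this
        linarith
      refine ⟨insert s X, fun x hx => ?_, fun x hx y hy hxy => ?_, ?_⟩
      · rcases Finset.mem_insert.1 hx with rfl | hx
        · exact hs
        · exact hX1 x hx
      · rcases Finset.mem_insert.1 hx with hx' | hx'
        · rcases Finset.mem_insert.1 hy with hy' | hy'
          · exact absurd (hx'.trans hy'.symm) hxy
          · rw [hx']; exact hs' y hy'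
        · rcases Finset.mem_insert.1 hy with hy' | hy'
          · rw [hy', dist_comm]; exact hs' x hx'
          · exact hX2 x hx' y hy' hxy
      · rw [Finset.card_insert_of_notMem hsX, hX3]
  obtain ⟨X, hX1, hX2, hX3⟩ := h1 (M + 1)
  have := h X hX1 hX2
  omega

theorem TT_ES {f : E n → ℂ} (hf : Integrable f μ) (X : Finset (E n)) (a : E n → ℂ) :
    ∑ x ∈ X, a x * TT μ f x = ∫ ξ, f ξ * ES X a ξ ∂μ := by
  have h1 : ∀ x, a x * TT μ f x = ∫ ξ, a x * (f ξ * ch ξ x) ∂μ := fun x => by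
    unfold TT; rw [integral_const_mul]
  simp only [h1]
  rw [← integral_finsetSum]
  · refine integral_congr_ae (Eventually.of_forall fun ξ => ?_)
    show ∑ x ∈ X, a x * (f ξ * ch ξ x) = f ξ * ES X a ξ
    unfold ES
    rw [Finset.mul_sum]
    exact Finset.sum_congr rfl fun x _ => by ring
  · exact fun x _ => (TT_int hf x).const_mul _

/-- the counting estimate -/
theorem count [IsFiniteMeasure μ] {r : ℝ} (hr : 1 < r) {C : ℝ≥0∞}
    (hC : ∀ X : Finset (E n), (∀ x ∈ X, ∀ y ∈ X, x ≠ y → 1 ≤ dist x y) →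
      ∀ a : E n → ℂ, (∀ x, ‖a x‖ ≤ 1) →
        ∫⁻ ξ, ‖ES X a ξ‖ₑ ∂μ ≤ C * (X.card : ℝ≥0∞) ^ (1 - 1 / r))
    {f : E n → ℂ} (hf : Measurable f) (hf1 : ∀ ξ, ‖f ξ‖ ≤ 1) {t : ℝ≥0∞} (ht : t ≠ 0) (htt : t ≠ ∞)
    {X : Finset (E n)} (hX : ∀ x ∈ X, ∀ y ∈ X, x ≠ y → 1 ≤ dist x y)
    (hXt : ∀ x ∈ X, t ≤ ‖TT μ f x‖ₑ) : (X.card : ℝ≥0∞) ≤ (C / t) ^ r := by
  have hfi : Integrable f μ := integrable_of_bdd hf hf1
  have hr0 : 0 < r := by linarith
  rcases Nat.eq_zero_or_pos X.card with h0 | h0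
  · rw [h0]; simp
  have hN0 : (X.card : ℝ≥0∞) ≠ 0 := by
    exact_mod_cast h0.ne'
  have hNt : (X.card : ℝ≥0∞) ≠ ∞ := ENNReal.natCast_ne_top _
  set a : E n → ℂ := fun x => (starRingEnd ℂ) (TT μ f x) / ‖TT μ f x‖ with ha
  have ha1 : ∀ x, ‖a x‖ ≤ 1 := fun x => by
    rw [ha]
    simp only [norm_div, RCLike.norm_conj, Complex.norm_real, norm_norm]
    exact div_self_le_one _
  have hax : ∀ x, a x * TT μ f x = ((‖TT μ f x‖ : ℝ) : ℂ) := fun x => by
    rw [ha]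
    simp only
    by_cases hz : TT μ f x = 0
    · rw [hz]; simp
    · have h2 : ((‖TT μ f x‖ : ℝ) : ℂ) ≠ 0 := by
        rw [Complex.ofReal_ne_zero]; exact norm_ne_zero_iff.2 hz
      rw [div_mul_eq_mul_div, mul_comm, Complex.mul_conj, Complex.normSq_eq_norm_sq,
        div_eq_iff h2]
      push_cast
      ring
  have h1 : ∑ x ∈ X, ‖TT μ f x‖ₑ ≤ ∫⁻ ξ, ‖ES X a ξ‖ₑ ∂μ := by
    have e1 : ∑ x ∈ X, ‖TT μ f x‖ₑ = ‖∑ x ∈ X, a x * TT μ f x‖ₑ := by
      rw [Finset.sum_congr rfl fun x _ => hax x, ← Complex.ofReal_sum, ← ofReal_norm,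
        Complex.norm_real, Real.norm_of_nonneg (Finset.sum_nonneg fun x _ => norm_nonneg _),
        ENNReal.ofReal_sum_of_nonneg fun x _ => norm_nonneg _]
      exact Finset.sum_congr rfl fun x _ => (ofReal_norm _).symm
    rw [e1, TT_ES hfi]
    refine (enorm_integral_le_lintegral_enorm _).trans ?_
    refine lintegral_mono fun ξ => ?_
    rw [enorm_mul]
    have : ‖f ξ‖ₑ ≤ 1 := by
      rw [← ofReal_norm, ← ENNReal.ofReal_one]
      exact ENNReal.ofReal_le_ofReal (hf1 ξ)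
    calc ‖f ξ‖ₑ * ‖ES X a ξ‖ₑ ≤ 1 * ‖ES X a ξ‖ₑ := by gcongr
      _ = _ := one_mul _
  have h2 : (X.card : ℝ≥0∞) * t ≤ ∑ x ∈ X, ‖TT μ f x‖ₑ := by
    rw [← nsmul_eq_mul, ← Finset.sum_const]
    exact Finset.sum_le_sum hXt
  have h3 : (X.card : ℝ≥0∞) * t ≤ C * (X.card : ℝ≥0∞) ^ (1 - 1 / r) :=
    h2.trans (h1.trans (hC X hX a ha1))
  have h4 : (X.card : ℝ≥0∞) ^ (1 / r) * t ≤ C := by
    have e1 : (X.card : ℝ≥0∞) = (X.card : ℝ≥0∞) ^ (1 / r) * (X.card : ℝ≥0∞) ^ (1 - 1 / r) := by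
      rw [← ENNReal.rpow_add _ _ hN0 hNt]
      simp
    have e2 : (X.card : ℝ≥0∞) ^ (1 - 1 / r) ≠ 0 := by
      simp [ENNReal.rpow_eq_zero_iff, hN0, hNt]
    have e3 : (X.card : ℝ≥0∞) ^ (1 - 1 / r) ≠ ∞ := by
      refine ENNReal.rpow_ne_top_of_nonneg ?_ hNt
      have : 1 / r ≤ 1 := by rw [div_le_one hr0]; exact hr.le
      linarith
    rw [e1] at h3
    have h5 : (X.card : ℝ≥0∞) ^ (1 / r) * t * (X.card : ℝ≥0∞) ^ (1 - 1 / r) ≤
        C * (X.card : ℝ≥0∞) ^ (1 - 1 / r) := by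
      calc _ = (X.card : ℝ≥0∞) ^ (1 / r) * (X.card : ℝ≥0∞) ^ (1 - 1 / r) * t := by ring
        _ ≤ C * ((X.card : ℝ≥0∞) ^ (1 / r) * (X.card : ℝ≥0∞) ^ (1 - 1 / r)) ^ (1 - 1 / r) := h3
        _ = _ := by rw [← e1]
    exact (ENNReal.mul_le_mul_iff_left e2 e3).1 h5
  have h6 : (X.card : ℝ≥0∞) ^ (1 / r) ≤ C / t := by
    rw [ENNReal.le_div_iff_mul_le (Or.inl ht) (Or.inl htt)]
    exact h4
  calc (X.card : ℝ≥0∞) = ((X.card : ℝ≥0∞) ^ (1 / r)) ^ r := by
        rw [← ENNReal.rpow_mul, one_div, inv_mul_cancel₀ hr0.ne', ENNReal.rpow_one]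
    _ ≤ _ := ENNReal.rpow_le_rpow h6 hr0.le

/-- the weak type estimate -/
theorem weak [IsFiniteMeasure μ] {r : ℝ} (hr : 1 < r) {C : ℝ≥0∞} (hCt : C ≠ ∞)
    (hC : ∀ X : Finset (E n), (∀ x ∈ X, ∀ y ∈ X, x ≠ y → 1 ≤ dist x y) →
      ∀ a : E n → ℂ, (∀ x, ‖a x‖ ≤ 1) →
        ∫⁻ ξ, ‖ES X a ξ‖ₑ ∂μ ≤ C * (X.card : ℝ≥0∞) ^ (1 - 1 / r))
    {f : E n → ℂ} (hf : Measurable f) (hf1 : ∀ ξ, ‖f ξ‖ ≤ 1) {t : ℝ≥0∞} (ht : t ≠ 0) (htt : t ≠ ∞) :
    volume {x | t < ‖TT μ f x‖ₑ} ≤ (C / t) ^ r * volume (ball (0 : E n) 1) := by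
  have hr0 : 0 < r := by linarith
  have hfin : (C / t) ^ r ≠ ∞ := ENNReal.rpow_ne_top_of_nonneg hr0.le
    (ENNReal.div_ne_top hCt ht)
  obtain ⟨M, hM⟩ := ENNReal.exists_nat_gt hfin
  obtain ⟨X, hX1, hX2, hX3⟩ := max_sep (S := {x | t < ‖TT μ f x‖ₑ}) (M := M) fun X hX1 hX2 => by
    have h1 := count hr hC hf hf1 ht htt hX2 fun x hx => (hX1 x hx).le
    exact_mod_cast (h1.trans_lt hM).le
  have h1 := count hr hC hf hf1 ht htt hX2 fun x hx => (hX1 x hx).le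
  have h2 : {x | t < ‖TT μ f x‖ₑ} ⊆ ⋃ x ∈ X, ball x 1 := fun s hs => by
    obtain ⟨x, hx, hsx⟩ := hX3 s hs
    exact mem_biUnion hx hsx
  calc volume {x | t < ‖TT μ f x‖ₑ} ≤ volume (⋃ x ∈ X, ball x 1) := measure_mono h2
    _ ≤ ∑ x ∈ X, volume (ball x 1) := measure_biUnion_finset_le _ _
    _ = ∑ x ∈ X, volume (ball (0 : E n) 1) := Finset.sum_congr rfl fun x _ => by
        rw [Measure.addHaar_ball_center]
    _ = X.card * volume (ball (0 : E n) 1) := by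
        rw [Finset.sum_const, nsmul_eq_mul]
    _ ≤ _ := by gcongr

/-- removal of the loss -/
theorem eps_removal [IsFiniteMeasure μ] (hμ0 : μ univ ≠ 0) (hMix : Mix μ) (hsupp : Sup μ)
    (G₀ : Geo μ) {p s : ℝ} (hp : 2 ≤ p) (hL : HL μ p) (hs : p < s) :
    ∃ C : ℝ≥0∞, C ≠ ∞ ∧ ∀ f : E n → ℂ, Measurable f → (∀ ξ, ‖f ξ‖ ≤ 1) →
      ∫⁻ x, ‖TT μ f x‖ₑ ^ s ≤ C := by
  obtain ⟨r, hpr, hrs⟩ := exists_between hs
  have hr1 : 1 < r := by linarith
  have hr0 : 0 < r := by linarith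
  have hs0 : 0 < s := by linarith
  obtain ⟨C, hCt, hC⟩ := exp_sum hμ0 hMix hsupp G₀ hp hL hpr
  set v : ℝ≥0∞ := volume (ball (0 : E n) 1) with hv
  have hvt : v ≠ ∞ := measure_ball_lt_top.ne
  set A : ℝ := (μ univ).toReal with hA
  have hA0 : 0 ≤ A := ENNReal.toReal_nonneg
  set I : ℝ≥0∞ := ∫⁻ t in Ioc 0 A, ENNReal.ofReal (t ^ (s - 1 - r)) with hI
  have hIt : I ≠ ∞ := by
    have h1 : IntervalIntegrable (fun t : ℝ => t ^ (s - 1 - r)) volume 0 A :=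
      intervalIntegral.intervalIntegrable_rpow' (by linarith)
    rw [intervalIntegrable_iff_integrableOn_Ioc_of_le hA0] at h1
    have h2 := h1.hasFiniteIntegral
    refine ne_top_of_le_ne_top h2.ne ?_
    refine lintegral_mono fun t => ?_
    exact Real.ofReal_le_enorm _
  refine ⟨ENNReal.ofReal s * (C ^ r * v * I), ENNReal.mul_ne_top ENNReal.ofReal_ne_top
    (ENNReal.mul_ne_top (ENNReal.mul_ne_top (ENNReal.rpow_ne_top_of_nonneg hr0.le hCt) hvt) hIt),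
    fun f hf hf1 => ?_⟩
  have hfi : Integrable f μ := integrable_of_bdd hf hf1
  have hTA : ∀ x, ‖TT μ f x‖ ≤ A := fun x => by
    have h1 := (TT_le (μ := μ) f x).trans (lint_le hf1 MeasurableSet.univ fun ξ hξ => absurd (mem_univ ξ) hξ)
    rw [← ofReal_norm] at h1
    rw [hA]
    exact (ENNReal.ofReal_le_iff_le_toReal (measure_ne_top μ univ)).1 h1
  have h1 : ∫⁻ x, ‖TT μ f x‖ₑ ^ s = ∫⁻ x, ENNReal.ofReal (‖TT μ f x‖ ^ s) := lintegral_congr fun x => by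
    rw [← ofReal_norm, ENNReal.ofReal_rpow_of_nonneg (norm_nonneg _) hs0.le]
  rw [h1, lintegral_rpow_eq_lintegral_meas_lt_mul volume (Eventually.of_forall fun x => norm_nonneg _)
    (TT_cont hfi).norm.measurable.aemeasurable hs0]
  gcongr
  rw [hI, ← lintegral_const_mul _ (by fun_prop)]
  rw [← lintegral_indicator measurableSet_Ioi, ← lintegral_indicator measurableSet_Ioc]
  refine lintegral_mono fun t => ?_
  by_cases ht : t ∈ Ioi (0 : ℝ)
  · have ht0 : 0 < t := ht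
    rw [indicator_of_mem ht]
    by_cases htA : t ∈ Ioc (0 : ℝ) A
    · rw [indicator_of_mem htA]
      have h2 := weak hr1 hCt hC hf hf1 (t := ENNReal.ofReal t)
        (by simpa using ht0) ENNReal.ofReal_ne_top
      have h3 : {x | t < ‖TT μ f x‖} = {x | ENNReal.ofReal t < ‖TT μ f x‖ₑ} := by
        ext x
        rw [mem_ofPred_eq, mem_ofPred_eq, ← ofReal_norm, ENNReal.ofReal_lt_ofReal_iff_of_nonneg ht0.le]
      rw [h3]
      calc volume {x | ENNReal.ofReal t < ‖TT μ f x‖ₑ} * ENNReal.ofReal (t ^ (s - 1))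
          ≤ (C / ENNReal.ofReal t) ^ r * v * ENNReal.ofReal (t ^ (s - 1)) := by gcongr
        _ = C ^ r * v * ENNReal.ofReal (t ^ (s - 1 - r)) := by
            have e1 : ENNReal.ofReal (t ^ (s - 1)) =
                ENNReal.ofReal (t ^ (s - 1 - r)) * ENNReal.ofReal (t ^ r) := by
              rw [← ENNReal.ofReal_mul (by positivity), ← Real.rpow_add ht0]
              congr 2; ring
            have e2 : ENNReal.ofReal (t ^ r) = ENNReal.ofReal t ^ r :=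
              (ENNReal.ofReal_rpow_of_pos ht0).symm
            have e3 : ENNReal.ofReal t ^ r ≠ 0 := by
              rw [← e2]; simpa using Real.rpow_pos_of_pos ht0 r
            have e4 : ENNReal.ofReal t ^ r ≠ ∞ := by rw [← e2]; exact ENNReal.ofReal_ne_top
            rw [e1, e2, ENNReal.div_rpow_of_nonneg _ _ hr0.le]
            calc C ^ r / ENNReal.ofReal t ^ r * v *
                  (ENNReal.ofReal (t ^ (s - 1 - r)) * ENNReal.ofReal t ^ r)
                = C ^ r * v * ENNReal.ofReal (t ^ (s - 1 - r)) *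
                  ((ENNReal.ofReal t ^ r)⁻¹ * ENNReal.ofReal t ^ r) := by
                  rw [ENNReal.div_eq_inv_mul]; ring
              _ = _ := by rw [ENNReal.inv_mul_cancel e3 e4, mul_one]
    · have htA' : A < t := by
        by_contra hcon
        exact htA ⟨ht0, not_lt.1 hcon⟩
      have h3 : {x | t < ‖TT μ f x‖} = ∅ := by
        ext x
        simp only [mem_ofPred_eq, mem_empty_iff_false, iff_false, not_lt]
        exact (hTA x).trans htA'.le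
      rw [h3, measure_empty, zero_mul]
      exact bot_le
  · rw [indicator_of_notMem ht]; exact bot_le

end Pool.Agent.H222.SP
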