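import Pool.Agent.H222.SP.Core

/-!
Gaussian windows.
-/

open MeasureTheory Set Filter Metric
open scoped ENNReal NNReal Topology

namespace Pool.Agent.H222.SP

variable {n : ℕ} {μ : Measure (E n)}

/-- the Gaussian weight of width `r` -/
noncomputable def gw (r : ℝ) (ζ ξ : E n) : ℝ := Real.exp (-(Real.pi / r ^ 2) * ‖ξ - ζ‖ ^ 2)

theorem gw_pos (r : ℝ) (ζ ξ : E n) : 0 < gw r ζ ξ := Real.exp_pos _

theorem gw_le (r : ℝ) (ζ ξ : E n) : gw r ζ ξ ≤ 1 := by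
  unfold gw
  have hpi := Real.pi_pos
  rw [Real.exp_le_one_iff, neg_mul, neg_nonpos]
  positivity

theorem gw_cont (r : ℝ) : Continuous fun p : E n × E n => gw r p.1 p.2 := by
  unfold gw; fun_prop

theorem gw_cont_right (r : ℝ) (ζ : E n) : Continuous fun ξ : E n => gw r ζ ξ := by
  unfold gw; fun_prop

theorem gw_symm (r : ℝ) (ζ ξ : E n) : gw r ζ ξ = gw r ξ ζ := by
  unfold gw; rw [norm_sub_rev]

theorem gw_int [IsFiniteMeasure μ] (r : ℝ) (ζ : E n) : Integrable (fun ξ : E n => gw r ζ ξ) μ :=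
  Integrable.of_bound (gw_cont_right r ζ).aestronglyMeasurable 1
    (Eventually.of_forall fun ξ => by
      rw [Real.norm_of_nonneg (gw_pos r ζ ξ).le]; exact gw_le r ζ ξ)

theorem gw_lint [IsFiniteMeasure μ] (r : ℝ) (ζ : E n) :
    ∫⁻ ξ, ENNReal.ofReal (gw r ζ ξ) ∂μ = ENNReal.ofReal (∫ ξ, gw r ζ ξ ∂μ) := by
  rw [ofReal_integral_eq_lintegral_ofReal (gw_int r ζ)
    (Eventually.of_forall fun ξ => (gw_pos r ζ ξ).le)]

/-- the moment is controlled by a wider window -/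
theorem gw_moment_pt {r : ℝ} (hr : 0 < r) (ζ ξ : E n) :
    gw r ζ ξ * ‖ξ - ζ‖ ≤ r * gw (Real.sqrt 2 * r) ζ ξ := by
  set s : ℝ := Real.sqrt 2 * r with hs
  have hs0 : 0 < s := by positivity
  have hs2 : s ^ 2 = 2 * r ^ 2 := by
    rw [hs, mul_pow, Real.sq_sqrt (by norm_num)]
  have hpi := Real.pi_gt_three
  set u : ℝ := ‖ξ - ζ‖ / r with hu
  have hu0 : 0 ≤ u := by positivity
  have h1 : ‖ξ - ζ‖ = r * u := by rw [hu]; field_simp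
  have h2 : gw r ζ ξ = gw s ζ ξ * Real.exp (-(Real.pi / 2) * u ^ 2) := by
    unfold gw
    rw [← Real.exp_add]
    congr 1
    rw [hs2, h1]
    field_simp
    ring
  have h3 : u ≤ Real.exp (Real.pi / 2 * u ^ 2) := by
    have h4 := Real.add_one_le_exp (Real.pi / 2 * u ^ 2)
    nlinarith [sq_nonneg (u - 1)]
  have h5 : Real.exp (-(Real.pi / 2) * u ^ 2) * u ≤ 1 := by
    calc Real.exp (-(Real.pi / 2) * u ^ 2) * u
        ≤ Real.exp (-(Real.pi / 2) * u ^ 2) * Real.exp (Real.pi / 2 * u ^ 2) := by gcongr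
      _ = 1 := by rw [← Real.exp_add]; simp
  rw [h2, h1]
  calc gw s ζ ξ * Real.exp (-(Real.pi / 2) * u ^ 2) * (r * u)
      = r * gw s ζ ξ * (Real.exp (-(Real.pi / 2) * u ^ 2) * u) := by ring
    _ ≤ r * gw s ζ ξ * 1 := by
        have := (gw_pos s ζ ξ).le
        gcongr
    _ = _ := mul_one _

/-- the geometry of the measure: masses of Gaussian windows and decay of their transforms -/
structure Geo (μ : Measure (E n)) where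
  /-- the dimension -/
  a : ℕ
  /-- exponent of the separation -/
  κ : ℕ
  /-- constant of the width -/
  A : ℝ
  /-- constant of the separation -/
  K : ℝ
  /-- upper constant -/
  Cu : ℝ
  /-- lower constant -/
  cl : ℝ
  hA : 4 * Real.pi * Cu ≤ A
  hK : 1 ≤ K
  hκ : 2 ≤ κ
  hCu : 1 ≤ Cu
  hcl : 0 < cl
  upper : ∀ r : ℝ, 0 < r → r ≤ 1 → ∀ᵐ ζ ∂μ,
    ∫⁻ ξ, ENNReal.ofReal (gw r ζ ξ) ∂μ ≤ ENNReal.ofReal (Cu * r ^ a)
  moment : ∀ r : ℝ, 0 < r → r ≤ 1 → ∀ᵐ ζ ∂μ,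
    ∫⁻ ξ, ENNReal.ofReal (gw r ζ ξ * ‖ξ - ζ‖) ∂μ ≤ ENNReal.ofReal (Cu * r ^ (a + 1))
  lower : ∀ r : ℝ, 0 < r → r ≤ 1 → ∀ᵐ ξ ∂μ,
    ENNReal.ofReal (cl * r ^ a) ≤ ∫⁻ ζ, ENNReal.ofReal (gw r ζ ξ) ∂μ
  decay : ∀ N R : ℝ, 1 ≤ N → 1 ≤ R → ∀ᵐ ζ ∂μ, ∀ y : E n, (K * N * R) ^ κ ≤ ‖y‖ →
    ‖∫ ξ, (gw (1 / (A * N * R)) ζ ξ : ℂ) * ch ξ y ∂μ‖ ≤ (1 / (A * N * R)) ^ a / N ^ 2

end Pool.Agent.H222.SP
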