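import Pool.Agent.H222.SP.Greedy

/-!
Rotation invariant measures on the sphere mix.
-/

open MeasureTheory Set Filter Metric
open scoped ENNReal NNReal Topology

namespace Pool.Agent.H222.SP

variable {n : ℕ} {μ : Measure (E n)}

/-- the orthogonal group -/
abbrev OG (n : ℕ) : Type := unitary (E n →L[ℝ] E n)

instance continuousStarE (n : ℕ) : ContinuousStar (E n →L[ℝ] E n) :=
  ⟨(ContinuousLinearMap.adjoint : (E n →L[ℝ] E n) ≃ₗᵢ⋆[ℝ] (E n →L[ℝ] E n)).continuous⟩

theorem compactOG (n : ℕ) : CompactSpace (OG n) := by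
  have : ProperSpace (E n →L[ℝ] E n) := FiniteDimensional.proper ℝ _
  refine isCompact_iff_compactSpace.1 ?_
  refine Metric.isCompact_of_isClosed_isBounded isClosed_unitary ?_
  refine (Metric.isBounded_closedBall (x := (0 : E n →L[ℝ] E n)) (r := 1)).subset ?_
  intro U hU
  rw [mem_closedBall_zero_iff]
  refine ContinuousLinearMap.opNorm_le_bound _ zero_le_one fun x => ?_
  rw [one_mul]
  exact le_of_eq (U.norm_map_of_mem_unitary hU x)

/-- the Haar probability measure of the orthogonal group -/
noncomputable def hm (n : ℕ) : Measure (OG n) :=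
  have := compactOG n
  Measure.haarMeasure ⊤

theorem hm_prob (n : ℕ) : IsProbabilityMeasure (hm n) := by
  have := compactOG n
  refine ⟨?_⟩
  have h := Measure.haarMeasure_self (K₀ := (⊤ : TopologicalSpace.PositiveCompacts (OG n)))
  unfold hm
  simpa using h

theorem hm_left (n : ℕ) : (hm n).IsMulLeftInvariant := by
  have := compactOG n
  unfold hm
  infer_instance

/-- the action of the inverse -/
noncomputable def act {n : ℕ} (U : OG n) : E n ≃ₗᵢ[ℝ] E n := Unitary.linearIsometryEquiv U⁻¹

theorem act_mul {n : ℕ} (t U : OG n) (s : E n) :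
    act (t⁻¹ * U) s = act U (Unitary.linearIsometryEquiv t s) := by
  unfold act
  rw [mul_inv_rev, inv_inv, map_mul]
  rfl

theorem continuous_act {n : ℕ} : Continuous fun p : OG n × E n => act p.1 p.2 :=
  (continuous_subtype_val.comp (continuous_inv.comp continuous_fst)).clm_apply continuous_snd

theorem mix_of_inv [IsFiniteMeasure μ] (hμ0 : μ univ ≠ 0) (hs : ∀ᵐ x ∂μ, ‖x‖ = 1)
    (hinv : ∀ T : E n ≃ₗᵢ[ℝ] E n, MeasurePreserving T μ μ) : Mix μ := by
  intro A hA g hg
  have := hm_prob n
  have := hm_left n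
  have : NeZero μ := ⟨fun h => hμ0 (by rw [h]; simp)⟩
  set F : E n → ℝ≥0∞ := A.indicator (fun _ => 1) with hF
  have hFm : Measurable F := measurable_const.indicator hA
  -- the average over the group is constant
  obtain ⟨s, hs1⟩ := hs.exists
  set c : ℝ≥0∞ := ∫⁻ U, F (act U s) ∂(hm n) with hc
  have hconst : ∀ s' : E n, ‖s'‖ = 1 → ∫⁻ U, F (act U s') ∂(hm n) = c := by
    intro s' hs'
    have hn : ‖s‖ = ‖s'‖ := by rw [hs1, hs']
    set T : E n ≃ₗᵢ[ℝ] E n := Submodule.reflection (ℝ ∙ (s - s'))ᗮ with hT
    have hTs : T s = s' := Submodule.reflection_sub hn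
    obtain ⟨t, ht⟩ : ∃ t : OG n, Unitary.linearIsometryEquiv t = T :=
      ⟨Unitary.linearIsometryEquiv.symm T, by simp⟩
    have h2 := lintegral_mul_left_eq_self (μ := hm n) (fun U => F (act U s)) t⁻¹
    rw [hc, ← h2]
    refine lintegral_congr fun U => ?_
    rw [act_mul, ht, hTs]
  have hswap : ∀ h : E n → ℝ≥0∞, Measurable h →
      ∫⁻ U, ∫⁻ x, h x * F (act U x) ∂μ ∂(hm n) = (∫⁻ x, h x ∂μ) * c := by
    intro h hh
    have hmm : Measurable (Function.uncurry fun (U : OG n) (x : E n) => h x * F (act U x)) :=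
      (hh.comp measurable_snd).mul (hFm.comp continuous_act.measurable)
    rw [lintegral_lintegral_swap hmm.aemeasurable]
    rw [← lintegral_mul_const _ hh]
    refine lintegral_congr_ae ?_
    filter_upwards [hs] with x hx
    have hxm : Measurable fun U : OG n => F (act U x) :=
      hFm.comp ((continuous_act (n := n)).comp (continuous_id.prodMk continuous_const)).measurable
    rw [lintegral_const_mul _ hxm, hconst x hx]
  have hcval : c = (μ univ)⁻¹ * μ A := by
    have h1 := hswap (fun _ => 1) measurable_const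
    simp only [one_mul, lintegral_one] at h1
    have h2 : ∀ U : OG n, ∫⁻ x, F (act U x) ∂μ = μ A := fun U => by
      rw [(hinv (act U)).lintegral_comp hFm, hF, lintegral_indicator hA, setLIntegral_one]
    simp only [h2, lintegral_const, measure_univ, mul_one] at h1
    rw [h1, ← mul_assoc, ENNReal.inv_mul_cancel hμ0 (measure_ne_top μ univ), one_mul]
  have h3 := hswap g hg
  have hmm : AEMeasurable (fun U => ∫⁻ x, g x * F (act U x) ∂μ) (hm n) := by
    have hmm : Measurable fun p : OG n × E n => g p.2 * F (act p.1 p.2) :=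
      (hg.comp measurable_snd).mul (hFm.comp continuous_act.measurable)
    exact hmm.lintegral_prod_right'.aemeasurable
  obtain ⟨U, hU⟩ := exists_le_lintegral hmm
  refine ⟨act U, hinv _, hU.trans_eq ?_⟩
  rw [h3, hcval, mul_comm]

end Pool.Agent.H222.SP
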