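import Pool.Agent.H222.SP.WinS
import Pool.Agent.H222.SP.MixS
import Pool.Agent.H222.SP.Final

/-!
The sphere satisfies all hypotheses.
-/

open MeasureTheory Set Filter Metric
open scoped ENNReal NNReal Topology

namespace Pool.Agent.H222.SP

open Pool.Agent.H789R2.FR (sg sg_finite sg_ae sg_inv D D_upper D_lower)

variable {n : ℕ}

theorem D_gw (r : ℝ) (ζ : E n) : ∫ ξ, gw r ζ ξ ∂(sg n) = D (2 * Real.pi / r ^ 2) ζ := by
  unfold D gw
  refine integral_congr_ae (Eventually.of_forall fun ξ => ?_)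
  show Real.exp _ = Real.exp _
  rw [norm_sub_rev]
  congr 1
  ring

theorem R_pow {m : ℕ} {r : ℝ} (hr : 0 < r) :
    (2 * Real.pi / r ^ 2) ^ (-(m : ℝ) / 2) = (2 * Real.pi) ^ (-(m : ℝ) / 2) * r ^ m := by
  have hpi := Real.pi_pos
  rw [Real.div_rpow (by positivity) (by positivity), div_eq_mul_inv]
  congr 1
  rw [neg_div, Real.rpow_neg (by positivity), inv_inv, pow_half hr]

theorem pi_pow_le (m : ℕ) : (2 * Real.pi) ^ (-(m : ℝ) / 2) ≤ 1 := by
  have hpi := Real.pi_gt_three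
  refine Real.rpow_le_one_of_one_le_of_nonpos (by linarith) ?_
  have : (0 : ℝ) ≤ m := Nat.cast_nonneg m
  linarith

theorem cast_sub_one (hn : 2 ≤ n) : ((n : ℝ) - 1) = ((n - 1 : ℕ) : ℝ) := by
  rw [Nat.cast_sub (by omega)]; simp

theorem gw_upper (n : ℕ) (hn : 2 ≤ n) : ∃ C : ℝ, 0 < C ∧ ∀ r : ℝ, 0 < r → ∀ ζ : E n, ‖ζ‖ = 1 →
    ∫⁻ ξ, ENNReal.ofReal (gw r ζ ξ) ∂(sg n) ≤ ENNReal.ofReal (C * r ^ (n - 1)) := by
  obtain ⟨C, hC, h⟩ := D_upper n hn
  have hfin := sg_finite n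
  have hpi := Real.pi_pos
  refine ⟨C, hC, fun r hr ζ hζ => ?_⟩
  rw [gw_lint, D_gw]
  apply ENNReal.ofReal_le_ofReal
  refine (h _ (by positivity) ζ hζ).trans ?_
  rw [cast_sub_one hn, R_pow hr]
  have h1 := pi_pow_le (n - 1)
  have h2 : 0 ≤ r ^ (n - 1) := by positivity
  calc C * ((2 * Real.pi) ^ (-((n - 1 : ℕ) : ℝ) / 2) * r ^ (n - 1)) ≤ C * (1 * r ^ (n - 1)) := by
        gcongr
    _ = _ := by ring

theorem gw_lower (n : ℕ) (hn : 2 ≤ n) : ∃ c : ℝ, 0 < c ∧ ∀ r : ℝ, 0 < r → r ≤ 1 →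
    ∀ ζ : E n, ‖ζ‖ = 1 →
    ENNReal.ofReal (c * r ^ (n - 1)) ≤ ∫⁻ ξ, ENNReal.ofReal (gw r ζ ξ) ∂(sg n) := by
  obtain ⟨c, hc, h⟩ := D_lower n hn
  have hfin := sg_finite n
  have hpi := Real.pi_gt_three
  refine ⟨c * (2 * Real.pi) ^ (-((n - 1 : ℕ) : ℝ) / 2), by positivity, fun r hr hr1 ζ hζ => ?_⟩
  rw [gw_lint, D_gw]
  apply ENNReal.ofReal_le_ofReal
  have h1 : 1 ≤ 2 * Real.pi / r ^ 2 := by
    rw [one_le_div (by positivity)]
    nlinarith
  refine le_trans (le_of_eq ?_) (h _ h1 ζ hζ)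
  rw [cast_sub_one hn, R_pow hr]
  ring

theorem geo_sg (n : ℕ) (hn : 2 ≤ n) : Nonempty (Geo (sg n)) := by
  obtain ⟨C, hC, hup⟩ := gw_upper n hn
  obtain ⟨c, hc, hlow⟩ := gw_lower n hn
  obtain ⟨W, hW, hdec⟩ := win_decay n hn
  have hpi := Real.pi_gt_three
  have hfin := sg_finite n
  set Cu : ℝ := 1 + C * 2 ^ n with hCu
  have hCu1 : 1 ≤ Cu := by
    have : 0 < C * 2 ^ n := by positivity
    linarith
  set A : ℝ := 4 * Real.pi * Cu with hA
  have hA1 : 1 ≤ A := by nlinarith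
  set K : ℝ := (1 + W) * A with hK
  have hK1 : 1 ≤ K := by nlinarith
  have hCCu : C ≤ Cu := by
    have : (1 : ℝ) ≤ 2 ^ n := one_le_pow₀ (by norm_num)
    nlinarith
  refine ⟨{ a := n - 1, κ := 2 * n + 4, A := A, K := K, Cu := Cu, cl := c, hA := le_rfl,
            hK := hK1, hκ := by omega, hCu := hCu1, hcl := hc, upper := ?_, moment := ?_,
            lower := ?_, decay := ?_ }⟩
  · intro r hr hr1
    filter_upwards [sg_ae n] with ζ hζ
    refine (hup r hr ζ hζ).trans (ENNReal.ofReal_le_ofReal ?_)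
    gcongr
  · intro r hr hr1
    filter_upwards [sg_ae n] with ζ hζ
    have hs : 0 < Real.sqrt 2 * r := by positivity
    calc ∫⁻ ξ, ENNReal.ofReal (gw r ζ ξ * ‖ξ - ζ‖) ∂(sg n)
        ≤ ∫⁻ ξ, ENNReal.ofReal r * ENNReal.ofReal (gw (Real.sqrt 2 * r) ζ ξ) ∂(sg n) := by
          refine lintegral_mono fun ξ => ?_
          rw [← ENNReal.ofReal_mul hr.le]
          exact ENNReal.ofReal_le_ofReal (gw_moment_pt hr ζ ξ)
      _ = ENNReal.ofReal r * ∫⁻ ξ, ENNReal.ofReal (gw (Real.sqrt 2 * r) ζ ξ) ∂(sg n) :=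
          lintegral_const_mul' _ _ ENNReal.ofReal_ne_top
      _ ≤ ENNReal.ofReal r * ENNReal.ofReal (C * (Real.sqrt 2 * r) ^ (n - 1)) := by
          gcongr
          exact hup _ hs ζ hζ
      _ = ENNReal.ofReal (r * (C * (Real.sqrt 2 * r) ^ (n - 1))) := by
          rw [ENNReal.ofReal_mul hr.le]
      _ ≤ ENNReal.ofReal (Cu * r ^ (n - 1 + 1)) := by
          apply ENNReal.ofReal_le_ofReal
          have h1 : Real.sqrt 2 ^ (n - 1) ≤ 2 ^ n := by
            calc Real.sqrt 2 ^ (n - 1) ≤ 2 ^ (n - 1) := by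
                  gcongr
                  rw [Real.sqrt_le_left (by norm_num)]
                  norm_num
              _ ≤ 2 ^ n := pow_le_pow_right₀ (by norm_num) (by omega)
          calc r * (C * (Real.sqrt 2 * r) ^ (n - 1))
              = C * Real.sqrt 2 ^ (n - 1) * r ^ (n - 1 + 1) := by rw [mul_pow, pow_succ]; ring
            _ ≤ C * 2 ^ n * r ^ (n - 1 + 1) := by gcongr
            _ ≤ Cu * r ^ (n - 1 + 1) := by
                gcongr
                linarith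
  · intro r hr hr1
    filter_upwards [sg_ae n] with ζ hζ
    refine (hlow r hr hr1 ζ hζ).trans (le_of_eq ?_)
    refine lintegral_congr fun ξ => ?_
    rw [gw_symm]
  · intro N R hN hR
    refine Eventually.of_forall fun ζ y hy => ?_
    have hX1 : 1 ≤ A * N * R :=
      one_le_mul_of_one_le_of_one_le (one_le_mul_of_one_le_of_one_le hA1 hN) hR
    set X : ℝ := A * N * R with hX
    have hX0 : 0 < X := by linarith
    have hr0 : 0 < 1 / X := by positivity
    have hr1 : 1 / X ≤ 1 := by rw [div_le_one hX0]; exact hX1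
    refine (hdec (1 / X) hr0 hr1 ζ y).trans ?_
    have h1 : K * N * R = (1 + W) * X := by rw [hK, hX]; ring
    have h2 : ((1 + W) * X) ^ (n + 2) ≤ Real.sqrt (1 + ‖y‖) := by
      apply Real.le_sqrt_of_sq_le
      rw [← pow_mul]
      rw [h1] at hy
      have : (n + 2) * 2 = 2 * n + 4 := by ring
      rw [this]
      linarith
    have hNX : N ≤ X := by
      rw [hX]
      have : 1 ≤ A * R := one_le_mul_of_one_le_of_one_le hA1 hR
      nlinarith
    have h3 : W * X * (X ^ (n - 1) * N ^ 2) ≤ ((1 + W) * X) ^ (n + 2) := by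
      calc W * X * (X ^ (n - 1) * N ^ 2) ≤ (1 + W) * X * (X ^ (n - 1) * X ^ 2) := by
            gcongr
            linarith
        _ = (1 + W) * X ^ (n + 2) := by
            have : n + 2 = (n - 1) + 3 := by omega
            rw [this, pow_add X (n - 1) 3]
            ring
        _ ≤ (1 + W) ^ (n + 2) * X ^ (n + 2) := by
            gcongr
            exact le_self_pow₀ (by linarith) (by omega)
        _ = _ := (mul_pow _ _ _).symm
    have hsq : 0 < Real.sqrt (1 + ‖y‖) := Real.sqrt_pos.2 (by positivity)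
    rw [div_le_div_iff₀ (by positivity) (by positivity)]
    have h4 : (1 / X) ^ (n - 1) * (1 / X * Real.sqrt (1 + ‖y‖)) =
        Real.sqrt (1 + ‖y‖) / (X * X ^ (n - 1)) := by
      rw [div_pow, one_pow]
      field_simp
    rw [h4, le_div_iff₀ (by positivity)]
    calc W * N ^ 2 * (X * X ^ (n - 1)) = W * X * (X ^ (n - 1) * N ^ 2) := by ring
      _ ≤ _ := h3.trans h2

theorem sup_sg (n : ℕ) : Sup (sg n) := by
  unfold Sup
  filter_upwards [sg_ae n] with ζ hζ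
  rw [mem_closedBall_zero_iff, hζ]

theorem sg_ne_zero (n : ℕ) (hn : 2 ≤ n) : sg n univ ≠ 0 := by
  intro h0
  obtain ⟨c, hc, hlow⟩ := gw_lower n hn
  have hne : ∃ ζ : E n, ‖ζ‖ = 1 := by
    have : Nontrivial (E n) := by
      have : Nonempty (Fin n) := ⟨⟨0, by omega⟩⟩
      infer_instance
    exact exists_norm_eq (E n) zero_le_one
  obtain ⟨ζ, hζ⟩ := hne
  have h1 := hlow 1 one_pos le_rfl ζ hζ
  have h2 : sg n = 0 := Measure.measure_univ_eq_zero.1 h0
  rw [h2, lintegral_zero_measure] at h1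
  simp only [one_pow, mul_one, nonpos_iff_eq_zero, ENNReal.ofReal_eq_zero] at h1
  linarith

theorem mix_sg (n : ℕ) (hn : 2 ≤ n) : Mix (sg n) := by
  have hfin := sg_finite n
  exact mix_of_inv (sg_ne_zero n hn) (sg_ae n) fun T => sg_inv T

/-- removal of the loss for the sphere -/
theorem sphere_removal (n : ℕ) (hn : 2 ≤ n) {p s : ℝ} (hp : 2 ≤ p) (hL : HL (sg n) p)
    (hs : p < s) :
    ∃ C : ℝ≥0∞, C ≠ ∞ ∧ ∀ f : E n → ℂ, Measurable f → (∀ ξ, ‖f ξ‖ ≤ 1) →
      ∫⁻ x, ‖TT (sg n) f x‖ₑ ^ s ≤ C := by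
  have hfin := sg_finite n
  obtain ⟨G⟩ := geo_sg n hn
  exact eps_removal (sg_ne_zero n hn) (mix_sg n hn) (sup_sg n) G hp hL hs

end Pool.Agent.H222.SP
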