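import Pool.Agent.H222.SP.Core

/-!
Greedy superposition of rotated copies.
-/

open MeasureTheory Set Filter Metric
open scoped ENNReal NNReal Topology

namespace Pool.Agent.H222.SP

variable {n : ℕ} {μ : Measure (E n)}

theorem two_point {q : ℝ} (hq : 2 ≤ q) (w z : ℂ) :
    2 * (‖w‖ₑ ^ q + ‖z‖ₑ ^ q) ≤ ‖w + z‖ₑ ^ q + ‖w - z‖ₑ ^ q := by
  have hp : 1 ≤ q / 2 := by linarith
  have hpar : ‖w + z‖₊ ^ 2 + ‖w - z‖₊ ^ 2 = 2 * (‖w‖₊ ^ 2 + ‖z‖₊ ^ 2) := by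
    apply NNReal.coe_injective
    push_cast
    have := parallelogram_law_with_norm ℝ w z
    nlinarith
  have h1 : (‖w‖₊ ^ 2) ^ (q / 2) + (‖z‖₊ ^ 2) ^ (q / 2) ≤ (‖w‖₊ ^ 2 + ‖z‖₊ ^ 2) ^ (q / 2) :=
    NNReal.add_rpow_le_rpow_add _ _ hp
  have h2 : (‖w‖₊ ^ 2 + ‖z‖₊ ^ 2) ^ (q / 2) ≤
      (1 / 2) * (‖w + z‖₊ ^ 2) ^ (q / 2) + (1 / 2) * (‖w - z‖₊ ^ 2) ^ (q / 2) := by
    have h3 := NNReal.rpow_arith_mean_le_arith_mean2_rpow (1 / 2) (1 / 2) (‖w + z‖₊ ^ 2)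
      (‖w - z‖₊ ^ 2) (by rw [← two_mul]; norm_num) hp
    rw [← mul_add, hpar, ← mul_assoc] at h3
    norm_num at h3
    norm_num
    exact h3
  have h4 : ∀ a : ℝ≥0, (a ^ 2) ^ (q / 2) = a ^ q := fun a => by
    rw [← NNReal.rpow_natCast, ← NNReal.rpow_mul]
    congr 1
    push_cast
    ring
  rw [h4, h4] at h1
  rw [h4, h4] at h2
  have h5 : 2 * (‖w‖₊ ^ q + ‖z‖₊ ^ q) ≤ ‖w + z‖₊ ^ q + ‖w - z‖₊ ^ q := by
    have h6 := h1.trans h2
    have h7 : (2 : ℝ≥0) * (‖w‖₊ ^ q + ‖z‖₊ ^ q) ≤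
        2 * ((1 / 2) * ‖w + z‖₊ ^ q + (1 / 2) * ‖w - z‖₊ ^ q) := by gcongr
    refine h7.trans_eq ?_
    ring
  have hq0 : 0 ≤ q := by linarith
  simp only [enorm_eq_nnnorm]
  rw [← ENNReal.coe_rpow_of_nonneg _ hq0, ← ENNReal.coe_rpow_of_nonneg _ hq0,
    ← ENNReal.coe_rpow_of_nonneg _ hq0, ← ENNReal.coe_rpow_of_nonneg _ hq0]
  exact_mod_cast h5

theorem sign_step {q : ℝ} (hq : 2 ≤ q) (B : Set (E n)) {f g : E n → ℂ} (hf : Integrable f μ)
    (hg : Integrable g μ) :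
    NN μ q B f + NN μ q B g ≤ NN μ q B (fun ξ => f ξ + g ξ) ∨
      NN μ q B f + NN μ q B g ≤ NN μ q B (fun ξ => f ξ - g ξ) := by
  by_contra hc
  push Not at hc
  obtain ⟨h1, h2⟩ := hc
  have h3 : 2 * (NN μ q B f + NN μ q B g) ≤
      NN μ q B (fun ξ => f ξ + g ξ) + NN μ q B (fun ξ => f ξ - g ξ) := by
    have hfg : Integrable (fun ξ => f ξ + g ξ) μ := hf.add hg
    unfold NN
    rw [← lintegral_add_left ((TT_meas hf).pow_const q),
      ← lintegral_add_left ((TT_meas hfg).pow_const q),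
      ← lintegral_const_mul' _ _ (by simp)]
    refine lintegral_mono fun x => ?_
    rw [TT_add hf hg x, TT_sub hf hg x]
    exact two_point hq _ _
  rw [two_mul] at h3
  exact absurd (ENNReal.add_lt_add h1 h2) (not_lt.2 h3)

/-- the symmetry group of the measure mixes -/
def Mix (μ : Measure (E n)) : Prop :=
  ∀ A : Set (E n), MeasurableSet A → ∀ g : E n → ℝ≥0∞, Measurable g →
    ∃ T : E n ≃ₗᵢ[ℝ] E n, MeasurePreserving T μ μ ∧
      ∫⁻ x, g x * A.indicator (fun _ => 1) (T x) ∂μ ≤ (μ univ)⁻¹ * μ A * ∫⁻ x, g x ∂μ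

theorem greedy [IsFiniteMeasure μ] (hM : Mix μ) {q : ℝ} (hq : 2 ≤ q) {R : ℝ}
    {A : Set (E n)} (hA : MeasurableSet A) {f : E n → ℂ} (hf : Measurable f)
    (hf1 : ∀ x, ‖f x‖ ≤ 1) (hfA : ∀ x, x ∉ A → f x = 0) {t : ℝ≥0} (K : ℕ) :
    ∃ (F : E n → ℂ) (N : E n → ℕ), Measurable F ∧ Measurable N ∧ (∀ x, ‖F x‖ ≤ N x) ∧
      (∀ x, N x ≤ K) ∧
      (∫⁻ x, (t : ℝ≥0∞) ^ (N x) ∂μ) ≤ (1 + t * ((μ univ)⁻¹ * μ A)) ^ K * μ univ ∧
      K * NN μ q (BB n R) f ≤ NN μ q (BB n R) F := by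
  have hfi : Integrable f μ := integrable_of_bdd hf hf1
  induction K with
  | zero =>
    refine ⟨fun _ => 0, fun _ => 0, measurable_const, measurable_const, fun x => by simp,
      fun x => le_rfl, by simp, by simp⟩
  | succ K ih =>
    obtain ⟨F, N, hF, hN, hFN, hNK, hint, hKF⟩ := ih
    have hgm : Measurable fun x => (t : ℝ≥0∞) ^ (N x) :=
      (measurable_from_nat (f := fun n : ℕ => (t : ℝ≥0∞) ^ n)).comp hN
    obtain ⟨T, hT, hle⟩ := hM A hA _ hgm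
    have hFi : Integrable F μ := integrable_of_bdd hF (M := K)
      (fun x => (hFN x).trans (by exact_mod_cast hNK x))
    have hTm : Measurable T := T.continuous.measurable
    have hgm' : Measurable fun x => f (T x) := hf.comp hTm
    have hgi : Integrable (fun x => f (T x)) μ := integrable_of_bdd hgm' fun x => hf1 _
    have hshift := (NN_rot (μ := μ) q hT f R).ge
    obtain ⟨G, hGm, hGb, hGN⟩ : ∃ G : E n → ℂ, Measurable G ∧
        (∀ x, ‖G x‖ ≤ ‖F x‖ + ‖f (T x)‖) ∧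
        NN μ q (BB n R) F + NN μ q (BB n R) f ≤ NN μ q (BB n R) G := by
      rcases sign_step hq (BB n R) hFi hgi with h | h
      · exact ⟨_, hF.add hgm', fun x => norm_add_le _ _, (add_le_add le_rfl hshift).trans h⟩
      · exact ⟨_, hF.sub hgm', fun x => norm_sub_le _ _, (add_le_add le_rfl hshift).trans h⟩
    set N' : E n → ℕ := fun x => N x + A.indicator (fun _ => 1) (T x) with hN'
    have hN'm : Measurable N' := hN.add ((measurable_const.indicator hA).comp hTm)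
    refine ⟨G, N', hGm, hN'm, fun x => ?_, fun x => ?_, ?_, ?_⟩
    · refine (hGb x).trans ?_
      rw [hN']
      push_cast
      refine add_le_add (hFN x) ?_
      by_cases hx : T x ∈ A
      · rw [indicator_of_mem hx]; simpa using hf1 (T x)
      · rw [indicator_of_notMem hx, hfA _ hx]; simp
    · rw [hN']
      refine add_le_add (hNK x) ?_
      by_cases hx : T x ∈ A
      · rw [indicator_of_mem hx]
      · rw [indicator_of_notMem hx]; exact zero_le_one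
    · have e1 : ∀ x, (t : ℝ≥0∞) ^ (N' x) ≤ (t : ℝ≥0∞) ^ (N x) +
          t * ((t : ℝ≥0∞) ^ (N x) * A.indicator (fun _ => 1) (T x)) := fun x => by
        rw [hN']
        simp only
        by_cases hx : T x ∈ A
        · rw [indicator_of_mem hx, indicator_of_mem hx, pow_succ, mul_one, mul_comm]
          exact le_add_self
        · rw [indicator_of_notMem hx, indicator_of_notMem hx, add_zero, mul_zero, mul_zero,
            add_zero]
      calc ∫⁻ x, (t : ℝ≥0∞) ^ (N' x) ∂μ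
          ≤ ∫⁻ x, ((t : ℝ≥0∞) ^ (N x) +
              t * ((t : ℝ≥0∞) ^ (N x) * A.indicator (fun _ => 1) (T x))) ∂μ :=
            lintegral_mono fun x => e1 x
        _ = (∫⁻ x, (t : ℝ≥0∞) ^ (N x) ∂μ) +
              t * ∫⁻ x, (t : ℝ≥0∞) ^ (N x) * A.indicator (fun _ => 1) (T x) ∂μ := by
            rw [lintegral_add_left hgm, lintegral_const_mul' _ _ ENNReal.coe_ne_top]
        _ ≤ (∫⁻ x, (t : ℝ≥0∞) ^ (N x) ∂μ) +
              t * ((μ univ)⁻¹ * μ A * ∫⁻ x, (t : ℝ≥0∞) ^ (N x) ∂μ) := by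
            gcongr
        _ = (1 + t * ((μ univ)⁻¹ * μ A)) * ∫⁻ x, (t : ℝ≥0∞) ^ (N x) ∂μ := by ring
        _ ≤ (1 + t * ((μ univ)⁻¹ * μ A)) * ((1 + t * ((μ univ)⁻¹ * μ A)) ^ K * μ univ) := by gcongr
        _ = _ := by rw [pow_succ]; ring
    · refine le_trans ?_ hGN
      push_cast
      rw [add_mul, one_mul]
      gcongr

theorem LI_scale {q : ℝ} (hq : 0 ≤ q) {B : Set (E n)} {O : Set (E n)} {C : ℝ≥0∞}
    (hC : ∀ f : E n → ℂ, Measurable f → (∀ x, ‖f x‖ ≤ 1) → (∀ x, x ∉ O → f x = 0) →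
      NN μ q B f ≤ C)
    {M : ℝ} (hM : 0 < M) {f : E n → ℂ} (hf : Measurable f) (hfM : ∀ x, ‖f x‖ ≤ M)
    (h0 : ∀ x, x ∉ O → f x = 0) : NN μ q B f ≤ ENNReal.ofReal M ^ q * C := by
  have h1 : f = fun x => (M : ℂ) * ((M : ℂ)⁻¹ * f x) := by
    funext x
    have : (M : ℂ) ≠ 0 := by exact_mod_cast hM.ne'
    field_simp
  have h2 : NN μ q B f = ENNReal.ofReal M ^ q * NN μ q B (fun x => (M : ℂ)⁻¹ * f x) := by
    conv_lhs => rw [h1]
    rw [NN_smul hq, ← ofReal_norm, Complex.norm_real, Real.norm_of_nonneg hM.le]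
  rw [h2]
  gcongr
  refine hC _ (hf.const_mul _) (fun x => ?_) fun x hx => by rw [h0 x hx, mul_zero]
  rw [norm_mul, norm_inv, Complex.norm_real, Real.norm_of_nonneg hM.le]
  rw [inv_mul_le_iff₀ hM, mul_one]
  exact hfM x

theorem exp_bound {x : ℝ} (hx : 0 ≤ x) {K : ℕ} {c : ℝ} (h : K * x ≤ c) :
    (1 + x) ^ K ≤ Real.exp c := by
  calc (1 + x) ^ K ≤ (Real.exp x) ^ K := by
        gcongr
        linarith [Real.add_one_le_exp x]
    _ = Real.exp (K * x) := by rw [← Real.exp_nat_mul]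
    _ ≤ Real.exp c := Real.exp_le_exp.2 h

/-- the local estimate with the loss `R ^ τ` -/
def Loc (μ : Measure (E n)) (p τ : ℝ) : Prop :=
  ∃ C : ℝ≥0, ∀ R : ℝ≥0, 1 ≤ R → ∀ f : E n → ℂ, Measurable f → (∀ ξ, ‖f ξ‖ ≤ 1) →
    NN μ p (BB n R) f ≤ C * (R : ℝ≥0∞) ^ τ

/-- the local estimate with arbitrarily small losses -/
def HL (μ : Measure (E n)) (p : ℝ) : Prop := ∀ ε : ℝ, 0 < ε → Loc μ p ε

theorem vol_BB (n : ℕ) (R : ℝ≥0) :
    volume (BB n R) = (R : ℝ≥0∞) ^ (n : ℝ) * volume (ball (0 : E n) 1) := by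
  rw [Measure.addHaar_closedBall _ _ R.coe_nonneg]
  congr 1
  rw [finrank_euclideanSpace, Fintype.card_fin, ENNReal.ofReal_pow R.coe_nonneg,
    ENNReal.ofReal_coe_nnreal, ← ENNReal.rpow_natCast]

theorem le_geom {x X Y : ℝ≥0∞} {θ : ℝ} (hθ0 : 0 ≤ θ) (hθ1 : θ ≤ 1) (hX : x ≤ X) (hY : x ≤ Y) :
    x ≤ X ^ θ * Y ^ (1 - θ) := by
  calc x = x ^ (θ + (1 - θ)) := by rw [add_sub_cancel, ENNReal.rpow_one]
    _ = x ^ θ * x ^ (1 - θ) := ENNReal.rpow_add_of_nonneg _ _ hθ0 (by linarith)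
    _ ≤ X ^ θ * Y ^ (1 - θ) := by
        gcongr

end Pool.Agent.H222.SP
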