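import Pool.Agent.H222.SP.Disc

/-!
Algebraic polynomial kernels.
-/

open MeasureTheory Set Filter Metric
open scoped ENNReal NNReal Topology

namespace Pool.Agent.H222.SP

variable {n : ℕ} {μ : Measure (E n)}

/-- value of a polynomial in `n` variables -/
noncomputable def ev (P : MvPolynomial (Fin n) ℝ) (ξ : E n) : ℝ := MvPolynomial.eval (fun i => ξ i) P

theorem ev_cont (P : MvPolynomial (Fin n) ℝ) : Continuous (ev P) := by
  unfold ev
  exact (MvPolynomial.continuous_eval P).comp (by fun_prop)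

theorem ev_C_mul (c : ℝ) (P : MvPolynomial (Fin n) ℝ) (ξ : E n) :
    ev (MvPolynomial.C c * P) ξ = c * ev P ξ := by
  unfold ev
  rw [map_mul, MvPolynomial.eval_C]

theorem deg_C_mul (c : ℝ) (P : MvPolynomial (Fin n) ℝ) :
    (MvPolynomial.C c * P).totalDegree ≤ P.totalDegree := by
  refine (MvPolynomial.totalDegree_mul _ _).trans ?_
  rw [MvPolynomial.totalDegree_C, zero_add]

/-- evaluation of the coefficients -/
noncomputable def evh (η : E n) : C(E n, ℝ) →+* ℝ := (ContinuousMap.evalAlgHom ℝ ℝ η).toRingHom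

theorem evh_apply (η : E n) (f : C(E n, ℝ)) : evh η f = f η := rfl

/-- averages of polynomials with variable coefficients -/
theorem poly_int [IsFiniteMeasure μ] (hsupp : Sup μ) (Q : MvPolynomial (Fin n) C(E n, ℝ))
    {u : E n → ℝ} (hu : Measurable u) {b : ℝ} (hu1 : ∀ᵐ ξ ∂μ, ‖u ξ‖ ≤ b) :
    ∃ P : MvPolynomial (Fin n) ℝ, P.totalDegree ≤ Q.totalDegree ∧
      ∀ ξ : E n, ev P ξ = ∫ η, u η * MvPolynomial.eval₂ (evh η) (fun i => ξ i) Q ∂μ := by
  have hint : ∀ f : C(E n, ℝ), Integrable (fun η => u η * f η) μ := fun f => by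
    obtain ⟨M, hM⟩ := (isCompact_closedBall (0 : E n) 1).exists_bound_of_continuousOn
      f.continuous.continuousOn
    refine Integrable.of_bound (hu.mul f.continuous.measurable).aestronglyMeasurable (b * M) ?_
    filter_upwards [hsupp, hu1] with η hη hη1
    rw [norm_mul]
    have h1 := hM η hη
    have h2 := norm_nonneg (u η)
    have h3 := norm_nonneg (f η)
    exact mul_le_mul hη1 h1 h3 (h2.trans hη1)
  refine ⟨∑ α ∈ Q.support, MvPolynomial.monomial α (∫ η, u η * (Q.coeff α) η ∂μ), ?_, fun ξ => ?_⟩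
  · refine (MvPolynomial.totalDegree_finsetSum _ _).trans (Finset.sup_le fun α hα => ?_)
    exact (MvPolynomial.totalDegree_monomial_le _ _).trans (MvPolynomial.le_totalDegree hα)
  · have h1 : ∀ η, u η * MvPolynomial.eval₂ (evh η) (fun i => ξ i) Q =
        ∑ α ∈ Q.support, (u η * (Q.coeff α) η) * ∏ i, ξ i ^ α i := fun η => by
      rw [MvPolynomial.eval₂_eq', Finset.mul_sum]
      refine Finset.sum_congr rfl fun α _ => ?_
      rw [evh_apply]
      ring
    simp only [h1]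
    rw [integral_finsetSum _ fun α _ => (hint _).mul_const _]
    unfold ev
    rw [map_sum]
    refine Finset.sum_congr rfl fun α _ => ?_
    rw [MvPolynomial.eval_monomial, integral_mul_const, Finsupp.prod_fintype]
    intro i
    exact pow_zero _

/-- the kernel -/
noncomputable def kk (m : ℕ) (A : ℝ) (v : E n) : ℝ :=
  (Polynomial.Chebyshev.T ℝ m).eval (1 + A ^ 2 - ‖v‖ ^ 2 / 4)

theorem kk_cont (m : ℕ) (A : ℝ) : Continuous (kk m A : E n → ℝ) := by
  unfold kk
  exact (Polynomial.continuous _).comp (by fun_prop)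

theorem kk_small {m : ℕ} {A : ℝ} {v : E n} (hA : 0 ≤ A) (h1 : 2 * A ≤ ‖v‖) (h2 : ‖v‖ ≤ 2) :
    |kk m A v| ≤ 1 := by
  unfold kk
  refine Polynomial.Chebyshev.abs_eval_T_real_le_one m ?_
  rw [abs_le]
  constructor <;> nlinarith

theorem kk_pos {m : ℕ} {A : ℝ} {v : E n} (h1 : ‖v‖ ≤ 2 * A) : 1 ≤ kk m A v := by
  have h2 : (1 : ℝ) ≤ 1 + A ^ 2 - ‖v‖ ^ 2 / 4 := by nlinarith [norm_nonneg v]
  unfold kk
  rw [← Real.cosh_arcosh h2, Polynomial.Chebyshev.T_real_cosh]
  exact Real.one_le_cosh _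

theorem kk_big {m : ℕ} {A : ℝ} {v : E n} (hA0 : 0 ≤ A) (hA : A ≤ 1) (h1 : ‖v‖ ≤ A) :
    Real.exp (m * A / 2) / 2 ≤ kk m A v := by
  have hv := norm_nonneg v
  have h3 : 1 + A ^ 2 / 4 ≤ 1 + A ^ 2 - ‖v‖ ^ 2 / 4 := by nlinarith
  have h2 : (1 : ℝ) ≤ 1 + A ^ 2 - ‖v‖ ^ 2 / 4 := by nlinarith
  set θ := Real.arcosh (1 + A ^ 2 - ‖v‖ ^ 2 / 4) with hθ
  have hc : Real.cosh θ = 1 + A ^ 2 - ‖v‖ ^ 2 / 4 := Real.cosh_arcosh h2
  have h4 : Real.cosh (A / 2) ≤ Real.cosh θ := by
    rw [hc]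
    refine le_trans ?_ h3
    refine (Real.cosh_le_exp_half_sq _).trans ?_
    have h5 : (A / 2) ^ 2 / 2 ≤ 1 := by nlinarith
    have h6 : Real.exp ((A / 2) ^ 2 / 2) ≤ 1 + 2 * ((A / 2) ^ 2 / 2) := by
      have h7 := Real.abs_exp_sub_one_le (x := (A / 2) ^ 2 / 2) (by
        rw [abs_of_nonneg (by positivity)]; exact h5)
      rw [abs_of_nonneg (by positivity : 0 ≤ (A / 2) ^ 2 / 2)] at h7
      linarith [le_abs_self (Real.exp ((A / 2) ^ 2 / 2) - 1)]
    nlinarith
  have hθ0 : 0 ≤ θ := Real.arcosh_nonneg h2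
  have h5 : A / 2 ≤ θ := by
    have := Real.cosh_le_cosh.1 h4
    rwa [abs_of_nonneg (by positivity), abs_of_nonneg hθ0] at this
  unfold kk
  rw [← hc, Polynomial.Chebyshev.T_real_cosh, Real.cosh_eq]
  have h6 : Real.exp (m * A / 2) ≤ Real.exp (((m : ℤ) : ℝ) * θ) := by
    refine Real.exp_le_exp.2 ?_
    push_cast
    calc (m : ℝ) * A / 2 = m * (A / 2) := by ring
      _ ≤ m * θ := by gcongr
  have h7 := Real.exp_pos (-(((m : ℤ) : ℝ) * θ))
  linarith

/-- the kernel as a polynomial in the first variable -/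
noncomputable def base (n : ℕ) (A : ℝ) : MvPolynomial (Fin n) C(E n, ℝ) :=
  MvPolynomial.C (ContinuousMap.const _ (1 + A ^ 2)) -
    MvPolynomial.C (ContinuousMap.const _ (1 / 4)) *
      ∑ i, (MvPolynomial.X i - MvPolynomial.C ⟨fun η : E n => η i, by fun_prop⟩) ^ 2

theorem base_deg (A : ℝ) : (base n A).totalDegree ≤ 2 := by
  unfold base
  refine (MvPolynomial.totalDegree_sub _ _).trans (max_le ?_ ?_)
  · rw [MvPolynomial.totalDegree_C]; norm_num
  · refine (MvPolynomial.totalDegree_mul _ _).trans ?_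
    rw [MvPolynomial.totalDegree_C, zero_add]
    refine (MvPolynomial.totalDegree_finsetSum _ _).trans (Finset.sup_le fun i _ => ?_)
    refine (MvPolynomial.totalDegree_pow _ _).trans ?_
    have h1 : (MvPolynomial.X i - MvPolynomial.C (⟨fun η : E n => η i, by fun_prop⟩ : C(E n, ℝ)) :
        MvPolynomial (Fin n) C(E n, ℝ)).totalDegree ≤ 1 := by
      refine (MvPolynomial.totalDegree_sub _ _).trans (max_le ?_ ?_)
      · rw [MvPolynomial.totalDegree_X]
      · rw [MvPolynomial.totalDegree_C]; norm_num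
    omega

theorem base_ev (A : ℝ) (ξ η : E n) :
    MvPolynomial.eval₂ (evh η) (fun i => ξ i) (base n A) = 1 + A ^ 2 - ‖ξ - η‖ ^ 2 / 4 := by
  have h1 : MvPolynomial.eval₂ (evh η) (fun i => ξ i) (base n A) =
      MvPolynomial.eval₂Hom (evh η) (fun i => ξ i) (base n A) := rfl
  rw [h1, base, map_sub, map_mul, map_sum]
  simp only [map_pow, map_sub, MvPolynomial.eval₂Hom_C, MvPolynomial.eval₂Hom_X']
  have h2 : ‖ξ - η‖ ^ 2 = ∑ i, (ξ i - evh η ⟨fun η : E n => η i, by fun_prop⟩) ^ 2 := by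
    rw [EuclideanSpace.norm_sq_eq]
    refine Finset.sum_congr rfl fun i _ => ?_
    rw [Real.norm_eq_abs, sq_abs]
    rfl
  rw [← h2, evh_apply, evh_apply, ContinuousMap.const_apply, ContinuousMap.const_apply]
  ring

/-- the kernel as a polynomial in the first variable -/
noncomputable def kpol (n m : ℕ) (A : ℝ) : MvPolynomial (Fin n) C(E n, ℝ) :=
  Polynomial.eval₂ (MvPolynomial.C.comp (algebraMap ℝ C(E n, ℝ))) (base n A)
    (Polynomial.Chebyshev.T ℝ m)

theorem kpol_deg (m : ℕ) (A : ℝ) : (kpol n m A).totalDegree ≤ 2 * m := by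
  unfold kpol
  rw [Polynomial.eval₂_eq_sum_range]
  refine (MvPolynomial.totalDegree_finsetSum _ _).trans (Finset.sup_le fun j hj => ?_)
  have hj' : j ≤ m := by
    have := Finset.mem_range.1 hj
    rw [Polynomial.Chebyshev.natDegree_T] at this
    simp only [Int.natAbs_natCast] at this
    omega
  refine (MvPolynomial.totalDegree_mul _ _).trans ?_
  rw [RingHom.comp_apply, MvPolynomial.totalDegree_C, zero_add]
  refine (MvPolynomial.totalDegree_pow _ _).trans ?_
  have := base_deg (n := n) A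
  nlinarith

theorem kpol_ev (m : ℕ) (A : ℝ) (ξ η : E n) :
    MvPolynomial.eval₂ (evh η) (fun i => ξ i) (kpol n m A) = kk m A (ξ - η) := by
  have h1 : MvPolynomial.eval₂ (evh η) (fun i => ξ i) (kpol n m A) =
      MvPolynomial.eval₂Hom (evh η) (fun i => ξ i) (kpol n m A) := rfl
  rw [h1, kpol, Polynomial.hom_eval₂]
  have h2 : (MvPolynomial.eval₂Hom (evh η) fun i => ξ i).comp
      (MvPolynomial.C.comp (algebraMap ℝ C(E n, ℝ))) = RingHom.id ℝ := by
    ext r
    simp [evh]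
  have h3 : MvPolynomial.eval₂Hom (evh η) (fun i => ξ i) (base n A) = 1 + A ^ 2 - ‖ξ - η‖ ^ 2 / 4 :=
    base_ev A ξ η
  rw [h2, h3]
  rfl

end Pool.Agent.H222.SP
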