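import Pool.Agent.H222.SP.Exp
import Pool.Agent.H222.SP.Poly

/-!
Polynomial kernels on the sphere.
-/

open MeasureTheory Set Filter Metric
open scoped ENNReal NNReal Topology

namespace Pool.Agent.H222.SP

variable {n : ℕ} {μ : Measure (E n)}

/-- rotation invariant measures on the unit sphere -/
structure Sph (μ : Measure (E n)) : Prop where
  ae : ∀ᵐ x ∂μ, ‖x‖ = 1
  inv : ∀ T : E n ≃ₗᵢ[ℝ] E n, MeasurePreserving T μ μ
  low : ∃ c : ℝ, 0 < c ∧ ∀ r : ℝ, 0 < r → r ≤ 1 → ∀ y : E n, ‖y‖ = 1 →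
    c * r ^ n ≤ μ.real (closedBall y r)
  ne : ∃ y : E n, ‖y‖ = 1

theorem Sph.sup (hS : Sph μ) : Sup μ := by
  unfold Sup
  filter_upwards [hS.ae] with ζ hζ
  rw [mem_closedBall_zero_iff, hζ]

/-- the size of the tail -/
theorem tail_small (n : ℕ) {δ : ℝ} (hδ : 0 < δ) (K b : ℝ) (hb : 0 < b) :
    ∃ R₀ : ℝ, 1 ≤ R₀ ∧ ∀ R : ℝ, R₀ ≤ R →
      K * R ^ (2 * n + 1) * Real.exp (-(b * R ^ δ)) ≤ 1 := by
  have h1 := (tendsto_rpow_mul_exp_neg_mul_atTop_nhds_zero ((2 * n + 1) / δ) b hb).comp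
    (tendsto_rpow_atTop hδ)
  have h2 := h1.const_mul K
  rw [mul_zero] at h2
  have h3 := h2.eventually (gt_mem_nhds (zero_lt_one' ℝ))
  obtain ⟨R₁, hR₁⟩ := (h3.and (eventually_ge_atTop 1)).exists_forall_of_atTop
  refine ⟨max 1 R₁, le_max_left _ _, fun R hR => ?_⟩
  have h4 := (hR₁ R ((le_max_right _ _).trans hR)).1
  have hR1 : 1 ≤ R := (le_max_left _ _).trans hR
  have hR0 : 0 ≤ R := by linarith
  simp only [Function.comp_apply] at h4
  have e1 : (R ^ δ) ^ ((2 * (n : ℝ) + 1) / δ) = R ^ (2 * n + 1) := by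
    rw [← Real.rpow_mul hR0, ← Real.rpow_natCast]
    congr 1
    push_cast
    field_simp
  rw [e1] at h4
  rw [mul_assoc, ← neg_mul]
  exact h4.le

/-- the kernel near the origin -/
noncomputable def kappa (m : ℕ) (A : ℝ) : E n → ℝ := (closedBall (0 : E n) (2 * A)).indicator (kk m A)

theorem kappa_nonneg (m : ℕ) (A : ℝ) (v : E n) : 0 ≤ kappa m A v :=
  indicator_nonneg (fun v hv => zero_le_one.trans (kk_pos (m := m) (mem_closedBall_zero_iff.1 hv))) v

theorem kappa_meas (m : ℕ) (A : ℝ) : Measurable (kappa m A : E n → ℝ) :=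
  (kk_cont m A).measurable.indicator measurableSet_closedBall

theorem kappa_norm {m : ℕ} {A : ℝ} {v w : E n} (h : ‖v‖ = ‖w‖) : kappa m A v = kappa m A w := by
  unfold kappa
  by_cases hv : v ∈ closedBall (0 : E n) (2 * A)
  · have hw : w ∈ closedBall (0 : E n) (2 * A) := by
      rw [mem_closedBall_zero_iff] at hv ⊢
      rwa [← h]
    rw [indicator_of_mem hv, indicator_of_mem hw]
    unfold kk
    rw [h]
  · have hw : w ∉ closedBall (0 : E n) (2 * A) := by
      rw [mem_closedBall_zero_iff] at hv ⊢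
      rwa [← h]
    rw [indicator_of_notMem hv, indicator_of_notMem hw]

theorem kappa_bdd (m : ℕ) (A : ℝ) : ∃ M : ℝ, ∀ v : E n, kappa m A v ≤ M := by
  obtain ⟨M, hM⟩ := (isCompact_closedBall (0 : E n) (2 * A)).exists_bound_of_continuousOn
    (kk_cont m A).continuousOn
  refine ⟨max M 0, fun v => ?_⟩
  unfold kappa
  by_cases hv : v ∈ closedBall (0 : E n) (2 * A)
  · rw [indicator_of_mem hv]
    exact (le_abs_self _).trans ((hM v hv).trans (le_max_left _ _))
  · rw [indicator_of_notMem hv]; exact le_max_right _ _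

theorem kappa_int [IsFiniteMeasure μ] (m : ℕ) (A : ℝ) (y : E n) :
    Integrable (fun w => kappa m A (y - w)) μ := by
  obtain ⟨M, hM⟩ := kappa_bdd (n := n) m A
  refine Integrable.of_bound ((kappa_meas m A).comp (measurable_const.sub measurable_id)).aestronglyMeasurable
    M (Eventually.of_forall fun w => ?_)
  show ‖kappa m A (y - w)‖ ≤ M
  rw [Real.norm_of_nonneg (kappa_nonneg _ _ _)]
  exact hM _

/-- the mass of the kernel -/
noncomputable def ZZ (μ : Measure (E n)) (m : ℕ) (A : ℝ) (y : E n) : ℝ := ∫ w, kappa m A (y - w) ∂μ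

theorem ZZ_const (hS : Sph μ) (m : ℕ) (A : ℝ) {y y' : E n} (hy : ‖y‖ = 1) (hy' : ‖y'‖ = 1) :
    ZZ μ m A y = ZZ μ m A y' := by
  set L : E n ≃ₗᵢ[ℝ] E n := (ℝ ∙ (y - y'))ᗮ.reflection with hL
  have hLy : L y = y' := Submodule.reflection_sub (by rw [hy, hy'])
  have hemb : MeasurableEmbedding L := L.toHomeomorph.measurableEmbedding
  unfold ZZ
  rw [← (hS.inv L).integral_comp hemb (fun w => kappa m A (y' - w))]
  refine integral_congr_ae (Eventually.of_forall fun w => ?_)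
  show kappa m A (y - w) = kappa m A (y' - L w)
  refine kappa_norm ?_
  rw [← hLy, ← map_sub, L.norm_map]

theorem ZZ_ge [IsFiniteMeasure μ] {c : ℝ}
    (hc : ∀ r : ℝ, 0 < r → r ≤ 1 → ∀ y : E n, ‖y‖ = 1 → c * r ^ n ≤ μ.real (closedBall y r))
    {A : ℝ} (hA0 : 0 < A) (hA1 : A ≤ 1) (m : ℕ) {y : E n} (hy : ‖y‖ = 1) :
    Real.exp (m * A / 2) / 2 * (c * A ^ n) ≤ ZZ μ m A y := by
  calc Real.exp (m * A / 2) / 2 * (c * A ^ n)
      ≤ Real.exp (m * A / 2) / 2 * μ.real (closedBall y A) := by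
        gcongr
        exact hc A hA0 hA1 y hy
    _ = ∫ w, (closedBall y A).indicator (fun _ => Real.exp (m * A / 2) / 2) w ∂μ := by
        rw [integral_indicator_const _ measurableSet_closedBall, smul_eq_mul, mul_comm]
    _ ≤ ZZ μ m A y := by
        unfold ZZ
        refine integral_mono ?_ (kappa_int m A y) fun w => ?_
        · exact (integrable_const _).indicator measurableSet_closedBall
        · by_cases hw : w ∈ closedBall y A
          · rw [indicator_of_mem hw]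
            have h1 : ‖y - w‖ ≤ A := by
              rw [mem_closedBall, dist_comm, dist_eq_norm] at hw
              exact hw
            unfold kappa
            have h2 : y - w ∈ closedBall (0 : E n) (2 * A) := by
              rw [mem_closedBall_zero_iff]; linarith
            simp only [indicator_of_mem h2]
            exact kk_big hA0.le hA1 h1
          · rw [indicator_of_notMem hw]
            exact kappa_nonneg _ _ _

/-- the kernel on the sphere -/
noncomputable def KS (μ : Measure (E n)) (m : ℕ) (A : ℝ) (y : E n) (ω ω' : E n) : ℝ :=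
  kappa m A (ω - ω') / ZZ μ m A y

theorem KS_ker [IsFiniteMeasure μ] (hS : Sph μ) {m : ℕ} {A : ℝ} {y : E n} (hy : ‖y‖ = 1)
    (hZ : 0 < ZZ μ m A y) : Ker μ (2 * A) (KS μ m A y) := by
  have hright : ∀ ω : E n, ‖ω‖ = 1 → ∫ ω', KS μ m A y ω ω' ∂μ = 1 := fun ω hω => by
    unfold KS
    rw [integral_div]
    show ZZ μ m A ω / ZZ μ m A y = 1
    rw [ZZ_const hS m A hω hy]
    exact div_self hZ.ne'
  refine ⟨?_, fun ω ω' => div_nonneg (kappa_nonneg _ _ _) hZ.le, ?_, fun ω ω' h => ?_, ?_, ?_⟩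
  · exact ((kappa_meas m A).comp (measurable_fst.sub measurable_snd)).div_const _
  · obtain ⟨M, hM⟩ := kappa_bdd (n := n) m A
    refine ⟨M / ZZ μ m A y, fun ω ω' => ?_⟩
    unfold KS
    gcongr
    exact hM _
  · unfold KS kappa
    rw [indicator_of_notMem, zero_div]
    rw [mem_closedBall_zero_iff, not_le]
    exact h
  · filter_upwards [hS.ae] with ω' hω'
    rw [← hright ω' hω']
    refine integral_congr_ae (Eventually.of_forall fun ω => ?_)
    show KS μ m A y ω ω' = KS μ m A y ω' ω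
    unfold KS
    rw [kappa_norm (norm_sub_rev ω ω')]
  · filter_upwards [hS.ae] with ω hω
    exact hright ω hω

/-- averages of real functions are close to polynomials -/
theorem avg_near [IsFiniteMeasure μ] (hS : Sph μ) {m : ℕ} {A : ℝ} (hA0 : 0 ≤ A) {y : E n}
    (hZ : 0 < ZZ μ m A y) {u : E n → ℝ} (hu : Measurable u) (hu1 : ∀ᵐ ξ ∂μ, ‖u ξ‖ ≤ 1) :
    ∃ P : MvPolynomial (Fin n) ℝ, P.totalDegree ≤ 2 * m ∧ ∀ ξ : E n, ‖ξ‖ = 1 →
      |ev P ξ - ∫ η, u η * KS μ m A y ξ η ∂μ| ≤ μ.real univ / ZZ μ m A y := by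
  obtain ⟨P₀, hP₀, hP₀ev⟩ := poly_int hS.sup (kpol n m A) hu hu1
  simp only [kpol_ev] at hP₀ev
  refine ⟨MvPolynomial.C (ZZ μ m A y)⁻¹ * P₀, (deg_C_mul _ _).trans (hP₀.trans (kpol_deg m A)),
    fun ξ hξ => ?_⟩
  have h2 : ev (MvPolynomial.C (ZZ μ m A y)⁻¹ * P₀) ξ =
      ∫ η, (ZZ μ m A y)⁻¹ * (u η * kk m A (ξ - η)) ∂μ := by
    rw [ev_C_mul, hP₀ev, integral_const_mul]
  have hi1 : Integrable (fun η => (ZZ μ m A y)⁻¹ * (u η * kk m A (ξ - η))) μ := by
    refine Integrable.const_mul ?_ _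
    obtain ⟨M', hM'⟩ := (isCompact_closedBall (0 : E n) 1).exists_bound_of_continuousOn
      (f := fun η => kk m A (ξ - η)) ((kk_cont m A).comp (by fun_prop)).continuousOn
    have h5 : Measurable fun η => kk m A (ξ - η) := ((kk_cont m A).comp (by fun_prop)).measurable
    refine Integrable.of_bound (hu.mul h5).aestronglyMeasurable (1 * M') ?_
    filter_upwards [hS.sup, hu1] with η hη hη1
    rw [norm_mul]
    exact mul_le_mul hη1 (hM' η hη) (norm_nonneg _) zero_le_one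
  have hi2 : Integrable (fun η => u η * KS μ m A y ξ η) μ := by
    have h6 : Integrable (fun η => KS μ m A y ξ η) μ := (kappa_int m A ξ).div_const _
    exact (h6.bdd_mul (c := 1) hu.aestronglyMeasurable hu1)
  rw [h2, ← integral_sub hi1 hi2, ← Real.norm_eq_abs]
  have h7 : ∫ _η : E n, (ZZ μ m A y)⁻¹ ∂μ = μ.real univ / ZZ μ m A y := by
    rw [integral_const, smul_eq_mul]
    rfl
  rw [← h7]
  refine norm_integral_le_of_norm_le (integrable_const _) ?_
  filter_upwards [hS.ae, hu1] with η hη hη1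
  have hle1 : ‖ξ - η‖ ≤ 2 := (norm_sub_le _ _).trans (by rw [hξ, hη]; norm_num)
  have e0 : (ZZ μ m A y)⁻¹ * (u η * kk m A (ξ - η)) - u η * KS μ m A y ξ η =
      (ZZ μ m A y)⁻¹ * (u η * (kk m A (ξ - η) - kappa m A (ξ - η))) := by
    unfold KS
    rw [div_eq_mul_inv]
    ring
  have e1 : |kk m A (ξ - η) - kappa m A (ξ - η)| ≤ 1 := by
    unfold kappa
    by_cases hB : ξ - η ∈ closedBall (0 : E n) (2 * A)
    · rw [indicator_of_mem hB, sub_self, abs_zero]; exact zero_le_one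
    · rw [indicator_of_notMem hB, sub_zero]
      rw [mem_closedBall_zero_iff, not_le] at hB
      exact kk_small hA0 hB.le hle1
  rw [e0, norm_mul, norm_mul, norm_inv, Real.norm_of_nonneg hZ.le, Real.norm_eq_abs,
    Real.norm_eq_abs]
  rw [Real.norm_eq_abs] at hη1
  calc (ZZ μ m A y)⁻¹ * (|u η| * |kk m A (ξ - η) - kappa m A (ξ - η)|)
      ≤ (ZZ μ m A y)⁻¹ * (1 * 1) := by gcongr
    _ = _ := by ring

/-- the tail is small compared with the mass -/
theorem ZZ_tail [IsFiniteMeasure μ] (hS : Sph μ) (hn : 1 ≤ n) {δ : ℝ} (hδ : 0 < δ) (V : ℝ)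
    (hV : 0 ≤ V) :
    ∃ R₁ : ℝ, 1 ≤ R₁ ∧ ∀ R : ℝ, R₁ ≤ R → ∀ m : ℕ, R ^ (1 + δ) ≤ m → ∀ y : E n, ‖y‖ = 1 →
      0 < ZZ μ m (1 / (16 * Real.pi * n * R)) y ∧
      V / ZZ μ m (1 / (16 * Real.pi * n * R)) y * R ^ n ≤ 1 := by
  obtain ⟨c, hc0, hc⟩ := hS.low
  have hπ := Real.pi_pos
  have hπ3 := Real.pi_gt_three
  have hn1 : (1 : ℝ) ≤ n := by exact_mod_cast hn
  have hn0 : (0 : ℝ) < n := by linarith
  obtain ⟨R₁, hR₁, htail⟩ := tail_small n hδ (2 * V * (16 * Real.pi * n) ^ n / c)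
    (1 / (32 * Real.pi * n)) (by positivity)
  refine ⟨R₁, hR₁, fun R hR m hm y hy => ?_⟩
  have hR1 : 1 ≤ R := hR₁.trans hR
  have hR0 : 0 < R := by linarith
  set A : ℝ := 1 / (16 * Real.pi * n * R) with hA
  have hA0 : 0 < A := by positivity
  have hA1 : A ≤ 1 := by
    rw [hA, div_le_one (by positivity)]
    have h1 : 1 ≤ n * R := by nlinarith
    nlinarith
  have hZ := ZZ_ge hc hA0 hA1 m hy
  have h1 : Real.exp (1 / (32 * Real.pi * n) * R ^ δ) ≤ Real.exp (m * A / 2) := by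
    refine Real.exp_le_exp.2 ?_
    have e1 : R ^ (1 + δ) = R * R ^ δ := by rw [Real.rpow_add hR0, Real.rpow_one]
    rw [e1] at hm
    have e2 : (m : ℝ) * A / 2 = m / (32 * Real.pi * n * R) := by
      rw [hA]
      field_simp; ring
    rw [e2, le_div_iff₀ (by positivity)]
    calc 1 / (32 * Real.pi * n) * R ^ δ * (32 * Real.pi * n * R) = R * R ^ δ := by field_simp
      _ ≤ m := hm
  have h2 : Real.exp (1 / (32 * Real.pi * n) * R ^ δ) / 2 * (c * A ^ n) ≤ ZZ μ m A y := by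
    refine le_trans ?_ hZ
    gcongr
  have hZ0 : 0 < ZZ μ m A y := lt_of_lt_of_le (by positivity) h2
  refine ⟨hZ0, le_trans ?_ (htail R hR)⟩
  have e3 : A ^ n = 1 / ((16 * Real.pi * n) ^ n * R ^ n) := by
    rw [← mul_pow, ← one_div_pow]
  rw [e3] at h2
  have hexp := Real.exp_pos (1 / (32 * Real.pi * n) * R ^ δ)
  rw [div_mul_eq_mul_div, div_le_iff₀ hZ0]
  have h4 : 0 ≤ 2 * V * (16 * Real.pi * n) ^ n / c * R ^ (2 * n + 1) *
      Real.exp (-(1 / (32 * Real.pi * n) * R ^ δ)) := by positivity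
  refine le_trans ?_ (mul_le_mul_of_nonneg_left h2 h4)
  rw [Real.exp_neg]
  have e5 : 2 * V * (16 * Real.pi * n) ^ n / c * R ^ (2 * n + 1) *
      (Real.exp (1 / (32 * Real.pi * n) * R ^ δ))⁻¹ *
      (Real.exp (1 / (32 * Real.pi * n) * R ^ δ) / 2 * (c * (1 / ((16 * Real.pi * n) ^ n * R ^ n)))) =
      V * (R ^ n * R) := by
    have hRn : R ^ (2 * n + 1) = R ^ n * (R ^ n * R) := by
      rw [← pow_succ, ← pow_add]; congr 1; omega
    rw [hRn]
    field_simp
  rw [e5]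
  have : R ^ n * 1 ≤ R ^ n * R := by gcongr
  rw [mul_one] at this
  gcongr

end Pool.Agent.H222.SP
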