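import Pool.Agent.H222.SP.KerS

/-!
From polynomial phases to bounded real functions.
-/

open MeasureTheory Set Filter Metric
open scoped ENNReal NNReal Topology

namespace Pool.Agent.H222.SP

variable {n : ℕ} {μ : Measure (E n)}

/-- the remainder of the sine -/
noncomputable def srem (s y : ℝ) : ℝ := y - Real.sin (s * y) / s

theorem sin_rem {s y : ℝ} (hs : 0 < s) (hs1 : s ≤ 1 / 4) (hy : |y| ≤ 2) :
    |srem s y| ≤ 2 * s ^ 2 ∧ |srem s y| ≤ |y| := by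
  have hy0 := abs_nonneg y
  have hx : |s * y| ≤ 1 := by
    rw [abs_mul, abs_of_pos hs]
    nlinarith
  have h1 := Real.sin_bound hx
  have h2 : |s * y - Real.sin (s * y)| ≤ |s * y| ^ 3 / 4 := by
    have e1 : s * y - Real.sin (s * y) = (s * y) ^ 3 / 6 -
        (Real.sin (s * y) - (s * y - (s * y) ^ 3 / 6)) := by ring
    rw [e1]
    refine (abs_sub _ _).trans ?_
    have e2 : |(s * y) ^ 3 / 6| = |s * y| ^ 3 / 6 := by
      rw [abs_div, abs_pow]; norm_num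
    rw [e2]
    have e3 : |s * y| ^ 5 ≤ |s * y| ^ 3 := pow_le_pow_of_le_one (abs_nonneg _) hx (by norm_num)
    have e4 : 0 ≤ |s * y| ^ 3 := by positivity
    linarith
  have h3 : srem s y = (s * y - Real.sin (s * y)) / s := by
    unfold srem; field_simp
  have h4 : |srem s y| ≤ s ^ 2 * |y| ^ 3 / 4 := by
    rw [h3, abs_div, abs_of_pos hs, div_le_iff₀ hs]
    refine h2.trans (le_of_eq ?_)
    rw [abs_mul, abs_of_pos hs]
    ring
  have h5 : |y| ^ 3 ≤ 8 := by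
    calc |y| ^ 3 ≤ 2 ^ 3 := by gcongr
      _ = 8 := by norm_num
  have h6 : |y| ^ 3 ≤ 4 * |y| := by
    calc |y| ^ 3 = |y| ^ 2 * |y| := by ring
      _ ≤ 2 ^ 2 * |y| := by gcongr
      _ = 4 * |y| := by norm_num
  have h7 : s ^ 2 ≤ 1 := by nlinarith
  constructor
  · refine h4.trans ?_
    have := mul_le_mul_of_nonneg_left h5 (sq_nonneg s)
    linarith
  · refine h4.trans ?_
    have e1 := mul_le_mul_of_nonneg_left h6 (sq_nonneg s)
    have e2 := mul_le_mul_of_nonneg_right h7 hy0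
    linarith

theorem srem_cont (s : ℝ) : Continuous (srem s) := by
  unfold srem
  fun_prop

/-- the unimodular functions -/
noncomputable def uni (Q : Set (E n)) (φ : E n → ℝ) (s : ℝ) : E n → ℂ :=
  Q.indicator fun ξ => Complex.exp ((s * φ ξ : ℝ) * Complex.I)

theorem uni_le (Q : Set (E n)) (φ : E n → ℝ) (s : ℝ) (ξ : E n) : ‖uni Q φ s ξ‖ ≤ 1 := by
  unfold uni
  refine (norm_indicator_le_norm_self _ _).trans ?_
  rw [Complex.norm_exp_ofReal_mul_I]

theorem uni_meas {Q : Set (E n)} (hQ : MeasurableSet Q) {φ : E n → ℝ} (hφ : Measurable φ) (s : ℝ) :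
    Measurable (uni Q φ s) := by
  unfold uni
  refine Measurable.indicator ?_ hQ
  fun_prop

theorem uni_int [IsFiniteMeasure μ] {Q : Set (E n)} (hQ : MeasurableSet Q) {φ : E n → ℝ}
    (hφ : Measurable φ) (s : ℝ) : Integrable (uni Q φ s) μ :=
  integrable_of_bdd (uni_meas hQ hφ s) (uni_le Q φ s)

/-- real functions bounded by one on a small ball -/
def FRB (μ : Measure (E n)) (x₀ : E n) (r : ℝ) (f : E n → ℂ) : Prop :=
  FR μ f ∧ ∀ᵐ ξ ∂μ, ξ ∉ ball x₀ r → f ξ = 0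

theorem Cl.FRB (μ : Measure (E n)) (x₀ : E n) (r : ℝ) : Cl μ (FRB μ x₀ r) := by
  refine ⟨fun _ h => h.1, fun f h g hg hg1 => ⟨⟨h.1.1.mul (Complex.measurable_ofReal.comp hg),
    ?_, ?_⟩, ?_⟩⟩
  · filter_upwards [h.1.2.1, hg1] with ξ h1 h2
    rw [norm_mul, Complex.norm_real, Real.norm_eq_abs]
    exact mul_le_one₀ h1 (abs_nonneg _) h2
  · filter_upwards [h.1.2.2] with ξ h1
    rw [Complex.im_mul_ofReal, h1, zero_mul]
  · filter_upwards [h.2] with ξ h1 h2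
    rw [h1 h2, zero_mul]

/-- the estimate with the loss `D ^ τ` for all polynomial phases of degree at most `D` and absolute
value at most `c` on `U`, on the ball of radius `D` -/
def PL (μ : Measure (E n)) (U : Set (E n)) (c q τ : ℝ) : Prop :=
  ∃ C : ℝ≥0, ∀ D : ℕ, 1 ≤ D → ∀ P : MvPolynomial (Fin n) ℝ, P.totalDegree ≤ D →
    (∀ ξ ∈ U, |ev P ξ| ≤ c) →
    NN μ q (BB n D) (uni U (ev P) 1) ≤ C * ENNReal.ofReal ((D : ℝ) ^ τ)

/-- the sine as a difference of two exponentials -/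
theorem sin_part [IsFiniteMeasure μ] {U : Set (E n)} (hU : MeasurableSet U) {q s : ℝ}
    (hq : 1 ≤ q) (hs : 0 < s) {B : Set (E n)} {D : ℕ} {L : ℝ≥0∞}
    (hL : ∀ P : MvPolynomial (Fin n) ℝ, P.totalDegree ≤ D → (∀ ξ ∈ U, |ev P ξ| ≤ 2 * s) →
      NN μ q B (uni U (ev P) 1) ≤ L)
    {P : MvPolynomial (Fin n) ℝ} (hP : P.totalDegree ≤ D) (hPle : ∀ ξ ∈ U, |ev P ξ| ≤ 2) :
    NN μ q B (fun ξ => (1 / (2 * s * Complex.I)) * (uni U (ev P) s ξ - uni U (ev P) (-s) ξ)) ≤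
      ENNReal.ofReal s⁻¹ ^ q * L := by
  have hq0 : 0 < q := by linarith
  have hPm : Measurable (ev P) := (ev_cont _).measurable
  have h1 : ∀ c : ℝ, |c| = s → NN μ q B (uni U (ev P) c) ≤ L := fun c hc => by
    have e2 : uni U (ev P) c = uni U (ev (MvPolynomial.C c * P)) 1 := by
      unfold uni
      congr 1
      funext ξ
      rw [ev_C_mul c, one_mul]
    rw [e2]
    refine hL _ ((deg_C_mul _ _).trans hP) fun ξ hξ => ?_
    rw [ev_C_mul, abs_mul, hc, mul_comm]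
    exact mul_le_mul_of_nonneg_right (hPle ξ hξ) hs.le
  rw [NN_smul hq0.le]
  have h2 := NN_add' (μ := μ) hq B (uni_int hU hPm s) ((uni_int hU hPm (-s)).const_mul (-1))
  rw [NN_smul hq0.le] at h2
  have h3 : ‖(-1 : ℂ)‖ₑ ^ q = 1 := by rw [enorm_neg, enorm_one, ENNReal.one_rpow]
  rw [h3, one_mul] at h2
  have h4 : (fun ξ => uni U (ev P) s ξ + -1 * uni U (ev P) (-s) ξ) =
      fun ξ => uni U (ev P) s ξ - uni U (ev P) (-s) ξ := by
    funext ξ; ring
  rw [h4] at h2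
  have h5 : ‖(1 / (2 * s * Complex.I) : ℂ)‖ₑ = ENNReal.ofReal (2⁻¹ * s⁻¹) := by
    rw [← ofReal_norm]
    congr 1
    rw [norm_div, norm_mul, norm_mul, Complex.norm_I, norm_one, Complex.norm_real,
      Real.norm_of_nonneg hs.le, Complex.norm_ofNat, mul_one, one_div, mul_inv]
  rw [h5, ENNReal.ofReal_mul (by norm_num), ENNReal.mul_rpow_of_nonneg _ _ hq0.le]
  calc ENNReal.ofReal 2⁻¹ ^ q * ENNReal.ofReal s⁻¹ ^ q *
        NN μ q B (fun ξ => uni U (ev P) s ξ - uni U (ev P) (-s) ξ)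
      ≤ ENNReal.ofReal 2⁻¹ ^ q * ENNReal.ofReal s⁻¹ ^ q * (2 ^ (q - 1) * (L + L)) := by
        refine mul_le_mul' le_rfl (h2.trans (mul_le_mul' le_rfl (add_le_add ?_ ?_)))
        · exact h1 s (abs_of_pos hs)
        · exact h1 (-s) (by rw [abs_neg, abs_of_pos hs])
    _ = (ENNReal.ofReal 2⁻¹ ^ q * (2 ^ (q - 1) * 2)) * (ENNReal.ofReal s⁻¹ ^ q * L) := by ring
    _ = 1 * (ENNReal.ofReal s⁻¹ ^ q * L) := by
        congr 1
        have e1 : (2 : ℝ≥0∞) ^ (q - 1) * 2 = 2 ^ q := by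
          calc (2 : ℝ≥0∞) ^ (q - 1) * 2 = 2 ^ (q - 1) * 2 ^ (1 : ℝ) := by rw [ENNReal.rpow_one]
            _ = 2 ^ q := by
                rw [← ENNReal.rpow_add_of_nonneg _ _ (by linarith) zero_le_one]
                congr 1; ring
        rw [e1, ← ENNReal.mul_rpow_of_nonneg _ _ hq0.le]
        have e2 : ENNReal.ofReal 2⁻¹ * 2 = 1 := by
          rw [ENNReal.ofReal_inv_of_pos (by norm_num), ENNReal.ofReal_ofNat]
          exact ENNReal.inv_mul_cancel (by norm_num) (by norm_num)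
        rw [e2, ENNReal.one_rpow]
    _ = _ := one_mul _

/-- the trivial constant -/
noncomputable def S2 (μ : Measure (E n)) (q : ℝ) : ℝ≥0∞ := μ univ ^ q * volume (ball (0 : E n) 1)

theorem S2_ne_top [IsFiniteMeasure μ] {q : ℝ} (hq : 0 ≤ q) : S2 μ q ≠ ∞ :=
  ENNReal.mul_ne_top (ENNReal.rpow_ne_top_of_nonneg hq (measure_ne_top μ univ))
    measure_ball_lt_top.ne

/-- small functions -/
theorem small_part {e : E n → ℂ} {q R t : ℝ} (hq : 1 ≤ q) (hR : 0 ≤ R) (ht0 : 0 ≤ t) (ht1 : t ≤ 1)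
    (htR : t * R ^ n ≤ 1) (he : ∀ᵐ ξ ∂μ, ‖e ξ‖ ≤ t) :
    NN μ q (BB n R) e ≤ S2 μ q := by
  have hq0 : 0 < q := by linarith
  have h1 : ∫⁻ ξ, ‖e ξ‖ₑ ∂μ ≤ ENNReal.ofReal t * μ univ := by
    rw [← lintegral_const]
    refine lintegral_mono_ae ?_
    filter_upwards [he] with ξ hξ
    rw [← ofReal_norm]
    exact ENNReal.ofReal_le_ofReal hξ
  refine (NN_triv hq0.le (BB n R) e h1).trans ?_
  have h2 : volume (BB n R) = ENNReal.ofReal (R ^ n) * volume (ball (0 : E n) 1) := by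
    rw [Measure.addHaar_closedBall _ _ hR, finrank_euclideanSpace, Fintype.card_fin]
  rw [h2, ENNReal.mul_rpow_of_nonneg _ _ hq0.le]
  have h3 : ENNReal.ofReal t ^ q ≤ ENNReal.ofReal t := by
    have h4 : ENNReal.ofReal t ≤ 1 := by
      rw [← ENNReal.ofReal_one]; exact ENNReal.ofReal_le_ofReal ht1
    calc ENNReal.ofReal t ^ q ≤ ENNReal.ofReal t ^ (1 : ℝ) :=
          ENNReal.rpow_le_rpow_of_exponent_ge h4 hq
      _ = _ := ENNReal.rpow_one _
  have h5 : ENNReal.ofReal t * ENNReal.ofReal (R ^ n) ≤ 1 := by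
    rw [← ENNReal.ofReal_mul ht0, ← ENNReal.ofReal_one]
    exact ENNReal.ofReal_le_ofReal htR
  calc ENNReal.ofReal t ^ q * μ univ ^ q * (ENNReal.ofReal (R ^ n) * volume (ball (0 : E n) 1))
      ≤ ENNReal.ofReal t * μ univ ^ q * (ENNReal.ofReal (R ^ n) * volume (ball (0 : E n) 1)) :=
        mul_le_mul' (mul_le_mul' h3 le_rfl) le_rfl
    _ = (ENNReal.ofReal t * ENNReal.ofReal (R ^ n)) * S2 μ q := by unfold S2; ring
    _ ≤ 1 * S2 μ q := mul_le_mul' h5 le_rfl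
    _ = _ := one_mul _

/-- a multiple of a function in the class -/
theorem mid_part {q : ℝ} (hq : 1 ≤ q) {B : Set (E n)} {x₀ : E n} {ρ : ℝ} {T : ℝ≥0∞}
    (hT : ∀ f, FRB μ x₀ ρ f → NN μ q B f ≤ T) {h : E n → ℝ} (hh : Measurable h) {s : ℝ} (hs : 0 < s)
    (hhs : ∀ᵐ ξ ∂μ, ξ ∈ ball x₀ ρ → |h ξ| ≤ s) :
    NN μ q B ((ball x₀ ρ).indicator fun ξ => (h ξ : ℂ)) ≤ ENNReal.ofReal s ^ q * T := by
  have hq0 : 0 < q := by linarith
  have e1 : ((ball x₀ ρ).indicator fun ξ => (h ξ : ℂ)) = fun ξ => (s : ℂ) *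
      ((ball x₀ ρ).indicator (fun ξ => ((s⁻¹ * h ξ : ℝ) : ℂ)) ξ) := by
    funext ξ
    by_cases hξ : ξ ∈ ball x₀ ρ
    · rw [indicator_of_mem hξ, indicator_of_mem hξ]
      push_cast
      rw [← mul_assoc, mul_inv_cancel₀ (by exact_mod_cast hs.ne'), one_mul]
    · rw [indicator_of_notMem hξ, indicator_of_notMem hξ, mul_zero]
  rw [e1, NN_smul hq0.le]
  have e2 : ‖(s : ℂ)‖ₑ = ENNReal.ofReal s := by
    rw [← ofReal_norm, Complex.norm_real, Real.norm_of_nonneg hs.le]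
  rw [e2]
  refine mul_le_mul' le_rfl (hT _ ⟨⟨?_, ?_, ?_⟩, ?_⟩)
  · exact (Complex.measurable_ofReal.comp (hh.const_mul _)).indicator measurableSet_ball
  · filter_upwards [hhs] with ξ hξs
    by_cases hξ : ξ ∈ ball x₀ ρ
    · rw [indicator_of_mem hξ, Complex.norm_real, norm_mul, norm_inv, Real.norm_of_nonneg hs.le,
        inv_mul_le_iff₀ hs, mul_one]
      exact hξs hξ
    · rw [indicator_of_notMem hξ, norm_zero]; exact zero_le_one
  · refine Eventually.of_forall fun ξ => ?_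
    by_cases hξ : ξ ∈ ball x₀ ρ
    · rw [indicator_of_mem hξ]; exact Complex.ofReal_im _
    · rw [indicator_of_notMem hξ]; rfl
  · exact Eventually.of_forall fun ξ hξ => indicator_of_notMem hξ _

/-- real functions near bounded polynomials -/
theorem near_part [IsFiniteMeasure μ] {U : Set (E n)} (hU : MeasurableSet U) {q s : ℝ}
    (hq : 1 ≤ q) (hs0 : 0 < s) (hs1 : s ≤ 1 / 4) {D : ℕ} {R : ℝ} (hR0 : 0 ≤ R)
    {L : ℝ≥0∞} (hL : ∀ P : MvPolynomial (Fin n) ℝ, P.totalDegree ≤ D →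
      (∀ ξ ∈ U, |ev P ξ| ≤ 2 * s) → NN μ q (BB n R) (uni U (ev P) 1) ≤ L)
    {x₀ : E n} {ρ : ℝ} (hρU : ∀ᵐ ξ ∂μ, ξ ∈ ball x₀ ρ → ξ ∈ U) {T : ℝ≥0∞}
    (hT : ∀ f, FRB μ x₀ ρ f → NN μ q (BB n R) f ≤ T)
    {a : E n → ℝ} (ham : Measurable a)
    (haρ : ∀ᵐ ξ ∂μ, ξ ∉ ball x₀ ρ → a ξ = 0)
    {t : ℝ} (ht0 : 0 ≤ t) (ht1 : 2 * t ≤ 1) (htR : 2 * t * R ^ n ≤ 1)
    {P : MvPolynomial (Fin n) ℝ} (hP : P.totalDegree ≤ D) (hPle : ∀ ξ ∈ U, |ev P ξ| ≤ 2)
    (hPa : ∀ᵐ ξ ∂μ, ξ ∈ U → |ev P ξ - a ξ| ≤ t) :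
    NN μ q (BB n R) (fun ξ => (a ξ : ℂ)) ≤
      2 ^ (q - 1) * (ENNReal.ofReal s⁻¹ ^ q * L + 2 ^ (q - 1) *
        (ENNReal.ofReal (2 * s ^ 2) ^ q * T + S2 μ q)) := by
  have hq0 : 0 < q := by linarith
  have hPm : Measurable (ev P) := (ev_cont P).measurable
  have hsm : Measurable fun ξ => srem s (ev P ξ) := (srem_cont s).measurable.comp hPm
  have hg1 : Integrable (fun ξ => (1 / (2 * s * Complex.I)) * (uni U (ev P) s ξ -
      uni U (ev P) (-s) ξ)) μ :=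
    ((uni_int hU hPm s).sub (uni_int hU hPm (-s))).const_mul _
  have hsb : ∀ᵐ ξ ∂μ, ξ ∈ ball x₀ ρ → |srem s (ev P ξ)| ≤ 2 * s ^ 2 := by
    filter_upwards [hρU] with ξ hξ hξ2
    exact (sin_rem hs0 hs1 (hPle ξ (hξ hξ2))).1
  have hg2 : Integrable ((ball x₀ ρ).indicator fun ξ => ((srem s (ev P ξ) : ℝ) : ℂ)) μ := by
    refine Integrable.of_bound ((Complex.measurable_ofReal.comp hsm).indicator
      measurableSet_ball).aestronglyMeasurable (2 * s ^ 2) ?_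
    filter_upwards [hsb] with ξ hξ
    by_cases hξ2 : ξ ∈ ball x₀ ρ
    · rw [indicator_of_mem hξ2, Complex.norm_real]
      exact hξ hξ2
    · rw [indicator_of_notMem hξ2, norm_zero]; positivity
  have hg3m : Measurable fun ξ => U.indicator (fun ξ => ((a ξ - ev P ξ : ℝ) : ℂ)) ξ +
      (U \ ball x₀ ρ).indicator (fun ξ => ((srem s (ev P ξ) : ℝ) : ℂ)) ξ :=
    ((Complex.measurable_ofReal.comp (ham.sub hPm)).indicator hU).add
      ((Complex.measurable_ofReal.comp hsm).indicator (hU.diff measurableSet_ball))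
  have hele : ∀ᵐ ξ ∂μ, ‖U.indicator (fun ξ => ((a ξ - ev P ξ : ℝ) : ℂ)) ξ +
      (U \ ball x₀ ρ).indicator (fun ξ => ((srem s (ev P ξ) : ℝ) : ℂ)) ξ‖ ≤ 2 * t := by
    filter_upwards [hPa, haρ] with ξ hPaξ haξ
    by_cases hξ : ξ ∈ U
    · rw [indicator_of_mem hξ]
      have h1 : ‖((a ξ - ev P ξ : ℝ) : ℂ)‖ ≤ t := by
        rw [Complex.norm_real, Real.norm_eq_abs, abs_sub_comm]
        exact hPaξ hξ
      have h2 : ‖(U \ ball x₀ ρ).indicator (fun ξ => ((srem s (ev P ξ) : ℝ) : ℂ)) ξ‖ ≤ t := by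
        by_cases hξ2 : ξ ∈ ball x₀ ρ
        · rw [indicator_of_notMem fun h => h.2 hξ2, norm_zero]; exact ht0
        · rw [indicator_of_mem (show ξ ∈ U \ ball x₀ ρ from ⟨hξ, hξ2⟩), Complex.norm_real,
            Real.norm_eq_abs]
          have e1 := hPaξ hξ
          rw [haξ hξ2, sub_zero] at e1
          exact (sin_rem hs0 hs1 (hPle ξ hξ)).2.trans e1
      calc _ ≤ ‖((a ξ - ev P ξ : ℝ) : ℂ)‖ +
            ‖(U \ ball x₀ ρ).indicator (fun ξ => ((srem s (ev P ξ) : ℝ) : ℂ)) ξ‖ := norm_add_le _ _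
        _ ≤ 2 * t := by linarith
    · rw [indicator_of_notMem hξ, indicator_of_notMem (fun h => hξ h.1), add_zero, norm_zero]
      linarith
  have hg3 : Integrable (fun ξ => U.indicator (fun ξ => ((a ξ - ev P ξ : ℝ) : ℂ)) ξ +
      (U \ ball x₀ ρ).indicator (fun ξ => ((srem s (ev P ξ) : ℝ) : ℂ)) ξ) μ :=
    Integrable.of_bound hg3m.aestronglyMeasurable (2 * t) hele
  have hsum : (fun ξ => (a ξ : ℂ)) =ᵐ[μ] fun ξ => (1 / (2 * s * Complex.I)) * (uni U (ev P) s ξ -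
      uni U (ev P) (-s) ξ) + ((ball x₀ ρ).indicator (fun ξ => ((srem s (ev P ξ) : ℝ) : ℂ)) ξ +
      (U.indicator (fun ξ => ((a ξ - ev P ξ : ℝ) : ℂ)) ξ +
      (U \ ball x₀ ρ).indicator (fun ξ => ((srem s (ev P ξ) : ℝ) : ℂ)) ξ)) := by
    filter_upwards [hρU, haρ] with ξ hρUξ haξ
    have hs' : (s : ℂ) ≠ 0 := by exact_mod_cast hs0.ne'
    by_cases hξ : ξ ∈ U
    · have e1 : uni U (ev P) s ξ - uni U (ev P) (-s) ξ =
          2 * Complex.I * ((Real.sin (s * ev P ξ) : ℝ) : ℂ) := by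
        unfold uni
        rw [indicator_of_mem hξ, indicator_of_mem hξ, Complex.ofReal_sin, Complex.sin]
        have e2 : ((-s * ev P ξ : ℝ) : ℂ) * Complex.I = -((s * ev P ξ : ℝ) : ℂ) * Complex.I := by
          push_cast; ring
        rw [e2]
        have hI : Complex.I * Complex.I = -1 := Complex.I_mul_I
        linear_combination (Complex.exp (((s * ev P ξ : ℝ) : ℂ) * Complex.I) -
          Complex.exp (-((s * ev P ξ : ℝ) : ℂ) * Complex.I)) * hI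
      have e3 : (ball x₀ ρ).indicator (fun ξ => ((srem s (ev P ξ) : ℝ) : ℂ)) ξ +
          (U \ ball x₀ ρ).indicator (fun ξ => ((srem s (ev P ξ) : ℝ) : ℂ)) ξ =
          ((srem s (ev P ξ) : ℝ) : ℂ) := by
        by_cases hξ2 : ξ ∈ ball x₀ ρ
        · rw [indicator_of_mem hξ2, indicator_of_notMem fun h => h.2 hξ2, add_zero]
        · rw [indicator_of_notMem hξ2,
            indicator_of_mem (show ξ ∈ U \ ball x₀ ρ from ⟨hξ, hξ2⟩), zero_add]
      rw [e1, add_left_comm ((ball x₀ ρ).indicator _ ξ), e3, indicator_of_mem hξ]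
      unfold srem
      push_cast
      field_simp
      ring
    · have hξ2 : ξ ∉ ball x₀ ρ := fun h => hξ (hρUξ h)
      unfold uni
      rw [indicator_of_notMem hξ, indicator_of_notMem hξ, indicator_of_notMem hξ2,
        indicator_of_notMem hξ, indicator_of_notMem (fun h => hξ h.1), haξ hξ2]
      simp
  rw [NN_congr hsum]
  refine (NN_add' hq (BB n R) hg1 (hg2.add hg3)).trans (mul_le_mul' le_rfl (add_le_add ?_
    ((NN_add' hq (BB n R) hg2 hg3).trans (mul_le_mul' le_rfl (add_le_add ?_ ?_)))))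
  · exact sin_part hU hq hs0 hL hP hPle
  · exact mid_part hq hT hsm (by positivity) hsb
  · exact small_part hq hR0 (by linarith) ht1 htR hele

end Pool.Agent.H222.SP
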