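import Pool.Agent.H222.SP.PolyC

/-!
From polynomial phases to bounded real functions on a cap, large radii.
-/

open MeasureTheory Set Filter Metric
open scoped ENNReal NNReal Topology

namespace Pool.Agent.H222.SP

variable {n : ℕ} {μ : Measure (E n)}

/-- comparison of the class with a slightly larger one -/
theorem poly_step [IsFiniteMeasure μ] (hS : Sph μ) {U : Set (E n)} (hU : MeasurableSet U)
    (hUs : ∀ ξ ∈ U, ‖ξ‖ = 1) {x₀ : E n}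
    {r : ℝ} (hrU : ∀ ξ : E n, ‖ξ‖ = 1 → ξ ∈ ball x₀ (2 * r) → ξ ∈ U) {q s : ℝ} (hq : 1 ≤ q)
    (hs0 : 0 < s) (hs1 : s ≤ 1 / 4)
    {D m : ℕ} {R : ℝ} (hR1 : 1 ≤ R) (hm : 2 * m ≤ D) {A : ℝ} (hA0 : 0 < A)
    (hAR : 16 * Real.pi * n * R * A ≤ 1)
    {L : ℝ≥0∞} (hL : ∀ P : MvPolynomial (Fin n) ℝ, P.totalDegree ≤ D →
      (∀ ξ ∈ U, |ev P ξ| ≤ 2 * s) → NN μ q (BB n R) (uni U (ev P) 1) ≤ L)
    {y : E n} (hy : ‖y‖ = 1) (hZ0 : 0 < ZZ μ m A y)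
    (htR : 2 * μ.real univ / ZZ μ m A y * R ^ n ≤ 1)
    {ρ : ℝ} (hρ : ρ + 2 * A ≤ 2 * r) {T : ℝ≥0∞}
    (hT : ∀ f, FRB μ x₀ (ρ + 2 * A) f → NN μ q (BB n R) f ≤ T) {f : E n → ℂ}
    (hf : FRB μ x₀ ρ f) :
    NN μ q (BB n R) f ≤ 2 ^ q * (2 ^ (q - 1) * (ENNReal.ofReal s⁻¹ ^ q * L + 2 ^ (q - 1) *
      (ENNReal.ofReal (2 * s ^ 2) ^ q * T + S2 μ q))) := by
  have hR0 : 0 < R := by linarith
  have ht0 : 0 ≤ μ.real univ / ZZ μ m A y := div_nonneg measureReal_nonneg hZ0.le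
  rw [mul_div_assoc] at htR
  generalize ht : μ.real univ / ZZ μ m A y = t at htR ht0
  have ht1 : 2 * t ≤ 1 := by
    have : 1 ≤ R ^ n := one_le_pow₀ hR1
    nlinarith
  have hρU : ∀ᵐ ξ ∂μ, ξ ∈ ball x₀ (ρ + 2 * A) → ξ ∈ U := by
    filter_upwards [hS.ae] with ξ hξ hξ2
    exact hrU ξ hξ (ball_subset_ball hρ hξ2)
  have hK := KS_ker hS hy hZ0
  have hreal : ∀ f, FRB μ x₀ ρ f → ∃ (a : E n → ℝ) (P : MvPolynomial (Fin n) ℝ), Measurable a ∧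
      (∀ ξ : E n, ‖ξ‖ = 1 → ‖a ξ‖ ≤ 1) ∧ (∀ ξ, ξ ∉ ball x₀ (ρ + 2 * A) → a ξ = 0) ∧
      AV μ (KS μ m A y) f = (fun ξ => (a ξ : ℂ)) ∧
      P.totalDegree ≤ 2 * m ∧ ∀ ξ : E n, ‖ξ‖ = 1 → |ev P ξ - a ξ| ≤ t := fun f hf => by
    set u : E n → ℝ := fun ξ => (f ξ).re with hudef
    have hu : Measurable u := Complex.measurable_re.comp hf.1.1
    have hu1 : ∀ᵐ ξ ∂μ, ‖u ξ‖ ≤ 1 := by
      filter_upwards [hf.1.2.1] with ξ hξ
      exact (Complex.abs_re_le_norm _).trans hξ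
    have hfu : ∀ᵐ ξ ∂μ, f ξ = (u ξ : ℂ) := by
      filter_upwards [hf.1.2.2] with ξ hξ
      apply Complex.ext
      · simp [hudef]
      · simp [hξ]
    obtain ⟨P, hP, hPa⟩ := avg_near hS hA0.le hZ0 hu hu1
    rw [ht] at hPa
    refine ⟨fun ξ => ∫ η, u η * KS μ m A y ξ η ∂μ, P, ?_, fun ξ hξ => ?_, fun ξ hξ => ?_, ?_, hP,
      hPa⟩
    · have h1 : Measurable (Function.uncurry fun (ξ η : E n) => u η * KS μ m A y ξ η) :=
        (hu.comp measurable_snd).mul hK.meas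
      exact h1.stronglyMeasurable.integral_prod_right.measurable
    · have h2 : ∫ η, KS μ m A y ξ η ∂μ = 1 := by
        unfold KS
        rw [integral_div]
        show ZZ μ m A ξ / ZZ μ m A y = 1
        rw [ZZ_const hS m A hξ hy]
        exact div_self hZ0.ne'
      rw [← h2]
      refine norm_integral_le_of_norm_le (K_int' hK ξ) ?_
      filter_upwards [hu1] with η hη
      rw [norm_mul, Real.norm_of_nonneg (hK.nonneg _ _)]
      calc ‖u η‖ * KS μ m A y ξ η ≤ 1 * KS μ m A y ξ η :=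
            mul_le_mul_of_nonneg_right hη (hK.nonneg _ _)
        _ = _ := one_mul _
    · have h1 : ∀ᵐ η ∂μ, u η * KS μ m A y ξ η = 0 := by
        filter_upwards [hf.2] with η hη
        by_cases hη2 : η ∈ ball x₀ ρ
        · rw [hK.supp, mul_zero]
          rw [mem_ball, not_lt] at hξ
          rw [mem_ball] at hη2
          have h3 := dist_triangle ξ η x₀
          rw [← dist_eq_norm]
          linarith
        · have : u η = 0 := by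
            show (f η).re = 0
            rw [hη hη2]; rfl
          rw [this, zero_mul]
      show ∫ η, u η * KS μ m A y ξ η ∂μ = 0
      rw [integral_congr_ae h1, integral_zero]
    · funext ξ
      unfold AV
      rw [← integral_complex_ofReal]
      refine integral_congr_ae ?_
      filter_upwards [hfu] with η hη
      rw [hη]
      push_cast
      rfl
  have hA2 : 0 < 2 * A := by linarith
  refine avg_reduce (Cl.FRB μ x₀ ρ) hq hR1 hA2 (by linarith) hK (fun f hf => ?_)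
    (fun f hf => ?_) hf
  · obtain ⟨a, P, ham, ha1, haU, hav, -⟩ := hreal f hf
    rw [hav]
    refine Integrable.of_bound (Complex.measurable_ofReal.comp ham).aestronglyMeasurable 1 ?_
    filter_upwards [hS.ae] with ξ hξ
    show ‖((a ξ : ℝ) : ℂ)‖ ≤ 1
    rw [Complex.norm_real]; exact ha1 ξ hξ
  · obtain ⟨a, P, ham, ha1, haU, hav, hPd, hPa⟩ := hreal f hf
    rw [hav]
    refine near_part hU hq hs0 hs1 hR0.le hL hρU hT ham (Eventually.of_forall haU) ht0 ht1 htR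
      (hPd.trans hm) (fun ξ hξ => ?_) ?_
    · have e1 := hPa ξ (hUs ξ hξ)
      have e2 := ha1 ξ (hUs ξ hξ)
      rw [Real.norm_eq_abs] at e2
      calc |ev P ξ| = |(ev P ξ - a ξ) + a ξ| := by rw [sub_add_cancel]
        _ ≤ |ev P ξ - a ξ| + |a ξ| := abs_add_le _ _
        _ ≤ 2 := by linarith
    · filter_upwards [hS.ae] with ξ hξ _
      exact hPa ξ hξ

/-- the coefficient of the last term -/
theorem coef_le {q s : ℝ} (hq : 1 ≤ q) (hs0 : 0 < s) (hs1 : s ≤ 1 / 4) :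
    (2 : ℝ≥0∞) ^ q * (2 ^ (q - 1) * (2 ^ (q - 1) * ENNReal.ofReal (2 * s ^ 2) ^ q)) ≤ 4⁻¹ := by
  have hq0 : 0 ≤ q := by linarith
  have e1 : (2 : ℝ≥0∞) ^ (q - 1) = 2 ^ q * 2⁻¹ := by
    rw [ENNReal.rpow_sub _ _ (by norm_num) (by norm_num), ENNReal.rpow_one]
    rfl
  have e2 : (2 : ℝ≥0∞) ^ q * (2 ^ (q - 1) * (2 ^ (q - 1) * ENNReal.ofReal (2 * s ^ 2) ^ q)) =
      (2 * (2 * (2 * ENNReal.ofReal (2 * s ^ 2)))) ^ q * 4⁻¹ := by
    rw [e1, ENNReal.mul_rpow_of_nonneg _ _ hq0, ENNReal.mul_rpow_of_nonneg _ _ hq0,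
      ENNReal.mul_rpow_of_nonneg _ _ hq0]
    have e3 : (4 : ℝ≥0∞)⁻¹ = 2⁻¹ * 2⁻¹ := by
      rw [← ENNReal.mul_inv (by norm_num) (by norm_num)]
      norm_num
    rw [e3]
    ring
  rw [e2]
  have e4 : (2 * (2 * (2 * ENNReal.ofReal (2 * s ^ 2))) : ℝ≥0∞) ≤ 1 := by
    rw [← ENNReal.ofReal_ofNat, ← ENNReal.ofReal_mul (by norm_num),
      ← ENNReal.ofReal_mul (by norm_num), ← ENNReal.ofReal_mul (by norm_num), ← ENNReal.ofReal_one]
    refine ENNReal.ofReal_le_ofReal ?_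
    nlinarith
  calc (2 * (2 * (2 * ENNReal.ofReal (2 * s ^ 2))) : ℝ≥0∞) ^ q * 4⁻¹ ≤ 1 * 4⁻¹ :=
        mul_le_mul' (ENNReal.rpow_le_one e4 hq0) le_rfl
    _ = 4⁻¹ := one_mul _

theorem iter_bound {F : ℝ → ℝ≥0∞} {A r₂ : ℝ} (hA : 0 ≤ A) {B T : ℝ≥0∞} (hT : ∀ ρ, F ρ ≤ T)
    (hF : ∀ ρ, ρ + A ≤ r₂ → F ρ ≤ B + 4⁻¹ * F (ρ + A)) (j : ℕ) :
    ∀ ρ, ρ + j * A ≤ r₂ → F ρ ≤ 2 * B + 4⁻¹ ^ j * T := by
  induction j with
  | zero =>
    intro ρ _
    rw [pow_zero, one_mul]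
    exact (hT ρ).trans le_add_self
  | succ j ih =>
    intro ρ hρ
    push_cast at hρ
    have hjA : 0 ≤ (j : ℝ) * A := by positivity
    have h1 := ih (ρ + A) (by linarith)
    calc F ρ ≤ B + 4⁻¹ * F (ρ + A) := hF ρ (by linarith)
      _ ≤ B + 4⁻¹ * (2 * B + 4⁻¹ ^ j * T) := by gcongr
      _ = (1 + 4⁻¹ * 2) * B + 4⁻¹ ^ (j + 1) * T := by rw [pow_succ]; ring
      _ ≤ 2 * B + 4⁻¹ ^ (j + 1) * T := by
          gcongr
          have e1 : (4 : ℝ≥0∞)⁻¹ * 2 ≤ 1 := by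
            have e2 : (4 : ℝ≥0∞) = 2 * 2 := by norm_num
            rw [e2, ENNReal.mul_inv (by norm_num) (by norm_num), mul_assoc,
              ENNReal.inv_mul_cancel (by norm_num) (by norm_num), mul_one]
            exact ENNReal.inv_le_one.2 (by norm_num)
          calc (1 : ℝ≥0∞) + 4⁻¹ * 2 ≤ 1 + 1 := by gcongr
            _ = 2 := one_add_one_eq_two

/-- **From small polynomial phases to real functions, large radii.** -/
theorem poly_large [IsFiniteMeasure μ] (hS : Sph μ) (hn : 1 ≤ n) {U : Set (E n)}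
    (hU : MeasurableSet U) (hUs : ∀ ξ ∈ U, ‖ξ‖ = 1) {x₀ : E n}
    {r : ℝ} (hr : 0 < r) (hrU : ∀ ξ : E n, ‖ξ‖ = 1 → ξ ∈ ball x₀ (2 * r) → ξ ∈ U) {q τ c : ℝ}
    (hq : 1 ≤ q) (hτ : 0 ≤ τ) (hc : 0 < c) (h : PL μ U c q τ) {δ : ℝ} (hδ : 0 < δ) :
    ∃ (C : ℝ≥0) (R₀ : ℝ), 1 ≤ R₀ ∧ ∀ R : ℝ, R₀ ≤ R →
      ∀ f, FRB μ x₀ r f → NN μ q (BB n R) f ≤ C * ENNReal.ofReal (R ^ ((1 + δ) * τ)) := by
  obtain ⟨C, hC⟩ := h
  obtain ⟨y, hy⟩ := hS.ne
  have hπ := Real.pi_pos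
  have hπ3 := Real.pi_gt_three
  have hn1 : (1 : ℝ) ≤ n := by exact_mod_cast hn
  have hn0 : (0 : ℝ) < n := by linarith
  have hq0 : 0 < q := by linarith
  obtain ⟨s, hs0, hs1, hsc⟩ : ∃ s : ℝ, 0 < s ∧ s ≤ 1 / 4 ∧ 2 * s ≤ c :=
    ⟨min (c / 2) (1 / 4), lt_min (by positivity) (by norm_num), min_le_right _ _, by
      have := min_le_left (c / 2) (1 / 4 : ℝ); linarith⟩
  obtain ⟨R₁, hR₁, htail⟩ := ZZ_tail hS hn hδ (2 * μ.real univ)
    (mul_nonneg (by norm_num) measureReal_nonneg)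
  obtain ⟨R₂, hR₂, htail2⟩ := tail_small n one_pos (Real.exp 1) (8 * Real.pi * n * r)
    (by positivity)
  -- the constant
  obtain ⟨M, hMt, hM⟩ : ∃ M : ℝ≥0∞, M ≠ ∞ ∧ ∀ R : ℝ, 1 ≤ R →
      2 * (2 ^ q * (2 ^ (q - 1) * (ENNReal.ofReal s⁻¹ ^ q * (C * ENNReal.ofReal
        ((4 * R ^ (1 + δ)) ^ τ)) + 2 ^ (q - 1) * S2 μ q))) + S2 μ q ≤
      M * ENNReal.ofReal (R ^ ((1 + δ) * τ)) := by
    refine ⟨2 * (2 ^ q * (2 ^ (q - 1) * (ENNReal.ofReal s⁻¹ ^ q * (C * ENNReal.ofReal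
        (4 ^ τ)) + 2 ^ (q - 1) * S2 μ q))) + S2 μ q, ?_, fun R hR => ?_⟩
    · have h2 : ∀ y : ℝ, (2 : ℝ≥0∞) ^ y ≠ ∞ := fun y =>
        ENNReal.rpow_ne_top_of_ne_zero (by norm_num) (by norm_num)
      refine ENNReal.add_ne_top.2 ⟨ENNReal.mul_ne_top (by norm_num) (ENNReal.mul_ne_top (h2 _)
        (ENNReal.mul_ne_top (h2 _) (ENNReal.add_ne_top.2 ⟨ENNReal.mul_ne_top
          (ENNReal.rpow_ne_top_of_nonneg hq0.le ENNReal.ofReal_ne_top)
          (ENNReal.mul_ne_top ENNReal.coe_ne_top ENNReal.ofReal_ne_top),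
          ENNReal.mul_ne_top (h2 _) (S2_ne_top hq0.le)⟩))), S2_ne_top hq0.le⟩
    · have hR0 : 0 ≤ R := by linarith
      have hRτ : 1 ≤ ENNReal.ofReal (R ^ ((1 + δ) * τ)) := by
        rw [← ENNReal.ofReal_one]
        exact ENNReal.ofReal_le_ofReal (Real.one_le_rpow hR (by positivity))
      have e1 : ENNReal.ofReal ((4 * R ^ (1 + δ)) ^ τ) =
          ENNReal.ofReal (4 ^ τ) * ENNReal.ofReal (R ^ ((1 + δ) * τ)) := by
        rw [← ENNReal.ofReal_mul (by positivity)]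
        congr 1
        rw [Real.mul_rpow (by norm_num) (by positivity), ← Real.rpow_mul hR0]
      rw [e1]
      generalize ENNReal.ofReal (R ^ ((1 + δ) * τ)) = Y at hRτ ⊢
      generalize S2 μ q = S
      have hS : S ≤ S * Y := by
        calc S = S * 1 := (mul_one _).symm
          _ ≤ S * Y := mul_le_mul' le_rfl hRτ
      calc 2 * (2 ^ q * (2 ^ (q - 1) * (ENNReal.ofReal s⁻¹ ^ q * (C * (ENNReal.ofReal (4 ^ τ) *
              Y)) + 2 ^ (q - 1) * S))) + S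
          ≤ 2 * (2 ^ q * (2 ^ (q - 1) * (ENNReal.ofReal s⁻¹ ^ q * (C * (ENNReal.ofReal (4 ^ τ) *
              Y)) + 2 ^ (q - 1) * (S * Y)))) + S * Y := by
            refine add_le_add (mul_le_mul' le_rfl (mul_le_mul' le_rfl (mul_le_mul' le_rfl
              (add_le_add le_rfl (mul_le_mul' le_rfl hS))))) hS
        _ = _ := by ring
  refine ⟨M.toNNReal, max (max R₁ R₂) 1, le_max_right _ _, fun R hR f hf => ?_⟩
  rw [ENNReal.coe_toNNReal hMt]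
  have hRR₁ : R₁ ≤ R := (le_max_left _ _).trans ((le_max_left _ _).trans hR)
  have hRR₂ : R₂ ≤ R := (le_max_right _ _).trans ((le_max_left _ _).trans hR)
  have hR1 : 1 ≤ R := hR₁.trans hRR₁
  have hR0 : 0 < R := by linarith
  refine le_trans ?_ (hM R hR1)
  obtain ⟨A, hA⟩ : ∃ A : ℝ, A = 1 / (16 * Real.pi * n * R) := ⟨_, rfl⟩
  have hA0 : 0 < A := by rw [hA]; positivity
  have hAR : 16 * Real.pi * n * R * A ≤ 1 := by
    rw [hA, mul_one_div, div_self (by positivity)]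
  obtain ⟨m, hm⟩ : ∃ m : ℕ, m = ⌈R ^ (1 + δ)⌉₊ := ⟨_, rfl⟩
  have hRδ1 : 1 ≤ R ^ (1 + δ) := Real.one_le_rpow hR1 (by linarith)
  have hmle : R ^ (1 + δ) ≤ m := by rw [hm]; exact Nat.le_ceil _
  have hmge : (m : ℝ) ≤ 2 * R ^ (1 + δ) := by
    have := (Nat.ceil_lt_add_one (by positivity : 0 ≤ R ^ (1 + δ))).le
    rw [← hm] at this
    linarith
  have hRm : R ≤ m := by
    refine le_trans ?_ hmle
    calc R = R ^ (1 : ℝ) := (Real.rpow_one R).symm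
      _ ≤ R ^ (1 + δ) := Real.rpow_le_rpow_of_exponent_le hR1 (by linarith)
  have hm1 : 1 ≤ m := by
    have : (1 : ℝ) ≤ m := hR1.trans hRm
    exact_mod_cast this
  obtain ⟨hZ0, htR⟩ := htail R hRR₁ m hmle y hy
  rw [← hA] at hZ0 htR
  have hRD : R ≤ ((2 * m : ℕ) : ℝ) := by push_cast; linarith
  have e7 : ENNReal.ofReal (((2 * m : ℕ) : ℝ) ^ τ) ≤
      ENNReal.ofReal ((4 * R ^ (1 + δ)) ^ τ) := by
    refine ENNReal.ofReal_le_ofReal (Real.rpow_le_rpow (by positivity) ?_ hτ)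
    push_cast
    linarith
  obtain ⟨L, hLdef⟩ : ∃ L : ℝ≥0∞, L = C * ENNReal.ofReal ((4 * R ^ (1 + δ)) ^ τ) := ⟨_, rfl⟩
  rw [← hLdef]
  have hL : ∀ P : MvPolynomial (Fin n) ℝ, P.totalDegree ≤ 2 * m →
      (∀ ξ ∈ U, |ev P ξ| ≤ 2 * s) → NN μ q (BB n R) (uni U (ev P) 1) ≤ L := fun P hP hPs => by
    have h3 := hC (2 * m) (by omega) P hP fun ξ hξ => (hPs ξ hξ).trans hsc
    rw [hLdef]
    exact (NN_mono q (closedBall_subset_closedBall hRD) _).trans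
      (h3.trans (mul_le_mul' le_rfl e7))
  -- the iteration
  set F : ℝ → ℝ≥0∞ := fun ρ => ⨆ f : {f // FRB μ x₀ ρ f}, NN μ q (BB n R) f.1 with hFdef
  have hFf : ∀ ρ f, FRB μ x₀ ρ f → NN μ q (BB n R) f ≤ F ρ := fun ρ f hf =>
    le_iSup (fun f : {f // FRB μ x₀ ρ f} => NN μ q (BB n R) f.1) ⟨f, hf⟩
  have hvol : volume (BB n R) = ENNReal.ofReal (R ^ n) * volume (ball (0 : E n) 1) := by
    rw [Measure.addHaar_closedBall _ _ hR0.le, finrank_euclideanSpace, Fintype.card_fin]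
  have hFT : ∀ ρ, F ρ ≤ S2 μ q * ENNReal.ofReal (R ^ n) := fun ρ => iSup_le fun f => by
    refine (NN_triv hq0.le _ _ f.2.1.lint).trans (le_of_eq ?_)
    rw [hvol]
    unfold S2
    ring
  have hFs : ∀ ρ, ρ + 2 * A ≤ 2 * r → F ρ ≤
      2 ^ q * (2 ^ (q - 1) * (ENNReal.ofReal s⁻¹ ^ q * L + 2 ^ (q - 1) * S2 μ q)) +
        4⁻¹ * F (ρ + 2 * A) := fun ρ hρ => iSup_le fun f => by
    refine (poly_step hS hU hUs hrU hq hs0 hs1 hR1 le_rfl hA0 hAR hL hy hZ0 htR hρ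
      (hFf (ρ + 2 * A)) f.2).trans ?_
    have h1 := coef_le hq hs0 hs1
    calc 2 ^ q * (2 ^ (q - 1) * (ENNReal.ofReal s⁻¹ ^ q * L + 2 ^ (q - 1) *
          (ENNReal.ofReal (2 * s ^ 2) ^ q * F (ρ + 2 * A) + S2 μ q)))
        = 2 ^ q * (2 ^ (q - 1) * (ENNReal.ofReal s⁻¹ ^ q * L + 2 ^ (q - 1) * S2 μ q)) +
          2 ^ q * (2 ^ (q - 1) * (2 ^ (q - 1) * ENNReal.ofReal (2 * s ^ 2) ^ q)) *
            F (ρ + 2 * A) := by ring
      _ ≤ _ := add_le_add le_rfl (mul_le_mul' h1 le_rfl)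
  obtain ⟨k, hk⟩ : ∃ k : ℕ, k = ⌊r / (2 * A)⌋₊ := ⟨_, rfl⟩
  have hkA : r + k * (2 * A) ≤ 2 * r := by
    have h1 : (k : ℝ) ≤ r / (2 * A) := by rw [hk]; exact Nat.floor_le (by positivity)
    rw [le_div_iff₀ (by positivity)] at h1
    linarith
  have hkge : 8 * Real.pi * n * r * R - 1 ≤ k := by
    have h1 : r / (2 * A) < k + 1 := by rw [hk]; exact Nat.lt_floor_add_one _
    have h2 : r / (2 * A) = 8 * Real.pi * n * r * R := by rw [hA]; field_simp; ring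
    linarith
  have h4k : (4⁻¹ : ℝ≥0∞) ^ k * ENNReal.ofReal (R ^ n) ≤ 1 := by
    have e1 : (4⁻¹ : ℝ≥0∞) ^ k = ENNReal.ofReal ((4⁻¹ : ℝ) ^ k) := by
      rw [ENNReal.ofReal_pow (by norm_num), ENNReal.ofReal_inv_of_pos (by norm_num),
        ENNReal.ofReal_ofNat]
    rw [e1, ← ENNReal.ofReal_mul (by positivity), ← ENNReal.ofReal_one]
    refine ENNReal.ofReal_le_ofReal (le_trans ?_ (htail2 R hRR₂))
    rw [Real.rpow_one]
    have e2 : (4⁻¹ : ℝ) ^ k ≤ Real.exp 1 * Real.exp (-(8 * Real.pi * n * r * R)) := by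
      rw [← Real.exp_add]
      calc (4⁻¹ : ℝ) ^ k ≤ (Real.exp (-1)) ^ k := by
            gcongr
            rw [Real.exp_neg]
            gcongr
            have := Real.exp_one_lt_d9
            linarith
        _ = Real.exp (-k) := by rw [← Real.exp_nat_mul]; congr 1; ring
        _ ≤ _ := by
            refine Real.exp_le_exp.2 ?_
            linarith
    have e3 : R ^ n ≤ R ^ (2 * n + 1) := pow_le_pow_right₀ hR1 (by omega)
    calc (4⁻¹ : ℝ) ^ k * R ^ n ≤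
          Real.exp 1 * Real.exp (-(8 * Real.pi * n * r * R)) * R ^ (2 * n + 1) := by gcongr
      _ = _ := by ring
  refine (hFf r f hf).trans ((iter_bound (by positivity) hFT hFs k r hkA).trans
    (add_le_add le_rfl ?_))
  calc (4⁻¹ : ℝ≥0∞) ^ k * (S2 μ q * ENNReal.ofReal (R ^ n))
      = S2 μ q * (4⁻¹ ^ k * ENNReal.ofReal (R ^ n)) := by ring
    _ ≤ S2 μ q * 1 := mul_le_mul' le_rfl h4k
    _ = S2 μ q := mul_one _

end Pool.Agent.H222.SP
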