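import Pool.Agent.H222.SP.PolyD
import Pool.Agent.H222.SP.GeoS
import Pool.Graph.R_seed8.H789R2.FR.Caps

/-!
Small polynomial phases decide the growth of the local estimates.
-/

open MeasureTheory Set Filter Metric
open scoped ENNReal NNReal Topology

namespace Pool.Agent.H222.SP

variable {n : ℕ} {μ : Measure (E n)}

/-- the estimate with the loss `R ^ τ` for all bounded functions -/
def Est (μ : Measure (E n)) (q τ : ℝ) : Prop :=
  ∃ C : ℝ≥0, ∀ f : E n → ℂ, Measurable f → (∀ ξ, ‖f ξ‖ ≤ 1) → ∀ R : ℝ, 1 ≤ R →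
    NN μ q (BB n R) f ≤ C * ENNReal.ofReal (R ^ τ)

/-- the global estimate for bounded functions -/
def GE (μ : Measure (E n)) (q : ℝ) : Prop :=
  ∃ C : ℝ≥0, ∀ f : E n → ℂ, Measurable f → (∀ ξ, ‖f ξ‖ ≤ 1) → (∫⁻ x, ‖TT μ f x‖ₑ ^ q) ≤ C

/-- all radii, functions on a small ball -/
theorem poly_all [IsFiniteMeasure μ] (hS : Sph μ) (hn : 1 ≤ n) {U : Set (E n)}
    (hU : MeasurableSet U) (hUs : ∀ ξ ∈ U, ‖ξ‖ = 1) {x₀ : E n}
    {r : ℝ} (hr : 0 < r) (hrU : ∀ ξ : E n, ‖ξ‖ = 1 → ξ ∈ ball x₀ (2 * r) → ξ ∈ U) {q τ c : ℝ}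
    (hq : 1 ≤ q) (hτ : 0 ≤ τ) (hc : 0 < c) (h : PL μ U c q τ) {δ : ℝ} (hδ : 0 < δ) :
    ∃ C : ℝ≥0, ∀ R : ℝ, 1 ≤ R →
      ∀ f, FRB μ x₀ r f → NN μ q (BB n R) f ≤ C * ENNReal.ofReal (R ^ ((1 + δ) * τ)) := by
  obtain ⟨C, R₀, hR₀, hC⟩ := poly_large hS hn hU hUs hr hrU hq hτ hc h hδ
  have hKt : (C * ENNReal.ofReal (R₀ ^ ((1 + δ) * τ)) : ℝ≥0∞) ≠ ∞ :=
    ENNReal.mul_ne_top ENNReal.coe_ne_top ENNReal.ofReal_ne_top
  refine ⟨(C * ENNReal.ofReal (R₀ ^ ((1 + δ) * τ)) : ℝ≥0∞).toNNReal, fun R hR f hf => ?_⟩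
  rw [ENNReal.coe_toNNReal hKt]
  have h1 : R ≤ R₀ * R := by nlinarith
  have h2 : R₀ ≤ R₀ * R := by nlinarith
  refine (NN_mono q (closedBall_subset_closedBall h1) f).trans ((hC _ h2 f hf).trans
    (le_of_eq ?_))
  rw [Real.mul_rpow (by linarith) (by linarith), ENNReal.ofReal_mul (by positivity)]
  ring

/-- rotation of the class -/
theorem FRB.rot {x₀ y : E n} {r : ℝ} {f : E n → ℂ} (hf : FRB μ y r f) {T : E n ≃ₗᵢ[ℝ] E n}
    (hT : MeasurePreserving T μ μ) (hTy : T x₀ = y) : FRB μ x₀ r fun ξ => f (T ξ) := by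
  have hq := hT.quasiMeasurePreserving
  refine ⟨⟨hf.1.1.comp T.continuous.measurable, hq.ae hf.1.2.1, hq.ae hf.1.2.2⟩, ?_⟩
  filter_upwards [hq.ae hf.2] with ξ hξ hξ2
  refine hξ fun h => hξ2 ?_
  rw [mem_ball, ← T.dist_map, hTy]
  exact h

theorem NN_zero {q : ℝ} (hq : 0 < q) {B : Set (E n)} {f : E n → ℂ} (hf : ∀ᵐ ξ ∂μ, f ξ = 0) :
    NN μ q B f = 0 := by
  have h1 : f =ᵐ[μ] fun _ => 0 := hf
  rw [NN_congr h1]
  unfold NN TT
  simp [ENNReal.zero_rpow_of_pos hq]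

/-- finite unions of caps -/
theorem cover_caps [IsFiniteMeasure μ] {q : ℝ} (hq : 1 ≤ q) (r : ℝ) (s : Finset (E n)) :
    ∃ c : ℝ≥0∞, c ≠ ∞ ∧ ∀ (B : Set (E n)) (D : ℝ≥0∞),
      (∀ y ∈ s, ∀ f, FRB μ y r f → NN μ q B f ≤ D) → ∀ f, FR μ f →
        (∀ᵐ ξ ∂μ, (∀ y ∈ s, ξ ∉ ball y r) → f ξ = 0) → NN μ q B f ≤ c * D := by
  classical
  induction s using Finset.induction_on with
  | empty =>
    refine ⟨0, ENNReal.zero_ne_top, fun B D _ f _ hf0 => ?_⟩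
    rw [NN_zero (by linarith) (hf0.mono fun ξ h => h (by simp)), zero_mul]
  | insert y s hy ih =>
    obtain ⟨c, hct, hc⟩ := ih
    refine ⟨2 ^ (q - 1) * (1 + c), ENNReal.mul_ne_top (by simp) (ENNReal.add_ne_top.2
      ⟨ENNReal.one_ne_top, hct⟩), fun B D hD f hf hf0 => ?_⟩
    have hind : ∀ S : Set (E n), MeasurableSet S → FR μ (S.indicator f) := fun S hS => by
      refine ⟨hf.1.indicator hS, ?_, ?_⟩
      · filter_upwards [hf.2.1] with ξ hξ
        exact (norm_indicator_le_norm_self _ _).trans hξ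
      · filter_upwards [hf.2.2] with ξ hξ
        by_cases h : ξ ∈ S
        · rw [indicator_of_mem h]; exact hξ
        · rw [indicator_of_notMem h]; rfl
    have h1 := hind _ (measurableSet_ball (x := y) (ε := r))
    have h2 := hind _ (measurableSet_ball (x := y) (ε := r)).compl
    have h3 : f = fun ξ => (ball y r).indicator f ξ + (ball y r)ᶜ.indicator f ξ := by
      funext ξ
      exact (congrFun (indicator_self_add_compl (ball y r) f) ξ).symm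
    have h4 := NN_add' hq B h1.int h2.int
    rw [← h3] at h4
    refine h4.trans ?_
    rw [mul_assoc, add_mul, one_mul]
    refine mul_le_mul' le_rfl (add_le_add ?_ ?_)
    · exact hD y (Finset.mem_insert_self _ _) _
        ⟨h1, Eventually.of_forall fun ξ hξ => indicator_of_notMem hξ _⟩
    · refine hc B D (fun y' hy' => hD y' (Finset.mem_insert_of_mem hy')) _ h2 ?_
      filter_upwards [hf0] with ξ hξ hs
      by_cases h : ξ ∈ ball y r
      · exact indicator_of_notMem (by simpa using h) _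
      · rw [indicator_of_mem (show ξ ∈ (ball y r)ᶜ from h)]
        refine hξ fun y' hy' => ?_
        rcases Finset.mem_insert.1 hy' with rfl | hy'
        · exact h
        · exact hs y' hy'

/-- real and imaginary parts -/
theorem FR_split [IsFiniteMeasure μ] {q : ℝ} (hq : 1 ≤ q) {B : Set (E n)} {D : ℝ≥0∞}
    (hD : ∀ f, FR μ f → NN μ q B f ≤ D) {f : E n → ℂ} (hf : Measurable f)
    (hf1 : ∀ ξ, ‖f ξ‖ ≤ 1) : NN μ q B f ≤ 2 ^ q * D := by
  have hq0 : 0 ≤ q := by linarith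
  set g : E n → ℂ := fun ξ => ((f ξ).re : ℂ) with hg
  set h : E n → ℂ := fun ξ => ((f ξ).im : ℂ) with hh
  have hgR : FR μ g := ⟨by rw [hg]; fun_prop, Eventually.of_forall fun ξ => by
    rw [hg]
    simp only
    rw [Complex.norm_real]
    exact (Complex.abs_re_le_norm _).trans (hf1 ξ), Eventually.of_forall fun ξ =>
      Complex.ofReal_im _⟩
  have hhR : FR μ h := ⟨by rw [hh]; fun_prop, Eventually.of_forall fun ξ => by
    rw [hh]
    simp only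
    rw [Complex.norm_real]
    exact (Complex.abs_im_le_norm _).trans (hf1 ξ), Eventually.of_forall fun ξ =>
      Complex.ofReal_im _⟩
  have h1 : f = fun ξ => g ξ + Complex.I * h ξ := by
    funext ξ
    rw [hg, hh]
    simp only
    rw [mul_comm]
    exact (Complex.re_add_im (f ξ)).symm
  have h2 := NN_add' hq B hgR.int (hhR.int.const_mul Complex.I)
  rw [← h1] at h2
  refine h2.trans ?_
  have h3 : NN μ q B (fun ξ => Complex.I * h ξ) = NN μ q B h := by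
    rw [NN_smul hq0, ← ofReal_norm, Complex.norm_I, ENNReal.ofReal_one, ENNReal.one_rpow, one_mul]
  rw [h3]
  calc 2 ^ (q - 1) * (NN μ q B g + NN μ q B h) ≤ 2 ^ (q - 1) * (D + D) := by
        gcongr
        · exact hD g hgR
        · exact hD h hhR
    _ = 2 ^ (q - 1) * 2 ^ (1 : ℝ) * D := by rw [← two_mul, ENNReal.rpow_one]; ring
    _ = 2 ^ q * D := by
        rw [← ENNReal.rpow_add_of_nonneg _ _ (by linarith) zero_le_one]
        congr 2; ring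

/-- from estimates on one cap to the sphere -/
theorem est_of_cap [IsFiniteMeasure μ] (hS : Sph μ) {x₀ : E n} (hx₀ : ‖x₀‖ = 1) {r : ℝ}
    (hr : 0 < r) {q σ : ℝ} (hq : 1 ≤ q)
    (h : ∃ C : ℝ≥0, ∀ R : ℝ, 1 ≤ R → ∀ f, FRB μ x₀ r f →
      NN μ q (BB n R) f ≤ C * ENNReal.ofReal (R ^ σ)) : Est μ q σ := by
  obtain ⟨C, hC⟩ := h
  obtain ⟨s, hs1, hs2⟩ : ∃ s : Finset (E n), (∀ y ∈ s, ‖y‖ = 1) ∧
      ∀ ξ : E n, ‖ξ‖ = 1 → ∃ y ∈ s, ξ ∈ ball y r := by
    have hcomp : IsCompact (sphere (0 : E n) 1) := isCompact_sphere _ _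
    obtain ⟨t, ht1, ht2⟩ := hcomp.elim_nhds_subcover (fun y => ball y r)
      fun y _ => ball_mem_nhds y hr
    refine ⟨t, fun y hy => mem_sphere_zero_iff_norm.1 (ht1 y hy), fun ξ hξ => ?_⟩
    have := ht2 (mem_sphere_zero_iff_norm.2 hξ)
    simpa using this
  obtain ⟨c, hct, hc⟩ := cover_caps (μ := μ) hq r s
  have hKt : (2 ^ q * (c * C) : ℝ≥0∞) ≠ ∞ := ENNReal.mul_ne_top (by simp)
    (ENNReal.mul_ne_top hct ENNReal.coe_ne_top)
  refine ⟨(2 ^ q * (c * C) : ℝ≥0∞).toNNReal, fun f hf hf1 R hR => ?_⟩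
  rw [ENNReal.coe_toNNReal hKt]
  have h1 : ∀ f, FR μ f → NN μ q (BB n R) f ≤ c * (C * ENNReal.ofReal (R ^ σ)) := fun f hf => by
    refine hc _ _ (fun y hy f hf => ?_) f hf ?_
    · set T : E n ≃ₗᵢ[ℝ] E n := (ℝ ∙ (x₀ - y))ᗮ.reflection with hT
      have hTy : T x₀ = y := Submodule.reflection_sub (by rw [hx₀, hs1 y hy])
      have h2 := hC R hR _ (hf.rot (hS.inv T) hTy)
      rw [NN_rot q (hS.inv T)] at h2
      exact h2
    · filter_upwards [hS.ae] with ξ hξ hne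
      obtain ⟨y, hy, hyξ⟩ := hs2 ξ hξ
      exact absurd hyξ (hne y hy)
  refine (FR_split hq h1 hf hf1).trans (le_of_eq ?_)
  ring

/-- **From small polynomial phases to bounded functions on the sphere.** -/
theorem Est_of_PL [IsFiniteMeasure μ] (hS : Sph μ) (hn : 1 ≤ n) {U : Set (E n)}
    (hU : MeasurableSet U) (hUs : ∀ ξ ∈ U, ‖ξ‖ = 1) {x₀ : E n} (hx₀ : ‖x₀‖ = 1)
    {r : ℝ} (hr : 0 < r) (hrU : ∀ ξ : E n, ‖ξ‖ = 1 → ξ ∈ ball x₀ r → ξ ∈ U) {q τ c : ℝ}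
    (hq : 1 ≤ q) (hτ : 0 ≤ τ) (hc : 0 < c) (h : PL μ U c q τ) {δ : ℝ} (hδ : 0 < δ) :
    Est μ q ((1 + δ) * τ) := by
  refine est_of_cap hS hx₀ (r := r / 2) (by positivity) hq
    (poly_all hS hn hU hUs (by positivity) ?_ hq hτ hc h hδ)
  rwa [mul_div_cancel₀ _ (two_ne_zero : (2 : ℝ) ≠ 0)]

theorem PL_of_Est {U : Set (E n)} (hU : MeasurableSet U) {q τ : ℝ}
    (c : ℝ) (h : Est μ q τ) : PL μ U c q τ := by
  obtain ⟨C, hC⟩ := h
  exact ⟨C, fun D hD P _ _ => hC (uni U (ev P) 1) (uni_meas hU (ev_cont P).measurable 1)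
    (uni_le _ _ _) D (by exact_mod_cast hD)⟩

/-- growth exponents -/
theorem exponents [IsFiniteMeasure μ] (hS : Sph μ) (hn : 1 ≤ n) {U : Set (E n)}
    (hU : MeasurableSet U) (hUs : ∀ ξ ∈ U, ‖ξ‖ = 1) {x₀ : E n} (hx₀ : ‖x₀‖ = 1)
    {r : ℝ} (hr : 0 < r) (hrU : ∀ ξ : E n, ‖ξ‖ = 1 → ξ ∈ ball x₀ r → ξ ∈ U) {q c : ℝ}
    (hq : 1 ≤ q) (hc : 0 < c) {σ : ℝ} (hσ : 0 ≤ σ) :
    (∀ ε : ℝ, 0 < ε → Est μ q (σ + ε)) ↔ ∀ ε : ℝ, 0 < ε → PL μ U c q (σ + ε) := by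
  constructor
  · exact fun h ε hε => PL_of_Est hU c (h ε hε)
  · intro h ε hε
    have h1 := h (ε / 2) (by positivity)
    have hpos : 0 < σ + ε / 2 := by positivity
    have h2 := Est_of_PL hS hn hU hUs hx₀ hr hrU hq hpos.le hc h1
      (δ := ε / 2 / (σ + ε / 2)) (by positivity)
    have e1 : (1 + ε / 2 / (σ + ε / 2)) * (σ + ε / 2) = σ + ε := by
      field_simp; ring
    rwa [e1] at h2

/-- from global estimates to local estimates with small losses -/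
theorem Est_of_GE [IsFiniteMeasure μ] {p : ℝ} (hp : 0 < p) (h : ∀ s : ℝ, p < s → GE μ s) {ε : ℝ}
    (hε : 0 < ε) : Est μ p ε := by
  -- the exponent `s`
  set θ : ℝ := min (1 / 2) (ε / (n + 1)) with hθ
  have hθ0 : 0 < θ := lt_min (by norm_num) (by positivity)
  have hθ1 : θ ≤ 1 / 2 := min_le_left _ _
  have hθε : (n : ℝ) * θ ≤ ε := by
    have h1 : θ ≤ ε / (n + 1) := min_le_right _ _
    calc (n : ℝ) * θ ≤ ((n : ℝ) + 1) * θ := by gcongr; linarith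
      _ ≤ (n + 1) * (ε / (n + 1)) := by gcongr
      _ = ε := by field_simp
  set s : ℝ := p / (1 - θ) with hs
  have hs1 : p < s := by
    rw [hs, lt_div_iff₀ (by linarith)]
    nlinarith
  have hs0 : 0 < s := by linarith
  obtain ⟨C, hC⟩ := h s hs1
  set v : ℝ≥0∞ := volume (ball (0 : E n) 1) with hv
  have hvt : v ≠ ⊤ := measure_ball_lt_top.ne
  set K : ℝ≥0∞ := (C : ℝ≥0∞) ^ (1 - θ) * v ^ θ with hK
  have hKt : K ≠ ⊤ := ENNReal.mul_ne_top (ENNReal.rpow_ne_top_of_nonneg (by linarith)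
    ENNReal.coe_ne_top) (ENNReal.rpow_ne_top_of_nonneg hθ0.le hvt)
  refine ⟨K.toNNReal, fun f hf hf1 R hR => ?_⟩
  rw [ENNReal.coe_toNNReal hKt]
  have hR0 : 0 ≤ R := by linarith
  have hFm : Measurable fun x => ‖TT μ f x‖ₑ := TT_meas (integrable_of_bdd hf hf1)
  have hpq : (1 / (1 - θ)).HolderConjugate (1 / θ) := by
    rw [Real.holderConjugate_iff]
    refine ⟨?_, ?_⟩
    · rw [lt_div_iff₀ (by linarith)]; linarith
    · rw [one_div, one_div, inv_inv, inv_inv]; ring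
  have h1 := ENNReal.lintegral_mul_le_Lp_mul_Lq (volume.restrict (BB n R)) hpq
    (f := fun x => ‖TT μ f x‖ₑ ^ p) (g := fun _ => 1) (hFm.pow_const p).aemeasurable
    aemeasurable_const
  simp only [Pi.mul_apply, mul_one, ENNReal.one_rpow, lintegral_const, one_div, inv_inv, one_mul,
    Measure.restrict_apply_univ] at h1
  refine h1.trans ?_
  have h2 : ∀ x, (‖TT μ f x‖ₑ ^ p) ^ (1 - θ)⁻¹ = ‖TT μ f x‖ₑ ^ s := fun x => by
    rw [← ENNReal.rpow_mul, hs, div_eq_mul_inv]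
  simp only [h2]
  have h3 : ∫⁻ x in BB n R, ‖TT μ f x‖ₑ ^ s ≤ C :=
    (setLIntegral_le_lintegral _ _).trans (hC f hf hf1)
  have h4 : volume (BB n R) = ENNReal.ofReal R ^ (n : ℝ) * v := by
    have := vol_BB n R.toNNReal
    rw [Real.coe_toNNReal R hR0] at this
    rw [this]
    rfl
  rw [h4]
  calc (∫⁻ x in BB n R, ‖TT μ f x‖ₑ ^ s) ^ (1 - θ) * (ENNReal.ofReal R ^ (n : ℝ) * v) ^ θ
      ≤ (C : ℝ≥0∞) ^ (1 - θ) * (ENNReal.ofReal R ^ (n : ℝ) * v) ^ θ := by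
        gcongr
        linarith
    _ = K * ENNReal.ofReal R ^ ((n : ℝ) * θ) := by
        rw [ENNReal.mul_rpow_of_nonneg _ _ hθ0.le, ← ENNReal.rpow_mul, hK]
        ring
    _ ≤ K * ENNReal.ofReal R ^ ε := by
        gcongr
        rw [← ENNReal.ofReal_one]
        exact ENNReal.ofReal_le_ofReal hR
    _ = K * ENNReal.ofReal (R ^ ε) := by
        rw [ENNReal.ofReal_rpow_of_nonneg hR0 hε.le]

theorem HL_of_Est {q : ℝ} (h : ∀ ε : ℝ, 0 < ε → Est μ q ε) : HL μ q := by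
  intro ε hε
  obtain ⟨C, hC⟩ := h ε hε
  refine ⟨C, fun R hR f hf hf1 => ?_⟩
  have h1 := hC f hf hf1 R (by exact_mod_cast hR)
  rw [← ENNReal.ofReal_rpow_of_nonneg R.coe_nonneg hε.le, ENNReal.ofReal_coe_nnreal] at h1
  exact h1

open Pool.Agent.H789R2.FR (sg sg_finite sg_ae sg_inv cap_lower)

theorem sph_sg (n : ℕ) (hn : 2 ≤ n) : Sph (sg n) := by
  have hfin := sg_finite n
  refine ⟨sg_ae n, fun T => sg_inv T, ?_, ?_⟩
  · obtain ⟨c, hc, h⟩ := cap_lower n hn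
    refine ⟨c, hc, fun r hr hr1 y hy => ?_⟩
    have h1 : r ^ n ≤ r ^ (n - 1) := pow_le_pow_of_le_one hr.le hr1 (by omega)
    have h2 : (sg n).real {w | ‖y - w‖ < r} ≤ (sg n).real (closedBall y r) := by
      refine measureReal_mono (fun w hw => ?_) (measure_ne_top _ _)
      rw [mem_closedBall, dist_comm, dist_eq_norm]
      exact le_of_lt hw
    calc c * r ^ n ≤ c * r ^ (n - 1) := by gcongr
      _ ≤ (sg n).real {w | ‖y - w‖ < r} := h r hr hr1 y hy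
      _ ≤ _ := h2
  · have : Nontrivial (E n) := by
      have : Nonempty (Fin n) := ⟨⟨0, by omega⟩⟩
      infer_instance
    exact exists_norm_eq (E n) zero_le_one

/-- removal of the losses on the sphere -/
theorem GE_of_eps (n : ℕ) (hn : 2 ≤ n) {p : ℝ} (hp : 2 ≤ p)
    (h : ∀ ε : ℝ, 0 < ε → Est (sg n) p ε) {s : ℝ} (hs : p < s) : GE (sg n) s := by
  obtain ⟨C, hCt, hC⟩ := sphere_removal n hn hp (HL_of_Est h) hs
  refine ⟨C.toNNReal, fun f hf hf1 => ?_⟩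
  rw [ENNReal.coe_toNNReal hCt]
  exact hC f hf hf1

end Pool.Agent.H222.SP
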