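import Pool.Agent.H222.SP.Sparse

/-!
The `L¹` norm of exponential sums, for arbitrary separated sets.
-/

open MeasureTheory Set Filter Metric
open scoped ENNReal NNReal Topology

namespace Pool.Agent.H222.SP

open Pool.Agent.H222.ER (cover)

variable {n : ℕ} {μ : Measure (E n)}

/-- exponents of the scales -/
def ex (κ : ℕ) : ℕ → ℕ
  | 0 => 0
  | j + 1 => κ * (ex κ j + 1)

theorem ex_mono {κ : ℕ} (hκ : 1 ≤ κ) : Monotone (ex κ) := monotone_nat_of_le_succ fun j => by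
  show ex κ j ≤ κ * (ex κ j + 1)
  nlinarith

theorem exp_sum [IsFiniteMeasure μ] (hμ0 : μ univ ≠ 0) (hMix : Mix μ) (hsupp : Sup μ)
    (G₀ : Geo μ) {p r : ℝ} (hp : 2 ≤ p) (hL : HL μ p) (hr : p < r) :
    ∃ C : ℝ≥0∞, C ≠ ∞ ∧ ∀ X : Finset (E n), (∀ x ∈ X, ∀ y ∈ X, x ≠ y → 1 ≤ dist x y) →
      ∀ a : E n → ℂ, (∀ x, ‖a x‖ ≤ 1) →
        ∫⁻ ξ, ‖ES X a ξ‖ₑ ∂μ ≤ C * (X.card : ℝ≥0∞) ^ (1 - 1 / r) := by
  classical
  have hp0 : 0 < p := by linarith
  have hr0 : 0 < r := by linarith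
  have hpq : p.HolderConjugate (p / (p - 1)) := Real.HolderConjugate.conjExponent (by linarith)
  set q : ℝ := p / (p - 1) with hq
  have hq0 : 0 < q := hpq.symm.pos
  have hq1 : 1 / q = 1 - 1 / p := by
    have := hpq.inv_add_inv_eq_one
    rw [one_div, one_div]; linarith
  set δ : ℝ := 1 / p - 1 / r with hδ
  have hδ0 : 0 < δ := by
    have : 1 / r < 1 / p := one_div_lt_one_div_of_lt hp0 hr
    rw [hδ]; linarith
  obtain ⟨J, hJ⟩ := exists_nat_gt (2 / δ)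
  have hJ0 : (0 : ℝ) < J := lt_trans (by positivity) hJ
  have hJ1 : 1 ≤ J := by exact_mod_cast hJ0
  have hJδ : 1 / (J : ℝ) ≤ δ / 2 := by
    rw [div_lt_iff₀ hδ0] at hJ
    rw [div_le_iff₀ hJ0]
    nlinarith
  set κ : ℕ := G₀.κ with hκ
  have hκ2 : 2 ≤ κ := G₀.hκ
  have hK1 : 1 ≤ G₀.K := G₀.hK
  set K₁ : ℝ≥0 := G₀.K.toNNReal with hK₁
  have hK₁r : (K₁ : ℝ) = G₀.K := Real.coe_toNNReal _ (by linarith)
  have hK₁1 : 1 ≤ K₁ := by rw [← NNReal.coe_le_coe, hK₁r]; exact hK1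
  set ε : ℝ := δ / (2 * (ex κ J + 1)) with hε
  have hε0 : 0 < ε := by positivity
  have hεe : ex κ J * ε ≤ δ / 2 := by
    rw [hε, mul_div_assoc', div_le_div_iff₀ (by positivity) (by norm_num)]
    nlinarith
  obtain ⟨K, hKt, hK⟩ := sparse_bound hμ0 hMix hsupp G₀ hpq hp hL hε0
  set c₁ : ℝ≥0 := 4 * K₁ with hc₁
  have hc₁1 : 1 ≤ c₁ := by
    calc (1 : ℝ≥0) ≤ 4 * 1 := by norm_num
      _ ≤ 4 * K₁ := by gcongr
  set C : ℝ≥0∞ := J * 3 * (K * (c₁ : ℝ≥0∞) ^ (δ / 2)) with hC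
  have hCt : C ≠ ∞ := ENNReal.mul_ne_top (by finiteness) (ENNReal.mul_ne_top hKt (by
    apply ENNReal.rpow_ne_top_of_nonneg (by positivity) ENNReal.coe_ne_top))
  refine ⟨C, hCt, fun X hX a ha => ?_⟩
  rcases Nat.eq_zero_or_pos X.card with h0 | h0
  · rw [Finset.card_eq_zero] at h0
    rw [h0]
    simp [ES]
  have hN1 : (1 : ℝ) ≤ X.card := by exact_mod_cast h0
  have hN1' : (1 : ℝ≥0) ≤ X.card := by exact_mod_cast h0
  have hN1'' : (1 : ℝ≥0∞) ≤ X.card := by exact_mod_cast h0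
  set D : ℕ := ⌈(X.card : ℝ) ^ (1 / (J : ℝ))⌉₊ with hD
  have hDJ : X.card ≤ D ^ J := by
    have h1 : (X.card : ℝ) ≤ (D : ℝ) ^ J := by
      calc (X.card : ℝ) = ((X.card : ℝ) ^ (1 / (J : ℝ))) ^ J := by
            rw [← Real.rpow_natCast, ← Real.rpow_mul (by positivity), one_div,
              inv_mul_cancel₀ hJ0.ne', Real.rpow_one]
        _ ≤ _ := by
            gcongr
            exact Nat.le_ceil _
    exact_mod_cast h1
  have hDle : (D : ℝ) + 1 ≤ 3 * (X.card : ℝ) ^ (δ / 2) := by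
    have h1 : (D : ℝ) < (X.card : ℝ) ^ (1 / (J : ℝ)) + 1 := Nat.ceil_lt_add_one (by positivity)
    have h2 : (X.card : ℝ) ^ (1 / (J : ℝ)) ≤ (X.card : ℝ) ^ (δ / 2) :=
      Real.rpow_le_rpow_of_exponent_le hN1 hJδ
    have h3 : 1 ≤ (X.card : ℝ) ^ (δ / 2) := Real.one_le_rpow hN1 (by positivity)
    linarith
  set A : ℝ≥0 := c₁ * X.card with hA
  have hA1 : 1 ≤ A := one_le_mul hc₁1 hN1'
  set Rs : ℕ → ℝ≥0 := fun j => A ^ ex κ j with hRs
  have hRs1 : ∀ j, 1 ≤ Rs j := fun j => one_le_pow₀ hA1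
  have hRs1' : ∀ j, (1 : ℝ) ≤ Rs j := fun j => by exact_mod_cast hRs1 j
  have hRssucc : ∀ j, Rs (j + 1) = (A * Rs j) ^ κ := fun j => by
    show A ^ (κ * (ex κ j + 1)) = (A * A ^ ex κ j) ^ κ
    rw [← pow_succ', ← pow_mul, mul_comm κ]
  set Ls : ℕ → ℝ := fun j => (G₀.K * X.card * Rs j) ^ κ with hLs
  have hLρ : ∀ j, Ls j + (Rs j : ℝ) / 2 ≤ (Rs (j + 1) : ℝ) / 2 := fun j => by
    set M : ℝ := G₀.K * X.card * Rs j with hM
    have h1 : (Rs (j + 1) : ℝ) = (4 * M) ^ κ := by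
      rw [hRssucc]
      push_cast
      rw [hA, hc₁, hM]
      push_cast
      rw [hK₁r]
      ring
    have hM1 : 1 ≤ M := by
      exact one_le_mul_of_one_le_of_one_le (one_le_mul_of_one_le_of_one_le hK1 hN1) (hRs1' j)
    have h2 : (Rs j : ℝ) ≤ M ^ κ := by
      calc (Rs j : ℝ) ≤ M := by
            have e2 : (1 : ℝ) ≤ G₀.K * X.card := one_le_mul_of_one_le_of_one_le hK1 hN1
            rw [hM]
            nlinarith [hRs1' j]
        _ ≤ M ^ κ := le_self_pow₀ hM1 (by omega)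
    have h3 : (4 : ℝ) ≤ 4 ^ κ := le_self_pow₀ (by norm_num) (by omega)
    have h4 : 0 ≤ M ^ κ := by positivity
    rw [h1, mul_pow]
    show M ^ κ + _ ≤ _
    nlinarith
  obtain ⟨col, cl, hcol, hcld, hsep⟩ := cover X hJ1 (fun j => (Rs j : ℝ) / 2) Ls
    (fun j => by positivity) hLρ D hDJ
  have hcls : ∀ k ∈ Finset.range J ×ˢ Finset.range (D + 1),
      ∫⁻ ξ, ‖ES (X.filter (fun x => col x = k)) a ξ‖ₑ ∂μ ≤
        K * (c₁ : ℝ≥0∞) ^ (δ / 2) * (X.card : ℝ≥0∞) ^ (δ / 2) * (X.card : ℝ≥0∞) ^ (1 / q) := by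
    intro k hk
    have hkJ : k.1 < J := Finset.mem_range.1 (Finset.mem_product.1 hk).1
    have h1 := hK (X.filter (fun x => col x = k)) (fun x hx y hy =>
      hX x (Finset.mem_filter.1 hx).1 y (Finset.mem_filter.1 hy).1) X.card
      (by exact_mod_cast Finset.card_filter_le _ _) (Rs k.1) (hRs1 _) cl
      (fun x hx => by
        obtain ⟨hxX, hxk⟩ := Finset.mem_filter.1 hx
        have h2 := hcld x hxX
        rw [dist_eq_norm, hxk] at h2
        linarith)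
      (fun x hx x' hx' hne => by
        obtain ⟨hxX, hxk⟩ := Finset.mem_filter.1 hx
        obtain ⟨hxX', hxk'⟩ := Finset.mem_filter.1 hx'
        have h2 := hsep x hxX x' hxX' (hxk.trans hxk'.symm) hne
        rw [dist_eq_norm, hxk] at h2
        exact h2) a ha
    refine h1.trans ?_
    have h3 : ((Rs k.1 : ℝ≥0) : ℝ≥0∞) ^ ε ≤ (c₁ : ℝ≥0∞) ^ (δ / 2) * (X.card : ℝ≥0∞) ^ (δ / 2) := by
      have hA1' : (1 : ℝ≥0∞) ≤ (A : ℝ≥0∞) := by exact_mod_cast hA1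
      calc ((Rs k.1 : ℝ≥0) : ℝ≥0∞) ^ ε = (A : ℝ≥0∞) ^ ((ex κ k.1 : ℝ) * ε) := by
            rw [ENNReal.rpow_mul, ENNReal.rpow_natCast]
            simp [hRs]
        _ ≤ (A : ℝ≥0∞) ^ (δ / 2) := by
            refine ENNReal.rpow_le_rpow_of_exponent_le hA1' (le_trans ?_ hεe)
            have h4 : (ex κ k.1 : ℝ) ≤ ex κ J := by
              exact_mod_cast ex_mono (by omega) hkJ.le
            gcongr
        _ = _ := by
            rw [hA, ← ENNReal.mul_rpow_of_nonneg _ _ (by positivity)]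
            push_cast
            rfl
    have h5 : (((X.filter (fun x => col x = k)).card : ℕ) : ℝ≥0∞) ≤ X.card := by
      exact_mod_cast Finset.card_filter_le _ _
    calc K * ((Rs k.1 : ℝ≥0) : ℝ≥0∞) ^ ε *
          (((X.filter (fun x => col x = k)).card : ℕ) : ℝ≥0∞) ^ (1 / q)
        ≤ K * ((c₁ : ℝ≥0∞) ^ (δ / 2) * (X.card : ℝ≥0∞) ^ (δ / 2)) *
          (X.card : ℝ≥0∞) ^ (1 / q) := by gcongr
      _ = _ := by ring
  have hESsum : ∀ ξ, ES X a ξ = ∑ k ∈ Finset.range J ×ˢ Finset.range (D + 1),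
      ES (X.filter (fun x => col x = k)) a ξ := fun ξ => by
    unfold ES
    exact (Finset.sum_fiberwise_of_maps_to (fun x hx => by
      rw [Finset.mem_product, Finset.mem_range, Finset.mem_range]
      exact ⟨(hcol x hx).1, Nat.lt_succ_of_le (hcol x hx).2⟩) _).symm
  have hDle' : (D : ℝ≥0∞) + 1 ≤ 3 * (X.card : ℝ≥0∞) ^ (δ / 2) := by
    have h1 := ENNReal.ofReal_le_ofReal hDle
    rw [ENNReal.ofReal_add (by positivity) zero_le_one, ENNReal.ofReal_mul (by norm_num),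
      ENNReal.ofReal_natCast, ENNReal.ofReal_one,
      ← ENNReal.ofReal_rpow_of_nonneg (by positivity) (by positivity), ENNReal.ofReal_natCast,
      ENNReal.ofReal_ofNat] at h1
    exact h1
  calc ∫⁻ ξ, ‖ES X a ξ‖ₑ ∂μ
      ≤ ∫⁻ ξ, ∑ k ∈ Finset.range J ×ˢ Finset.range (D + 1),
          ‖ES (X.filter (fun x => col x = k)) a ξ‖ₑ ∂μ := lintegral_mono fun ξ => by
        rw [hESsum ξ]; exact enorm_sum_le _ _
    _ = ∑ k ∈ Finset.range J ×ˢ Finset.range (D + 1),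
          ∫⁻ ξ, ‖ES (X.filter (fun x => col x = k)) a ξ‖ₑ ∂μ :=
        lintegral_finsetSum _ fun k _ => (ES_cont _ _).measurable.enorm
    _ ≤ ∑ k ∈ Finset.range J ×ˢ Finset.range (D + 1),
          K * (c₁ : ℝ≥0∞) ^ (δ / 2) * (X.card : ℝ≥0∞) ^ (δ / 2) * (X.card : ℝ≥0∞) ^ (1 / q) :=
        Finset.sum_le_sum hcls
    _ = J * ((D : ℝ≥0∞) + 1) *
          (K * (c₁ : ℝ≥0∞) ^ (δ / 2) * (X.card : ℝ≥0∞) ^ (δ / 2) * (X.card : ℝ≥0∞) ^ (1 / q)) := by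
        rw [Finset.sum_const, Finset.card_product, Finset.card_range, Finset.card_range,
          nsmul_eq_mul]
        push_cast
        rfl
    _ ≤ J * (3 * (X.card : ℝ≥0∞) ^ (δ / 2)) *
          (K * (c₁ : ℝ≥0∞) ^ (δ / 2) * (X.card : ℝ≥0∞) ^ (δ / 2) * (X.card : ℝ≥0∞) ^ (1 / q)) := by
        gcongr
    _ = C * ((X.card : ℝ≥0∞) ^ (δ / 2) * (X.card : ℝ≥0∞) ^ (δ / 2) *
          (X.card : ℝ≥0∞) ^ (1 / q)) := by
        rw [hC]; ring
    _ = C * (X.card : ℝ≥0∞) ^ (1 - 1 / r) := by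
        have e0 : (X.card : ℝ≥0∞) ≠ 0 := by positivity
        have e1 : (X.card : ℝ≥0∞) ≠ ∞ := ENNReal.natCast_ne_top _
        rw [← ENNReal.rpow_add _ _ e0 e1, ← ENNReal.rpow_add _ _ e0 e1, hq1]
        congr 2
        rw [hδ]; ring

end Pool.Agent.H222.SP
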