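import Pool.Agent.H222.SP.Orth
import Pool.Agent.H222.ER.Cover

/-!
The `L¹` norm of exponential sums.
-/

open MeasureTheory Set Filter Metric
open scoped ENNReal NNReal Topology

namespace Pool.Agent.H222.SP

open Pool.Agent.H222.ER (cover)

variable {n : ℕ} {μ : Measure (E n)}

/-- sparse unions of clusters -/
theorem sparse_bound [IsFiniteMeasure μ] (hμ0 : μ univ ≠ 0) (hMix : Mix μ) (hsupp : Sup μ)
    (G₀ : Geo μ) {p q : ℝ} (hpq : p.HolderConjugate q) (hp : 2 ≤ p)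
    (hL : HL μ p) {ε : ℝ} (hε : 0 < ε) :
    ∃ K : ℝ≥0∞, K ≠ ∞ ∧ ∀ (X : Finset (E n)), (∀ x ∈ X, ∀ y ∈ X, x ≠ y → 1 ≤ dist x y) →
      ∀ (N : ℝ), (X.card : ℝ) ≤ N → ∀ R : ℝ≥0, 1 ≤ R → ∀ cl : E n → E n,
      (∀ x ∈ X, ‖x - cl x‖ ≤ R) →
      (∀ x ∈ X, ∀ x' ∈ X, cl x ≠ cl x' → (G₀.K * N * R) ^ G₀.κ ≤ ‖cl x - cl x'‖) →
      ∀ a : E n → ℂ, (∀ x, ‖a x‖ ≤ 1) →
        ∫⁻ ξ, ‖ES X a ξ‖ₑ ∂μ ≤
          K * (R : ℝ≥0∞) ^ ε * (X.card : ℝ≥0∞) ^ (1 / q) := by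
  classical
  have hp0 : 0 < p := by linarith
  have hq1 : 1 < q := hpq.symm.lt
  have hq0 : 0 < q := by linarith
  have hq2 : q ≤ 2 := by
    have h1 := hpq.inv_add_inv_eq_one
    have h2 : p⁻¹ ≤ 2⁻¹ := inv_anti₀ (by norm_num) hp
    have h3 : (2 : ℝ)⁻¹ ≤ q⁻¹ := by linarith
    exact (inv_le_inv₀ (by norm_num) hq0).1 h3
  obtain ⟨C, hCt, hC⟩ := strong_loc hμ0 hMix hp hL (ε := p * ε) (by positivity)
  set v : ℝ≥0∞ := volume (closedBall (0 : E n) (1 / 80)) with hv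
  have hv0 : v ≠ 0 := (measure_closedBall_pos _ _ (by norm_num)).ne'
  set C' : ℝ≥0∞ := 2 ^ p * (v⁻¹ * (C * 2 ^ (p * ε))) with hC'
  have hC't : C' ≠ ∞ := ENNReal.mul_ne_top (by simp) (ENNReal.mul_ne_top (ENNReal.inv_ne_top.2 hv0)
    (ENNReal.mul_ne_top hCt (by simp)))
  set c₀ : ℝ≥0∞ := ENNReal.ofReal G₀.cl with hc₀
  have hc₀0 : c₀ ≠ 0 := by
    have := G₀.hcl
    simpa [hc₀] using this
  have hc₀t : c₀ ≠ ∞ := ENNReal.ofReal_ne_top
  set V : ℝ≥0∞ := μ univ with hV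
  have hVt : V ≠ ∞ := measure_ne_top μ univ
  set K : ℝ≥0∞ := c₀⁻¹ * (ENNReal.ofReal G₀.Cu * (V ^ (1 / p) * C' ^ (1 / p) + 2 * V)) with hK
  have hKt : K ≠ ∞ := ENNReal.mul_ne_top (ENNReal.inv_ne_top.2 hc₀0)
    (ENNReal.mul_ne_top ENNReal.ofReal_ne_top (ENNReal.add_ne_top.2
    ⟨ENNReal.mul_ne_top (ENNReal.rpow_ne_top_of_nonneg (by positivity) hVt)
      (ENNReal.rpow_ne_top_of_nonneg (by positivity) hC't), ENNReal.mul_ne_top (by simp) hVt⟩))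
  refine ⟨K, hKt, fun X hX N hXN R hR cl hcl hsep a ha => ?_⟩
  rcases Nat.eq_zero_or_pos X.card with h0 | h0
  · rw [Finset.card_eq_zero] at h0
    rw [h0]
    simp [ES]
  have hR1 : (1 : ℝ) ≤ R := by exact_mod_cast hR
  have hR1' : (1 : ℝ≥0∞) ≤ R := by exact_mod_cast hR
  have hcard1 : (1 : ℝ) ≤ X.card := by exact_mod_cast h0
  set M₀ : ℝ≥0∞ := C' * (R : ℝ≥0∞) ^ (p * ε) with hM₀
  -- the estimate in one cluster
  have hM : ∀ y ∈ X.image cl, ∫⁻ ζ, ‖hh X cl a y ζ‖ₑ ^ q ∂μ ≤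
      M₀ ^ (q / p) * (X.filter (fun x => cl x = y)).card := by
    intro y hy
    set Z : Finset (E n) := (X.filter (fun x => cl x = y)).image (fun x => x - y) with hZ
    have hinj : Function.Injective fun x : E n => x - y := fun x x' h => by
      simpa using h
    have hZcard : Z.card = (X.filter (fun x => cl x = y)).card := Finset.card_image_of_injective _ hinj
    have hZB : ∀ z ∈ Z, z ∈ BB n R := fun z hz => by
      obtain ⟨x, hx, rfl⟩ := Finset.mem_image.1 hz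
      obtain ⟨hxX, hxy⟩ := Finset.mem_filter.1 hx
      rw [mem_closedBall_zero_iff, ← hxy]
      exact hcl x hxX
    have hZsep : ∀ x ∈ Z, ∀ y ∈ Z, x ≠ y → 1 ≤ dist x y := fun z hz z' hz' hne => by
      obtain ⟨x, hx, rfl⟩ := Finset.mem_image.1 hz
      obtain ⟨x', hx', rfl⟩ := Finset.mem_image.1 hz'
      rw [dist_sub_right]
      exact hX x (Finset.mem_filter.1 hx).1 x' (Finset.mem_filter.1 hx').1
        fun h => hne (by rw [h])
    have hES : ∀ ζ, hh X cl a y ζ = ES Z (fun z => a (z + y)) ζ := fun ζ => by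
      unfold hh ES
      rw [hZ, Finset.sum_image fun x _ x' _ h => hinj h]
      refine Finset.sum_congr rfl fun x _ => ?_
      show _ = a (x - y + y) * ch ζ (x - y)
      rw [sub_add_cancel]
    have h1 : ∀ g, Cls μ p g → ∑ x ∈ Z, ‖TT μ g x‖ₑ ^ p ≤ M₀ := fun g hg => by
      have hb : ∀ g, Cls μ p g → NN μ p (BB n ((R : ℝ) + 1)) g ≤
          C * 2 ^ (p * ε) * (R : ℝ≥0∞) ^ (p * ε) := fun g hg => by
        have h2 := hC (R + 1) (le_add_left le_rfl) g hg.1 hg.2.2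
        push_cast at h2
        refine h2.trans ?_
        rw [mul_assoc, ← ENNReal.mul_rpow_of_nonneg _ _ (by positivity)]
        gcongr
        calc (R : ℝ≥0∞) + 1 ≤ R + R := by gcongr
          _ = 2 * R := (two_mul _).symm
      have h3 := loc_const (by linarith : 1 ≤ p) hb hZB hZsep hg
      refine h3.trans (le_of_eq ?_)
      rw [hM₀, hC']
      ring
    have h2 := dual hsupp hpq h1 (a := fun z => a (z + y)) fun z => ha _
    simp only [← hES] at h2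
    rw [hZcard] at h2
    exact h2
  have h1 := clusters G₀ hpq hq2 (X := X) (Y := X.image cl) (cl := cl)
    (fun x hx => Finset.mem_image_of_mem _ hx) hR1 hcl ha h0 (fun y hy y' hy' hne => by
      obtain ⟨x, hx, rfl⟩ := Finset.mem_image.1 hy
      obtain ⟨x', hx', rfl⟩ := Finset.mem_image.1 hy'
      refine le_trans ?_ (hsep x hx x' hx' hne)
      have hK1 := G₀.hK
      gcongr) hM
  have hcard1' : (1 : ℝ≥0∞) ≤ X.card := by exact_mod_cast h0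
  have h2 : V ^ (1 / p) * (M₀ ^ (q / p) * X.card) ^ (1 / q) + 2 * V ≤
      (V ^ (1 / p) * C' ^ (1 / p) + 2 * V) * (R : ℝ≥0∞) ^ ε * (X.card : ℝ≥0∞) ^ (1 / q) := by
    have hRε : 1 ≤ (R : ℝ≥0∞) ^ ε := ENNReal.one_le_rpow hR1' hε
    have hNq : 1 ≤ (X.card : ℝ≥0∞) ^ (1 / q) := ENNReal.one_le_rpow hcard1' (by positivity)
    have e1 : (M₀ ^ (q / p) * (X.card : ℝ≥0∞)) ^ (1 / q) =
        C' ^ (1 / p) * (R : ℝ≥0∞) ^ ε * (X.card : ℝ≥0∞) ^ (1 / q) := by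
      rw [ENNReal.mul_rpow_of_nonneg _ _ (by positivity), ← ENNReal.rpow_mul,
        show q / p * (1 / q) = 1 / p by field_simp, hM₀,
        ENNReal.mul_rpow_of_nonneg _ _ (by positivity), ← ENNReal.rpow_mul,
        show p * ε * (1 / p) = ε by field_simp]
    rw [e1, add_mul, add_mul]
    refine add_le_add (le_of_eq (by ring)) ?_
    calc 2 * V = 2 * V * 1 * 1 := by rw [mul_one, mul_one]
      _ ≤ _ := by gcongr
  calc ∫⁻ ξ, ‖ES X a ξ‖ₑ ∂μ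
      = c₀⁻¹ * (c₀ * ∫⁻ ξ, ‖ES X a ξ‖ₑ ∂μ) := by
        rw [← mul_assoc, ENNReal.inv_mul_cancel hc₀0 hc₀t, one_mul]
    _ ≤ c₀⁻¹ * (ENNReal.ofReal G₀.Cu * ((V ^ (1 / p) * C' ^ (1 / p) + 2 * V) *
          (R : ℝ≥0∞) ^ ε * (X.card : ℝ≥0∞) ^ (1 / q))) := by
        exact mul_le_mul' le_rfl (h1.trans (mul_le_mul' le_rfl h2))
    _ = _ := by rw [hK]; ring

end Pool.Agent.H222.SP
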