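import Pool.Agent.H222.SP.Gauss
import Pool.Graph.R_pool_sql_team_seeded_3997aac3.Q89.SP.A1

/-!
Decay of the transforms of Gaussian windows on the sphere.
-/

open MeasureTheory Set Filter Metric
open scoped ENNReal NNReal Topology

namespace Pool.Agent.H222.SP

open Pool.Agent.H789R2.FR (sg sg_finite sg_ae)

variable {n : ℕ}

/-- the unnormalised Gaussian of the dual variable -/
noncomputable def dg (r : ℝ) (z : E n) : ℝ := Real.exp (-(Real.pi * r ^ 2) * ‖z‖ ^ 2)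

theorem dg_pos (r : ℝ) (z : E n) : 0 < dg r z := Real.exp_pos _

theorem dg_cont (r : ℝ) : Continuous fun z : E n => dg r z := by unfold dg; fun_prop

theorem pow_half {r : ℝ} (hr : 0 < r) (n : ℕ) : (r ^ 2) ^ ((n : ℝ) / 2) = r ^ n := by
  rw [← Real.rpow_natCast r 2, ← Real.rpow_mul hr.le, ← Real.rpow_natCast]
  congr 1
  push_cast
  ring

theorem dg_val {r : ℝ} (hr : 0 < r) : ∫ z : E n, dg r z = (r ^ n)⁻¹ := by
  have hb : 0 < Real.pi * r ^ 2 := by have := Real.pi_pos; positivity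
  unfold dg
  rw [GaussianFourier.integral_rexp_neg_mul_sq_norm hb, finrank_euclideanSpace, Fintype.card_fin]
  have h2 : Real.pi / (Real.pi * r ^ 2) = (r ^ 2)⁻¹ := by
    have := Real.pi_pos
    field_simp
  rw [h2, Real.inv_rpow (by positivity), pow_half hr]

theorem dg_int {r : ℝ} (hr : 0 < r) : Integrable fun z : E n => dg r z := by
  by_contra hcon
  have h1 := dg_val (n := n) hr
  rw [integral_undef hcon] at h1
  have : 0 < (r ^ n)⁻¹ := by positivity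
  linarith

/-- the Gaussian window is a superposition of characters -/
theorem gw_eq {r : ℝ} (hr : 0 < r) (ζ ξ : E n) :
    (gw r ζ ξ : ℂ) = (r : ℂ) ^ n * ∫ z : E n, (dg r z : ℂ) * (ch ζ z * ch ξ (-z)) := by
  have hpi := Real.pi_pos
  have hb : 0 < Real.pi * r ^ 2 := by positivity
  have hbc : 0 < (((Real.pi * r ^ 2 : ℝ)) : ℂ).re := by rw [Complex.ofReal_re]; exact hb
  have h1 := GaussianFourier.integral_cexp_neg_mul_sq_norm_add hbc (2 * Real.pi * Complex.I) (ξ - ζ)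
  have h2 : ∀ z : E n, (dg r z : ℂ) * (ch ζ z * ch ξ (-z)) =
      Complex.exp (-((Real.pi * r ^ 2 : ℝ) : ℂ) * ‖z‖ ^ 2 + 2 * Real.pi * Complex.I *
        (inner ℝ (ξ - ζ) z : ℝ)) := fun z => by
    unfold dg ch
    rw [Complex.ofReal_exp, ← Complex.exp_add, ← Complex.exp_add]
    congr 1
    rw [inner_neg_right, inner_sub_left]
    push_cast
    ring
  rw [integral_congr_ae (Eventually.of_forall h2)]
  rw [h1, finrank_euclideanSpace, Fintype.card_fin]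
  have h3 : ((Real.pi : ℂ) / ((Real.pi * r ^ 2 : ℝ) : ℂ)) ^ ((n : ℂ) / 2) = ((r : ℂ) ^ n)⁻¹ := by
    have e1 : (Real.pi : ℂ) / ((Real.pi * r ^ 2 : ℝ) : ℂ) = (((r ^ 2)⁻¹ : ℝ) : ℂ) := by
      rw [← Complex.ofReal_div]
      congr 1
      field_simp
    have e2 : (n : ℂ) / 2 = (((n : ℝ) / 2 : ℝ) : ℂ) := by push_cast; rfl
    rw [e1, e2, ← Complex.ofReal_cpow (by positivity), Real.inv_rpow (by positivity), pow_half hr]
    push_cast
    rfl
  have h4 : (r : ℂ) ^ n ≠ 0 := pow_ne_zero _ (by exact_mod_cast hr.ne')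
  rw [h3, ← mul_assoc, mul_inv_cancel₀ h4, one_mul]
  unfold gw
  rw [Complex.ofReal_exp]
  congr 1
  have h5 : (r : ℂ) ≠ 0 := by exact_mod_cast hr.ne'
  have h6 : (Real.pi : ℂ) ≠ 0 := by exact_mod_cast hpi.ne'
  push_cast
  field_simp
  rw [Complex.I_sq]
  ring

theorem ch_sg (n : ℕ) (y : E n) :
    ∫ ξ, ch ξ y ∂(sg n) = Q89.SP.K ((2 * Real.pi) • y) := by
  unfold Q89.SP.K
  refine integral_congr_ae (Eventually.of_forall fun ξ => ?_)
  show ch ξ y = _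
  unfold ch
  congr 1
  rw [inner_smul_left, real_inner_comm]
  push_cast
  simp

theorem sg_decay (n : ℕ) (hn : 2 ≤ n) : ∃ C : ℝ, 0 < C ∧ ∀ y z : E n,
    ‖∫ ξ, ch ξ (y - z) ∂(sg n)‖ ≤ C * (1 + ‖z‖) / Real.sqrt (1 + ‖y‖) := by
  obtain ⟨C, hC, h⟩ := Q89.SP.K_decay n hn
  have hn' : (2 : ℝ) ≤ n := by exact_mod_cast hn
  refine ⟨C, hC, fun y z => ?_⟩
  rw [ch_sg]
  refine (h _).trans ?_
  rw [mul_div_assoc]
  refine mul_le_mul_of_nonneg_left ?_ hC.le
  have hpi := Real.pi_gt_three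
  have h1 : ‖(2 * Real.pi) • (y - z)‖ = 2 * Real.pi * ‖y - z‖ := by
    rw [norm_smul, Real.norm_of_nonneg (by positivity)]
  have h2 : 1 + ‖y - z‖ ≤ 1 + ‖(2 * Real.pi) • (y - z)‖ := by
    rw [h1]; nlinarith [norm_nonneg (y - z)]
  have h3 : (1 + ‖(2 * Real.pi) • (y - z)‖) ^ (-(((n : ℝ) - 1) / 2)) ≤
      (1 + ‖y - z‖) ^ (-(1 / 2) : ℝ) := by
    have e0 := norm_nonneg (y - z)
    calc (1 + ‖(2 * Real.pi) • (y - z)‖) ^ (-(((n : ℝ) - 1) / 2))
        ≤ (1 + ‖y - z‖) ^ (-(((n : ℝ) - 1) / 2)) :=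
          Real.rpow_le_rpow_of_nonpos (by positivity) h2 (by linarith)
      _ ≤ _ := Real.rpow_le_rpow_of_exponent_le (by linarith) (by linarith)
  refine h3.trans ?_
  have hy := norm_nonneg y
  have hz := norm_nonneg z
  have hyz := norm_nonneg (y - z)
  have h4 : 1 + ‖y‖ ≤ (1 + ‖y - z‖) * (1 + ‖z‖) := by
    have h5 : ‖y‖ ≤ ‖y - z‖ + ‖z‖ := by
      calc ‖y‖ = ‖(y - z) + z‖ := by rw [sub_add_cancel]
        _ ≤ _ := norm_add_le _ _
    nlinarith
  rw [Real.rpow_neg (by positivity), ← Real.sqrt_eq_rpow, ← one_div,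
    div_le_div_iff₀ (by positivity) (by positivity), one_mul]
  calc Real.sqrt (1 + ‖y‖) ≤ Real.sqrt ((1 + ‖y - z‖) * (1 + ‖z‖)) := Real.sqrt_le_sqrt h4
    _ = Real.sqrt (1 + ‖y - z‖) * Real.sqrt (1 + ‖z‖) := Real.sqrt_mul (by positivity) _
    _ ≤ Real.sqrt (1 + ‖y - z‖) * (1 + ‖z‖) := by
        gcongr
        rw [Real.sqrt_le_left (by positivity)]
        nlinarith
    _ = _ := mul_comm _ _

/-- the first moment of the dual Gaussian -/
theorem dg_moment {r : ℝ} (hr : 0 < r) (hr1 : r ≤ 1) :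
    Integrable (fun z : E n => dg r z * (1 + ‖z‖)) ∧
      ∫ z : E n, dg r z * (1 + ‖z‖) ≤ 2 ^ (n + 1) * (r ^ (n + 1))⁻¹ := by
  set s : ℝ := r / 2 with hs
  have hs0 : 0 < s := by positivity
  have hpi := Real.pi_gt_three
  have hpt : ∀ z : E n, dg r z * (1 + ‖z‖) ≤ 2 / r * dg s z := fun z => by
    have h1 : dg r z = dg s z * Real.exp (-(3 / 4 * (Real.pi * r ^ 2) * ‖z‖ ^ 2)) := by
      unfold dg
      rw [← Real.exp_add]
      congr 1
      rw [hs]
      ring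
    have h2 : 1 + ‖z‖ ≤ 2 / r * Real.exp (3 / 4 * (Real.pi * r ^ 2) * ‖z‖ ^ 2) := by
      have h4 := Real.add_one_le_exp (3 / 4 * (Real.pi * r ^ 2) * ‖z‖ ^ 2)
      have h5 : r * ‖z‖ ≤ 1 + 3 / 4 * (Real.pi * r ^ 2) * ‖z‖ ^ 2 := by
        nlinarith [sq_nonneg (r * ‖z‖ - 1), sq_nonneg (r * ‖z‖)]
      have h6 : 1 ≤ Real.exp (3 / 4 * (Real.pi * r ^ 2) * ‖z‖ ^ 2) :=
        Real.one_le_exp (by positivity)
      rw [div_mul_eq_mul_div, le_div_iff₀ hr]
      nlinarith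
    rw [h1]
    calc dg s z * Real.exp (-(3 / 4 * (Real.pi * r ^ 2) * ‖z‖ ^ 2)) * (1 + ‖z‖)
        ≤ dg s z * Real.exp (-(3 / 4 * (Real.pi * r ^ 2) * ‖z‖ ^ 2)) *
          (2 / r * Real.exp (3 / 4 * (Real.pi * r ^ 2) * ‖z‖ ^ 2)) := by
          have := (dg_pos s z).le
          gcongr
      _ = 2 / r * dg s z * (Real.exp (-(3 / 4 * (Real.pi * r ^ 2) * ‖z‖ ^ 2)) *
          Real.exp (3 / 4 * (Real.pi * r ^ 2) * ‖z‖ ^ 2)) := by ring
      _ = _ := by rw [← Real.exp_add, neg_add_cancel, Real.exp_zero, mul_one]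
  have hint : Integrable (fun z : E n => 2 / r * dg s z) := (dg_int hs0).const_mul _
  have hnn : ∀ z : E n, 0 ≤ dg r z * (1 + ‖z‖) := fun z => by
    have := (dg_pos r z).le
    positivity
  refine ⟨hint.mono' ?_ (Eventually.of_forall fun z => ?_), ?_⟩
  · exact ((dg_cont r).mul (by fun_prop)).aestronglyMeasurable
  · rw [Real.norm_of_nonneg (hnn z)]; exact hpt z
  · calc ∫ z : E n, dg r z * (1 + ‖z‖) ≤ ∫ z : E n, 2 / r * dg s z :=
          integral_mono_of_nonneg (Eventually.of_forall hnn) hint (Eventually.of_forall hpt)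
      _ = 2 / r * (s ^ n)⁻¹ := by rw [integral_const_mul, dg_val hs0]
      _ = _ := by
          rw [hs, div_pow]
          field_simp
          ring

theorem win_decay (n : ℕ) (hn : 2 ≤ n) : ∃ C : ℝ, 0 < C ∧ ∀ r : ℝ, 0 < r → r ≤ 1 →
    ∀ ζ y : E n, ‖∫ ξ, (gw r ζ ξ : ℂ) * ch ξ y ∂(sg n)‖ ≤ C / (r * Real.sqrt (1 + ‖y‖)) := by
  obtain ⟨C, hC, h⟩ := sg_decay n hn
  have hfin := sg_finite n
  refine ⟨C * 2 ^ (n + 1), by positivity, fun r hr hr1 ζ y => ?_⟩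
  obtain ⟨hm1, hm2⟩ := dg_moment (n := n) hr hr1
  have h0 : ∀ ξ : E n, (gw r ζ ξ : ℂ) * ch ξ y =
      (r : ℂ) ^ n * ∫ z : E n, (dg r z : ℂ) * ch ζ z * ch ξ (y - z) := fun ξ => by
    rw [gw_eq hr, mul_assoc, ← integral_mul_const]
    congr 1
    refine integral_congr_ae (Eventually.of_forall fun z => ?_)
    show (dg r z : ℂ) * (ch ζ z * ch ξ (-z)) * ch ξ y = (dg r z : ℂ) * ch ζ z * ch ξ (y - z)
    rw [sub_eq_add_neg, ch_add]
    ring
  have e1 : Continuous fun p : E n × E n => (dg r p.2 : ℂ) :=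
    Complex.continuous_ofReal.comp ((dg_cont r).comp continuous_snd)
  have e2 : Continuous fun p : E n × E n => ch ζ p.2 := (ch_cont_right ζ).comp continuous_snd
  have e4 : Continuous fun p : E n × E n => ch p.1 (y - p.2) := by
    unfold ch
    fun_prop
  have hc : Continuous fun p : E n × E n => (dg r p.2 : ℂ) * ch ζ p.2 * ch p.1 (y - p.2) :=
    (e1.mul e2).mul e4
  have h1' : Integrable (fun p : E n × E n => (1 : ℝ) * dg r p.2)
      ((sg n).prod (volume : Measure (E n))) := (integrable_const (1 : ℝ)).mul_prod (dg_int hr)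
  have hb : ∀ p : E n × E n, ‖(dg r p.2 : ℂ) * ch ζ p.2 * ch p.1 (y - p.2)‖ ≤ 1 * dg r p.2 :=
    fun p => by
    rw [norm_mul, norm_mul, ch_norm, ch_norm, mul_one, mul_one, one_mul, Complex.norm_real,
      Real.norm_of_nonneg (dg_pos _ _).le]
  have hint : Integrable (fun p : E n × E n => (dg r p.2 : ℂ) * ch ζ p.2 * ch p.1 (y - p.2))
      ((sg n).prod (volume : Measure (E n))) :=
    h1'.mono' hc.aestronglyMeasurable (Eventually.of_forall hb)
  have h1 : ∫ ξ, (gw r ζ ξ : ℂ) * ch ξ y ∂(sg n) =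
      (r : ℂ) ^ n * ∫ z : E n, (dg r z : ℂ) * ch ζ z * ∫ ξ, ch ξ (y - z) ∂(sg n) := by
    rw [integral_congr_ae (Eventually.of_forall h0), integral_const_mul,
      integral_integral_swap (f := fun (ξ z : E n) => (dg r z : ℂ) * ch ζ z * ch ξ (y - z)) hint]
    congr 1
    refine integral_congr_ae (Eventually.of_forall fun z => ?_)
    show ∫ ξ, (dg r z : ℂ) * ch ζ z * ch ξ (y - z) ∂(sg n) = _
    rw [integral_const_mul]
  rw [h1, norm_mul, norm_pow, Complex.norm_real, Real.norm_of_nonneg hr.le]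
  have hsq : 0 < Real.sqrt (1 + ‖y‖) := Real.sqrt_pos.2 (by positivity)
  have h2 : ‖∫ z : E n, (dg r z : ℂ) * ch ζ z * ∫ ξ, ch ξ (y - z) ∂(sg n)‖ ≤
      ∫ z : E n, C / Real.sqrt (1 + ‖y‖) * (dg r z * (1 + ‖z‖)) := by
    refine norm_integral_le_of_norm_le (hm1.const_mul _) (Eventually.of_forall fun z => ?_)
    rw [norm_mul, norm_mul, ch_norm, mul_one, Complex.norm_real,
      Real.norm_of_nonneg (dg_pos _ _).le]
    calc dg r z * ‖∫ ξ, ch ξ (y - z) ∂(sg n)‖ ≤ dg r z * (C * (1 + ‖z‖) / Real.sqrt (1 + ‖y‖)) := by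
          have := (dg_pos r z).le
          have := h y z
          gcongr
      _ = _ := by ring
  calc r ^ n * ‖∫ z : E n, (dg r z : ℂ) * ch ζ z * ∫ ξ, ch ξ (y - z) ∂(sg n)‖
      ≤ r ^ n * ∫ z : E n, C / Real.sqrt (1 + ‖y‖) * (dg r z * (1 + ‖z‖)) := by gcongr
    _ = r ^ n * (C / Real.sqrt (1 + ‖y‖) * ∫ z : E n, dg r z * (1 + ‖z‖)) := by
        rw [integral_const_mul]
    _ ≤ r ^ n * (C / Real.sqrt (1 + ‖y‖) * (2 ^ (n + 1) * (r ^ (n + 1))⁻¹)) := by gcongr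
    _ = _ := by
        rw [pow_succ r n]
        field_simp

end Pool.Agent.H222.SP
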